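import Pool.Agent.Helper607.Wild.Tube
set_option autoImplicit false
open Set Filter Topology

namespace Pool.Agent.Helper607.Wild


private lemma q_mu_pos (t : ℝ) : 0 < mu t := lt_of_lt_of_le one_pos (le_max_left _ _)

private lemma q_nu_mu (t : ℝ) : nu ((mu t)⁻¹ * t) = (mu t)⁻¹ := by
  unfold nu
  rw [abs_mul, abs_of_pos (inv_pos.2 (q_mu_pos t))]
  unfold mu
  have h0 := abs_nonneg t
  by_cases h : |t| ≤ 8
  · have h1 : max 1 ((1 + |t|) / 9) = 1 := max_eq_left (by linarith)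
    rw [h1, inv_one, one_mul]
    exact min_eq_left (by linarith)
  · push Not at h
    have h1 : max 1 ((1 + |t|) / 9) = (1 + |t|) / 9 := max_eq_right (by linarith)
    have h2 : (9 : ℝ) - ((1 + |t|) / 9)⁻¹ * |t| = ((1 + |t|) / 9)⁻¹ := by
      field_simp; ring
    rw [h1, h2]
    apply min_eq_right
    rw [inv_le_one₀ (by linarith)]
    linarith

private lemma q_abs_lt (t : ℝ) : |(mu t)⁻¹ * t| < 9 := by
  rw [abs_mul, abs_of_pos (inv_pos.2 (q_mu_pos t)), inv_mul_lt_iff₀ (q_mu_pos t)]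
  have h1 : (1 + |t|) / 9 ≤ mu t := le_max_right _ _
  linarith

private lemma q_mu_nu (s : ℝ) (hs : |s| < 9) : mu ((nu s)⁻¹ * s) = (nu s)⁻¹ := by
  have h0 := abs_nonneg s
  have hn : 0 < nu s := by
    unfold nu
    exact lt_min one_pos (by linarith)
  unfold mu
  rw [abs_mul, abs_of_pos (inv_pos.2 hn)]
  unfold nu
  by_cases h : |s| ≤ 8
  · have h1 : min 1 (9 - |s|) = 1 := min_eq_left (by linarith)
    rw [h1, inv_one, one_mul]
    exact max_eq_left (by linarith)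
  · push Not at h
    have h1 : min 1 (9 - |s|) = 9 - |s| := min_eq_right (by linarith)
    have h3 : (0 : ℝ) < 9 - |s| := by linarith
    have h2 : (1 + (9 - |s|)⁻¹ * |s|) / 9 = (9 - |s|)⁻¹ := by
      field_simp; ring
    rw [h1, h2]
    apply max_eq_right
    rw [one_le_inv₀ h3]
    linarith

private lemma q_lift_hmap (p : R3) : lift (hmap p) = p := by
  unfold lift
  have h1 : (hmap p).1 = (mu p.1)⁻¹ * p.1 := rfl
  rw [h1, q_nu_mu, inv_inv]
  unfold hmap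
  rw [smul_smul, mul_inv_cancel₀ (q_mu_pos p.1).ne', one_smul]

private lemma q_hmap_lift (x : R3) (hx : |x.1| < 9) : hmap (lift x) = x := by
  unfold hmap
  have h1 : (lift x).1 = (nu x.1)⁻¹ * x.1 := rfl
  have hn : 0 < nu x.1 := by
    unfold nu
    exact lt_min one_pos (by linarith)
  rw [h1, q_mu_nu _ hx, inv_inv]
  unfold lift
  rw [smul_smul, mul_inv_cancel₀ hn.ne', one_smul]

private lemma q_cont_hmap : Continuous hmap := by
  have h1 : Continuous (fun p : R3 => mu p.1) := by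
    unfold mu
    fun_prop
  have h2 : Continuous (fun p : R3 => (mu p.1)⁻¹) := h1.inv₀ (fun p => (q_mu_pos p.1).ne')
  exact h2.smul continuous_id

private lemma q_dist (p : R3) (σ : ℝ) (hσ : σ = 1 ∨ σ = -1) (hp : 8 ≤ σ * p.1) (h2 : |p.2.1| ≤ 3)
    (h3 : |p.2.2| ≤ 3) : dist (σ * 9, (0 : ℝ), (0 : ℝ)) (hmap p) ≤ 27 / (1 + σ * p.1) := by
  have hab : |p.1| = σ * p.1 := by
    rcases hσ with rfl | rfl
    · rw [one_mul] at hp ⊢; exact abs_of_nonneg (by linarith)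
    · rw [neg_one_mul] at hp ⊢; exact abs_of_nonpos (by linarith)
  have hmu : mu p.1 = (1 + σ * p.1) / 9 := by
    unfold mu
    rw [hab]
    exact max_eq_right (by linarith)
  have hpos : 0 < 1 + σ * p.1 := by linarith
  have hh : hmap p = ((9 / (1 + σ * p.1)) * p.1, (9 / (1 + σ * p.1)) * p.2.1, (9 / (1 + σ * p.1)) * p.2.2) := by
    unfold hmap
    rw [hmu, inv_div]
    rfl
  have hσ2 : σ * σ = 1 := by rcases hσ with rfl | rfl <;> norm_num
  have hσa : |σ| = 1 := by rcases hσ with rfl | rfl <;> norm_num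
  rw [hh, Prod.dist_eq, Prod.dist_eq]
  have hc : 0 < 9 / (1 + σ * p.1) := by positivity
  refine max_le ?_ (max_le ?_ ?_)
  · show dist (σ * 9) (9 / (1 + σ * p.1) * p.1) ≤ _
    have h4 : σ * 9 - 9 / (1 + σ * p.1) * p.1 = σ * (9 / (1 + σ * p.1)) := by
      field_simp
      linear_combination p.1 * hσ2
    rw [Real.dist_eq, h4, abs_mul, hσa, one_mul, abs_of_pos hc]
    exact div_le_div_of_nonneg_right (by norm_num) hpos.le
  · show dist (0 : ℝ) (9 / (1 + σ * p.1) * p.2.1) ≤ _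
    rw [Real.dist_eq, zero_sub, abs_neg, abs_mul, abs_of_pos hc]
    calc 9 / (1 + σ * p.1) * |p.2.1| ≤ 9 / (1 + σ * p.1) * 3 := mul_le_mul_of_nonneg_left h2 hc.le
      _ = _ := by ring
  · show dist (0 : ℝ) (9 / (1 + σ * p.1) * p.2.2) ≤ _
    rw [Real.dist_eq, zero_sub, abs_neg, abs_mul, abs_of_pos hc]
    calc 9 / (1 + σ * p.1) * |p.2.2| ≤ 9 / (1 + σ * p.1) * 3 := mul_le_mul_of_nonneg_left h3 hc.le
      _ = _ := by ring

/-- TARGET 2: the open arc is connected and dense in the arc. -/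
theorem arc_connected (P : ℤ → Z3) (hP : PathData P) :
    ∃ A : Set R3, IsPreconnected A ∧ ((0 : ℝ), (0 : ℝ), (-15 : ℝ)) ∈ A ∧ A ⊆ wildArc P ∧
      wildArc P ⊆ closure A ∧ (∀ x ∈ A, |x.1| < 9) ∧
      wildArc P ⊆ A ∪ {((9 : ℝ), (0 : ℝ), (0 : ℝ)), ((-9 : ℝ), (0 : ℝ), (0 : ℝ))} := by
  have hd : dir P (-2) = (0, 0, -1) := by
    unfold dir
    have e1 : (-2 : ℤ) + 1 = -1 := by norm_num
    rw [e1, hP.vertR (-1) (by norm_num) (by norm_num), hP.vertR (-2) (by norm_num) (by norm_num)]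
    rfl
  obtain ⟨n, b, Ψ, -, -, -, -, -, hΨc, -, -, hΨ0, -⟩ := exists_tube P hP.inj hP.step (-2) (1, 0, 0) (0, 1, 0)
    (by decide) (by decide) (by decide) (by rw [hd]; decide) (by rw [hd]; decide)
  have hrep : ∀ t : ℝ, Ψ (t, 0, 0) = cast3 (P ⌊t⌋) + Int.fract t • cast3 (dir P ⌊t⌋) := by
    intro t
    have := hΨ0 ⌊t⌋ (Int.fract t) ⟨Int.fract_nonneg t, (Int.fract_lt_one t).le⟩
    rw [Int.floor_add_fract] at this
    exact this
  have hpt : ∀ i : ℤ, Ψ ((i : ℝ), 0, 0) = cast3 (P i) := by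
    intro i
    have := hΨ0 i 0 ⟨le_rfl, zero_le_one⟩
    rw [add_zero, zero_smul, add_zero] at this
    exact this
  obtain ⟨A, hA⟩ : ∃ A : Set R3, A = range (fun t : ℝ => hmap (Ψ (t, 0, 0))) := ⟨_, rfl⟩
  have hsub : wildArc P ⊆ A ∪ {((9 : ℝ), (0 : ℝ), (0 : ℝ)), ((-9 : ℝ), (0 : ℝ), (0 : ℝ))} := by
    rintro x (⟨hx, n, θ, h0, h1, hp⟩ | hx)
    · left
      rw [hA]
      refine ⟨(n : ℝ) + θ, ?_⟩
      show hmap (Ψ ((n : ℝ) + θ, 0, 0)) = x
      rw [hΨ0 n θ ⟨h0, h1⟩, ← hp, q_hmap_lift x hx]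
    · right; exact hx
  have htip : ∀ σ : ℝ, (σ = 1 ∨ σ = -1) → (σ * 9, (0 : ℝ), (0 : ℝ)) ∈ closure A := by
    intro σ hσ
    rw [Metric.mem_closure_iff]
    intro ε hε
    obtain ⟨B, hB⟩ : ∃ B : ℤ, 8 + 27 / ε ≤ (B : ℝ) := ⟨⌈8 + 27 / ε⌉, Int.le_ceil _⟩
    obtain ⟨N, hN⟩ := hP.growth B
    obtain ⟨h1, h2⟩ := hN (max N 25) (le_max_left _ _)
    obtain ⟨i, hi, hi2⟩ : ∃ i : ℤ, (i ≤ -13 ∨ 25 ≤ i) ∧ (B : ℝ) ≤ σ * ((P i).1 : ℝ) := by
      have h25 : (25 : ℤ) ≤ max N 25 := le_max_right _ _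
      rcases hσ with rfl | rfl
      · exact ⟨max N 25, Or.inr h25, by rw [one_mul]; exact_mod_cast h1⟩
      · refine ⟨-(max N 25), Or.inl (by omega), ?_⟩
        have h3 : ((P (-(max N 25))).1 : ℝ) ≤ ((-B : ℤ) : ℝ) := by exact_mod_cast h2
        push_cast at h3
        linarith
    obtain ⟨hb1, hb2⟩ := hP.box i hi
    have hε2 : 0 < 27 / ε := by positivity
    refine ⟨hmap (cast3 (P i)), ?_, ?_⟩
    · rw [hA]
      exact ⟨(i : ℝ), by show hmap (Ψ ((i : ℝ), 0, 0)) = _; rw [hpt]⟩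
    · have h4 := q_dist (cast3 (P i)) σ hσ (by
        show 8 ≤ σ * ((P i).1 : ℝ)
        linarith) (by
        show |((P i).2.1 : ℝ)| ≤ 3
        exact_mod_cast hb1) (by
        show |((P i).2.2 : ℝ)| ≤ 3
        exact_mod_cast hb2)
      refine lt_of_le_of_lt h4 ?_
      have h5 : (cast3 (P i)).1 = ((P i).1 : ℝ) := rfl
      rw [h5, div_lt_iff₀ (by linarith)]
      have h6 : 27 / ε < 1 + σ * ((P i).1 : ℝ) := by linarith
      rw [div_lt_iff₀ hε] at h6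
      linarith
  refine ⟨A, ?_, ?_, ?_, ?_, ?_, hsub⟩
  · rw [hA]
    apply isPreconnected_range
    exact q_cont_hmap.comp (hΨc.comp (by fun_prop))
  · rw [hA]
    refine ⟨((6 : ℤ) : ℝ), ?_⟩
    show hmap (Ψ (((6 : ℤ) : ℝ), 0, 0)) = _
    rw [hpt, hP.floor 6 (by norm_num) (by norm_num)]
    have h1 : cast3 (6 - 6, 0, -15) = ((0 : ℝ), (0 : ℝ), (-15 : ℝ)) := by
      unfold cast3; norm_num
    rw [h1]
    unfold hmap mu
    have h2 : max (1 : ℝ) ((1 + |(0 : ℝ)|) / 9) = 1 := by norm_num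
    show (max (1 : ℝ) ((1 + |(0 : ℝ)|) / 9))⁻¹ • ((0 : ℝ), (0 : ℝ), (-15 : ℝ)) = _
    rw [h2, inv_one, one_smul]
  · rw [hA]
    rintro x ⟨t, rfl⟩
    left
    show |(hmap (Ψ (t, 0, 0))).1| < 9 ∧ lift (hmap (Ψ (t, 0, 0))) ∈ pathSet P
    refine ⟨q_abs_lt _, ?_⟩
    rw [q_lift_hmap, hrep]
    exact ⟨⌊t⌋, Int.fract t, Int.fract_nonneg t, (Int.fract_lt_one t).le, rfl⟩
  · refine hsub.trans (Set.union_subset subset_closure ?_)
    rintro x (rfl | hx)
    · have := htip 1 (Or.inl rfl)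
      rwa [one_mul] at this
    · rw [Set.mem_singleton_iff] at hx
      subst hx
      have := htip (-1) (Or.inr rfl)
      have e1 : (-1 : ℝ) * 9 = -9 := by norm_num
      rwa [e1] at this
  · rw [hA]
    rintro x ⟨t, rfl⟩
    exact q_abs_lt _

end Pool.Agent.Helper607.Wild
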