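import Mathlib
set_option autoImplicit false
open Set Filter Topology

/-! Shared definitions for the construction of nested topological spheres without a sphere
between them. -/

namespace Pool.Agent.Helper607.Wild


/-- the ambient space, with the sup norm -/
abbrev R3 := ℝ × ℝ × ℝ

/-- the standard sphere -/
abbrev S2 := Metric.sphere (0 : EuclideanSpace ℝ (Fin 3)) 1

/-- A `G`-valued Cech 1-cocycle on a family of open sets: charts `W i`, transitions `c i j`. -/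
structure Cyc (X : Type) [TopologicalSpace X] (G : Type) [Group G] (ι : Type) where
  W : ι → Set X
  c : ι → ι → X → G
  isOpen_W : ∀ i, IsOpen (W i)
  loc : ∀ i j, ∀ x ∈ W i ∩ W j, ∀ᶠ y in 𝓝 x, c i j y = c i j x
  cocycle : ∀ i j k, ∀ x, x ∈ W i → x ∈ W j → x ∈ W k → c j k x * c i j x = c i k x

/-- `t` is a trivialisation of the cocycle over the set `B`. -/
structure IsTriv {X : Type} [TopologicalSpace X] {G : Type} [Group G] {ι : Type}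
    (C : Cyc X G ι) (B : Set X) (t : ι → X → G) : Prop where
  loc : ∀ i, ∀ x ∈ B ∩ C.W i, ∀ᶠ y in 𝓝[B] x, t i y = t i x
  compat : ∀ i j, ∀ x ∈ B, x ∈ C.W i → x ∈ C.W j → t j x = C.c i j x * t i x

/-- Data saying that the cocycle `C` pulled back by the doubly periodic map `φ` is the
cocycle of the coordinate `v` modulo 5. -/
structure Winding {ι : Type} (C : Cyc R3 (Equiv.Perm (ZMod 5)) ι) (φ : ℝ × ℝ → R3) where
  o : ι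
  d : ι
  no : ℝ × ℝ → ℤ
  nd : ℝ × ℝ → ℤ
  cover : ∀ p, φ p ∈ C.W o ∪ C.W d
  loc_o : ∀ p, φ p ∈ C.W o → ∀ᶠ q in 𝓝 p, no q = no p
  loc_d : ∀ p, φ p ∈ C.W d → ∀ᶠ q in 𝓝 p, nd q = nd p
  o1 : ∀ u v, φ (u, v) ∈ C.W o → no (u + 1, v) = no (u, v)
  o2 : ∀ u v, φ (u, v) ∈ C.W o → no (u, v + 1) = no (u, v) + 1
  d1 : ∀ u v, φ (u, v) ∈ C.W d → nd (u + 1, v) = nd (u, v)
  d2 : ∀ u v, φ (u, v) ∈ C.W d → nd (u, v + 1) = nd (u, v) + 1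
  trans : ∀ p, φ p ∈ C.W o → φ p ∈ C.W d → ∀ x : ZMod 5,
    C.c o d (φ p) x = x + ((nd p - no p : ℤ) : ZMod 5)


/-- the integer lattice -/
abbrev Z3 := ℤ × ℤ × ℤ

def cast3 (p : Z3) : R3 := ((p.1 : ℝ), (p.2.1 : ℝ), (p.2.2 : ℝ))

def dir (P : ℤ → Z3) (i : ℤ) : Z3 := P (i + 1) - P i

/-- membership of a lattice point in the closed unit cube with minimal corner `q` -/
def inCube (q v : Z3) : Prop :=
  (v.1 = q.1 ∨ v.1 = q.1 + 1) ∧ (v.2.1 = q.2.1 ∨ v.2.1 = q.2.1 + 1) ∧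
    (v.2.2 = q.2.2 ∨ v.2.2 = q.2.2 + 1)

/-- side transition through the hole -/
def kap (v : Z3) : Equiv.Perm (ZMod 5) := if 0 ≤ v.2.1 then 1 else Equiv.addRight 1

/-- Combinatorial labelled path: `K` the set of vertices of the path, `ρ` a flat
permutation valued connection on the complement, trivial near the outside. -/
structure Lab where
  K : Set Z3
  P : ℤ → Z3
  ρ : Z3 → Z3 → Equiv.Perm (ZMod 5)
  flat : ∀ q u v w, inCube q u → inCube q v → inCube q w → u ∉ K → v ∉ K → w ∉ K →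
    ρ v w * ρ u v = ρ u w
  outer : ∀ q v w, inCube q v → inCube q w → v ∉ K → w ∉ K →
    (3 ≤ q.2.1 ∨ q.2.1 ≤ -4 ∨ 3 ≤ q.2.2 ∨ q.2.2 ≤ -4) →
    ¬ (-7 ≤ q.1 ∧ q.1 ≤ 6 ∧ -1 ≤ q.2.1 ∧ q.2.1 ≤ 0 ∧ -16 ≤ q.2.2 ∧ q.2.2 ≤ -4) → ρ v w = 1
  hole : ∀ q v w, inCube q v → inCube q w → v ∉ K → w ∉ K →
    -6 ≤ q.1 → q.1 ≤ 5 → -2 ≤ q.2.1 → q.2.1 ≤ 1 → -15 ≤ q.2.2 → q.2.2 ≤ -4 →
    ρ v w = kap w * (kap v)⁻¹
  vert : ∀ v ∈ K, ∃ n, P n = v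
  adj : ∀ m n, |(P m).1 - (P n).1| + |(P m).2.1 - (P n).2.1| + |(P m).2.2 - (P n).2.2| = 1 →
    n = m + 1 ∨ n = m - 1

/-- spindle factor -/
noncomputable def nu (t : ℝ) : ℝ := min 1 (9 - |t|)

/-- inverse of the spindle map, defined for |x.1| < 9 -/
noncomputable def lift (x : R3) : R3 := (nu x.1)⁻¹ • x

/-- open star of a lattice point -/
def star3 (v : Z3) : Set R3 := {p | |p.1 - v.1| < 1 ∧ |p.2.1 - v.2.1| < 1 ∧ |p.2.2 - v.2.2| < 1}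

def Wout : Set R3 := {x | ¬ (|x.1| ≤ 9 ∧ |x.2.1| ≤ 7 / 2 * nu x.1 ∧ |x.2.2| ≤ 7 / 2 * nu x.1) ∧
  ¬ (|x.1| ≤ 7 ∧ |x.2.1| ≤ 1 ∧ -16 ≤ x.2.2 ∧ x.2.2 ≤ -3)}

def Whole : Set R3 := {x | |x.1| < 6 ∧ |x.2.1| < 2 ∧ -15 < x.2.2 ∧ x.2.2 < -3}

/-- charts: `inl v` star of `v`; `inr true` outside; `inr false` hole -/
def Lab.W (D : Lab) : Z3 ⊕ Bool → Set R3
  | Sum.inl v => {x | v ∉ D.K ∧ |x.1| < 9 ∧ lift x ∈ star3 v}
  | Sum.inr true => Wout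
  | Sum.inr false => Whole

open Classical in
noncomputable def Lab.c (D : Lab) : Z3 ⊕ Bool → Z3 ⊕ Bool → R3 → Equiv.Perm (ZMod 5)
  | Sum.inl v, Sum.inl w => fun _ => D.ρ v w
  | Sum.inl _, Sum.inr true => fun _ => 1
  | Sum.inl v, Sum.inr false => fun _ => (kap v)⁻¹
  | Sum.inr true, Sum.inl _ => fun _ => 1
  | Sum.inr false, Sum.inl v => fun _ => kap v
  | Sum.inr true, Sum.inr true => fun _ => 1
  | Sum.inr false, Sum.inr false => fun _ => 1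
  | Sum.inr true, Sum.inr false => fun x => if 0 < x.2.1 then 1 else (Equiv.addRight 1)⁻¹
  | Sum.inr false, Sum.inr true => fun x => if 0 < x.2.1 then 1 else Equiv.addRight 1

/-- the path as a subset of space, in lattice coordinates -/
def pathSet (P : ℤ → Z3) : Set R3 :=
  {p | ∃ (n : ℤ) (θ : ℝ), 0 ≤ θ ∧ θ ≤ 1 ∧ p = cast3 (P n) + θ • cast3 (dir P n)}

/-- the wild arc -/
def wildArc (P : ℤ → Z3) : Set R3 :=
  {x | |x.1| < 9 ∧ lift x ∈ pathSet P} ∪ {((9 : ℝ), (0 : ℝ), (0 : ℝ)), ((-9 : ℝ), (0 : ℝ), (0 : ℝ))}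

abbrev Sq : Set (ℝ × ℝ) := Icc (-1) 1 ×ˢ Icc (-1) 1
abbrev SqO : Set (ℝ × ℝ) := Ioo (-1) 1 ×ˢ Ioo (-1) 1

/-- sign of a boolean -/
def sg (b : Bool) : ℝ := if b then 1 else -1

def cubeC (c : ℝ) : Set R3 := {x | |x.1| ≤ c ∧ |x.2.1| ≤ c ∧ |x.2.2| ≤ c}
def cubeO (c : ℝ) : Set R3 := {x | |x.1| < c ∧ |x.2.1| < c ∧ |x.2.2| < c}

/-- A family of fingers attached to the cube of half side `c` in flat square patches of
half side `δ` on its top and bottom faces. -/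
structure Fingers (c δ : ℝ) (I : Type) where
  out : I → Bool      -- true: outward finger, false: inward finger
  top : I → Bool      -- true: attached to the top face, false: to the bottom face
  a : I → ℝ
  b : I → ℝ
  E : I → ℝ × ℝ × ℝ → R3     -- E i (t, s1, s2)
  tip : I → R3
  hc : 0 < c
  hδ : 0 < δ
  hlen : 1 / 4 < c
  ha : ∀ i, |a i| + δ < c
  hb : ∀ i, |b i| + δ < c
  hcont : ∀ i, ContinuousOn (E i) (Ici (-1 / 4) ×ˢ Sq)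
  hinj : ∀ i, InjOn (E i) (Ici (-1 / 4) ×ˢ Sq)
  hbase : ∀ i, ∀ t ∈ Icc (-1 / 4 : ℝ) 0, ∀ s ∈ Sq,
    E i (t, s) = (a i + δ * s.1, b i + δ * s.2, sg (top i) * (c + sg (out i) * t))
  htip : ∀ i, ∀ ε > 0, ∃ T : ℝ, ∀ t ≥ T, ∀ s ∈ Sq, dist (E i (t, s)) (tip i) < ε
  htipne : ∀ i, ∀ t ≥ (-1 / 4 : ℝ), ∀ s ∈ Sq, E i (t, s) ≠ tip i
  hout : ∀ i, out i = true → (∀ t > 0, ∀ s ∈ Sq, E i (t, s) ∉ cubeC c) ∧ tip i ∉ cubeC c
  hin : ∀ i, out i = false → (∀ t > 0, ∀ s ∈ Sq, E i (t, s) ∈ cubeO c) ∧ tip i ∈ cubeO c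
  hdisj : ∀ i j, i ≠ j → tip i ≠ tip j ∧ (∀ t ≥ 0, ∀ s ∈ Sq, E i (t, s) ≠ tip j) ∧
    ∀ t ≥ 0, ∀ s ∈ Sq, ∀ t' ≥ 0, ∀ s' ∈ Sq, E i (t, s) ≠ E j (t', s')

/-- the sphere: cube surface with the open patches replaced by the finger surfaces -/
def Fingers.surf {c δ : ℝ} {I : Type} (F : Fingers c δ I) : Set R3 :=
  {x | x ∈ cubeC c ∧ x ∉ cubeO c ∧ ∀ i, ∀ s ∈ SqO, x ≠ F.E i (0, s)} ∪
  ⋃ i, (F.E i '' (Ici 0 ×ˢ (Sq \ SqO)) ∪ {F.tip i})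

/-- its bounded side -/
def Fingers.inner {c δ : ℝ} {I : Type} (F : Fingers c δ I) : Set R3 :=
  (cubeO c ∪ ⋃ i ∈ {i | F.out i = true}, F.E i '' (Ioi (-1 / 4) ×ˢ SqO)) \
  ⋃ i ∈ {i | F.out i = false}, (F.E i '' (Ici 0 ×ˢ Sq) ∪ {F.tip i})


def SigmaR : Set R3 := {x | |x.1| ≤ 9 ∧ |x.2.1| ≤ 7 / 2 * nu x.1 ∧ |x.2.2| ≤ 7 / 2 * nu x.1}
def DetR : Set R3 := {x | |x.2.1| ≤ 1 / 4 ∧ 23 / 4 ≤ |x.1| ∧ |x.1| ≤ 25 / 4 ∧
  -55 / 4 ≤ x.2.2 ∧ x.2.2 ≤ 0}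

/-- the two red fingers (existence proved in another job) -/
structure FD (E : Bool → ℝ × ℝ × ℝ → R3) (tip : Bool → R3) : Prop where
  tipT : tip true = (-9, 0, 0)
  tipF : tip false = (9, 0, 0)
  cont : ∀ e, ContinuousOn (E e) (Ici (-1 / 4) ×ˢ Sq)
  inj : ∀ e, InjOn (E e) (Ici (-1 / 4) ×ˢ Sq)
  base : ∀ e, ∀ t ∈ Icc (-1 / 4 : ℝ) 0, ∀ s ∈ Sq,
    E e (t, s) = (sg e * 6 + 1 / 4 * s.1, 1 / 4 * s.2, -27 / 2 + t)
  lim : ∀ e, ∀ ε > 0, ∃ T : ℝ, ∀ t ≥ T, ∀ s ∈ Sq, dist (E e (t, s)) (tip e) < ε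
  lt9 : ∀ e, ∀ t ≥ (-1 / 4 : ℝ), ∀ s ∈ Sq, |(E e (t, s)).1| < 9
  zpos : ∀ e, ∀ t > (0 : ℝ), ∀ s ∈ Sq, -27 / 2 < (E e (t, s)).2.2
  reg : ∀ e, ∀ t ≥ (-1 / 4 : ℝ), ∀ s ∈ Sq, E e (t, s) ∈ SigmaR ∪ DetR
  disj : ∀ t ≥ (0 : ℝ), ∀ s ∈ Sq, ∀ t' ≥ (0 : ℝ), ∀ s' ∈ Sq, E true (t, s) ≠ E false (t', s')

/-- placing the blue gadget below the top face of the cube of half side `c` -/
noncomputable def topMap (c : ℝ) (x : R3) : R3 := (x.2.1, x.1, -x.2.2 + c - 27 / 2)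
/-- placing the red gadget below the bottom face -/
noncomputable def botMap (c : ℝ) (x : R3) : R3 := (x.1, -x.2.1, -x.2.2 - c - 27 / 2)



def dot (a b : Z3) : ℤ := a.1 * b.1 + a.2.1 * b.2.1 + a.2.2 * b.2.2

noncomputable def mu (t : ℝ) : ℝ := max 1 ((1 + |t|) / 9)

/-- the spindle map R3 -> {|x.1| < 9}, inverse of `lift` -/
noncomputable def hmap (p : R3) : R3 := (mu p.1)⁻¹ • p

/-- combinatorial facts about the lattice path that are used -/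
structure PathData (P : ℤ → Z3) : Prop where
  inj : Function.Injective P
  step : ∀ n, dot (dir P n) (dir P n) = 1
  floor : ∀ n, 0 ≤ n → n ≤ 12 → P n = (6 - n, 0, -15)
  vertR : ∀ n, -13 ≤ n → n ≤ 0 → P n = (6, 0, -15 - n)
  vertL : ∀ n, 12 ≤ n → n ≤ 25 → P n = (-6, 0, n - 27)
  box : ∀ n, (n ≤ -13 ∨ 25 ≤ n) → |(P n).2.1| ≤ 3 ∧ |(P n).2.2| ≤ 3
  growth : ∀ B : ℤ, ∃ N : ℤ, ∀ n ≥ N, B ≤ (P n).1 ∧ (P (-n)).1 ≤ -B

/-- inside of a set: points whose complementary component is bounded -/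
def ins (S : Set R3) : Set R3 := {x | x ∉ S ∧ Bornology.IsBounded (connectedComponentIn Sᶜ x)}

/-- half turn -/
def theta (x : R3) : R3 := (x.1, -x.2.1, -x.2.2)

/-- the involution exchanging the red and the blue arc -/
def tau (x : R3) : R3 := (x.2.1, x.1, -x.2.2 - 9)

/-- description of the points of the wild arc -/
def ArcPts (E : Bool → ℝ × ℝ × ℝ → R3) (tip : Bool → R3) (K : Set R3) : Prop :=
  ∀ x ∈ K, (∃ e, x = tip e) ∨ (∃ e, ∃ t ≥ (-1 / 4 : ℝ), x = E e (t, 0, 0)) ∨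
    (|x.1| ≤ 6 ∧ x.2.1 = 0 ∧ -15 ≤ x.2.2 ∧ x.2.2 < -27 / 2)

end Pool.Agent.Helper607.Wild
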