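import Pool.Agent.Helper607.Wild.Base
set_option autoImplicit false
open Set Filter Topology

namespace Pool.Agent.Helper607.Wild


theorem const_of_loc {X G : Type} [TopologicalSpace X] (f : X → G) (A : Set X) (hA : IsPreconnected A)
    (h : ∀ x ∈ A, ∀ᶠ y in 𝓝 x, f y = f x) {x y : X} (hx : x ∈ A) (hy : y ∈ A) : f x = f y := by
  letI : TopologicalSpace G := ⊥
  haveI : DiscreteTopology G := ⟨rfl⟩
  refine hA.constant ?_ hx hy
  intro z hz
  have h1 : Tendsto f (𝓝 z) (𝓝 (f z)) := by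
    apply tendsto_nhds_of_eventually_eq
    exact h z hz
  exact h1.mono_left nhdsWithin_le_nhds

theorem key_triv {X : Type} [NormedAddCommGroup X] [NormedSpace ℝ X]
    {G : Type} [Group G] {ι : Type} (C : Cyc X G ι) (S : Set X) (t : ι → X → G)
    (ht : IsTriv C S t) (i1 i2 : ι) (x1 x2 : X) (r1 r2 : ℝ) (hx1 : x1 ∈ S)
    (hr1 : 0 < r1) (hr2 : 0 < r2) (hr : r1 ≤ r2)
    (hb1 : Metric.ball x1 (2 * r1) ⊆ C.W i1) (hb2 : Metric.ball x2 (2 * r2) ⊆ C.W i2)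
    (h2 : ∀ y ∈ S, y ∈ Metric.ball x2 (2 * r2) → t i2 y = t i2 x2)
    (y : X) (hy1 : y ∈ Metric.ball x1 r1) (hy2 : y ∈ Metric.ball x2 r2) (j : ι) (hj : y ∈ C.W j) :
    C.c i1 j y * t i1 x1 = C.c i2 j y * t i2 x2 := by
  have hd : x1 ∈ Metric.ball x2 (2 * r2) := by
    rw [Metric.mem_ball] at hy1 hy2 ⊢
    have := dist_triangle_left x1 x2 y
    linarith
  have hsub1 : Metric.ball x1 r1 ⊆ Metric.ball x1 (2 * r1) := Metric.ball_subset_ball (by linarith)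
  have hsub2 : Metric.ball x2 r2 ⊆ Metric.ball x2 (2 * r2) := Metric.ball_subset_ball (by linarith)
  have h3 := h2 x1 hx1 hd
  have hW1 : x1 ∈ C.W i1 := hb1 (Metric.mem_ball_self (by linarith))
  have hW2 : x1 ∈ C.W i2 := hb2 hd
  have h4 := ht.compat i1 i2 x1 hx1 hW1 hW2
  have hconv : Convex ℝ (Metric.ball x1 r1 ∩ Metric.ball x2 (2 * r2)) :=
    (convex_ball _ _).inter (convex_ball _ _)
  have h5 : C.c i1 i2 x1 = C.c i1 i2 y := by
    refine const_of_loc (C.c i1 i2) _ hconv.isPreconnected ?_ ⟨Metric.mem_ball_self hr1, hd⟩ ⟨hy1, hsub2 hy2⟩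
    intro z hz
    exact C.loc i1 i2 z ⟨hb1 (hsub1 hz.1), hb2 hz.2⟩
  have h6 := C.cocycle i1 i2 j y (hb1 (hsub1 hy1)) (hb2 (hsub2 hy2)) hj
  rw [← h3, h4, h5, ← mul_assoc, h6]

/-- A trivialisation over a set `S` of a normed space extends to an open neighbourhood. -/
theorem extend_triv {X : Type} [NormedAddCommGroup X] [NormedSpace ℝ X]
    {G : Type} [Group G] {ι : Type} (C : Cyc X G ι) (S : Set X) (t : ι → X → G)
    (ht : IsTriv C S t) (hcov : ∀ x ∈ S, ∃ i, x ∈ C.W i) :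
    ∃ N : Set X, IsOpen N ∧ S ⊆ N ∧ (∀ x ∈ N, ∃ i, x ∈ C.W i) ∧
      ∃ t' : ι → X → G, IsTriv C N t' := by
  classical
  have hex : ∀ x : S, ∃ (i : ι) (r : ℝ), 0 < r ∧ Metric.ball (x : X) (2 * r) ⊆ C.W i ∧
      ∀ y ∈ S, y ∈ Metric.ball (x : X) (2 * r) → t i y = t i x := by
    intro x
    obtain ⟨i, hi⟩ := hcov x x.2
    have h1 := ht.loc i x ⟨x.2, hi⟩
    rw [eventually_nhdsWithin_iff] at h1
    have h2 : ∀ᶠ y in 𝓝 (x : X), y ∈ C.W i := (C.isOpen_W i).mem_nhds hi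
    obtain ⟨ε, hε, h3⟩ := Metric.eventually_nhds_iff_ball.1 (h1.and h2)
    refine ⟨i, ε / 2, by linarith, ?_, ?_⟩
    · intro y hy
      have : 2 * (ε / 2) = ε := by ring
      rw [this] at hy
      exact (h3 y hy).2
    · intro y hyS hy
      have : 2 * (ε / 2) = ε := by ring
      rw [this] at hy
      exact (h3 y hy).1 hyS
  choose i r hr hball hloc using hex
  have hkey : ∀ (x1 x2 : S) (y : X), y ∈ Metric.ball (x1 : X) (r x1) → y ∈ Metric.ball (x2 : X) (r x2) →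
      ∀ j, y ∈ C.W j → C.c (i x1) j y * t (i x1) x1 = C.c (i x2) j y * t (i x2) x2 := by
    intro x1 x2 y hy1 hy2 j hj
    rcases le_total (r x1) (r x2) with h | h
    · exact key_triv C S t ht (i x1) (i x2) x1 x2 (r x1) (r x2) x1.2 (hr x1) (hr x2) h (hball x1) (hball x2)
        (hloc x2) y hy1 hy2 j hj
    · exact (key_triv C S t ht (i x2) (i x1) x2 x1 (r x2) (r x1) x2.2 (hr x2) (hr x1) h (hball x2) (hball x1)
        (hloc x1) y hy2 hy1 j hj).symm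
  have hsub : ∀ x : S, Metric.ball (x : X) (r x) ⊆ C.W (i x) := fun x =>
    (Metric.ball_subset_ball (by have := hr x; linarith)).trans (hball x)
  have hN : ∀ y : X, y ∈ (⋃ x : S, Metric.ball (x : X) (r x)) → ∃ x : S, y ∈ Metric.ball (x : X) (r x) := by
    intro y hy
    exact Set.mem_iUnion.1 hy
  choose p hp using hN
  refine ⟨⋃ x : S, Metric.ball (x : X) (r x), isOpen_iUnion (fun _ => Metric.isOpen_ball), ?_, ?_,
    fun j y => if h : y ∈ (⋃ x : S, Metric.ball (x : X) (r x)) then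
      C.c (i (p y h)) j y * t (i (p y h)) (p y h) else 1, ?_, ?_⟩
  · intro x hx
    exact Set.mem_iUnion.2 ⟨⟨x, hx⟩, Metric.mem_ball_self (hr _)⟩
  · intro y hy
    exact ⟨i (p y hy), hsub _ (hp y hy)⟩
  · rintro j x ⟨hxN, hxj⟩
    have h1 : ∀ᶠ y in 𝓝 x, y ∈ Metric.ball ((p x hxN : S) : X) (r (p x hxN)) :=
      Metric.isOpen_ball.mem_nhds (hp x hxN)
    have h2 : ∀ᶠ y in 𝓝 x, y ∈ C.W j := (C.isOpen_W j).mem_nhds hxj
    have h3 := C.loc (i (p x hxN)) j x ⟨hsub _ (hp x hxN), hxj⟩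
    rw [eventually_nhdsWithin_iff]
    filter_upwards [h1, h2, h3] with y hy1 hy2 hy3 hyN
    rw [dif_pos hyN, dif_pos hxN, hkey (p y hyN) (p x hxN) y (hp y hyN) hy1 j hy2, hy3]
  · intro j k x hxN hxj hxk
    rw [dif_pos hxN, dif_pos hxN, ← mul_assoc, C.cocycle (i (p x hxN)) j k x (hsub _ (hp x hxN)) hxj hxk]

end Pool.Agent.Helper607.Wild
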