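import Pool.Agent.Helper607.Wild.FamDef
set_option autoImplicit false
open Set Filter Topology

namespace Pool.Agent.Helper607.Wild
variable {E : Bool → ℝ × ℝ × ℝ → R3} {tip : Bool → R3}


theorem E_bd (h : FD E tip) (e : Bool) (t : ℝ) (ht : -1 / 4 ≤ t) (s : ℝ × ℝ) (hs : s ∈ Sq) :
    |(E e (t, s)).1| ≤ 9 ∧ |(E e (t, s)).2.1| ≤ 7 / 2 ∧ -55 / 4 ≤ (E e (t, s)).2.2 ∧ (E e (t, s)).2.2 ≤ 7 / 2 := by
  rcases h.reg e t ht s hs with h1 | h1
  · obtain ⟨h2, h3, h4⟩ := h1
    have h5 : nu (E e (t, s)).1 ≤ 1 := min_le_left _ _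
    have h6 := abs_le.mp h4
    refine ⟨h2, by linarith, by linarith [h6.1], by linarith [h6.2]⟩
  · obtain ⟨h2, h3, h4, h5, h6⟩ := h1
    refine ⟨by linarith, by linarith, by linarith, by linarith⟩

theorem E_z0 (h : FD E tip) (e : Bool) (t : ℝ) (ht : 0 ≤ t) (s : ℝ × ℝ) (hs : s ∈ Sq) :
    -27 / 2 ≤ (E e (t, s)).2.2 := by
  rcases eq_or_lt_of_le ht with h1 | h1
  · rw [h.base e t ⟨by linarith, by linarith⟩ s hs, ← h1]
    simp
  · exact (h.zpos e t h1 s hs).le

theorem Fam_Et (h : FD E tip) (c : ℝ) (hc : 20 ≤ c) (e : Bool) (t s1 s2 : ℝ) :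
    (Fam h c hc).E (true, e) (t, s1, s2) = botMap c (E e (t, s1, -s2)) := rfl

theorem Fam_Ef (h : FD E tip) (c : ℝ) (hc : 20 ≤ c) (e : Bool) (t s1 s2 : ℝ) :
    (Fam h c hc).E (false, e) (t, s1, s2) = topMap c (E e (t, s2, s1)) := rfl

theorem Fam_tt (h : FD E tip) (c : ℝ) (hc : 20 ≤ c) (e : Bool) :
    (Fam h c hc).tip (true, e) = botMap c (tip e) := rfl

theorem Fam_tf (h : FD E tip) (c : ℝ) (hc : 20 ≤ c) (e : Bool) :
    (Fam h c hc).tip (false, e) = topMap c (tip e) := rfl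

theorem Sq_neg {s1 s2 : ℝ} (h : (s1, s2) ∈ Sq) : (s1, -s2) ∈ Sq := by
  obtain ⟨⟨h1, h2⟩, ⟨h3, h4⟩⟩ := h
  simp only at h1 h2 h3 h4
  exact ⟨⟨h1, h2⟩, ⟨by simp only; linarith, by simp only; linarith⟩⟩

theorem Sq_swap {s1 s2 : ℝ} (h : (s1, s2) ∈ Sq) : (s2, s1) ∈ Sq := ⟨h.2, h.1⟩

theorem SqO_sub2 {s : ℝ × ℝ} (h : s ∈ SqO) : s ∈ Sq := ⟨Ioo_subset_Icc_self h.1, Ioo_subset_Icc_self h.2⟩

theorem zero_SqO : ((0 : ℝ), (0 : ℝ)) ∈ SqO := ⟨⟨by norm_num, by norm_num⟩, ⟨by norm_num, by norm_num⟩⟩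

theorem third_in (h : FD E tip) (c : ℝ) (hc : 20 ≤ c) (e : Bool) (t : ℝ) (ht : 0 ≤ t) (s : ℝ × ℝ) (hs : s ∈ Sq) :
    c - 17 ≤ ((Fam h c hc).E (false, e) (t, s)).2.2 ∧ ((Fam h c hc).E (false, e) (t, s)).2.2 ≤ c := by
  obtain ⟨s1, s2⟩ := s
  rw [Fam_Ef]
  have h1 := E_bd h e t (by linarith) _ (Sq_swap hs)
  have h2 := E_z0 h e t ht _ (Sq_swap hs)
  unfold topMap
  simp only
  exact ⟨by linarith [h1.2.2.2], by linarith⟩

theorem third_in_neg (h : FD E tip) (c : ℝ) (hc : 20 ≤ c) (e : Bool) (t : ℝ) (ht : -1 / 4 ≤ t) (ht0 : t < 0)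
    (s : ℝ × ℝ) (hs : s ∈ Sq) :
    c < ((Fam h c hc).E (false, e) (t, s)).2.2 := by
  obtain ⟨s1, s2⟩ := s
  rw [Fam_Ef, h.base e t ⟨ht, ht0.le⟩ _ (Sq_swap hs)]
  unfold topMap
  simp only
  linarith

theorem third_out0 (h : FD E tip) (c : ℝ) (hc : 20 ≤ c) (e : Bool) (t : ℝ) (ht : 0 ≤ t) (s : ℝ × ℝ) (hs : s ∈ Sq) :
    ((Fam h c hc).E (true, e) (t, s)).2.2 ≤ -c := by
  obtain ⟨s1, s2⟩ := s
  rw [Fam_Et]
  have h2 := E_z0 h e t ht _ (Sq_neg hs)
  unfold botMap
  simp only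
  linarith

theorem third_out (h : FD E tip) (c : ℝ) (hc : 20 ≤ c) (e : Bool) (t : ℝ) (ht : -1 / 4 < t) (s : ℝ × ℝ) (hs : s ∈ Sq) :
    ((Fam h c hc).E (true, e) (t, s)).2.2 < -c + 1 / 4 := by
  rcases le_or_gt 0 t with h0 | h0
  · have := third_out0 h c hc e t h0 s hs
    linarith
  · obtain ⟨s1, s2⟩ := s
    rw [Fam_Et, h.base e t ⟨ht.le, h0.le⟩ _ (Sq_neg hs)]
    unfold botMap
    simp only
    linarith

theorem tip_z (h : FD E tip) (e : Bool) : (tip e).2.2 = 0 := by
  cases e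
  · rw [h.tipF]
  · rw [h.tipT]

theorem third_tf (h : FD E tip) (c : ℝ) (hc : 20 ≤ c) (e : Bool) :
    ((Fam h c hc).tip (false, e)).2.2 = c - 27 / 2 := by
  rw [Fam_tf]
  unfold topMap
  simp only [tip_z h e]
  ring

theorem third_tt (h : FD E tip) (c : ℝ) (hc : 20 ≤ c) (e : Bool) :
    ((Fam h c hc).tip (true, e)).2.2 = -c - 27 / 2 := by
  rw [Fam_tt]
  unfold botMap
  simp only [tip_z h e]
  ring

theorem not_inw (h : FD E tip) (c : ℝ) (hc : 20 ≤ c) (y : R3) (hy : y.2.2 < c - 17) :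
    y ∉ ⋃ i ∈ {i | (Fam h c hc).out i = false}, ((Fam h c hc).E i '' (Ici 0 ×ˢ Sq) ∪ {(Fam h c hc).tip i}) := by
  intro hm
  simp only [mem_iUnion] at hm
  obtain ⟨⟨o, e⟩, ho, hm⟩ := hm
  have ho' : o = false := ho
  subst ho'
  rcases hm with ⟨⟨t, s⟩, hts, rfl⟩ | hm
  · have := (third_in h c hc e t hts.1 s hts.2).1
    linarith
  · rw [mem_singleton_iff] at hm
    rw [hm, third_tf h c hc e] at hy
    linarith

theorem surf_third (h : FD E tip) (c : ℝ) (hc : 20 ≤ c) (y : R3) (hy : y ∈ (Fam h c hc).surf) : y.2.2 ≤ c := by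
  rcases hy with hy | hy
  · exact (abs_le.mp hy.1.2.2).2
  · simp only [mem_iUnion] at hy
    obtain ⟨⟨o, e⟩, hy⟩ := hy
    rcases hy with ⟨⟨t, s⟩, hts, rfl⟩ | hy
    · have hs : s ∈ Sq := hts.2.1
      have ht : 0 ≤ t := hts.1
      cases o
      · exact (third_in h c hc e t ht s hs).2
      · have := third_out0 h c hc e t ht s hs
        linarith
    · rw [mem_singleton_iff] at hy
      rw [hy]
      cases o
      · rw [third_tf h c hc e]; linarith
      · rw [third_tt h c hc e]; linarith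

/-- TARGET 1 -/
theorem red_sub (h : FD E tip) (c : ℝ) (hc : 20 ≤ c) (K : Set R3) (hK : ArcPts E tip K) :
    botMap c '' K ⊆ (Fam h c hc).inner ∪ (Fam h c hc).surf := by
  rintro _ ⟨x, hx, rfl⟩
  rcases hK x hx with ⟨e, rfl⟩ | ⟨e, t, ht, rfl⟩ | ⟨h1, h2, h3, h4⟩
  · right
    right
    simp only [mem_iUnion]
    exact ⟨(true, e), Or.inr rfl⟩
  · left
    rcases eq_or_lt_of_le ht with h1 | h1
    · have h2 : E e (t, 0, 0) = (sg e * 6, 0, -27 / 2 + t) := by
        have := h.base e t ⟨ht, by linarith⟩ (0, 0) (SqO_sub2 zero_SqO)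
        rw [this]
        simp
      have hsg : |sg e * 6| ≤ 6 := by
        cases e <;> simp [sg]
      rw [h2]
      refine ⟨Or.inl ?_, not_inw h c hc _ ?_⟩
      · unfold botMap
        refine ⟨?_, ?_, ?_⟩
        · simp only
          linarith
        · simp only [neg_zero, abs_zero]
          linarith
        · simp only
          rw [abs_lt]
          constructor <;> linarith
      · unfold botMap
        simp only
        linarith
    · have h2 : botMap c (E e (t, 0, 0)) = (Fam h c hc).E (true, e) (t, 0, 0) := by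
        rw [Fam_Et, neg_zero]
      rw [h2]
      refine ⟨Or.inr ?_, not_inw h c hc _ ?_⟩
      · simp only [mem_iUnion]
        exact ⟨(true, e), rfl, (t, 0, 0), ⟨h1, zero_SqO⟩, rfl⟩
      · have := third_out h c hc e t h1 (0, 0) (SqO_sub2 zero_SqO)
        linarith
  · left
    have h1' := abs_le.mp h1
    refine ⟨Or.inl ?_, not_inw h c hc _ ?_⟩
    · unfold botMap
      refine ⟨?_, ?_, ?_⟩
      · simp only
        linarith
      · simp only [h2, neg_zero, abs_zero]
        linarith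
      · simp only
        rw [abs_lt]
        constructor <;> linarith
    · unfold botMap
      simp only
      linarith

/-- TARGET 2 -/
theorem blue_disj (h : FD E tip) (c : ℝ) (hc : 20 ≤ c) (K : Set R3) (hK : ArcPts E tip K)
    (hK9 : ∀ x ∈ K, |x.1| < 9) :
    Disjoint (topMap c '' K) (Fam h c hc).surf := by
  rw [Set.disjoint_left]
  rintro _ ⟨x, hx, rfl⟩ hs
  have hx9 := hK9 x hx
  rcases hK x hx with ⟨e, rfl⟩ | ⟨e, t, ht, rfl⟩ | ⟨h1, h2, h3, h4⟩
  · cases e
    · rw [h.tipF] at hx9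
      norm_num at hx9
    · rw [h.tipT] at hx9
      norm_num at hx9
  · have h2 : topMap c (E e (t, 0, 0)) = (Fam h c hc).E (false, e) (t, 0, 0) := rfl
    rw [h2] at hs
    rcases lt_or_ge t 0 with ht0 | ht0
    · have h3 := third_in_neg h c hc e t ht ht0 (0, 0) (SqO_sub2 zero_SqO)
      have h4 := surf_third h c hc _ hs
      linarith
    · rcases hs with hs | hs
      · rcases eq_or_lt_of_le ht0 with h3 | h3
        · refine hs.2.2 (false, e) (0, 0) zero_SqO ?_
          rw [← h3]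
        · exact hs.2.1 (((Fam h c hc).hin (false, e) rfl).1 t h3 (0, 0) (SqO_sub2 zero_SqO))
      · simp only [mem_iUnion] at hs
        obtain ⟨⟨o, e'⟩, hs⟩ := hs
        rcases hs with ⟨⟨t', s'⟩, hts, heq⟩ | hs
        · have hs' : s' ∈ Sq := hts.2.1
          have ht' : 0 ≤ t' := hts.1
          cases o
          · by_cases hee : e' = e
            · subst hee
              have := (Fam h c hc).hinj (false, e') (⟨by simp only [mem_Ici]; linarith, hs'⟩ : (t', s') ∈ Ici (-1 / 4 : ℝ) ×ˢ Sq)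
                (⟨ht, SqO_sub2 zero_SqO⟩ : (t, ((0:ℝ), (0:ℝ))) ∈ Ici (-1 / 4 : ℝ) ×ˢ Sq) heq
              rw [Prod.mk.injEq] at this
              exact hts.2.2 (this.2 ▸ zero_SqO)
            · have hne : ((false, e') : Bool × Bool) ≠ (false, e) := by
                intro hh
                exact hee (Prod.mk.inj hh).2
              exact ((Fam h c hc).hdisj _ _ hne).2.2 t' ht' s' hs' t ht0 (0, 0) (SqO_sub2 zero_SqO) heq
          · have h3 := third_out0 h c hc e' t' ht' s' hs'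
            rw [heq] at h3
            have h4 := (third_in h c hc e t ht0 (0, 0) (SqO_sub2 zero_SqO)).1
            linarith
        · rw [mem_singleton_iff] at hs
          cases o
          · by_cases hee : e' = e
            · subst hee
              exact (Fam h c hc).htipne (false, e') t ht (0, 0) (SqO_sub2 zero_SqO) hs
            · have hne : ((false, e) : Bool × Bool) ≠ (false, e') := by
                intro hh
                exact hee (Prod.mk.inj hh).2.symm
              exact ((Fam h c hc).hdisj _ _ hne).2.1 t ht0 (0, 0) (SqO_sub2 zero_SqO) hs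
          · have h3 := third_tt h c hc e'
            rw [← hs] at h3
            have h4 := (third_in h c hc e t ht0 (0, 0) (SqO_sub2 zero_SqO)).1
            linarith
  · have := surf_third h c hc _ hs
    unfold topMap at this
    simp only at this
    linarith

/-- TARGET 3 -/
theorem ray_up (h : FD E tip) (c : ℝ) (hc : 20 ≤ c) :
    Disjoint {x : R3 | x.1 = 0 ∧ x.2.1 = 0 ∧ c + 1 ≤ x.2.2} (Fam h c hc).surf := by
  rw [Set.disjoint_left]
  rintro x ⟨h1, h2, h3⟩ hs
  have := surf_third h c hc _ hs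
  linarith

/-- TARGET 4 -/
theorem ray_side (h : FD E tip) (c : ℝ) (hc : 20 ≤ c) :
    Disjoint {x : R3 | c ≤ x.1 ∧ x.2.1 = 0 ∧ x.2.2 = 0} (Fam h c hc).inner ∧
      ((c, 0, 0) : R3) ∈ (Fam h c hc).surf := by
  constructor
  · rw [Set.disjoint_left]
    rintro x ⟨h1, h2, h3⟩ ⟨hs, -⟩
    rcases hs with hs | hs
    · have := (abs_lt.mp hs.1).2
      linarith
    · simp only [mem_iUnion] at hs
      obtain ⟨⟨o, e⟩, ho, ⟨t, s⟩, hts, rfl⟩ := hs
      have ho' : o = true := ho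
      subst ho'
      have := third_out h c hc e t hts.1 s (SqO_sub2 hts.2)
      linarith
  · left
    refine ⟨⟨?_, ?_, ?_⟩, ?_, ?_⟩
    · simp only
      rw [abs_of_nonneg (by linarith)]
    · simp only [abs_zero]
      linarith
    · simp only [abs_zero]
      linarith
    · rintro ⟨h1, -, -⟩
      simp only at h1
      rw [abs_of_nonneg (by linarith)] at h1
      linarith
    · intro i s hs heq
      have h1 := (Fam h c hc).hbase i 0 ⟨by norm_num, le_refl _⟩ s (SqO_sub2 hs)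
      rw [h1] at heq
      have h2 := congrArg (fun p : R3 => p.2.2) heq
      simp only [mul_zero, add_zero] at h2
      have h3 : sg ((Fam h c hc).top i) = 1 ∨ sg ((Fam h c hc).top i) = -1 := by
        unfold sg
        split_ifs
        · left; rfl
        · right; rfl
      rcases h3 with h3 | h3 <;> rw [h3] at h2 <;> linarith

end Pool.Agent.Helper607.Wild
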