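import Pool.Agent.Helper607.Wild.Base
set_option autoImplicit false
open Set Filter Topology

namespace Pool.Agent.Helper607.Wild
variable {E : Bool → ℝ × ℝ × ℝ → R3} {tip : Bool → R3}


theorem topMap_inj (c : ℝ) : Function.Injective (topMap c) := by
  rintro ⟨x, y, z⟩ ⟨x', y', z'⟩ h
  simp only [topMap, Prod.mk.injEq] at h ⊢
  obtain ⟨h1, h2, h3⟩ := h
  exact ⟨h2, h1, by linarith⟩

theorem botMap_inj (c : ℝ) : Function.Injective (botMap c) := by
  rintro ⟨x, y, z⟩ ⟨x', y', z'⟩ h
  simp only [botMap, Prod.mk.injEq] at h ⊢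
  obtain ⟨h1, h2, h3⟩ := h
  exact ⟨h1, by linarith, by linarith⟩

theorem topMap_dist (c : ℝ) (x y : R3) : dist (topMap c x) (topMap c y) = dist x y := by
  obtain ⟨x1, x2, x3⟩ := x
  obtain ⟨y1, y2, y3⟩ := y
  simp only [topMap, Prod.dist_eq, Real.dist_eq]
  have e : |-x3 + c - 27 / 2 - (-y3 + c - 27 / 2)| = |x3 - y3| := by
    rw [← abs_neg]; congr 1; ring
  rw [e]
  exact max_left_comm _ _ _

theorem botMap_dist (c : ℝ) (x y : R3) : dist (botMap c x) (botMap c y) = dist x y := by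
  obtain ⟨x1, x2, x3⟩ := x
  obtain ⟨y1, y2, y3⟩ := y
  simp only [botMap, Prod.dist_eq, Real.dist_eq]
  have e : |-x3 - c - 27 / 2 - (-y3 - c - 27 / 2)| = |x3 - y3| := by
    rw [← abs_neg]; congr 1; ring
  have e' : |-x2 - -y2| = |x2 - y2| := by
    rw [← abs_neg]; congr 1; ring
  rw [e, e']

theorem topMap_cont (c : ℝ) : Continuous (topMap c) := by
  unfold topMap; fun_prop

theorem botMap_cont (c : ℝ) : Continuous (botMap c) := by
  unfold botMap; fun_prop

theorem sw1 {s : ℝ × ℝ} (hs : s ∈ Sq) : (s.2, s.1) ∈ Sq := ⟨hs.2, hs.1⟩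

theorem sw2 {s : ℝ × ℝ} (hs : s ∈ Sq) : (s.1, -s.2) ∈ Sq := by
  refine ⟨hs.1, ?_⟩
  have := hs.2
  rw [mem_Icc] at this ⊢
  constructor <;> linarith [this.1, this.2]

/-- the location of the points of the fingers -/
theorem FD.bounds (h : FD E tip) (e : Bool) {t : ℝ} (ht : -1 / 4 ≤ t) {s : ℝ × ℝ} (hs : s ∈ Sq) :
    |(E e (t, s)).2.1| ≤ 7 / 2 ∧ -55 / 4 ≤ (E e (t, s)).2.2 ∧ (E e (t, s)).2.2 ≤ 7 / 2 := by
  have hnu : nu (E e (t, s)).1 ≤ 1 := min_le_left _ _
  rcases h.reg e t ht s hs with h1 | h1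
  · obtain ⟨_, h2, h3⟩ := h1
    rw [abs_le] at h3
    refine ⟨by linarith, by linarith [h3.1], by linarith [h3.2]⟩
  · obtain ⟨h2, _, _, h3, h4⟩ := h1
    refine ⟨by linarith, h3, by linarith⟩

theorem FD.z_ge (h : FD E tip) (e : Bool) {t : ℝ} (ht : 0 ≤ t) {s : ℝ × ℝ} (hs : s ∈ Sq) :
    -27 / 2 ≤ (E e (t, s)).2.2 := by
  rcases ht.lt_or_eq with h1 | h1
  · exact (h.zpos e t h1 s hs).le
  · rw [← h1, h.base e 0 ⟨by norm_num, le_rfl⟩ s hs]
    simp

theorem FD.tip_fst (h : FD E tip) (e : Bool) : |(tip e).1| = 9 := by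
  cases e
  · rw [h.tipF]; norm_num
  · rw [h.tipT]; norm_num

theorem FD.tip_snd (h : FD E tip) (e : Bool) : (tip e).2.1 = 0 ∧ (tip e).2.2 = 0 := by
  cases e
  · rw [h.tipF]; simp
  · rw [h.tipT]; simp

theorem FD.ne_tip (h : FD E tip) (e e' : Bool) {t : ℝ} (ht : -1 / 4 ≤ t) {s : ℝ × ℝ}
    (hs : s ∈ Sq) : E e (t, s) ≠ tip e' := by
  intro heq
  have h1 := h.lt9 e t ht s hs
  rw [heq, h.tip_fst] at h1
  exact lt_irrefl _ h1

theorem FD.tip_ne (h : FD E tip) {e e' : Bool} (hee : e ≠ e') : tip e ≠ tip e' := by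
  cases e <;> cases e'
  · exact absurd rfl hee
  · rw [h.tipF, h.tipT]
    intro h1
    have := congrArg Prod.fst h1
    norm_num at this
  · rw [h.tipF, h.tipT]
    intro h1
    have := congrArg Prod.fst h1
    norm_num at this
  · exact absurd rfl hee

theorem FD.disj' (h : FD E tip) {e e' : Bool} (hee : e ≠ e') {t : ℝ} (ht : 0 ≤ t) {s : ℝ × ℝ}
    (hs : s ∈ Sq) {t' : ℝ} (ht' : 0 ≤ t') {s' : ℝ × ℝ} (hs' : s' ∈ Sq) :
    E e (t, s) ≠ E e' (t', s') := by
  cases e <;> cases e'
  · exact absurd rfl hee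
  · exact (h.disj t' ht' s' hs' t ht s hs).symm
  · exact h.disj t ht s hs t' ht' s' hs'
  · exact absurd rfl hee

/-- TARGET (fill the proof fields): two inward fingers in the top face, two outward fingers
in the bottom face. First boolean: true = outward. -/
noncomputable def Fam (h : FD E tip) (c : ℝ) (hc : 20 ≤ c) : Fingers c (1 / 4) (Bool × Bool) where
  out i := i.1
  top i := !i.1
  a i := if i.1 then sg i.2 * 6 else 0
  b i := if i.1 then 0 else sg i.2 * 6
  E i p := if i.1 then botMap c (E i.2 (p.1, p.2.1, -p.2.2)) else topMap c (E i.2 (p.1, p.2.2, p.2.1))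
  tip i := if i.1 then botMap c (tip i.2) else topMap c (tip i.2)
  hc := by linarith
  hδ := by norm_num
  hlen := by linarith
  ha := by
    rintro ⟨o, e⟩
    cases o <;> cases e <;> simp [sg] <;> norm_num <;> linarith
  hb := by
    rintro ⟨o, e⟩
    cases o <;> cases e <;> simp [sg] <;> norm_num <;> linarith
  hcont := by
    rintro ⟨o, e⟩
    cases o
    · simp only [Bool.false_eq_true, if_false]
      refine (topMap_cont c).comp_continuousOn ((h.cont e).comp (by fun_prop) ?_)
      rintro ⟨t, s⟩ ⟨ht, hs⟩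
      exact ⟨ht, sw1 hs⟩
    · simp only [if_true]
      refine (botMap_cont c).comp_continuousOn ((h.cont e).comp (by fun_prop) ?_)
      rintro ⟨t, s⟩ ⟨ht, hs⟩
      exact ⟨ht, sw2 hs⟩
  hinj := by
    rintro ⟨o, e⟩ ⟨t, s⟩ ⟨ht, hs⟩ ⟨t', s'⟩ ⟨ht', hs'⟩ heq
    cases o
    · simp only [Bool.false_eq_true, if_false] at heq
      have h1 := h.inj e (show ((t, s.2, s.1) : ℝ × ℝ × ℝ) ∈ Ici (-1 / 4) ×ˢ Sq from ⟨ht, sw1 hs⟩)
        (show ((t', s'.2, s'.1) : ℝ × ℝ × ℝ) ∈ Ici (-1 / 4) ×ˢ Sq from ⟨ht', sw1 hs'⟩)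
        (topMap_inj c heq)
      simp only [Prod.mk.injEq] at h1
      obtain ⟨h2, h3, h4⟩ := h1
      exact Prod.ext h2 (Prod.ext h4 h3)
    · simp only [if_true] at heq
      have h1 := h.inj e (show ((t, s.1, -s.2) : ℝ × ℝ × ℝ) ∈ Ici (-1 / 4) ×ˢ Sq from ⟨ht, sw2 hs⟩)
        (show ((t', s'.1, -s'.2) : ℝ × ℝ × ℝ) ∈ Ici (-1 / 4) ×ˢ Sq from ⟨ht', sw2 hs'⟩)
        (botMap_inj c heq)
      simp only [Prod.mk.injEq] at h1
      obtain ⟨h2, h3, h4⟩ := h1
      exact Prod.ext h2 (Prod.ext h3 (neg_injective h4))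
  hbase := by
    rintro ⟨o, e⟩ t ht s hs
    cases o
    · simp only [Bool.false_eq_true, if_false, Bool.not_false]
      rw [h.base e t ht _ (sw1 hs)]
      simp only [topMap, sg, Bool.false_eq_true, if_false, if_true, Prod.mk.injEq]
      refine ⟨by ring, trivial, by ring⟩
    · simp only [if_true, Bool.not_true]
      rw [h.base e t ht _ (sw2 hs)]
      simp only [botMap, sg, Bool.false_eq_true, if_false, if_true, Prod.mk.injEq]
      refine ⟨trivial, by ring, by ring⟩
  htip := by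
    rintro ⟨o, e⟩ ε hε
    obtain ⟨T, hT⟩ := h.lim e ε hε
    cases o
    · simp only [Bool.false_eq_true, if_false]
      exact ⟨T, fun t ht s hs => by rw [topMap_dist]; exact hT t ht _ (sw1 hs)⟩
    · simp only [if_true]
      exact ⟨T, fun t ht s hs => by rw [botMap_dist]; exact hT t ht _ (sw2 hs)⟩
  htipne := by
    rintro ⟨o, e⟩ t ht s hs
    cases o
    · simp only [Bool.false_eq_true, if_false]
      exact fun heq => h.ne_tip e e ht (sw1 hs) (topMap_inj c heq)
    · simp only [if_true]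
      exact fun heq => h.ne_tip e e ht (sw2 hs) (botMap_inj c heq)
  hout := by
    rintro ⟨o, e⟩ ho
    simp only at ho
    subst ho
    simp only [if_true]
    constructor
    · intro t ht s hs hmem
      have h1 := h.zpos e t ht _ (sw2 hs)
      have h2 := hmem.2.2
      simp only [botMap] at h2
      rw [abs_le] at h2
      linarith [h2.1]
    · intro hmem
      have h2 := hmem.2.2
      simp only [botMap] at h2
      rw [abs_le, (h.tip_snd e).2] at h2
      linarith [h2.1]
  hin := by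
    rintro ⟨o, e⟩ ho
    simp only at ho
    subst ho
    simp only [Bool.false_eq_true, if_false]
    constructor
    · intro t ht s hs
      have h1 := h.zpos e t ht _ (sw1 hs)
      have h2 := h.bounds e (by linarith : (-1 / 4 : ℝ) ≤ t) (sw1 hs)
      have h3 := h.lt9 e t (by linarith : (-1 / 4 : ℝ) ≤ t) _ (sw1 hs)
      refine ⟨?_, ?_, ?_⟩
      · simp only [topMap]
        linarith [h2.1]
      · simp only [topMap]
        linarith
      · simp only [topMap]
        rw [abs_lt]
        constructor <;> linarith [h2.2.2]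
    · have h2 := h.tip_snd e
      have h3 := h.tip_fst e
      refine ⟨?_, ?_, ?_⟩
      · simp only [topMap]
        rw [h2.1, abs_zero]; linarith
      · simp only [topMap]
        rw [h3]; linarith
      · simp only [topMap]
        rw [h2.2, abs_lt]
        constructor <;> linarith
  hdisj := by
    have hmix : ∀ e e' : Bool,
        topMap c (tip e) ≠ botMap c (tip e') ∧
        (∀ t ≥ 0, ∀ s ∈ Sq, topMap c (E e (t, s.2, s.1)) ≠ botMap c (tip e')) ∧
        (∀ t ≥ 0, ∀ s ∈ Sq, botMap c (E e' (t, s.1, -s.2)) ≠ topMap c (tip e)) ∧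
        ∀ t ≥ 0, ∀ s ∈ Sq, ∀ t' ≥ 0, ∀ s' ∈ Sq,
          topMap c (E e (t, s.2, s.1)) ≠ botMap c (E e' (t', s'.1, -s'.2)) := by
      intro e e'
      have k1 := (h.tip_snd e).2
      have k2 := (h.tip_snd e').2
      refine ⟨?_, ?_, ?_, ?_⟩
      · intro heq
        have := congrArg (fun x : R3 => x.2.2) heq
        simp only [topMap, botMap] at this
        rw [k1, k2] at this
        linarith
      · intro t ht s hs heq
        have := congrArg (fun x : R3 => x.2.2) heq
        simp only [topMap, botMap] at this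
        rw [k2] at this
        have h2 := h.bounds e (by linarith : (-1 / 4 : ℝ) ≤ t) (sw1 hs)
        linarith [h2.2.2]
      · intro t ht s hs heq
        have := congrArg (fun x : R3 => x.2.2) heq
        simp only [topMap, botMap] at this
        rw [k1] at this
        have h2 := h.z_ge e' ht (sw2 hs)
        linarith
      · intro t ht s hs t' ht' s' hs' heq
        have := congrArg (fun x : R3 => x.2.2) heq
        simp only [topMap, botMap] at this
        have h2 := h.bounds e (by linarith : (-1 / 4 : ℝ) ≤ t) (sw1 hs)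
        have h3 := h.z_ge e' ht' (sw2 hs')
        linarith [h2.2.2]
    rintro ⟨o, e⟩ ⟨o', e'⟩ hij
    cases o <;> cases o'
    · have hee : e ≠ e' := fun hh => hij (by rw [hh])
      simp only [Bool.false_eq_true, if_false]
      refine ⟨fun hh => h.tip_ne hee (topMap_inj c hh), ?_, ?_⟩
      · exact fun t ht s hs hh => h.ne_tip e e' (by linarith : (-1 / 4 : ℝ) ≤ t) (sw1 hs)
          (topMap_inj c hh)
      · exact fun t ht s hs t' ht' s' hs' hh => h.disj' hee ht (sw1 hs) ht' (sw1 hs')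
          (topMap_inj c hh)
    · simp only [Bool.false_eq_true, if_false, if_true]
      obtain ⟨m1, m2, m3, m4⟩ := hmix e e'
      exact ⟨m1, m2, m4⟩
    · simp only [Bool.false_eq_true, if_false, if_true]
      obtain ⟨m1, m2, m3, m4⟩ := hmix e' e
      exact ⟨m1.symm, m3, fun t ht s hs t' ht' s' hs' => (m4 t' ht' s' hs' t ht s hs).symm⟩
    · have hee : e ≠ e' := fun hh => hij (by rw [hh])
      simp only [if_true]
      refine ⟨fun hh => h.tip_ne hee (botMap_inj c hh), ?_, ?_⟩
      · exact fun t ht s hs hh => h.ne_tip e e' (by linarith : (-1 / 4 : ℝ) ≤ t) (sw2 hs)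
          (botMap_inj c hh)
      · exact fun t ht s hs t' ht' s' hs' hh => h.disj' hee ht (sw2 hs) ht' (sw2 hs')
          (botMap_inj c hh)

end Pool.Agent.Helper607.Wild
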