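import Pool.Agent.Helper607.Wild.FamDef
set_option autoImplicit false
open Set Filter Topology

namespace Pool.Agent.Helper607.Wild
variable {E : Bool → ℝ × ℝ × ℝ → R3} {tip : Bool → R3}


/-- TARGET 1 -/
theorem sub_ins (S Ω : Set R3) (hO : IsOpen Ω) (hb : Bornology.IsBounded Ω)
    (hf : frontier Ω ⊆ S) (hd : Disjoint Ω S) : Ω ⊆ ins S := by
  intro x hx
  have hxS : x ∉ S := fun h => Set.disjoint_left.1 hd hx h
  refine ⟨hxS, hb.subset ?_⟩
  have hxc : x ∈ connectedComponentIn Sᶜ x := mem_connectedComponentIn hxS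
  apply isPreconnected_connectedComponentIn.subset_left_of_subset_union hO
    (isClosed_closure (s := Ω)).isOpen_compl
  · rw [Set.disjoint_compl_right_iff_subset]
    exact subset_closure
  · intro z hz
    by_cases hzO : z ∈ Ω
    · exact Or.inl hzO
    · right
      intro hzc
      have hzf : z ∈ frontier Ω := by
        rw [hO.frontier_eq]
        exact ⟨hzc, hzO⟩
      exact connectedComponentIn_subset _ _ hz (hf hzf)
  · exact ⟨x, hxc, hx⟩

theorem nu_le2 (t : ℝ) : nu t ≤ 1 := min_le_left _ _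

theorem sigma_bd {p : R3} (hp : p ∈ SigmaR) : |p.1| ≤ 9 ∧ |p.2.1| ≤ 7 / 2 ∧ |p.2.2| ≤ 7 / 2 := by
  obtain ⟨h1, h2, h3⟩ := hp
  have := nu_le2 p.1
  exact ⟨h1, by linarith, by linarith⟩

/-- TARGET 2 -/
theorem regions_disj : Disjoint (SigmaR ∪ DetR)
    ((fun x : R3 => (x.2.1, x.1, -x.2.2 - 9)) '' (SigmaR ∪ DetR)) := by
  rw [Set.disjoint_left]
  rintro p hp ⟨q, hq, rfl⟩
  rcases hp with hp | hp <;> rcases hq with hq | hq
  · obtain ⟨h1, h2, h3⟩ := sigma_bd hp
    obtain ⟨g1, g2, g3⟩ := sigma_bd hq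
    simp only [] at h1 h2 h3
    rw [abs_le] at h3 g3
    linarith [h3.1, h3.2, g3.1, g3.2]
  · obtain ⟨h1, h2, h3⟩ := sigma_bd hp
    obtain ⟨g1, g2, g3, g4, g5⟩ := hq
    simp only [] at h1 h2 h3
    linarith
  · obtain ⟨h1, h2, h3, h4, h5⟩ := hp
    obtain ⟨g1, g2, g3⟩ := sigma_bd hq
    simp only [] at h1 h2 h3
    linarith
  · obtain ⟨h1, h2, h3, h4, h5⟩ := hp
    obtain ⟨g1, g2, g3, g4, g5⟩ := hq
    simp only [] at h1 h2 h3
    linarith

theorem region_bd {p : R3} (hp : p ∈ SigmaR ∪ DetR) :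
    |p.1| ≤ 9 ∧ |p.2.1| ≤ 7 / 2 ∧ -55 / 4 ≤ p.2.2 ∧ p.2.2 ≤ 7 / 2 := by
  rcases hp with hp | hp
  · obtain ⟨h1, h2, h3⟩ := sigma_bd hp
    rw [abs_le] at h3
    exact ⟨h1, h2, by linarith [h3.1], h3.2⟩
  · obtain ⟨h1, h2, h3, h4, h5⟩ := hp
    exact ⟨by linarith, by linarith, h4, by linarith⟩

theorem tip_mem (h : FD E tip) (e : Bool) : tip e ∈ SigmaR ∪ DetR := by
  left
  have h9 : nu 9 = 0 := by
    unfold nu
    rw [abs_of_pos (by norm_num)]
    norm_num
  have h9' : nu (-9) = 0 := by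
    unfold nu
    rw [abs_neg, abs_of_pos (by norm_num)]
    norm_num
  cases e
  · rw [h.tipF]
    refine ⟨?_, ?_, ?_⟩
    · simp only []
      rw [abs_of_pos (by norm_num)]
    · simp only []
      rw [h9]
      simp
    · simp only []
      rw [h9]
      simp
  · rw [h.tipT]
    refine ⟨?_, ?_, ?_⟩
    · simp only []
      rw [abs_neg, abs_of_pos (by norm_num)]
    · simp only []
      rw [h9']
      simp
    · simp only []
      rw [h9']
      simp

theorem fingers_in {c δ : ℝ} {I : Type} (F : Fingers c δ I) (i : I) (hi : F.out i = false)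
    (t : ℝ) (ht : 0 ≤ t) (s : ℝ × ℝ) (hs : s ∈ Sq) : F.E i (t, s) ∈ cubeC c := by
  rcases ht.eq_or_lt with h0 | h0
  · subst h0
    rw [F.hbase i 0 ⟨by norm_num, le_rfl⟩ s hs]
    have ha := F.ha i
    have hb := F.hb i
    have hδ := F.hδ
    have hc := F.hc
    obtain ⟨hs1, hs2⟩ := hs
    have h1 : |δ * s.1| ≤ δ := by
      rw [abs_mul, abs_of_pos hδ]
      have : |s.1| ≤ 1 := abs_le.2 ⟨hs1.1, hs1.2⟩
      nlinarith
    have h2 : |δ * s.2| ≤ δ := by
      rw [abs_mul, abs_of_pos hδ]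
      have : |s.2| ≤ 1 := abs_le.2 ⟨hs2.1, hs2.2⟩
      nlinarith
    refine ⟨?_, ?_, ?_⟩
    · simp only []
      exact (abs_add_le _ _).trans (by linarith)
    · simp only []
      exact (abs_add_le _ _).trans (by linarith)
    · simp only [mul_zero, add_zero]
      rw [abs_mul, abs_of_pos hc]
      have : |sg (F.top i)| = 1 := by
        unfold sg
        split_ifs
        · simp
        · simp
      rw [this, one_mul]
  · obtain ⟨h1, h2, h3⟩ := (F.hin i hi).1 t h0 s hs
    exact ⟨h1.le, h2.le, h3.le⟩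

theorem swap_mem {s : ℝ × ℝ} (hs : s ∈ Sq) : (s.2, s.1) ∈ Sq := ⟨hs.2, hs.1⟩

theorem neg_mem' {s : ℝ × ℝ} (hs : s ∈ Sq) : (s.1, -s.2) ∈ Sq := by
  refine ⟨hs.1, ?_, ?_⟩
  · simp only []
    linarith [hs.2.2]
  · simp only []
    linarith [hs.2.1]

/-- TARGET 3: nestedness. -/
theorem nested (h : FD E tip) (c : ℝ) (hc : 20 ≤ c) (hc' : 20 ≤ c + 18) :
    theta '' (Fam h c hc).surf ⊆ (Fam h (c + 18) hc').inner := by
  -- points of the closed inward fingers of the larger family
  have hin : ∀ i, (Fam h (c + 18) hc').out i = false →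
      ∀ y ∈ (Fam h (c + 18) hc').E i '' (Ici 0 ×ˢ Sq) ∪ {(Fam h (c + 18) hc').tip i},
      ∃ q ∈ SigmaR ∪ DetR, y = topMap (c + 18) q := by
    rintro ⟨o, e⟩ hi y hy
    have ho : o = false := hi
    subst ho
    rcases hy with ⟨⟨t, s⟩, ⟨ht, hs⟩, rfl⟩ | hy
    · refine ⟨E e (t, s.2, s.1), h.reg e t ?_ _ (swap_mem hs), rfl⟩
      have : (0 : ℝ) ≤ t := ht
      show -1 / 4 ≤ t
      linarith
    · rw [Set.mem_singleton_iff] at hy
      exact ⟨tip e, tip_mem h e, hy⟩
  -- points of the surface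
  have hsurf : ∀ x ∈ (Fam h c hc).surf, x ∈ cubeC c ∨ ∃ p ∈ SigmaR ∪ DetR, x = botMap c p := by
    intro x hx
    rcases hx with hx | hx
    · exact Or.inl hx.1
    · rw [Set.mem_iUnion] at hx
      obtain ⟨⟨o, e⟩, hx⟩ := hx
      cases o
      · left
        rcases hx with ⟨⟨t, s⟩, ⟨ht, hs⟩, rfl⟩ | hx
        · exact fingers_in _ _ rfl t ht s hs.1
        · rw [Set.mem_singleton_iff] at hx
          rw [hx]
          obtain ⟨h1, h2, h3⟩ := ((Fam h c hc).hin (false, e) rfl).2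
          exact ⟨h1.le, h2.le, h3.le⟩
      · right
        rcases hx with ⟨⟨t, s⟩, ⟨ht, hs⟩, rfl⟩ | hx
        · refine ⟨E e (t, s.1, -s.2), h.reg e t ?_ _ (neg_mem' hs.1), rfl⟩
          have : (0 : ℝ) ≤ t := ht
          show -1 / 4 ≤ t
          linarith
        · rw [Set.mem_singleton_iff] at hx
          exact ⟨tip e, tip_mem h e, hx⟩
  rintro y ⟨x, hx, rfl⟩
  have key : theta x ∈ cubeO (c + 18) ∧ ∀ q ∈ SigmaR ∪ DetR, theta x ≠ topMap (c + 18) q := by
    rcases hsurf x hx with hx | ⟨p, hp, rfl⟩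
    · obtain ⟨h1, h2, h3⟩ := hx
      refine ⟨⟨?_, ?_, ?_⟩, ?_⟩
      · simp only [theta]
        linarith
      · simp only [theta, abs_neg]
        linarith
      · simp only [theta, abs_neg]
        linarith
      · intro q hq heq
        have e3 : (theta x).2.2 = (topMap (c + 18) q).2.2 := by rw [heq]
        simp only [theta, topMap] at e3
        obtain ⟨_, _, _, hq3⟩ := region_bd hq
        have := neg_abs_le x.2.2
        linarith
    · obtain ⟨h1, h2, h3, h4⟩ := region_bd hp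
      refine ⟨⟨?_, ?_, ?_⟩, ?_⟩
      · simp only [theta, botMap]
        linarith
      · simp only [theta, botMap, neg_neg]
        linarith
      · simp only [theta, botMap]
        rw [abs_lt]
        constructor <;> linarith
      · intro q hq heq
        apply Set.disjoint_left.1 regions_disj hp
        refine ⟨q, hq, ?_⟩
        have e1 : (theta (botMap c p)).1 = (topMap (c + 18) q).1 := by rw [heq]
        have e2 : (theta (botMap c p)).2.1 = (topMap (c + 18) q).2.1 := by rw [heq]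
        have e3 : (theta (botMap c p)).2.2 = (topMap (c + 18) q).2.2 := by rw [heq]
        simp only [theta, topMap, botMap, neg_neg] at e1 e2 e3
        ext
        · exact e1.symm
        · exact e2.symm
        · simp only []
          linarith
  refine ⟨Or.inl key.1, ?_⟩
  intro hy
  rw [Set.mem_iUnion₂] at hy
  obtain ⟨i, hi, hy⟩ := hy
  obtain ⟨q, hq, heq⟩ := hin i hi _ hy
  exact key.2 q hq heq

end Pool.Agent.Helper607.Wild
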