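import Pool.Agent.Helper607.Wild.Tube
set_option autoImplicit false
open Set Filter Topology

namespace Pool.Agent.Helper607.Wild



theorem mu_ge (t : ℝ) : 1 ≤ mu t := le_max_left _ _
theorem mu_pos (t : ℝ) : 0 < mu t := lt_of_lt_of_le one_pos (mu_ge t)
theorem mu_small {t : ℝ} (h : |t| ≤ 8) : mu t = 1 := by
  unfold mu
  rw [max_eq_left]
  rw [div_le_one (by norm_num)]
  linarith
theorem mu_big {t : ℝ} (h : 8 ≤ |t|) : mu t = (1 + |t|) / 9 := by
  unfold mu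
  rw [max_eq_right]
  rw [le_div_iff₀ (by norm_num)]
  linarith
theorem mu_cont : Continuous mu := by
  unfold mu
  fun_prop
theorem hmap_cont : Continuous hmap := by
  unfold hmap
  have h : Continuous fun p : R3 => mu p.1 := mu_cont.comp continuous_fst
  exact (h.inv₀ (fun p => (mu_pos p.1).ne')).smul continuous_id
theorem hmap_id {p : R3} (h : |p.1| ≤ 8) : hmap p = p := by
  unfold hmap
  rw [mu_small h]; simp
theorem hmap_fst (p : R3) : (hmap p).1 = p.1 / mu p.1 := by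
  unfold hmap
  simp [div_eq_inv_mul]
theorem hmap_snd (p : R3) : (hmap p).2.1 = p.2.1 / mu p.1 := by
  unfold hmap
  simp [div_eq_inv_mul]
theorem hmap_trd (p : R3) : (hmap p).2.2 = p.2.2 / mu p.1 := by
  unfold hmap
  simp [div_eq_inv_mul]
theorem hmap_fst_lt (p : R3) : |(hmap p).1| < 9 := by
  rw [hmap_fst, abs_div, abs_of_pos (mu_pos _), div_lt_iff₀ (mu_pos _)]
  have : (1 + |p.1|) / 9 ≤ mu p.1 := le_max_right _ _
  linarith
theorem nu_hmap (p : R3) : nu (hmap p).1 = (mu p.1)⁻¹ := by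
  by_cases h : |p.1| ≤ 8
  · rw [hmap_id h, mu_small h]
    unfold nu
    rw [min_eq_left (by linarith)]; simp
  · push Not at h
    have hm := mu_big h.le
    have hpos : 0 < 1 + |p.1| := by linarith
    rw [hmap_fst]
    unfold nu
    rw [abs_div, abs_of_pos (mu_pos _), hm]
    have e : 9 - |p.1| / ((1 + |p.1|) / 9) = ((1 + |p.1|) / 9)⁻¹ := by
      field_simp
      ring
    rw [e]
    apply min_eq_right
    apply inv_le_one_of_one_le₀
    rw [le_div_iff₀ (by norm_num)]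
    linarith
theorem lift_hmap (p : R3) : lift (hmap p) = p := by
  unfold lift
  rw [nu_hmap, inv_inv]
  unfold hmap
  rw [smul_smul, mul_inv_cancel₀ (mu_pos _).ne', one_smul]
theorem hmap_inj : Function.Injective hmap := fun p q h => by
  rw [← lift_hmap p, ← lift_hmap q, h]
theorem hmap_lift {x : R3} (h : |x.1| < 9) : hmap (lift x) = x := by
  by_cases h8 : |x.1| ≤ 8
  · have hn : nu x.1 = 1 := by unfold nu; exact min_eq_left (by linarith)
    have : lift x = x := by unfold lift; rw [hn]; simp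
    rw [this, hmap_id h8]
  · push Not at h8
    have hn : nu x.1 = 9 - |x.1| := by unfold nu; exact min_eq_right (by linarith)
    have hpos : 0 < 9 - |x.1| := by linarith
    have h1 : (lift x).1 = (9 - |x.1|)⁻¹ * x.1 := by unfold lift; rw [hn]; simp
    have h2 : |(lift x).1| = (9 - |x.1|)⁻¹ * |x.1| := by
      rw [h1, abs_mul, abs_of_pos (inv_pos.2 hpos)]
    have h3 : (1 + |(lift x).1|) / 9 = (9 - |x.1|)⁻¹ := by
      rw [h2]; field_simp; ring
    have h4 : mu (lift x).1 = (9 - |x.1|)⁻¹ := by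
      unfold mu
      rw [h3]
      apply max_eq_right
      rw [one_le_inv₀ hpos]; linarith
    unfold hmap
    rw [h4, inv_inv]
    unfold lift
    rw [hn, smul_smul, mul_inv_cancel₀ hpos.ne', one_smul]



theorem dir_R {P : ℤ → Z3} (hP : PathData P) {i : ℤ} (h1 : -13 ≤ i) (h2 : i ≤ -1) :
    dir P i = (0, 0, -1) := by
  unfold dir
  rw [hP.vertR i (by omega) (by omega), hP.vertR (i+1) (by omega) (by omega)]
  simp only [Prod.mk_sub_mk, Prod.mk.injEq]
  refine ⟨by ring, by ring, by ring⟩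
theorem dir_F {P : ℤ → Z3} (hP : PathData P) {i : ℤ} (h1 : 0 ≤ i) (h2 : i ≤ 11) :
    dir P i = (-1, 0, 0) := by
  unfold dir
  rw [hP.floor i (by omega) (by omega), hP.floor (i+1) (by omega) (by omega)]
  simp only [Prod.mk_sub_mk, Prod.mk.injEq]
  refine ⟨by ring, by ring, by ring⟩
theorem dir_L {P : ℤ → Z3} (hP : PathData P) {i : ℤ} (h1 : 12 ≤ i) (h2 : i ≤ 24) :
    dir P i = (0, 0, 1) := by
  unfold dir
  rw [hP.vertL i (by omega) (by omega), hP.vertL (i+1) (by omega) (by omega)]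
  simp only [Prod.mk_sub_mk, Prod.mk.injEq]
  refine ⟨by ring, by ring, by ring⟩

theorem near {P : ℤ → Z3} {Ψ : ℝ × ℝ × ℝ → R3}
    (hb : ∀ (i : ℤ) (θ : ℝ), θ ∈ Icc (0 : ℝ) 1 → ∀ s ∈ Sq,
        ‖Ψ ((i : ℝ) + θ, s) - (cast3 (P i) + θ • cast3 (dir P i))‖ ≤ 1 / 4)
    (i : ℤ) (θ : ℝ) (hθ : θ ∈ Icc (0:ℝ) 1) (s : ℝ × ℝ) (hs : s ∈ Sq) :
    |(Ψ ((i:ℝ)+θ, s)).1 - ((P i).1 + θ * ((P (i+1)).1 - (P i).1))| ≤ 1/4 ∧
    |(Ψ ((i:ℝ)+θ, s)).2.1 - ((P i).2.1 + θ * ((P (i+1)).2.1 - (P i).2.1))| ≤ 1/4 ∧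
    |(Ψ ((i:ℝ)+θ, s)).2.2 - ((P i).2.2 + θ * ((P (i+1)).2.2 - (P i).2.2))| ≤ 1/4 := by
  have h := hb i θ hθ s hs
  set q := Ψ ((i:ℝ)+θ, s) with hq
  set e := cast3 (P i) + θ • cast3 (dir P i) with he
  have e1 : e.1 = (P i).1 + θ * ((P (i+1)).1 - (P i).1) := by
    simp [he, cast3, dir]
  have e2 : e.2.1 = (P i).2.1 + θ * ((P (i+1)).2.1 - (P i).2.1) := by
    simp [he, cast3, dir]
  have e3 : e.2.2 = (P i).2.2 + θ * ((P (i+1)).2.2 - (P i).2.2) := by
    simp [he, cast3, dir]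
  rw [← e1, ← e2, ← e3]
  refine ⟨?_, ?_, ?_⟩
  · exact (norm_fst_le (q - e)).trans h
  · exact ((norm_fst_le (q - e).2).trans (norm_snd_le (q - e))).trans h
  · exact ((norm_snd_le (q - e).2).trans (norm_snd_le (q - e))).trans h

theorem far {P : ℤ → Z3} (hP : PathData P) {Ψ : ℝ × ℝ × ℝ → R3}
    (hb : ∀ (i : ℤ) (θ : ℝ), θ ∈ Icc (0 : ℝ) 1 → ∀ s ∈ Sq,
        ‖Ψ ((i : ℝ) + θ, s) - (cast3 (P i) + θ • cast3 (dir P i))‖ ≤ 1 / 4)
    (i : ℤ) (hi : i ≤ -14 ∨ 25 ≤ i) (θ : ℝ) (hθ : θ ∈ Icc (0:ℝ) 1) (s : ℝ × ℝ) (hs : s ∈ Sq) :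
    |(Ψ ((i:ℝ)+θ, s)).2.1| ≤ 13/4 ∧ |(Ψ ((i:ℝ)+θ, s)).2.2| ≤ 13/4 := by
  obtain ⟨-, h2, h3⟩ := near hb i θ hθ s hs
  have b1 := hP.box i (by omega)
  have b2 := hP.box (i+1) (by omega)
  obtain ⟨t0, t1⟩ := hθ
  have key : ∀ (a c : ℤ) (x : ℝ), |a| ≤ 3 → |c| ≤ 3 →
      |x - ((a:ℝ) + θ * ((c:ℝ) - a))| ≤ 1/4 → |x| ≤ 13/4 := by
    intro a c x ha hc hx
    have ha' : |(a:ℝ)| ≤ 3 := by exact_mod_cast ha
    have hc' : |(c:ℝ)| ≤ 3 := by exact_mod_cast hc
    rw [abs_le] at ha' hc' hx ⊢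
    constructor <;> nlinarith [mul_le_mul_of_nonneg_left ha'.2 (sub_nonneg.2 t1),
      mul_le_mul_of_nonneg_left ha'.1 (sub_nonneg.2 t1),
      mul_le_mul_of_nonneg_left hc'.2 t0, mul_le_mul_of_nonneg_left hc'.1 t0]
  exact ⟨key _ _ _ b1.1 b2.1 h2, key _ _ _ b1.2 b2.2 h3⟩

theorem hmap_SigmaR {q : R3} (h2 : |q.2.1| ≤ 13/4) (h3 : |q.2.2| ≤ 13/4) : hmap q ∈ SigmaR := by
  have hm := mu_pos q.1
  refine ⟨(hmap_fst_lt q).le, ?_, ?_⟩
  · rw [nu_hmap, hmap_snd, abs_div, abs_of_pos hm, div_eq_mul_inv]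
    have := inv_pos.2 hm
    nlinarith
  · rw [nu_hmap, hmap_trd, abs_div, abs_of_pos hm, div_eq_mul_inv]
    have := inv_pos.2 hm
    nlinarith

theorem hmap_DetR {q : R3} (h1 : 23/4 ≤ |q.1|) (h1' : |q.1| ≤ 25/4) (h2 : |q.2.1| ≤ 1/4)
    (h3 : -55/4 ≤ q.2.2) (h4 : q.2.2 ≤ 0) : hmap q ∈ DetR := by
  rw [hmap_id (by linarith)]
  exact ⟨h2, h1, h1', h3, h4⟩

/-- what we need about a piece of tube -/
structure ClsR (q : R3) (τ : ℝ) (s : ℝ × ℝ) : Prop where
  cls : (-2 ≤ τ ∧ q = (6 + s.1/4, s.2/4, -15 - τ)) ∨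
    (τ < -2 ∧ 23/4 ≤ q.1 ∧ q.1 ≤ 25/4 ∧ |q.2.1| ≤ 1/4 ∧ -53/4 ≤ q.2.2 ∧ q.2.2 ≤ 0) ∨
    (τ < -2 ∧ |q.2.1| ≤ 13/4 ∧ |q.2.2| ≤ 13/4)

structure ClsL (q : R3) (τ : ℝ) (s : ℝ × ℝ) : Prop where
  cls : (τ ≤ 14 ∧ q = (-6 - s.1/4, s.2/4, τ - 27)) ∨
    (14 ≤ τ ∧ -25/4 ≤ q.1 ∧ q.1 ≤ -23/4 ∧ |q.2.1| ≤ 1/4 ∧ -53/4 ≤ q.2.2 ∧ q.2.2 ≤ 0) ∨
    (14 ≤ τ ∧ |q.2.1| ≤ 13/4 ∧ |q.2.2| ≤ 13/4)

theorem clsR {P : ℤ → Z3} (hP : PathData P) {Ψ : ℝ × ℝ × ℝ → R3}
    (hb : ∀ (i : ℤ) (θ : ℝ), θ ∈ Icc (0 : ℝ) 1 → ∀ s ∈ Sq,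
        ‖Ψ ((i : ℝ) + θ, s) - (cast3 (P i) + θ • cast3 (dir P i))‖ ≤ 1 / 4)
    (hbase : ∀ θ : ℝ, θ ∈ Icc (0:ℝ) 1 → ∀ s : ℝ × ℝ, Ψ (-2 + θ, s) = (6 + s.1/4, s.2/4, -13 - θ))
    {τ : ℝ} (hτ : τ ≤ -5/4) {s : ℝ × ℝ} (hs : s ∈ Sq) : ClsR (Ψ (τ, s)) τ s := by
  constructor
  have hfl : ((⌊τ⌋ : ℤ) : ℝ) + Int.fract τ = τ := Int.floor_add_fract τ
  have hθ : Int.fract τ ∈ Icc (0:ℝ) 1 := ⟨Int.fract_nonneg _, (Int.fract_lt_one _).le⟩
  have hθ1 := Int.fract_lt_one τ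
  generalize hi : (⌊τ⌋ : ℤ) = i at hfl
  generalize hf : Int.fract τ = θ at hfl hθ hθ1
  have hi2 : i ≤ -2 := by
    by_contra hc
    push Not at hc
    have h1 : (-1 : ℝ) ≤ i := by exact_mod_cast (by omega : (-1:ℤ) ≤ i)
    linarith [hθ.1]
  by_cases h2 : i = -2
  · left
    subst h2
    have hfl' : (-2 : ℝ) + θ = τ := by exact_mod_cast hfl
    refine ⟨by linarith [hθ.1], ?_⟩
    rw [← hfl', hbase θ hθ s]
    ext <;> simp
    ring
  · have hi3 : i ≤ -3 := by omega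
    have hτ2 : τ < -2 := by
      have : (i : ℝ) ≤ -3 := by exact_mod_cast hi3
      linarith
    right
    by_cases h13 : -13 ≤ i
    · left
      refine ⟨hτ2, ?_⟩
      obtain ⟨n1, n2, n3⟩ := near hb i θ hθ s hs
      rw [hfl] at n1 n2 n3
      rw [hP.vertR i (by omega) (by omega), hP.vertR (i+1) (by omega) (by omega)] at n1 n2 n3
      push_cast at n1 n2 n3
      have h13' : (-13:ℝ) ≤ i := by exact_mod_cast h13
      have hi3' : (i : ℝ) ≤ -3 := by exact_mod_cast hi3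
      rw [abs_le] at n1 n3
      have e2 : ((0:ℝ) + θ * (0 - 0)) = 0 := by ring
      rw [e2, sub_zero] at n2
      obtain ⟨t0, t1⟩ := hθ
      refine ⟨by nlinarith [n1.1], by nlinarith [n1.2], n2, by nlinarith [n3.1], by nlinarith [n3.2]⟩
    · right
      have := far hP hb i (by omega) θ hθ s hs
      rw [hfl] at this
      exact ⟨hτ2, this.1, this.2⟩

theorem clsL {P : ℤ → Z3} (hP : PathData P) {Ψ : ℝ × ℝ × ℝ → R3}
    (hb : ∀ (i : ℤ) (θ : ℝ), θ ∈ Icc (0 : ℝ) 1 → ∀ s ∈ Sq,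
        ‖Ψ ((i : ℝ) + θ, s) - (cast3 (P i) + θ • cast3 (dir P i))‖ ≤ 1 / 4)
    (hbase : ∀ θ : ℝ, θ ∈ Icc (0:ℝ) 1 → ∀ s : ℝ × ℝ, Ψ (13 + θ, s) = (-6 - s.1/4, s.2/4, -14 + θ))
    {τ : ℝ} (hτ : 53/4 ≤ τ) {s : ℝ × ℝ} (hs : s ∈ Sq) : ClsL (Ψ (τ, s)) τ s := by
  constructor
  have hfl : ((⌊τ⌋ : ℤ) : ℝ) + Int.fract τ = τ := Int.floor_add_fract τ
  have hθ : Int.fract τ ∈ Icc (0:ℝ) 1 := ⟨Int.fract_nonneg _, (Int.fract_lt_one _).le⟩
  have hθ1 := Int.fract_lt_one τ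
  generalize hi : (⌊τ⌋ : ℤ) = i at hfl
  generalize hf : Int.fract τ = θ at hfl hθ hθ1
  have hi2 : 13 ≤ i := by
    by_contra hc
    push Not at hc
    have h1 : (i : ℝ) ≤ 12 := by exact_mod_cast (by omega : i ≤ (12:ℤ))
    linarith [hθ.1]
  by_cases h2 : i = 13
  · left
    subst h2
    have hfl' : (13 : ℝ) + θ = τ := by exact_mod_cast hfl
    refine ⟨by linarith [hθ.1], ?_⟩
    rw [← hfl', hbase θ hθ s]
    ext <;> simp
    ring
  · have hi3 : 14 ≤ i := by omega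
    have hτ2 : 14 ≤ τ := by
      have : (14 : ℝ) ≤ i := by exact_mod_cast hi3
      linarith [hθ.1]
    right
    by_cases h13 : i ≤ 24
    · left
      refine ⟨hτ2, ?_⟩
      obtain ⟨n1, n2, n3⟩ := near hb i θ hθ s hs
      rw [hfl] at n1 n2 n3
      rw [hP.vertL i (by omega) (by omega), hP.vertL (i+1) (by omega) (by omega)] at n1 n2 n3
      push_cast at n1 n2 n3
      have h13' : (i:ℝ) ≤ 24 := by exact_mod_cast h13
      have hi3' : (14:ℝ) ≤ i := by exact_mod_cast hi3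
      rw [abs_le] at n1 n3
      have e2 : ((0:ℝ) + θ * (0 - 0)) = 0 := by ring
      rw [e2, sub_zero] at n2
      obtain ⟨t0, t1⟩ := hθ
      refine ⟨by nlinarith [n1.1], by nlinarith [n1.2], n2, by nlinarith [n3.1], by nlinarith [n3.2]⟩
    · right
      have := far hP hb i (by omega) θ hθ s hs
      rw [hfl] at this
      exact ⟨hτ2, this.1, this.2⟩


theorem tip_aux {x m ε : ℝ} (hm : 0 < m) (hx : |x| ≤ 13/4) (h : 13/4 < ε * m) : |x / m| < ε := by
  rw [abs_div, abs_of_pos hm, div_lt_iff₀ hm]; linarith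

theorem tip_left {q : R3} {ε : ℝ} (hε : 0 < ε) (h1 : q.1 ≤ -(30/ε + 8))
    (h2 : |q.2.1| ≤ 13/4) (h3 : |q.2.2| ≤ 13/4) : dist (hmap q) ((-9 : ℝ), (0:ℝ), (0:ℝ)) < ε := by
  have hpos : 0 < 30/ε := by positivity
  have hx : |q.1| = -q.1 := abs_of_neg (by linarith)
  have h8 : 8 ≤ |q.1| := by rw [hx]; linarith
  have hm := mu_big h8
  rw [hx] at hm
  have hmp := mu_pos q.1
  have hb : 30 < ε * (1 + -q.1) := by
    have : ε * (30/ε) = 30 := by field_simp
    nlinarith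
  have hb2 : 10/3 < ε * mu q.1 := by rw [hm]; linarith
  rw [Prod.dist_eq, max_lt_iff, Prod.dist_eq, max_lt_iff]
  refine ⟨?_, ?_, ?_⟩
  · rw [hmap_fst, Real.dist_eq]
    have : q.1 / mu q.1 - (-9) = 1 / mu q.1 := by
      rw [eq_div_iff hmp.ne', sub_mul, div_mul_cancel₀ _ hmp.ne', hm]; ring
    rw [this, abs_of_pos (by positivity), div_lt_iff₀ hmp]
    linarith
  · simp only
    rw [hmap_snd, Real.dist_eq, sub_zero]
    exact tip_aux hmp h2 (by linarith)
  · simp only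
    rw [hmap_trd, Real.dist_eq, sub_zero]
    exact tip_aux hmp h3 (by linarith)

theorem tip_right {q : R3} {ε : ℝ} (hε : 0 < ε) (h1 : 30/ε + 8 ≤ q.1)
    (h2 : |q.2.1| ≤ 13/4) (h3 : |q.2.2| ≤ 13/4) : dist (hmap q) ((9 : ℝ), (0:ℝ), (0:ℝ)) < ε := by
  have hpos : 0 < 30/ε := by positivity
  have hx : |q.1| = q.1 := abs_of_pos (by linarith)
  have h8 : 8 ≤ |q.1| := by rw [hx]; linarith
  have hm := mu_big h8
  rw [hx] at hm
  have hmp := mu_pos q.1
  have hb : 30 < ε * (1 + q.1) := by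
    have : ε * (30/ε) = 30 := by field_simp
    nlinarith
  have hb2 : 10/3 < ε * mu q.1 := by rw [hm]; linarith
  rw [Prod.dist_eq, max_lt_iff, Prod.dist_eq, max_lt_iff]
  refine ⟨?_, ?_, ?_⟩
  · rw [hmap_fst, Real.dist_eq]
    have : q.1 / mu q.1 - 9 = -(1 / mu q.1) := by
      rw [← neg_div, eq_div_iff hmp.ne', sub_mul, div_mul_cancel₀ _ hmp.ne', hm]; ring
    rw [this, abs_neg, abs_of_pos (by positivity), div_lt_iff₀ hmp]
    linarith
  · simp only
    rw [hmap_snd, Real.dist_eq, sub_zero]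
    exact tip_aux hmp h2 (by linarith)
  · simp only
    rw [hmap_trd, Real.dist_eq, sub_zero]
    exact tip_aux hmp h3 (by linarith)

theorem sq_neg {s : ℝ × ℝ} (hs : s ∈ Sq) : ((-s.1, s.2) : ℝ × ℝ) ∈ Sq := by
  obtain ⟨⟨a, b⟩, c⟩ := hs
  exact ⟨⟨by simp only; linarith, by simp only; linarith⟩, c⟩

theorem convex_le {a c x θ B : ℝ} (ha : a ≤ B) (hc : c ≤ B) (t0 : 0 ≤ θ) (t1 : θ ≤ 1)
    (hx : |x - (a + θ * (c - a))| ≤ 1/4) : x ≤ B + 1/4 := by
  rw [abs_le] at hx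
  nlinarith [mul_le_mul_of_nonneg_left ha (sub_nonneg.2 t1), mul_le_mul_of_nonneg_left hc t0]

theorem convex_ge {a c x θ B : ℝ} (ha : B ≤ a) (hc : B ≤ c) (t0 : 0 ≤ θ) (t1 : θ ≤ 1)
    (hx : |x - (a + θ * (c - a))| ≤ 1/4) : B - 1/4 ≤ x := by
  rw [abs_le] at hx
  nlinarith [mul_le_mul_of_nonneg_left ha (sub_nonneg.2 t1), mul_le_mul_of_nonneg_left hc t0]

/-- TARGET 1: the two fingers. -/
theorem exists_fingers (P : ℤ → Z3) (hP : PathData P) :
    ∃ (E : Bool → ℝ × ℝ × ℝ → R3) (tip : Bool → R3),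
      tip true = (-9, 0, 0) ∧ tip false = (9, 0, 0) ∧
      (∀ e, ContinuousOn (E e) (Ici (-1 / 4) ×ˢ Sq)) ∧
      (∀ e, InjOn (E e) (Ici (-1 / 4) ×ˢ Sq)) ∧
      (∀ e, ∀ t ∈ Icc (-1 / 4 : ℝ) 0, ∀ s ∈ Sq,
        E e (t, s) = (sg e * 6 + 1 / 4 * s.1, 1 / 4 * s.2, -27 / 2 + t)) ∧
      (∀ e, ∀ ε > 0, ∃ T : ℝ, ∀ t ≥ T, ∀ s ∈ Sq, dist (E e (t, s)) (tip e) < ε) ∧
      (∀ e, ∀ t ≥ (-1 / 4 : ℝ), ∀ s ∈ Sq, |(E e (t, s)).1| < 9) ∧
      (∀ e, ∀ t > (0 : ℝ), ∀ s ∈ Sq, -27 / 2 < (E e (t, s)).2.2) ∧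
      (∀ e, ∀ t ≥ (-1 / 4 : ℝ), ∀ s ∈ Sq, E e (t, s) ∈ SigmaR ∪ DetR) ∧
      (∀ t ≥ (0 : ℝ), ∀ s ∈ Sq, ∀ t' ≥ (0 : ℝ), ∀ s' ∈ Sq, E true (t, s) ≠ E false (t', s')) ∧
      (∀ x ∈ wildArc P, (∃ e, x = tip e) ∨ (∃ e, ∃ t ≥ (-1 / 4 : ℝ), x = E e (t, 0, 0)) ∨
        (|x.1| ≤ 6 ∧ x.2.1 = 0 ∧ -15 ≤ x.2.2 ∧ x.2.2 < -27 / 2)) := by
  obtain ⟨n, b, Ψ, hn0, hb0, hon, hnr, hbr, hc, hi, hbd, hcen, hst⟩ :=
    exists_tube P hP.inj hP.step (-2) (1,0,0) (0,1,0) (by decide) (by decide) (by decide)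
      (by rw [dir_R hP (by norm_num) (by norm_num)]; decide)
      (by rw [dir_R hP (by norm_num) (by norm_num)]; decide)
  have hi' : ∀ p q : ℝ × ℝ × ℝ, p.2 ∈ Sq → q.2 ∈ Sq → Ψ p = Ψ q → p = q :=
    fun p q hp hq h => hi ⟨mem_univ _, hp⟩ ⟨mem_univ _, hq⟩ h
  have dd : ∀ i : ℤ, -13 ≤ i → i ≤ 24 → dir P i = (0,0,-1) ∨ dir P i = (-1,0,0) ∨ dir P i = (0,0,1) := by
    intro i h1 h2
    by_cases h3 : i ≤ -1
    · exact Or.inl (dir_R hP h1 h3)
    · by_cases h4 : i ≤ 11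
      · exact Or.inr (Or.inl (dir_F hP (by omega) h4))
      · exact Or.inr (Or.inr (dir_L hP (by omega) h2))
  have hbk : ∀ k : ℕ, k ≤ 15 → b (-2 + k) = (0,1,0) := by
    intro k
    induction k with
    | zero => intro _; simpa using hb0
    | succ k ih =>
      intro hk
      have h1 := ih (by omega)
      have e : (-2 + ((k+1 : ℕ) : ℤ)) = (-2 + (k:ℤ)) + 1 := by push_cast; ring
      rw [e, hbr, h1]
      rcases dd (-2 + (k:ℤ) + 1) (by omega) (by omega) with h | h | h <;> rw [h] <;> simp [dot]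
  have hn1 : n (-1) = (1,0,0) := by
    have := hnr (-2)
    norm_num at this
    rw [this, hn0, dir_R hP (by norm_num) (by norm_num)]
    simp [dot]
  have hn2 : n 0 = (0,0,-1) := by
    have := hnr (-1)
    norm_num at this
    rw [this, hn1, dir_R hP (i := -1) (by norm_num) (by norm_num), dir_F hP (i := 0) (by norm_num) (by norm_num)]
    simp [dot]
  have hnk : ∀ k : ℕ, k ≤ 11 → n k = (0,0,-1) := by
    intro k
    induction k with
    | zero => intro _; simpa using hn2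
    | succ k ih =>
      intro hk
      have h1 := ih (by omega)
      have e : ((k+1 : ℕ) : ℤ) = (k:ℤ) + 1 := by push_cast; ring
      rw [e, hnr, h1, dir_F hP (i := (k:ℤ)+1) (by omega) (by omega)]
      simp [dot]
  have hn12 : n 12 = (-1,0,0) := by
    have := hnr 11
    norm_num at this
    have h11 : n 11 = (0,0,-1) := by simpa using hnk 11 le_rfl
    rw [this, h11, dir_F hP (i := 11) (by norm_num) (by norm_num), dir_L hP (i := 12) (by norm_num) (by norm_num)]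
    simp [dot]
    rfl
  have hn13 : n 13 = (-1,0,0) := by
    have := hnr 12
    norm_num at this
    rw [this, hn12, dir_L hP (i := 12) (by norm_num) (by norm_num), dir_L hP (i := 13) (by norm_num) (by norm_num)]
    simp [dot]
  have hb13 : b 13 = (0,1,0) := by simpa using hbk 15 le_rfl
  have hbaseR : ∀ θ : ℝ, θ ∈ Icc (0:ℝ) 1 → ∀ s : ℝ × ℝ,
      Ψ (-2 + θ, s) = (6 + s.1/4, s.2/4, -13 - θ) := by
    intro θ hθ s
    have d1 := dir_R hP (i := -2-1) (by norm_num) (by norm_num)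
    have d2 := dir_R hP (i := -2) (by norm_num) (by norm_num)
    have d3 := dir_R hP (i := -2+1) (by norm_num) (by norm_num)
    have := hst (-2) (by rw [d1, d2]) (by rw [d3, d2]) θ hθ s
    rw [hn0, hb0, d2, hP.vertR (-2) (by norm_num) (by norm_num)] at this
    push_cast at this
    rw [this]
    ext <;> simp [cast3] <;> ring
  have hbaseL : ∀ θ : ℝ, θ ∈ Icc (0:ℝ) 1 → ∀ s : ℝ × ℝ,
      Ψ (13 + θ, s) = (-6 - s.1/4, s.2/4, -14 + θ) := by
    intro θ hθ s
    have d1 := dir_L hP (i := 13-1) (by norm_num) (by norm_num)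
    have d2 := dir_L hP (i := 13) (by norm_num) (by norm_num)
    have d3 := dir_L hP (i := 13+1) (by norm_num) (by norm_num)
    have := hst 13 (by rw [d1, d2]) (by rw [d3, d2]) θ hθ s
    rw [hn13, hb13, d2, hP.vertL 13 (by norm_num) (by norm_num)] at this
    push_cast at this
    rw [this]
    ext <;> simp [cast3] <;> ring
  have cR := fun {τ : ℝ} (hτ : τ ≤ -5/4) {s : ℝ × ℝ} (hs : s ∈ Sq) => (clsR hP hbd hbaseR hτ hs).cls
  have cL := fun {τ : ℝ} (hτ : 53/4 ≤ τ) {s : ℝ × ℝ} (hs : s ∈ Sq) => (clsL hP hbd hbaseL hτ hs).cls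
  refine ⟨fun e => if e then fun p => hmap (Ψ (-3/2 - p.1, p.2)) else
      fun p => hmap (Ψ (27/2 + p.1, (-p.2.1, p.2.2))),
    fun e => if e then ((-9 : ℝ), (0:ℝ), (0:ℝ)) else ((9 : ℝ), (0:ℝ), (0:ℝ)), by simp, by simp,
    ?_, ?_, ?_, ?_, ?_, ?_, ?_, ?_, ?_⟩
  · -- continuity
    rintro (_ | _)
    · simp only [Bool.false_eq_true, if_false]
      exact (hmap_cont.comp (hc.comp (by fun_prop))).continuousOn
    · simp only [if_true]
      exact (hmap_cont.comp (hc.comp (by fun_prop))).continuousOn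
  · -- injectivity
    rintro (_ | _)
    · simp only [Bool.false_eq_true, if_false]
      rintro ⟨t, s⟩ ⟨ht, hs⟩ ⟨t', s'⟩ ⟨ht', hs'⟩ h
      have h1 := hi' (27/2 + t, (-s.1, s.2)) (27/2 + t', (-s'.1, s'.2)) (sq_neg hs) (sq_neg hs')
        (hmap_inj h)
      simp only [Prod.mk.injEq, add_right_inj, neg_inj] at h1
      exact Prod.ext h1.1 (Prod.ext h1.2.1 h1.2.2)
    · simp only [if_true]
      rintro ⟨t, s⟩ ⟨ht, hs⟩ ⟨t', s'⟩ ⟨ht', hs'⟩ h
      have h1 := hi' (-3/2 - t, s) (-3/2 - t', s') hs hs' (hmap_inj h)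
      simp only [Prod.mk.injEq, sub_right_inj] at h1
      exact Prod.ext h1.1 h1.2
  · -- base formula
    rintro (_ | _) t ⟨ht0, ht1⟩ s hs
    · simp only [Bool.false_eq_true, if_false, sg]
      have h1 := hbaseL (1/2 + t) ⟨by linarith, by linarith⟩ (-s.1, s.2)
      have e : (13 : ℝ) + (1/2 + t) = 27/2 + t := by ring
      rw [e] at h1
      obtain ⟨⟨a1, a2⟩, -⟩ := hs
      rw [h1, hmap_id]
      · ext <;> simp <;> ring
      · simp only
        rw [abs_le]; constructor <;> linarith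
    · simp only [if_true, sg]
      have h1 := hbaseR (1/2 - t) ⟨by linarith, by linarith⟩ s
      have e : (-2 : ℝ) + (1/2 - t) = -3/2 - t := by ring
      rw [e] at h1
      obtain ⟨⟨a1, a2⟩, -⟩ := hs
      rw [h1, hmap_id]
      · ext <;> simp <;> ring
      · simp only
        rw [abs_le]; constructor <;> linarith
  · -- tips
    rintro (_ | _) ε hε
    · simp only [Bool.false_eq_true, if_false]
      obtain ⟨B, hB⟩ := exists_int_gt (30/ε + 9)
      obtain ⟨N, hN⟩ := hP.growth B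
      refine ⟨max N 25, fun t ht s hs => ?_⟩
      have ht1 : (N:ℝ) ≤ t := (le_max_left _ _).trans ht
      have ht2 : (25:ℝ) ≤ t := (le_max_right _ _).trans ht
      set τ : ℝ := 27/2 + t with hτ
      have hfl : ((⌊τ⌋ : ℤ) : ℝ) + Int.fract τ = τ := Int.floor_add_fract τ
      have hθ : Int.fract τ ∈ Icc (0:ℝ) 1 := ⟨Int.fract_nonneg _, (Int.fract_lt_one _).le⟩
      have hiN : N ≤ ⌊τ⌋ := Int.le_floor.2 (by linarith)
      have hi25 : 25 ≤ ⌊τ⌋ := Int.le_floor.2 (by push_cast; linarith)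
      obtain ⟨n1, -, -⟩ := near hbd ⌊τ⌋ _ hθ _ (sq_neg hs)
      have hf := far hP hbd ⌊τ⌋ (Or.inr hi25) _ hθ _ (sq_neg hs)
      rw [hfl] at n1 hf
      have g1 : (B:ℝ) ≤ (P ⌊τ⌋).1 := by exact_mod_cast (hN _ hiN).1
      have g2 : (B:ℝ) ≤ (P (⌊τ⌋+1)).1 := by exact_mod_cast (hN _ (by omega)).1
      have := convex_ge g1 g2 hθ.1 hθ.2 n1
      exact tip_right hε (by linarith) hf.1 hf.2
    · simp only [if_true]
      obtain ⟨B, hB⟩ := exists_int_gt (30/ε + 9)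
      obtain ⟨N, hN⟩ := hP.growth B
      refine ⟨max N 25, fun t ht s hs => ?_⟩
      have ht1 : (N:ℝ) ≤ t := (le_max_left _ _).trans ht
      have ht2 : (25:ℝ) ≤ t := (le_max_right _ _).trans ht
      set τ : ℝ := -3/2 - t with hτ
      have hfl : ((⌊τ⌋ : ℤ) : ℝ) + Int.fract τ = τ := Int.floor_add_fract τ
      have hθ : Int.fract τ ∈ Icc (0:ℝ) 1 := ⟨Int.fract_nonneg _, (Int.fract_lt_one _).le⟩
      have hiN : ⌊τ⌋ + 1 ≤ -N := by
        have : (⌊τ⌋:ℝ) < -N - 1 := by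
          have := Int.floor_le τ
          linarith
        have : ⌊τ⌋ < -N - 1 := by exact_mod_cast this
        omega
      have hi25 : ⌊τ⌋ ≤ -14 := by
        have : (⌊τ⌋:ℝ) < -14 := by
          have := Int.floor_le τ
          linarith
        have : ⌊τ⌋ < -14 := by exact_mod_cast this
        omega
      obtain ⟨n1, -, -⟩ := near hbd ⌊τ⌋ _ hθ _ hs
      have hf := far hP hbd ⌊τ⌋ (Or.inl hi25) _ hθ _ hs
      rw [hfl] at n1 hf
      have g1 : ((P ⌊τ⌋).1 : ℝ) ≤ ((-B : ℤ) : ℝ) := by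
        have := (hN (-⌊τ⌋) (by omega)).2
        rw [neg_neg] at this
        exact_mod_cast this
      have g2 : ((P (⌊τ⌋+1)).1 : ℝ) ≤ ((-B : ℤ) : ℝ) := by
        have := (hN (-(⌊τ⌋+1)) (by omega)).2
        rw [neg_neg] at this
        exact_mod_cast this
      have := convex_le g1 g2 hθ.1 hθ.2 n1
      push_cast at this
      exact tip_left hε (by linarith) hf.1 hf.2
  · -- first coordinate
    rintro (_ | _) t ht s hs
    · simp only [Bool.false_eq_true, if_false]; exact hmap_fst_lt _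
    · simp only [if_true]; exact hmap_fst_lt _
  · -- third coordinate
    have key : ∀ q : R3, |q.2.2| ≤ 13/4 → -27/2 < (hmap q).2.2 := by
      intro q hq
      rw [hmap_trd, lt_div_iff₀ (mu_pos _)]
      have := mu_ge q.1
      rw [abs_le] at hq
      nlinarith [hq.1]
    rintro (_ | _) t ht s hs
    · simp only [Bool.false_eq_true, if_false]
      obtain ⟨⟨a1, a2⟩, -⟩ := id hs
      rcases cL (τ := 27/2 + t) (by linarith) (sq_neg hs) with ⟨h1, h2⟩ | ⟨h1, h2, h3, h4, h5, h6⟩ | ⟨h1, h2, h3⟩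
      · rw [h2, hmap_id]
        · simp only; linarith
        · simp only
          rw [abs_le]; constructor <;> linarith
      · rw [hmap_id]
        · linarith
        · rw [abs_le]; constructor <;> linarith
      · exact key _ h3
    · simp only [if_true]
      obtain ⟨⟨a1, a2⟩, -⟩ := id hs
      rcases cR (τ := -3/2 - t) (by linarith) hs with ⟨h1, h2⟩ | ⟨h1, h2, h3, h4, h5, h6⟩ | ⟨h1, h2, h3⟩
      · rw [h2, hmap_id]
        · simp only; linarith
        · simp only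
          rw [abs_le]; constructor <;> linarith
      · rw [hmap_id]
        · linarith
        · rw [abs_le]; constructor <;> linarith
      · exact key _ h3
  · -- region
    rintro (_ | _) t ht s hs
    · simp only [Bool.false_eq_true, if_false]
      obtain ⟨⟨a1, a2⟩, a3, a4⟩ := id hs
      rcases cL (τ := 27/2 + t) (by linarith) (sq_neg hs) with ⟨h1, h2⟩ | ⟨h1, h2, h3, h4, h5, h6⟩ | ⟨h1, h2, h3⟩
      · right
        rw [h2]
        apply hmap_DetR <;> simp only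
        · rw [abs_of_neg (by linarith)]; linarith
        · rw [abs_of_neg (by linarith)]; linarith
        · rw [abs_le]; constructor <;> linarith
        · linarith
        · linarith
      · right
        apply hmap_DetR
        · rw [abs_of_neg (by linarith)]; linarith
        · rw [abs_of_neg (by linarith)]; linarith
        · exact h4
        · linarith
        · linarith
      · left; exact hmap_SigmaR h2 h3
    · simp only [if_true]
      obtain ⟨⟨a1, a2⟩, a3, a4⟩ := id hs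
      rcases cR (τ := -3/2 - t) (by linarith) hs with ⟨h1, h2⟩ | ⟨h1, h2, h3, h4, h5, h6⟩ | ⟨h1, h2, h3⟩
      · right
        rw [h2]
        apply hmap_DetR <;> simp only
        · rw [abs_of_pos (by linarith)]; linarith
        · rw [abs_of_pos (by linarith)]; linarith
        · rw [abs_le]; constructor <;> linarith
        · linarith
        · linarith
      · right
        apply hmap_DetR
        · rw [abs_of_pos (by linarith)]; linarith
        · rw [abs_of_pos (by linarith)]; linarith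
        · exact h4
        · linarith
        · linarith
      · left; exact hmap_SigmaR h2 h3
  · -- disjointness
    intro t ht s hs t' ht' s' hs' h
    simp only [Bool.false_eq_true, if_false, if_true] at h
    have h1 := hi' (-3/2 - t, s) (27/2 + t', (-s'.1, s'.2)) hs (sq_neg hs') (hmap_inj h)
    simp only [Prod.mk.injEq] at h1
    linarith [h1.1]
  · -- covering
    rintro x (⟨hx1, hx2⟩ | hx)
    · obtain ⟨k, θ, t0, t1, hk⟩ := hx2
      right
      have h1 : Ψ ((k:ℝ) + θ, 0, 0) = lift x := by rw [hk]; exact hcen k θ ⟨t0, t1⟩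
      have h2 : x = hmap (Ψ ((k:ℝ) + θ, 0, 0)) := by rw [h1, hmap_lift hx1]
      by_cases hA : (k:ℝ) + θ ≤ -5/4
      · left
        refine ⟨true, -3/2 - ((k:ℝ) + θ), by linarith, ?_⟩
        simp only [if_true]
        rw [h2]; congr 3; ring
      · by_cases hB : 53/4 ≤ (k:ℝ) + θ
        · left
          refine ⟨false, ((k:ℝ) + θ) - 27/2, by linarith, ?_⟩
          simp only [Bool.false_eq_true, if_false, neg_zero]
          rw [h2]; congr 3; ring
        · right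
          push Not at hA hB
          have k1 : -2 ≤ k - 0 := by
            have : (-3:ℝ) < k := by linarith
            have : (-3:ℤ) < k := by exact_mod_cast this
            omega
          have k2 : k ≤ 13 := by
            have : (k:ℝ) < 14 := by linarith
            have : k < (14:ℤ) := by exact_mod_cast this
            omega
          rw [h2, h1, hk]
          by_cases c1 : k ≤ -1
          · have e : cast3 (P k) + θ • cast3 (dir P k) = ((6:ℝ), (0:ℝ), -15 - ((k:ℝ)+θ)) := by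
              rw [dir_R hP (by omega) c1, hP.vertR k (by omega) (by omega)]
              ext <;> simp [cast3] <;> ring
            rw [e, hmap_id (by simp only; norm_num [abs_of_pos])]
            have : (k:ℝ) ≤ -1 := by exact_mod_cast c1
            refine ⟨by simp only; norm_num [abs_of_pos], rfl, by simp only; linarith, by simp only; linarith⟩
          · by_cases c2 : k ≤ 11
            · have e : cast3 (P k) + θ • cast3 (dir P k) = ((6:ℝ) - ((k:ℝ)+θ), (0:ℝ), (-15:ℝ)) := by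
                rw [dir_F hP (by omega) c2, hP.floor k (by omega) (by omega)]
                ext <;> simp [cast3] <;> ring
              have g1 : (k:ℝ) ≤ 11 := by exact_mod_cast c2
              have g2 : (0:ℝ) ≤ k := by exact_mod_cast (by omega : (0:ℤ) ≤ k)
              have g3 : |(6:ℝ) - ((k:ℝ)+θ)| ≤ 6 := by rw [abs_le]; constructor <;> linarith
              rw [e, hmap_id (by simp only; linarith)]
              refine ⟨g3, rfl, le_rfl, by simp only; norm_num⟩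
            · have e : cast3 (P k) + θ • cast3 (dir P k) = ((-6:ℝ), (0:ℝ), ((k:ℝ)+θ) - 27) := by
                rw [dir_L hP (by omega) (by omega), hP.vertL k (by omega) (by omega)]
                ext <;> simp [cast3] <;> ring
              have g2 : (12:ℝ) ≤ k := by exact_mod_cast (by omega : (12:ℤ) ≤ k)
              rw [e, hmap_id (by simp only; norm_num [abs_of_pos])]
              refine ⟨by simp only; norm_num [abs_of_pos], rfl, by simp only; linarith, by simp only; linarith⟩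
    · left
      rcases hx with hx | hx
      · exact ⟨false, by simpa using hx⟩
      · exact ⟨true, by simpa using hx⟩

end Pool.Agent.Helper607.Wild
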