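import Pool.Agent.Helper607.Wild.Tables
set_option autoImplicit false

namespace Pool.Agent.Helper607.Wild.Tab

theorem chkO_all : ((List.range 26).all chkO) = true := by decide +kernel
theorem chkH_all : ((List.range 12).all fun s => chkH (s + 2)) = true := by decide +kernel
theorem chkS_last : chkS 25 0 = true := by decide +kernel
theorem chkS_all : ((List.range 26).all fun s => chkS s (nx s)) = true := by decide +kernel

/-! decoding of permutations -/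

def fF (c : Fin 64) (i : Fin 5) : Fin 5 :=
  ⟨(fwdT >>> (3 * (5 * c.val + i.val))) % 8 % 5, Nat.mod_lt _ (by norm_num)⟩
def bF (c : Fin 64) (i : Fin 5) : Fin 5 :=
  ⟨(bwdT >>> (3 * (5 * c.val + i.val))) % 8 % 5, Nat.mod_lt _ (by norm_num)⟩

theorem bF_fF : ∀ (c : Fin 64) (i : Fin 5), bF c (fF c i) = i := by decide +kernel
theorem fF_bF : ∀ (c : Fin 64) (i : Fin 5), fF c (bF c i) = i := by decide +kernel

def permF (c : Fin 64) : Equiv.Perm (Fin 5) := ⟨fF c, bF c, bF_fF c, fF_bF c⟩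

def decF (c : ℕ) : Equiv.Perm (Fin 5) := permF ⟨c % 64, Nat.mod_lt _ (by norm_num)⟩

def dec (c : ℕ) : Equiv.Perm (ZMod 5) := decF c

theorem dv_tab : ∀ (x y : Fin 64) (i : Fin 5),
    fF ⟨dv x.val y.val % 64, Nat.mod_lt _ (by norm_num)⟩ i = fF x (bF y i) := by decide +kernel

theorem decF_dv (x y : ℕ) (hx : x < 64) (hy : y < 64) : decF (dv x y) = decF x * (decF y)⁻¹ := by
  apply Equiv.ext
  intro i
  have h := dv_tab ⟨x, hx⟩ ⟨y, hy⟩ i
  simp only [decF, Nat.mod_eq_of_lt hx, Nat.mod_eq_of_lt hy]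
  exact h

theorem dec_dv (x y : ℕ) (hx : x < 64) (hy : y < 64) : dec (dv x y) = dec x * (dec y)⁻¹ :=
  decF_dv x y hx hy

theorem dec_zero : dec 0 = 1 := by
  show decF 0 = 1
  apply Equiv.ext
  intro i
  revert i
  decide +kernel

theorem dec_gcode : dec gcode = Equiv.addRight 1 := by
  show decF gcode = (Equiv.addRight (1 : Fin 5))
  apply Equiv.ext
  intro i
  revert i
  decide +kernel

theorem dec_gicode : dec gicode = (Equiv.addRight 1)⁻¹ := by
  show decF gicode = (Equiv.addRight (1 : Fin 5))⁻¹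
  apply Equiv.ext
  intro i
  revert i
  decide +kernel

/-! soundness of the checks -/

def off (a : ℕ) : Z3 := (((a % 2 : ℕ) : ℤ), ((a / 2 % 2 : ℕ) : ℤ), ((a / 4 % 2 : ℕ) : ℤ))

def crn (q v : Z3) : ℕ :=
  (if v.1 = q.1 then 0 else 1) + (if v.2.1 = q.2.1 then 0 else 2) +
    (if v.2.2 = q.2.2 then 0 else 4)

def rho (v w : Z3) : Equiv.Perm (ZMod 5) :=
  dec (gcd' (min v.1 w.1, min v.2.1 w.2.1, min v.2.2 w.2.2)
      (crn (min v.1 w.1, min v.2.1 w.2.1, min v.2.2 w.2.2) w)) *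
  (dec (gcd' (min v.1 w.1, min v.2.1 w.2.1, min v.2.2 w.2.2)
      (crn (min v.1 w.1, min v.2.1 w.2.1, min v.2.2 w.2.2) v)))⁻¹

/-- membership of a lattice point in the closed unit cube with minimal corner `q` -/
def inCube (q v : Z3) : Prop :=
  (v.1 = q.1 ∨ v.1 = q.1 + 1) ∧ (v.2.1 = q.2.1 ∨ v.2.1 = q.2.1 + 1) ∧
    (v.2.2 = q.2.2 ∨ v.2.2 = q.2.2 + 1)

theorem inCube_off {q v : Z3} (h : inCube q v) : ∃ a, a < 8 ∧ v = q + off a := by
  obtain ⟨x, y, z⟩ := v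
  obtain ⟨p, r, s⟩ := q
  obtain ⟨h1, h2, h3⟩ := h
  simp only at h1 h2 h3
  rcases h1 with h1 | h1 <;> rcases h2 with h2 | h2 <;> rcases h3 with h3 | h3 <;> subst h1 h2 h3
  · exact ⟨0, by norm_num, by simp [off]⟩
  · exact ⟨4, by norm_num, by simp [off]⟩
  · exact ⟨2, by norm_num, by simp [off]⟩
  · exact ⟨6, by norm_num, by simp [off]⟩
  · exact ⟨1, by norm_num, by simp [off]⟩
  · exact ⟨5, by norm_num, by simp [off]⟩
  · exact ⟨3, by norm_num, by simp [off]⟩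
  · exact ⟨7, by norm_num, by simp [off]⟩

theorem gb_lt (s Y Z a : ℕ) : gb s Y Z a < 64 := Nat.mod_lt _ (by norm_num)

theorem gcd'_lt (q : Z3) (a : ℕ) : gcd' q a < 64 := by
  unfold gcd' gb
  split_ifs
  · exact Nat.mod_lt _ (by norm_num)
  · norm_num

theorem rho_off (q : Z3) (a b : ℕ) (ha : a < 8) (hb : b < 8) :
    rho (q + off a) (q + off b) =
      dec (gcd' (q + off (a &&& b)) (b - (a &&& b))) *
      (dec (gcd' (q + off (a &&& b)) (a - (a &&& b))))⁻¹ := by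
  obtain ⟨x, y, z⟩ := q
  have key : ∀ a b : ℕ, a < 8 → b < 8 →
      ((min ((x, y, z) + off a : Z3).1 ((x, y, z) + off b : Z3).1,
        min ((x, y, z) + off a : Z3).2.1 ((x, y, z) + off b : Z3).2.1,
        min ((x, y, z) + off a : Z3).2.2 ((x, y, z) + off b : Z3).2.2) : Z3) =
        (x, y, z) + off (a &&& b) := by
    intro a b ha hb
    interval_cases a <;> interval_cases b <;>
      simp [off]
  have key2 : ∀ a b : ℕ, a < 8 → b < 8 →
      crn ((x, y, z) + off (a &&& b)) ((x, y, z) + off b) = b - (a &&& b) := by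
    intro a b ha hb
    interval_cases a <;> interval_cases b <;> simp [off, crn]
  have key3 : crn ((x, y, z) + off (a &&& b)) ((x, y, z) + off a) = a - (a &&& b) := by
    have := key2 b a hb ha
    rwa [Nat.and_comm] at this
  unfold rho
  rw [key a b ha hb, key2 a b ha hb, key3]

theorem sl_lt (x : ℤ) : sl x < 26 := by unfold sl; split_ifs <;> omega

theorem sl_succ (x : ℤ) : (sl (x + 1) = nx (sl x)) ∨ (sl x = 25 ∧ sl (x + 1) = 0) := by
  unfold nx sl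
  split_ifs <;> omega

theorem chkS_sl (x : ℤ) : chkS (sl x) (sl (x + 1)) = true := by
  rcases sl_succ x with h | ⟨h, h'⟩
  · rw [h]
    have := chkS_all
    rw [List.all_eq_true] at this
    exact this (sl x) (List.mem_range.2 (sl_lt x))
  · rw [h, h']; exact chkS_last

theorem gb_of_blk (s Y Z a : ℕ) (ha : a < 8) (h : blk s Y Z = 0) : gb s Y Z a = 0 := by
  unfold blk at h
  unfold gb
  have e : 6 * ((Y * 22 + Z) * 8 + a) = 48 * (Y * 22 + Z) + 6 * a := by ring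
  rw [e, Nat.shiftRight_add]
  generalize (gT s >>> (48 * (Y * 22 + Z))) = n at h
  interval_cases a <;> simp only [Nat.shiftRight_eq_div_pow] <;> omega

theorem prs_mem (a b : ℕ) (ha : a < 8) (hb : b < 8) (h : a &&& b ≠ 0) : (a, b) ∈ prs := by
  unfold prs
  rw [List.mem_flatMap]
  refine ⟨a, List.mem_range.2 ha, ?_⟩
  rw [List.mem_map]
  refine ⟨b, ?_, rfl⟩
  rw [List.mem_filter]
  refine ⟨List.mem_range.2 hb, ?_⟩
  simpa using h

theorem chkO_sl (x : ℤ) (Y Z : ℕ) (hY : Y < 9) (hZ : Z < 22)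
    (h : 7 ≤ Y ∨ Y = 0 ∨ 20 ≤ Z ∨ (Z ≤ 13 ∧ ¬ (1 ≤ sl x ∧ sl x ≤ 14 ∧ 3 ≤ Y ∧ Y ≤ 4 ∧ 1 ≤ Z))) :
    blk (sl x) Y Z = 0 := by
  have := chkO_all
  rw [List.all_eq_true] at this
  have h1 := this (sl x) (List.mem_range.2 (sl_lt x))
  unfold chkO at h1
  rw [List.all_eq_true] at h1
  have h2 := h1 Y (List.mem_range.2 hY)
  rw [List.all_eq_true] at h2
  have h3 := h2 Z (List.mem_range.2 hZ)
  simp only [Bool.or_eq_true, Bool.not_eq_true', Bool.or_eq_false_iff, decide_eq_false_iff_not,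
    Bool.and_eq_false_iff, Bool.not_eq_false', Bool.and_eq_true, decide_eq_true_eq,
    beq_iff_eq] at h3
  omega

theorem gcd'_outer (q : Z3) (a : ℕ) (ha : a < 8)
    (h : 3 ≤ q.2.1 ∨ q.2.1 ≤ -4 ∨ 3 ≤ q.2.2 ∨ q.2.2 ≤ -4)
    (h' : ¬ (-7 ≤ q.1 ∧ q.1 ≤ 6 ∧ -1 ≤ q.2.1 ∧ q.2.1 ≤ 0 ∧ -16 ≤ q.2.2 ∧ q.2.2 ≤ -4)) :
    gcd' q a = 0 := by
  obtain ⟨x, y, z⟩ := q
  simp only at h h'
  unfold gcd'
  simp only
  split_ifs with hB
  · simp only [inB, Bool.and_eq_true, decide_eq_true_eq] at hB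
    apply gb_of_blk _ _ _ _ ha
    apply chkO_sl
    · omega
    · omega
    · unfold sl; split_ifs <;> omega
  · rfl

theorem key (q : Z3) (a b : ℕ) (ha : a < 8) (hb : b < 8) (hm : a &&& b ≠ 0)
    (hKa : isK (q + off a) = false) (hKb : isK (q + off b) = false) :
    dv (gcd' q b) (gcd' q a) =
      dv (gcd' (q + off (a &&& b)) (b - (a &&& b))) (gcd' (q + off (a &&& b)) (a - (a &&& b))) := by
  obtain ⟨x, y, z⟩ := q
  have hmlt : a &&& b < 8 := lt_of_le_of_lt Nat.and_le_left ha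
  by_cases hr : -4 ≤ y ∧ y ≤ 3 ∧ -17 ≤ z ∧ z ≤ 3
  · obtain ⟨hy1, hy2, hz1, hz2⟩ := hr
    obtain ⟨Y, rfl⟩ : ∃ Y : ℕ, y = (Y : ℤ) - 4 := ⟨(y + 4).toNat, by omega⟩
    obtain ⟨Z, rfl⟩ : ∃ Z : ℕ, z = (Z : ℤ) - 17 := ⟨(z + 17).toNat, by omega⟩
    have hY : Y < 8 := by omega
    have hZ : Z < 21 := by omega
    have hsel : ∀ m : ℕ, m < 8 → sl (x + ((m % 2 : ℕ) : ℤ)) = sel (sl x) (sl (x + 1)) m := by
      intro m hm
      unfold sel
      rcases Nat.mod_two_eq_zero_or_one m with h | h <;> simp [h]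
    have hG : ∀ m c : ℕ, m < 8 → gcd' ((x, (Y : ℤ) - 4, (Z : ℤ) - 17) + off m) c =
        gb (sel (sl x) (sl (x + 1)) m) (Y + m / 2 % 2) (Z + m / 4 % 2) c := by
      intro m c hm
      have e1 : ((x, (Y : ℤ) - 4, (Z : ℤ) - 17) + off m : Z3) =
          (x + ((m % 2 : ℕ) : ℤ), ((Y + m / 2 % 2 : ℕ) : ℤ) - 4, ((Z + m / 4 % 2 : ℕ) : ℤ) - 17) := by
        simp only [off, Prod.mk_add_mk, Nat.cast_add]
        ext <;> simp <;> ring
      rw [e1]
      unfold gcd'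
      simp only
      rw [if_pos]
      · rw [hsel m hm]
        congr 1 <;> omega
      · simp only [inB, Bool.and_eq_true, decide_eq_true_eq]
        omega
    have hK : ∀ m : ℕ, m < 8 → isK ((x, (Y : ℤ) - 4, (Z : ℤ) - 17) + off m) =
        kb (sel (sl x) (sl (x + 1)) m) (Y + m / 2 % 2) (Z + m / 4 % 2) := by
      intro m hm
      have e1 : ((x, (Y : ℤ) - 4, (Z : ℤ) - 17) + off m : Z3) =
          (x + ((m % 2 : ℕ) : ℤ), ((Y + m / 2 % 2 : ℕ) : ℤ) - 4, ((Z + m / 4 % 2 : ℕ) : ℤ) - 17) := by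
        simp only [off, Prod.mk_add_mk, Nat.cast_add]
        ext <;> simp <;> ring
      rw [e1]
      unfold isK
      simp only
      have : inB (((Y + m / 2 % 2 : ℕ) : ℤ) - 4) (((Z + m / 4 % 2 : ℕ) : ℤ) - 17) = true := by
        simp only [inB, Bool.and_eq_true, decide_eq_true_eq]
        omega
      rw [this, hsel m hm, Bool.true_and]
      congr 1 <;> omega
    have hG0 : ∀ c : ℕ, gcd' (x, (Y : ℤ) - 4, (Z : ℤ) - 17) c = gb (sl x) Y Z c := by
      intro c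
      have := hG 0 c (by norm_num)
      simpa [off, sel] using this
    rw [hG0, hG0, hG _ _ hmlt, hG _ _ hmlt]
    rw [hK a ha] at hKa
    rw [hK b hb] at hKb
    have hc : chkC (sl x) (sl (x + 1)) Y Z = true := by
      have := chkS_sl x
      unfold chkS at this
      rw [List.all_eq_true] at this
      have h2 := this Y (List.mem_range.2 hY)
      rw [List.all_eq_true] at h2
      exact h2 Z (List.mem_range.2 hZ)
    unfold chkC at hc
    rw [Bool.or_eq_true] at hc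
    rcases hc with hc | hc
    · simp only [Bool.and_eq_true, beq_iff_eq] at hc
      obtain ⟨⟨⟨⟨⟨⟨⟨c1, c2⟩, c3⟩, c4⟩, c5⟩, c6⟩, c7⟩, c8⟩ := hc
      have hz : ∀ m c : ℕ, m < 8 → c < 8 →
          gb (sel (sl x) (sl (x + 1)) m) (Y + m / 2 % 2) (Z + m / 4 % 2) c = 0 := by
        intro m c hm hc
        apply gb_of_blk _ _ _ _ hc
        interval_cases m <;> simpa [sel]
      rw [gb_of_blk _ _ _ _ hb c1, gb_of_blk _ _ _ _ ha c1,
        hz _ _ hmlt (lt_of_le_of_lt (Nat.sub_le _ _) hb),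
        hz _ _ hmlt (lt_of_le_of_lt (Nat.sub_le _ _) ha)]
    · rw [List.all_eq_true] at hc
      have := hc (a, b) (prs_mem a b ha hb hm)
      simp only at this
      rw [hKa, hKb] at this
      simpa using this
  · have h1 : ∀ c : ℕ, c < 8 → gcd' (x, y, z) c = 0 := by
      intro c hc
      apply gcd'_outer _ _ hc
      · simp only; omega
      · simp only; omega
    have h2 : ∀ c : ℕ, c < 8 → gcd' ((x, y, z) + off (a &&& b)) c = 0 := by
      intro c hc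
      apply gcd'_outer _ _ hc
      · simp only [off, Prod.mk_add_mk]; omega
      · simp only [off, Prod.mk_add_mk]; omega
    rw [h1 _ ha, h1 _ hb, h2 _ (lt_of_le_of_lt (Nat.sub_le _ _) hb),
      h2 _ (lt_of_le_of_lt (Nat.sub_le _ _) ha)]

theorem rho_cube (q : Z3) (a b : ℕ) (ha : a < 8) (hb : b < 8)
    (hKa : isK (q + off a) = false) (hKb : isK (q + off b) = false) :
    rho (q + off a) (q + off b) = dec (gcd' q b) * (dec (gcd' q a))⁻¹ := by
  rw [rho_off q a b ha hb]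
  by_cases hm : a &&& b = 0
  · have e0 : q + off 0 = q := by
      obtain ⟨x, y, z⟩ := q
      simp [off]
    rw [hm, e0]; simp
  · rw [← dec_dv _ _ (gcd'_lt _ _) (gcd'_lt _ _), ← key q a b ha hb hm hKa hKb,
      dec_dv _ _ (gcd'_lt _ _) (gcd'_lt _ _)]

/-- side transition through the hole -/
def kap (v : Z3) : Equiv.Perm (ZMod 5) := if 0 ≤ v.2.1 then 1 else Equiv.addRight 1

theorem rho_flat (q u v w : Z3) (hu : inCube q u) (hv : inCube q v) (hw : inCube q w)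
    (hKu : isK u = false) (hKv : isK v = false) (hKw : isK w = false) :
    rho v w * rho u v = rho u w := by
  obtain ⟨a, ha, rfl⟩ := inCube_off hu
  obtain ⟨b, hb, rfl⟩ := inCube_off hv
  obtain ⟨c, hc, rfl⟩ := inCube_off hw
  rw [rho_cube q b c hb hc hKv hKw, rho_cube q a b ha hb hKu hKv, rho_cube q a c ha hc hKu hKw]
  group

theorem rho_outer (q v w : Z3) (hv : inCube q v) (hw : inCube q w)
    (hKv : isK v = false) (hKw : isK w = false)
    (h : 3 ≤ q.2.1 ∨ q.2.1 ≤ -4 ∨ 3 ≤ q.2.2 ∨ q.2.2 ≤ -4)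
    (h' : ¬ (-7 ≤ q.1 ∧ q.1 ≤ 6 ∧ -1 ≤ q.2.1 ∧ q.2.1 ≤ 0 ∧ -16 ≤ q.2.2 ∧ q.2.2 ≤ -4)) :
    rho v w = 1 := by
  obtain ⟨b, hb, rfl⟩ := inCube_off hv
  obtain ⟨c, hc, rfl⟩ := inCube_off hw
  rw [rho_cube q b c hb hc hKv hKw, gcd'_outer q b hb h h', gcd'_outer q c hc h h', dec_zero]
  simp

theorem rho_hole (q v w : Z3) (hv : inCube q v) (hw : inCube q w)
    (hKv : isK v = false) (hKw : isK w = false)
    (h1 : -6 ≤ q.1) (h2 : q.1 ≤ 5) (h3 : -2 ≤ q.2.1) (h4 : q.2.1 ≤ 1) (h5 : -15 ≤ q.2.2)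
    (h6 : q.2.2 ≤ -4) : rho v w = kap w * (kap v)⁻¹ := by
  obtain ⟨b, hb, rfl⟩ := inCube_off hv
  obtain ⟨c, hc, rfl⟩ := inCube_off hw
  rw [rho_cube q b c hb hc hKv hKw]
  obtain ⟨x, y, z⟩ := q
  simp only at h1 h2 h3 h4 h5 h6
  obtain ⟨X, rfl⟩ : ∃ X : ℕ, x = (X : ℤ) - 6 := ⟨(x + 6).toNat, by omega⟩
  obtain ⟨Y, rfl⟩ : ∃ Y : ℕ, y = (Y : ℤ) - 2 := ⟨(y + 2).toNat, by omega⟩
  obtain ⟨Z, rfl⟩ : ∃ Z : ℕ, z = (Z : ℤ) - 15 := ⟨(z + 15).toNat, by omega⟩
  have hX : X < 12 := by omega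
  have hY : Y < 4 := by omega
  have hZ : Z < 12 := by omega
  have hK : ∀ m : ℕ, m < 8 → isK (((X : ℤ) - 6, (Y : ℤ) - 2, (Z : ℤ) - 15) + off m) =
      kb (X + 2 + m % 2) (Y + 2 + m / 2 % 2) (Z + 2 + m / 4 % 2) := by
    intro m hm
    have e1 : (((X : ℤ) - 6, (Y : ℤ) - 2, (Z : ℤ) - 15) + off m : Z3) =
        (((X + m % 2 : ℕ) : ℤ) - 6, ((Y + m / 2 % 2 : ℕ) : ℤ) - 2,
          ((Z + m / 4 % 2 : ℕ) : ℤ) - 15) := by
      simp only [off, Prod.mk_add_mk, Nat.cast_add]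
      ext <;> simp <;> ring
    rw [e1]
    unfold isK
    simp only
    have : inB (((Y + m / 2 % 2 : ℕ) : ℤ) - 2) (((Z + m / 4 % 2 : ℕ) : ℤ) - 15) = true := by
      simp only [inB, Bool.and_eq_true, decide_eq_true_eq]
      omega
    rw [this, Bool.true_and]
    congr 1
    · unfold sl; split_ifs <;> omega
    · omega
    · omega
  have hG : ∀ c : ℕ, gcd' ((X : ℤ) - 6, (Y : ℤ) - 2, (Z : ℤ) - 15) c =
      gb (X + 2) (Y + 2) (Z + 2) c := by
    intro c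
    unfold gcd'
    simp only
    rw [if_pos]
    · congr 1
      · unfold sl; split_ifs <;> omega
      · omega
      · omega
    · simp only [inB, Bool.and_eq_true, decide_eq_true_eq]
      omega
  rw [hK b hb] at hKv
  rw [hK c hc] at hKw
  have hh := chkH_all
  rw [List.all_eq_true] at hh
  have hh1 := hh X (List.mem_range.2 hX)
  unfold chkH at hh1
  rw [List.all_eq_true] at hh1
  have hh2 := hh1 Y (List.mem_range.2 hY)
  rw [List.all_eq_true] at hh2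
  have hh3 := hh2 Z (List.mem_range.2 hZ)
  rw [List.all_eq_true] at hh3
  have hh4 := hh3 b (List.mem_range.2 hb)
  rw [List.all_eq_true] at hh4
  have hh5 := hh4 c (List.mem_range.2 hc)
  rw [hKv, hKw] at hh5
  simp only [Bool.false_or, beq_iff_eq] at hh5
  rw [hG, hG, ← dec_dv _ _ (gb_lt _ _ _ _) (gb_lt _ _ _ _), hh5]
  have k1 : ∀ m : ℕ, (0 ≤ (((X : ℤ) - 6, (Y : ℤ) - 2, (Z : ℤ) - 15) + off m : Z3).2.1) ↔
      2 ≤ Y + m / 2 % 2 := by
    intro m
    simp only [off, Prod.mk_add_mk]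
    omega
  unfold kap
  simp only [k1]
  by_cases A : 2 ≤ Y + b / 2 % 2 <;> by_cases B : 2 ≤ Y + c / 2 % 2
  · simp [A, B, dec_zero]
  · simp [A, B, dec_gcode]
  · simp [A, B, dec_gicode]
  · rw [if_neg A, if_neg B, mul_inv_cancel]
    simp [A, B, dec_zero]


end Pool.Agent.Helper607.Wild.Tab
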