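import Pool.Agent.Helper607.Wild.Base
set_option autoImplicit false
open Set Filter Topology

namespace Pool.Agent.Helper607.Wild



theorem sq_false (D : Lab) (a b c d : Z3) (ha : a ∈ D.K) (hb : b ∈ D.K) (hc : c ∈ D.K)
    (hd : d ∈ D.K) (hac : a ≠ c) (hbd : b ≠ d)
    (hab : |a.1 - b.1| + |a.2.1 - b.2.1| + |a.2.2 - b.2.2| = 1)
    (hbc : |b.1 - c.1| + |b.2.1 - c.2.1| + |b.2.2 - c.2.2| = 1)
    (hcd : |c.1 - d.1| + |c.2.1 - d.2.1| + |c.2.2 - d.2.2| = 1)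
    (hda : |d.1 - a.1| + |d.2.1 - a.2.1| + |d.2.2 - a.2.2| = 1) : False := by
  obtain ⟨na, rfl⟩ := D.vert a ha
  obtain ⟨nb, rfl⟩ := D.vert b hb
  obtain ⟨nc, rfl⟩ := D.vert c hc
  obtain ⟨nd, rfl⟩ := D.vert d hd
  have h1 := D.adj na nb hab
  have h2 := D.adj nb nc hbc
  have h3 := D.adj nc nd hcd
  have h4 := D.adj nd na hda
  have h5 : na ≠ nc := fun h => hac (by rw [h])
  have h6 : nb ≠ nd := fun h => hbd (by rw [h])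
  omega

theorem edge_mem (D : Lab) (a b : Z3) (ha : a ∈ D.K) (hb : b ∈ D.K)
    (hab : |a.1 - b.1| + |a.2.1 - b.2.1| + |a.2.2 - b.2.2| = 1) (t : ℝ) (ht0 : 0 ≤ t)
    (ht1 : t ≤ 1) (p : R3) (hp : p = cast3 a + t • cast3 (b - a)) : p ∈ pathSet D.P := by
  obtain ⟨m, rfl⟩ := D.vert a ha
  obtain ⟨n, rfl⟩ := D.vert b hb
  rcases D.adj m n hab with h | h
  · subst h
    exact ⟨m, t, ht0, ht1, hp⟩
  · obtain rfl : m = n + 1 := by omega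
    refine ⟨n, 1 - t, by linarith, by linarith, ?_⟩
    rw [hp]
    unfold dir cast3
    ext <;> simp <;> ring

theorem in_path (D : Lab) (a b c : ℝ) (hK : ∀ v : Z3, ((a, b, c) : R3) ∈ star3 v → v ∈ D.K) :
    ((a, b, c) : R3) ∈ pathSet D.P := by
  have key : ∀ r : ℝ, |r - (⌊r⌋ : ℤ)| < 1 := by
    intro r
    rw [abs_lt]
    constructor <;> linarith [Int.floor_le r, Int.lt_floor_add_one r]
  have key1 : ∀ r : ℝ, r ≠ (⌊r⌋ : ℤ) → |r - ((⌊r⌋ + 1 : ℤ) : ℝ)| < 1 := by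
    intro r hr
    have h1 := lt_of_le_of_ne (Int.floor_le r) (Ne.symm hr)
    push_cast
    rw [abs_lt]
    constructor <;> linarith [Int.lt_floor_add_one r]
  have hv : ((⌊a⌋, ⌊b⌋, ⌊c⌋) : Z3) ∈ D.K := hK _ ⟨key a, key b, key c⟩
  by_cases ha : a = (⌊a⌋ : ℤ) <;> by_cases hb : b = (⌊b⌋ : ℤ) <;> by_cases hc : c = (⌊c⌋ : ℤ)
  · obtain ⟨n, hn⟩ := D.vert _ hv
    refine ⟨n, 0, le_rfl, zero_le_one, ?_⟩
    rw [hn, zero_smul, add_zero]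
    exact Prod.ext ha (Prod.ext hb hc)
  · have h1 : ((⌊a⌋, ⌊b⌋, ⌊c⌋ + 1) : Z3) ∈ D.K := hK _ ⟨key a, key b, key1 c hc⟩
    refine edge_mem D _ _ hv h1 (by simp) (c - ⌊c⌋) (by linarith [Int.floor_le c])
      (by linarith [Int.lt_floor_add_one c]) _ ?_
    refine Prod.ext ?_ (Prod.ext ?_ ?_)
    · simpa [cast3] using ha
    · simpa [cast3] using hb
    · simp [cast3]
  · have h1 : ((⌊a⌋, ⌊b⌋ + 1, ⌊c⌋) : Z3) ∈ D.K := hK _ ⟨key a, key1 b hb, key c⟩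
    refine edge_mem D _ _ hv h1 (by simp) (b - ⌊b⌋) (by linarith [Int.floor_le b])
      (by linarith [Int.lt_floor_add_one b]) _ ?_
    refine Prod.ext ?_ (Prod.ext ?_ ?_)
    · simpa [cast3] using ha
    · simp [cast3]
    · simpa [cast3] using hc
  · exfalso
    refine sq_false D (⌊a⌋, ⌊b⌋, ⌊c⌋) (⌊a⌋, ⌊b⌋ + 1, ⌊c⌋) (⌊a⌋, ⌊b⌋ + 1, ⌊c⌋ + 1)
      (⌊a⌋, ⌊b⌋, ⌊c⌋ + 1) hv (hK _ ⟨key a, key1 b hb, key c⟩) (hK _ ⟨key a, key1 b hb, key1 c hc⟩)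
      (hK _ ⟨key a, key b, key1 c hc⟩) (by simp) (by simp) (by simp) (by simp) (by simp) (by simp)
  · have h1 : ((⌊a⌋ + 1, ⌊b⌋, ⌊c⌋) : Z3) ∈ D.K := hK _ ⟨key1 a ha, key b, key c⟩
    refine edge_mem D _ _ hv h1 (by simp) (a - ⌊a⌋) (by linarith [Int.floor_le a])
      (by linarith [Int.lt_floor_add_one a]) _ ?_
    refine Prod.ext ?_ (Prod.ext ?_ ?_)
    · simp [cast3]
    · simpa [cast3] using hb
    · simpa [cast3] using hc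
  · exfalso
    refine sq_false D (⌊a⌋, ⌊b⌋, ⌊c⌋) (⌊a⌋ + 1, ⌊b⌋, ⌊c⌋) (⌊a⌋ + 1, ⌊b⌋, ⌊c⌋ + 1)
      (⌊a⌋, ⌊b⌋, ⌊c⌋ + 1) hv (hK _ ⟨key1 a ha, key b, key c⟩) (hK _ ⟨key1 a ha, key b, key1 c hc⟩)
      (hK _ ⟨key a, key b, key1 c hc⟩) (by simp) (by simp) (by simp) (by simp) (by simp) (by simp)
  · exfalso
    refine sq_false D (⌊a⌋, ⌊b⌋, ⌊c⌋) (⌊a⌋ + 1, ⌊b⌋, ⌊c⌋) (⌊a⌋ + 1, ⌊b⌋ + 1, ⌊c⌋)
      (⌊a⌋, ⌊b⌋ + 1, ⌊c⌋) hv (hK _ ⟨key1 a ha, key b, key c⟩) (hK _ ⟨key1 a ha, key1 b hb, key c⟩)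
      (hK _ ⟨key a, key1 b hb, key c⟩) (by simp) (by simp) (by simp) (by simp) (by simp) (by simp)
  · exfalso
    refine sq_false D (⌊a⌋, ⌊b⌋, ⌊c⌋) (⌊a⌋ + 1, ⌊b⌋, ⌊c⌋) (⌊a⌋ + 1, ⌊b⌋ + 1, ⌊c⌋)
      (⌊a⌋, ⌊b⌋ + 1, ⌊c⌋) hv (hK _ ⟨key1 a ha, key b, key c⟩) (hK _ ⟨key1 a ha, key1 b hb, key c⟩)
      (hK _ ⟨key a, key1 b hb, key c⟩) (by simp) (by simp) (by simp) (by simp) (by simp) (by simp)

/-- TARGET: the charts cover the complement of the wild arc. -/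
theorem Lab.cover (D : Lab) (hstep : ∀ n, |(dir D.P n).1| + |(dir D.P n).2.1| + |(dir D.P n).2.2| = 1)
    (hinj : Function.Injective D.P)
    (x : R3) (hx : x ∉ wildArc D.P) : ∃ i, x ∈ D.W i := by
  rcases lt_or_ge |x.1| 9 with h9 | h9
  · by_contra hcon
    apply hx
    left
    refine ⟨h9, ?_⟩
    refine in_path D (lift x).1 (lift x).2.1 (lift x).2.2 fun v hv => ?_
    by_contra hvK
    exact hcon ⟨Sum.inl v, hvK, h9, hv⟩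
  · refine ⟨Sum.inr true, ?_⟩
    show x ∈ Wout
    refine ⟨?_, ?_⟩
    · rintro ⟨h1, h2, h3⟩
      have h4 : |x.1| = 9 := le_antisymm h1 h9
      have h5 : nu x.1 = 0 := by
        unfold nu
        rw [h4]
        norm_num
      rw [h5, mul_zero] at h2 h3
      have h6 : x.2.1 = 0 := abs_nonpos_iff.1 h2
      have h7 : x.2.2 = 0 := abs_nonpos_iff.1 h3
      apply hx
      right
      rcases (abs_eq (by norm_num)).1 h4 with h8 | h8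
      · left
        exact Prod.ext h8 (Prod.ext h6 h7)
      · right
        exact Prod.ext h8 (Prod.ext h6 h7)
    · rintro ⟨h1, -⟩
      linarith

end Pool.Agent.Helper607.Wild
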