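import Pool.Agent.Helper607.Wild.Base
set_option autoImplicit false
open Set Filter Topology

namespace Pool.Agent.Helper607.Wild


theorem nu_cont : Continuous nu := by
  unfold nu
  fun_prop

theorem nu_pos {t : ℝ} (h : |t| < 9) : 0 < nu t := by
  unfold nu
  exact lt_min one_pos (by linarith)

theorem nu_one {t : ℝ} (h : |t| ≤ 8) : nu t = 1 := by
  unfold nu
  exact min_eq_left (by linarith)

theorem nu_le_one (t : ℝ) : nu t ≤ 1 := min_le_left _ _

theorem lift_eq {x : R3} (h : |x.1| ≤ 8) : lift x = x := by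
  unfold lift
  rw [nu_one h, inv_one, one_smul]

theorem nu_mul_lift {x : R3} (h : |x.1| < 9) :
    nu x.1 * (lift x).1 = x.1 ∧ nu x.1 * (lift x).2.1 = x.2.1 ∧
      nu x.1 * (lift x).2.2 = x.2.2 := by
  have h0 := (nu_pos h).ne'
  unfold lift
  simp only [Prod.smul_fst, Prod.smul_snd, smul_eq_mul]
  refine ⟨?_, ?_, ?_⟩ <;> field_simp

theorem isOpen_star3 (v : Z3) : IsOpen (star3 v) := by
  unfold star3
  have h1 : IsOpen {p : R3 | |p.1 - v.1| < 1} := isOpen_lt (by fun_prop) continuous_const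
  have h2 : IsOpen {p : R3 | |p.2.1 - v.2.1| < 1} := isOpen_lt (by fun_prop) continuous_const
  have h3 : IsOpen {p : R3 | |p.2.2 - v.2.2| < 1} := isOpen_lt (by fun_prop) continuous_const
  exact h1.inter (h2.inter h3)

theorem isOpen_Wout : IsOpen Wout := by
  unfold Wout
  have c := nu_cont
  have h1 : IsClosed {x : R3 | |x.1| ≤ 9 ∧ |x.2.1| ≤ 7 / 2 * nu x.1 ∧
      |x.2.2| ≤ 7 / 2 * nu x.1} := by
    have a1 : IsClosed {x : R3 | |x.1| ≤ 9} := isClosed_le (by fun_prop) continuous_const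
    have a2 : IsClosed {x : R3 | |x.2.1| ≤ 7 / 2 * nu x.1} :=
      isClosed_le (by fun_prop) (by fun_prop)
    have a3 : IsClosed {x : R3 | |x.2.2| ≤ 7 / 2 * nu x.1} :=
      isClosed_le (by fun_prop) (by fun_prop)
    exact a1.inter (a2.inter a3)
  have h2 : IsClosed {x : R3 | |x.1| ≤ 7 ∧ |x.2.1| ≤ 1 ∧ -16 ≤ x.2.2 ∧ x.2.2 ≤ -3} := by
    have a1 : IsClosed {x : R3 | |x.1| ≤ 7} := isClosed_le (by fun_prop) continuous_const
    have a2 : IsClosed {x : R3 | |x.2.1| ≤ 1} := isClosed_le (by fun_prop) continuous_const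
    have a3 : IsClosed {x : R3 | -16 ≤ x.2.2} := isClosed_le continuous_const (by fun_prop)
    have a4 : IsClosed {x : R3 | x.2.2 ≤ -3} := isClosed_le (by fun_prop) continuous_const
    exact a1.inter (a2.inter (a3.inter a4))
  exact h1.isOpen_compl.inter h2.isOpen_compl

theorem isOpen_Whole : IsOpen Whole := by
  unfold Whole
  have a1 : IsOpen {x : R3 | |x.1| < 6} := isOpen_lt (by fun_prop) continuous_const
  have a2 : IsOpen {x : R3 | |x.2.1| < 2} := isOpen_lt (by fun_prop) continuous_const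
  have a3 : IsOpen {x : R3 | -15 < x.2.2} := isOpen_lt continuous_const (by fun_prop)
  have a4 : IsOpen {x : R3 | x.2.2 < -3} := isOpen_lt (by fun_prop) continuous_const
  exact a1.inter (a2.inter (a3.inter a4))

/-- TARGET 1 -/
theorem Lab.isOpen_W (D : Lab) (i : Z3 ⊕ Bool) : IsOpen (D.W i) := by
  rcases i with v | _ | _
  · change IsOpen {x : R3 | v ∉ D.K ∧ |x.1| < 9 ∧ lift x ∈ star3 v}
    by_cases hv : v ∈ D.K
    · have : {x : R3 | v ∉ D.K ∧ |x.1| < 9 ∧ lift x ∈ star3 v} = ∅ := by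
        ext x
        simp [hv]
      rw [this]
      exact isOpen_empty
    · have hs : IsOpen {x : R3 | |x.1| < 9} := isOpen_lt (by fun_prop) continuous_const
      have hl : ContinuousOn lift {x : R3 | |x.1| < 9} := by
        unfold lift
        have c := nu_cont
        have c2 : ContinuousOn (fun x : R3 => nu x.1) {x : R3 | |x.1| < 9} :=
          (c.comp continuous_fst).continuousOn
        exact ContinuousOn.smul (c2.inv₀ fun x hx => (nu_pos hx).ne') continuousOn_id
      have := hl.isOpen_inter_preimage hs (isOpen_star3 v)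
      have e : {x : R3 | v ∉ D.K ∧ |x.1| < 9 ∧ lift x ∈ star3 v} =
          {x : R3 | |x.1| < 9} ∩ lift ⁻¹' (star3 v) := by
        ext x
        simp [hv]
      rw [e]
      exact this
  · exact isOpen_Whole
  · exact isOpen_Wout

theorem abs_y_gt {x : R3} (h1 : x ∈ Wout) (h2 : x ∈ Whole) : 1 < |x.2.1| := by
  obtain ⟨_, h1⟩ := h1
  obtain ⟨a, b, c, d⟩ := h2
  by_contra hcon
  push Not at hcon
  exact h1 ⟨by linarith, hcon, by linarith, d.le⟩

theorem sign_const {x : R3} (h : 1 < |x.2.1|) {α : Type} (a b : α) :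
    ∀ᶠ y : R3 in 𝓝 x, (if 0 < y.2.1 then a else b) = (if 0 < x.2.1 then a else b) := by
  rcases lt_abs.mp h with h | h
  · have hx : 0 < x.2.1 := by linarith
    have : ∀ᶠ y : R3 in 𝓝 x, 0 < y.2.1 := by
      have hc : Continuous fun y : R3 => y.2.1 := by fun_prop
      exact (isOpen_lt continuous_const hc).mem_nhds hx
    filter_upwards [this] with y hy
    rw [if_pos hy, if_pos hx]
  · have hx : x.2.1 < 0 := by linarith
    have : ∀ᶠ y : R3 in 𝓝 x, y.2.1 < 0 := by
      have hc : Continuous fun y : R3 => y.2.1 := by fun_prop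
      exact (isOpen_lt hc continuous_const).mem_nhds hx
    filter_upwards [this] with y hy
    rw [if_neg (not_lt.mpr hy.le), if_neg (not_lt.mpr hx.le)]

/-- TARGET 2 -/
theorem Lab.loc_c (D : Lab) (i j : Z3 ⊕ Bool) (x : R3) (hx : x ∈ D.W i ∩ D.W j) :
    ∀ᶠ y in 𝓝 x, D.c i j y = D.c i j x := by
  rcases i with v | _ | _ <;> rcases j with w | _ | _
  · exact Eventually.of_forall fun _ => rfl
  · exact Eventually.of_forall fun _ => rfl
  · exact Eventually.of_forall fun _ => rfl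
  · exact Eventually.of_forall fun _ => rfl
  · exact Eventually.of_forall fun _ => rfl
  · exact sign_const (abs_y_gt hx.2 hx.1) _ _
  · exact Eventually.of_forall fun _ => rfl
  · exact sign_const (abs_y_gt hx.1 hx.2) _ _
  · exact Eventually.of_forall fun _ => rfl

/-- the minimal corner -/
noncomputable def corner (p : R3) : Z3 := (⌊p.1⌋, ⌊p.2.1⌋, ⌊p.2.2⌋)

theorem floor_or {t : ℝ} {k : ℤ} (h : |t - k| < 1) : k = ⌊t⌋ ∨ k = ⌊t⌋ + 1 := by
  have h1 := Int.floor_le t
  have h2 := Int.lt_floor_add_one t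
  rw [abs_lt] at h
  have h3 : (k : ℝ) < ⌊t⌋ + 2 := by linarith
  have h4 : (⌊t⌋ : ℝ) - 1 < k := by linarith
  have h3' : k < ⌊t⌋ + 2 := by exact_mod_cast h3
  have h4' : ⌊t⌋ - 1 < k := by exact_mod_cast h4
  omega

theorem inCube_of_star {p : R3} {v : Z3} (h : p ∈ star3 v) : inCube (corner p) v :=
  ⟨floor_or h.1, floor_or h.2.1, floor_or h.2.2⟩

theorem rho_out (D : Lab) {v w : Z3} {x : R3} (hv : x ∈ D.W (Sum.inl v))
    (hw : x ∈ D.W (Sum.inl w)) (ho : x ∈ Wout) : D.ρ v w = 1 := by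
  obtain ⟨hvK, hx9, hvs⟩ := hv
  obtain ⟨hwK, _, hws⟩ := hw
  have hnu := nu_pos hx9
  obtain ⟨e1, e2, e3⟩ := nu_mul_lift hx9
  obtain ⟨ho1, ho2⟩ := ho
  refine D.outer (corner (lift x)) v w (inCube_of_star hvs) (inCube_of_star hws) hvK hwK ?_ ?_
  · by_contra hcon
    push Not at hcon
    obtain ⟨c1, c2, c3, c4⟩ := hcon
    simp only [corner] at c1 c2 c3 c4
    have f1 : (lift x).2.1 < 3 := Int.floor_lt.mp c1
    have f2 : (-3 : ℝ) ≤ (lift x).2.1 := by
      have : (-3 : ℤ) ≤ ⌊(lift x).2.1⌋ := by omega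
      exact_mod_cast Int.le_floor.mp this
    have f3 : (lift x).2.2 < 3 := Int.floor_lt.mp c3
    have f4 : (-3 : ℝ) ≤ (lift x).2.2 := by
      have : (-3 : ℤ) ≤ ⌊(lift x).2.2⌋ := by omega
      exact_mod_cast Int.le_floor.mp this
    refine ho1 ⟨hx9.le, ?_, ?_⟩
    · rw [← e2, abs_mul, abs_of_pos hnu, mul_comm]
      refine mul_le_mul_of_nonneg_right ?_ hnu.le
      rw [abs_le]
      constructor <;> linarith
    · rw [← e3, abs_mul, abs_of_pos hnu, mul_comm]
      refine mul_le_mul_of_nonneg_right ?_ hnu.le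
      rw [abs_le]
      constructor <;> linarith
  · rintro ⟨c1, c2, c3, c4, c5, c6⟩
    simp only [corner] at c1 c2 c3 c4 c5 c6
    have f1 : (-7 : ℝ) ≤ (lift x).1 := by exact_mod_cast Int.le_floor.mp c1
    have f2 : (lift x).1 < 7 := by
      have : ⌊(lift x).1⌋ < 7 := by omega
      exact_mod_cast Int.floor_lt.mp this
    have f3 : (-1 : ℝ) ≤ (lift x).2.1 := by exact_mod_cast Int.le_floor.mp c3
    have f4 : (lift x).2.1 < 1 := by
      have : ⌊(lift x).2.1⌋ < 1 := by omega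
      exact_mod_cast Int.floor_lt.mp this
    have f5 : (-16 : ℝ) ≤ (lift x).2.2 := by exact_mod_cast Int.le_floor.mp c5
    have f6 : (lift x).2.2 < -3 := by
      have : ⌊(lift x).2.2⌋ < -3 := by omega
      exact_mod_cast Int.floor_lt.mp this
    have hx7 : |x.1| ≤ 7 := by
      rw [← e1, abs_mul, abs_of_pos hnu]
      have h1 := nu_le_one x.1
      have h2 : |(lift x).1| ≤ 7 := by
        rw [abs_le]
        constructor <;> linarith
      nlinarith [abs_nonneg (lift x).1]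
    have hl : lift x = x := lift_eq (by linarith)
    rw [hl] at f1 f2 f3 f4 f5 f6
    refine ho2 ⟨hx7, ?_, f5, f6.le⟩
    rw [abs_le]
    constructor <;> linarith

theorem rho_hole (D : Lab) {v w : Z3} {x : R3} (hv : x ∈ D.W (Sum.inl v))
    (hw : x ∈ D.W (Sum.inl w)) (ho : x ∈ Whole) : D.ρ v w = kap w * (kap v)⁻¹ := by
  obtain ⟨hvK, hx9, hvs⟩ := hv
  obtain ⟨hwK, _, hws⟩ := hw
  obtain ⟨h1, h2, h3, h4⟩ := ho
  have hl : lift x = x := lift_eq (by linarith)
  rw [hl] at hvs hws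
  rw [abs_lt] at h1 h2
  refine D.hole (corner x) v w (inCube_of_star hvs) (inCube_of_star hws) hvK hwK ?_ ?_ ?_ ?_ ?_ ?_
  · exact Int.le_floor.mpr (by push_cast; linarith)
  · have : ⌊x.1⌋ < 6 := Int.floor_lt.mpr (by push_cast; linarith)
    simp only [corner]
    omega
  · exact Int.le_floor.mpr (by push_cast; linarith)
  · have : ⌊x.2.1⌋ < 2 := Int.floor_lt.mpr (by push_cast; linarith)
    simp only [corner]
    omega
  · exact Int.le_floor.mpr (by push_cast; linarith)
  · have : ⌊x.2.2⌋ < -3 := Int.floor_lt.mpr (by push_cast; linarith)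
    simp only [corner]
    omega

theorem kap_eq (D : Lab) {v : Z3} {x : R3} (hv : x ∈ D.W (Sum.inl v)) (ho : x ∈ Wout)
    (hh : x ∈ Whole) : kap v = if 0 < x.2.1 then 1 else Equiv.addRight 1 := by
  have hy := abs_y_gt ho hh
  obtain ⟨hvK, hx9, hvs⟩ := hv
  obtain ⟨h1, h2, h3, h4⟩ := hh
  have hl : lift x = x := lift_eq (by linarith)
  rw [hl] at hvs
  have h5 := hvs.2.1
  rw [abs_lt] at h5
  unfold kap
  rcases lt_abs.mp hy with h | h
  · have : (0 : ℝ) < v.2.1 := by linarith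
    have : 0 < v.2.1 := by exact_mod_cast this
    rw [if_pos this.le, if_pos (by linarith)]
  · have : (v.2.1 : ℝ) < 0 := by linarith
    have : v.2.1 < 0 := by exact_mod_cast this
    rw [if_neg (not_le.mpr this), if_neg (by linarith)]

/-- TARGET 3 -/
theorem Lab.cocycle_c (D : Lab) (i j k : Z3 ⊕ Bool) (x : R3) (hi : x ∈ D.W i) (hj : x ∈ D.W j)
    (hk : x ∈ D.W k) : D.c j k x * D.c i j x = D.c i k x := by
  rcases i with u | _ | _ <;> rcases j with v | _ | _ <;> rcases k with w | _ | _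
  -- u, v, w
  · exact D.flat (corner (lift x)) u v w (inCube_of_star hi.2.2) (inCube_of_star hj.2.2)
      (inCube_of_star hk.2.2) hi.1 hj.1 hk.1
  -- u v hole
  · change (kap v)⁻¹ * D.ρ u v = (kap u)⁻¹
    rw [rho_hole D hi hj hk]
    group
  -- u v out
  · change 1 * D.ρ u v = 1
    rw [rho_out D hi hj hk, one_mul]
  -- u hole w
  · change kap w * (kap u)⁻¹ = D.ρ u w
    rw [rho_hole D hi hk hj]
  -- u hole hole
  · change 1 * (kap u)⁻¹ = (kap u)⁻¹
    rw [one_mul]
  -- u hole out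
  · change (if 0 < x.2.1 then 1 else Equiv.addRight 1) * (kap u)⁻¹ = 1
    rw [kap_eq D hi hk hj]
    exact mul_inv_cancel _
  -- u out w
  · change (1 : Equiv.Perm (ZMod 5)) * 1 = D.ρ u w
    rw [rho_out D hi hk hj, one_mul]
  -- u out hole
  · change (if 0 < x.2.1 then 1 else (Equiv.addRight 1)⁻¹) * 1 = (kap u)⁻¹
    rw [kap_eq D hi hj hk, mul_one]
    split_ifs
    · rw [inv_one]
    · rfl
  -- u out out
  · change (1 : Equiv.Perm (ZMod 5)) * 1 = 1
    rw [one_mul]
  -- hole v w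
  · change D.ρ v w * kap v = kap w
    rw [rho_hole D hj hk hi]
    group
  -- hole v hole
  · change (kap v)⁻¹ * kap v = 1
    rw [inv_mul_cancel]
  -- hole v out
  · change 1 * kap v = if 0 < x.2.1 then 1 else Equiv.addRight 1
    rw [kap_eq D hj hk hi, one_mul]
  -- hole hole w
  · change kap w * 1 = kap w
    rw [mul_one]
  · change (1 : Equiv.Perm (ZMod 5)) * 1 = 1
    rw [one_mul]
  -- hole hole out
  · change (if 0 < x.2.1 then (1 : Equiv.Perm (ZMod 5)) else Equiv.addRight 1) * 1 =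
      if 0 < x.2.1 then 1 else Equiv.addRight 1
    rw [mul_one]
  -- hole out w
  · change 1 * (if 0 < x.2.1 then (1 : Equiv.Perm (ZMod 5)) else Equiv.addRight 1) = kap w
    rw [kap_eq D hk hj hi, one_mul]
  -- hole out hole
  · change (if 0 < x.2.1 then (1 : Equiv.Perm (ZMod 5)) else (Equiv.addRight 1)⁻¹) *
      (if 0 < x.2.1 then (1 : Equiv.Perm (ZMod 5)) else Equiv.addRight 1) = 1
    split_ifs
    · rw [one_mul]
    · rw [inv_mul_cancel]
  -- hole out out
  · change 1 * (if 0 < x.2.1 then (1 : Equiv.Perm (ZMod 5)) else Equiv.addRight 1) =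
      if 0 < x.2.1 then 1 else Equiv.addRight 1
    rw [one_mul]
  -- out v w
  · change D.ρ v w * 1 = 1
    rw [rho_out D hj hk hi, one_mul]
  -- out v hole
  · change (kap v)⁻¹ * 1 = if 0 < x.2.1 then 1 else (Equiv.addRight 1)⁻¹
    rw [kap_eq D hj hi hk, mul_one]
    split_ifs
    · rw [inv_one]
    · rfl
  -- out v out
  · change (1 : Equiv.Perm (ZMod 5)) * 1 = 1
    rw [one_mul]
  -- out hole w
  · change kap w * (if 0 < x.2.1 then (1 : Equiv.Perm (ZMod 5)) else (Equiv.addRight 1)⁻¹) = 1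
    rw [kap_eq D hk hi hj]
    split_ifs
    · rw [one_mul]
    · rw [mul_inv_cancel]
  -- out hole hole
  · change 1 * (if 0 < x.2.1 then (1 : Equiv.Perm (ZMod 5)) else (Equiv.addRight 1)⁻¹) =
      if 0 < x.2.1 then 1 else (Equiv.addRight 1)⁻¹
    rw [one_mul]
  -- out hole out
  · change (if 0 < x.2.1 then (1 : Equiv.Perm (ZMod 5)) else Equiv.addRight 1) *
      (if 0 < x.2.1 then (1 : Equiv.Perm (ZMod 5)) else (Equiv.addRight 1)⁻¹) = 1
    split_ifs
    · rw [one_mul]
    · rw [mul_inv_cancel]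
  -- out out w
  · change (1 : Equiv.Perm (ZMod 5)) * 1 = 1
    rw [one_mul]
  -- out out hole
  · change (if 0 < x.2.1 then (1 : Equiv.Perm (ZMod 5)) else (Equiv.addRight 1)⁻¹) * 1 =
      if 0 < x.2.1 then 1 else (Equiv.addRight 1)⁻¹
    rw [mul_one]
  · change (1 : Equiv.Perm (ZMod 5)) * 1 = 1
    rw [one_mul]

noncomputable def Lab.cyc (D : Lab) : Cyc R3 (Equiv.Perm (ZMod 5)) (Z3 ⊕ Bool) where
  W := D.W
  c := D.c
  isOpen_W := D.isOpen_W
  loc := D.loc_c
  cocycle := D.cocycle_c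

end Pool.Agent.Helper607.Wild
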