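import Pool.Agent.Helper607.Wild.Base
set_option autoImplicit false
open Set Filter Topology

namespace Pool.Agent.Helper607.Wild



/-! helper functions for the torus -/

/-- periodic triangle wave, `1` at integers -/
noncomputable def cw (u : ℝ) : ℝ := 1 - 4 * |u - round u|

/-- shifted triangle wave, `0` at integers -/
noncomputable def tw (u : ℝ) : ℝ := cw (u - 1 / 4)

/-- clamp -/
noncomputable def cl (a t : ℝ) : ℝ := max (-a) (min a t)

theorem cw_cont : Continuous cw := by
  have h : cw = fun u : ℝ => 1 - 4 * ‖(u : UnitAddCircle)‖ := by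
    funext u
    rw [UnitAddCircle.norm_eq]
    rfl
  rw [h]
  have h2 : Continuous (fun u : ℝ => (u : UnitAddCircle)) := AddCircle.continuous_mk' 1
  exact continuous_const.sub (continuous_const.mul h2.norm)

theorem tw_cont : Continuous tw := cw_cont.comp (continuous_id.sub continuous_const)

theorem cw_add_one (u : ℝ) : cw (u + 1) = cw u := by
  unfold cw
  rw [round_add_one]
  push_cast
  congr 3
  ring

theorem tw_add_one (u : ℝ) : tw (u + 1) = tw u := by
  unfold tw
  rw [← cw_add_one (u - 1 / 4)]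
  congr 1
  ring

theorem cl_cont (a : ℝ) : Continuous (cl a) :=
  continuous_const.max (continuous_const.min continuous_id)

theorem cl_hi {a t : ℝ} (ha : 0 ≤ a) (h : a ≤ t) : cl a t = a := by
  unfold cl
  rw [min_eq_left h, max_eq_right (by linarith)]

theorem cl_lo {a t : ℝ} (ha : 0 ≤ a) (h : t ≤ -a) : cl a t = -a := by
  unfold cl
  rw [min_eq_right (by linarith), max_eq_left h]

theorem cl_le {a : ℝ} (t : ℝ) (ha : 0 ≤ a) : cl a t ≤ a :=
  max_le (by linarith) (min_le_left _ _)

theorem le_cl (a t : ℝ) : -a ≤ cl a t := le_max_left _ _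

theorem cl_pos {a t : ℝ} (ha : 0 < a) (h : 0 < t) : 0 < cl a t :=
  lt_max_of_lt_right (lt_min ha h)

theorem cl_neg {a t : ℝ} (ha : 0 < a) (h : t < 0) : cl a t < 0 :=
  max_lt (by linarith) (lt_of_le_of_lt (min_le_right _ _) h)

theorem cl_zero {a : ℝ} (ha : 0 ≤ a) : cl a 0 = 0 := by
  unfold cl
  rw [min_eq_right ha, max_eq_right (by linarith)]

theorem tw_near {u : ℝ} (h : |u - round u| ≤ 1 / 8) : tw u = 4 * (u - round u) := by
  unfold tw cw
  have h' := abs_le.mp h
  have hr : round (u - 1 / 4) = round u := by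
    rw [round_eq_iff]
    constructor <;> linarith [h'.1, h'.2]
  rw [hr, abs_of_nonpos (by linarith [h'.2])]
  ring

theorem quarter (u : ℝ) : 1 / 2 ≤ tw u ∨ tw u ≤ -(1 / 2) ∨ 1 / 2 ≤ cw u ∨ cw u ≤ -(1 / 2) := by
  by_contra hcon
  push Not at hcon
  obtain ⟨h1, h2, h3, h4⟩ := hcon
  unfold tw cw at h1 h2
  unfold cw at h3 h4
  obtain ⟨n, hn⟩ : ∃ n, n = round u := ⟨_, rfl⟩
  obtain ⟨m, hm⟩ : ∃ m, m = round (u - 1 / 4) := ⟨_, rfl⟩
  rw [← hn] at h3 h4
  rw [← hm] at h1 h2
  have hn' := round_eq_iff.mp hn.symm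
  have hm' := round_eq_iff.mp hm.symm
  obtain ⟨hn1, hn2⟩ := hn'
  obtain ⟨hm1, hm2⟩ := hm'
  have hmn : m = n ∨ m = n - 1 := by
    have e1 : (m : ℝ) < n + 1 := by linarith
    have e2 : (n : ℝ) - 2 < m := by linarith
    have e1' : m < n + 1 := by exact_mod_cast e1
    have e2' : n - 2 < m := by exact_mod_cast e2
    omega
  rcases hmn with h | h
  · subst h
    rcases abs_cases (u - (m : ℝ)) with ⟨ha, hb⟩ | ⟨ha, hb⟩ <;>
    rcases abs_cases (u - 1 / 4 - (m : ℝ)) with ⟨hc, hd⟩ | ⟨hc, hd⟩ <;> rw [ha] at h3 h4 <;>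
    rw [hc] at h1 h2 <;> linarith
  · subst h
    push_cast at h1 h2 hm1 hm2
    rcases abs_cases (u - (n : ℝ)) with ⟨ha, hb⟩ | ⟨ha, hb⟩ <;>
    rcases abs_cases (u - 1 / 4 - ((n : ℝ) - 1)) with ⟨hc, hd⟩ | ⟨hc, hd⟩ <;> rw [ha] at h3 h4 <;>
    rw [hc] at h1 h2 <;> linarith

/-- radial parameter -/
noncomputable def rf (v : ℝ) : ℝ := (1 - cl 1 (2 * cw v)) / 2

noncomputable def Yf (v : ℝ) : ℝ := -4 * cl 1 (2 * tw v)

noncomputable def Xf (r u : ℝ) : ℝ := -((1 - r) * cl 5 (20 * tw u) + r * cl 10 (20 * tw u))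

noncomputable def Zf (r u : ℝ) : ℝ :=
  (1 - r) * (-9 + cl 5 (20 * cw u)) + r * (-13 / 2 + cl (21 / 2) (21 * cw u))

theorem rf_cont : Continuous rf :=
  (continuous_const.sub ((cl_cont 1).comp (continuous_const.mul cw_cont))).div_const 2

theorem Yf_cont : Continuous Yf :=
  continuous_const.mul ((cl_cont 1).comp (continuous_const.mul tw_cont))

theorem rf_add_one (v : ℝ) : rf (v + 1) = rf v := by unfold rf; rw [cw_add_one]
theorem Yf_add_one (v : ℝ) : Yf (v + 1) = Yf v := by unfold Yf; rw [tw_add_one]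
theorem Xf_add_one (r u : ℝ) : Xf r (u + 1) = Xf r u := by unfold Xf; rw [tw_add_one]
theorem Zf_add_one (r u : ℝ) : Zf r (u + 1) = Zf r u := by unfold Zf; rw [cw_add_one]

theorem rf_nonneg (v : ℝ) : 0 ≤ rf v := by
  have := cl_le (2 * cw v) zero_le_one
  unfold rf; linarith

theorem rf_le_one (v : ℝ) : rf v ≤ 1 := by
  have := le_cl 1 (2 * cw v)
  unfold rf; linarith

theorem Yf_abs (v : ℝ) : |Yf v| ≤ 4 := by
  have h1 := cl_le (2 * tw v) zero_le_one
  have h2 := le_cl 1 (2 * tw v)
  unfold Yf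
  rw [abs_le]; constructor <;> linarith

/-- the three kinds of walls -/
theorem wall (v : ℝ) : (rf v = 0 ∧ |v - round v| ≤ 1 / 8) ∨ rf v = 1 ∨ |Yf v| = 4 := by
  rcases quarter v with h | h | h | h
  · right; right
    unfold Yf
    rw [cl_hi zero_le_one (by linarith)]
    norm_num
  · right; right
    unfold Yf
    rw [cl_lo zero_le_one (by linarith)]
    norm_num
  · left
    constructor
    · unfold rf
      rw [cl_hi zero_le_one (by linarith)]
      norm_num
    · unfold cw at h
      linarith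
  · right; left
    unfold rf
    rw [cl_lo zero_le_one (by linarith)]
    norm_num

theorem Xf_le (r u : ℝ) (h0 : 0 ≤ r) (h1 : r ≤ 1) : |Xf r u| ≤ 5 + 5 * r := by
  have a1 := cl_le (20 * tw u) (show (0:ℝ) ≤ 5 by norm_num)
  have a2 := le_cl 5 (20 * tw u)
  have a3 := cl_le (20 * tw u) (show (0:ℝ) ≤ 10 by norm_num)
  have a4 := le_cl 10 (20 * tw u)
  unfold Xf
  rw [abs_le]
  constructor <;> nlinarith

theorem Zf_bd (r u : ℝ) (h0 : 0 ≤ r) (h1 : r ≤ 1) : -14 - 3 * r ≤ Zf r u ∧ Zf r u ≤ -4 + 8 * r := by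
  have a1 := cl_le (20 * cw u) (show (0:ℝ) ≤ 5 by norm_num)
  have a2 := le_cl 5 (20 * cw u)
  have a3 := cl_le (21 * cw u) (show (0:ℝ) ≤ 21 / 2 by norm_num)
  have a4 := le_cl (21 / 2) (21 * cw u)
  unfold Zf
  constructor <;> nlinarith

theorem sides (r u : ℝ) : Xf r u = -(5 + 5 * r) ∨ Xf r u = 5 + 5 * r ∨
    (Zf r u = -4 + 8 * r ∧ |u - round u| ≤ 1 / 8) ∨ Zf r u = -14 - 3 * r := by
  rcases quarter u with h | h | h | h
  · left
    unfold Xf
    rw [cl_hi (by norm_num) (by linarith), cl_hi (by norm_num) (by linarith)]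
    ring
  · right; left
    unfold Xf
    rw [cl_lo (by norm_num) (by linarith), cl_lo (by norm_num) (by linarith)]
    ring
  · right; right; left
    constructor
    · unfold Zf
      rw [cl_hi (by norm_num) (by linarith), cl_hi (by norm_num) (by linarith)]
      ring
    · unfold cw at h
      linarith
  · right; right; right
    unfold Zf
    rw [cl_lo (by norm_num) (by linarith), cl_lo (by norm_num) (by linarith)]
    ring

/-- sign of `Y` near integers -/
theorem Yf_sign {v : ℝ} (h : |v - round v| ≤ 1 / 8) :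
    (0 < v - round v → Yf v < 0) ∧ (v - round v < 0 → 0 < Yf v) ∧ (v - round v = 0 → Yf v = 0) := by
  unfold Yf
  rw [tw_near h]
  refine ⟨fun h1 => ?_, fun h1 => ?_, fun h1 => ?_⟩
  · have := cl_pos (a := 1) (t := 2 * (4 * (v - round v))) one_pos (by linarith)
    linarith
  · have := cl_neg (a := 1) (t := 2 * (4 * (v - round v))) one_pos (by linarith)
    linarith
  · rw [h1]
    rw [show (2:ℝ) * (4 * 0) = 0 by norm_num, cl_zero zero_le_one]
    norm_num

theorem Xf_sign {r u : ℝ} (h0 : 0 ≤ r) (h1 : r ≤ 1) (h : |u - round u| ≤ 1 / 8) :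
    (0 < u - round u → Xf r u < 0) ∧ (u - round u < 0 → 0 < Xf r u) ∧
      (u - round u = 0 → Xf r u = 0) := by
  unfold Xf
  rw [tw_near h]
  refine ⟨fun h2 => ?_, fun h2 => ?_, fun h2 => ?_⟩
  · have e1 := cl_pos (a := 5) (t := 20 * (4 * (u - round u))) (by norm_num) (by linarith)
    have e2 := cl_pos (a := 10) (t := 20 * (4 * (u - round u))) (by norm_num) (by linarith)
    rcases eq_or_lt_of_le h0 with h3 | h3
    · rw [← h3]; linarith
    · nlinarith [mul_nonneg (sub_nonneg.mpr h1) e1.le, mul_pos h3 e2]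
  · have e1 := cl_neg (a := 5) (t := 20 * (4 * (u - round u))) (by norm_num) (by linarith)
    have e2 := cl_neg (a := 10) (t := 20 * (4 * (u - round u))) (by norm_num) (by linarith)
    rcases eq_or_lt_of_le h0 with h3 | h3
    · rw [← h3]; linarith
    · nlinarith [mul_nonneg (sub_nonneg.mpr h1) (neg_nonneg.mpr e1.le), mul_pos h3 (neg_pos.mpr e2)]
  · rw [h2]
    rw [show (20:ℝ) * (4 * 0) = 0 by norm_num, cl_zero (by norm_num), cl_zero (by norm_num)]
    norm_num

theorem nu_le (t : ℝ) : nu t ≤ 1 := min_le_left _ _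

/-- local constancy of the floor -/
theorem floor_ev {v : ℝ} (h : v - round v ≠ 0) : ∀ᶠ w in 𝓝 v, ⌊w⌋ = ⌊v⌋ := by
  have h1 : (⌊v⌋ : ℝ) < v := by
    rcases eq_or_lt_of_le (Int.floor_le v) with h2 | h2
    · exfalso
      apply h
      rw [← h2, round_intCast, sub_self]
    · exact h2
  have h2 : v < (⌊v⌋ : ℝ) + 1 := Int.lt_floor_add_one v
  filter_upwards [Ioo_mem_nhds h1 h2] with w hw
  rw [Int.floor_eq_iff]
  exact ⟨hw.1.le, hw.2⟩

theorem round_ev {v : ℝ} (h : |v - round v| ≤ 1 / 8) : ∀ᶠ w in 𝓝 v, round w = round v := by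
  have h' := abs_le.mp h
  have h1 : (round v : ℝ) - 1 / 2 < v := by linarith [h'.1]
  have h2 : v < (round v : ℝ) + 1 / 2 := by linarith [h'.2]
  filter_upwards [Ioo_mem_nhds h1 h2] with w hw
  rw [round_eq_iff]
  exact ⟨hw.1.le, hw.2⟩

theorem floor_round {v : ℝ} (h : |v - round v| ≤ 1 / 8) :
    (0 ≤ v - round v → ⌊v⌋ = round v) ∧ (v - round v < 0 → ⌊v⌋ = round v - 1) := by
  have h' := abs_le.mp h
  constructor
  · intro h1
    rw [Int.floor_eq_iff]
    constructor <;> linarith [h'.2]
  · intro h1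
    rw [Int.floor_eq_iff]
    push_cast
    constructor <;> linarith [h'.1]

/-- TARGET: the torus. `no`, `nd` are integer valued lifts of `v` (red) and of `u` (blue). -/
theorem exists_torus : ∃ (φ : ℝ × ℝ → R3) (no nd mo md : ℝ × ℝ → ℤ),
    Continuous φ ∧ (∀ u v, φ (u + 1, v) = φ (u, v)) ∧ (∀ u v, φ (u, v + 1) = φ (u, v)) ∧
    -- red
    (∀ p, φ p ∈ Wout ∪ Whole) ∧
    (∀ p, φ p ∈ Wout → ∀ᶠ q in 𝓝 p, no q = no p) ∧
    (∀ p, φ p ∈ Whole → ∀ᶠ q in 𝓝 p, nd q = nd p) ∧
    (∀ u v, φ (u, v) ∈ Wout → no (u + 1, v) = no (u, v) ∧ no (u, v + 1) = no (u, v) + 1) ∧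
    (∀ u v, φ (u, v) ∈ Whole → nd (u + 1, v) = nd (u, v) ∧ nd (u, v + 1) = nd (u, v) + 1) ∧
    (∀ p, φ p ∈ Wout → φ p ∈ Whole → nd p - no p = if 0 < (φ p).2.1 then 0 else -1) ∧
    -- blue
    (∀ p, tau (φ p) ∈ Wout ∪ Whole) ∧
    (∀ p, tau (φ p) ∈ Wout → ∀ᶠ q in 𝓝 p, mo q = mo p) ∧
    (∀ p, tau (φ p) ∈ Whole → ∀ᶠ q in 𝓝 p, md q = md p) ∧
    (∀ u v, tau (φ (u, v)) ∈ Wout → mo (u, v + 1) = mo (u, v) ∧ mo (u + 1, v) = mo (u, v) + 1) ∧
    (∀ u v, tau (φ (u, v)) ∈ Whole → md (u, v + 1) = md (u, v) ∧ md (u + 1, v) = md (u, v) + 1) ∧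
    (∀ p, tau (φ p) ∈ Wout → tau (φ p) ∈ Whole →
      md p - mo p = if 0 < (tau (φ p)).2.1 then 0 else -1) := by
  refine ⟨fun p => (Xf (rf p.2) p.1, Yf p.2, Zf (rf p.2) p.1), fun p => ⌊p.2⌋ + 1,
    fun p => round p.2, fun p => ⌊p.1⌋ + 1, fun p => round p.1, ?_, ?_, ?_, ?_, ?_, ?_, ?_, ?_, ?_,
    ?_, ?_, ?_, ?_, ?_, ?_⟩
  · have c1 : Continuous (fun p : ℝ × ℝ => rf p.2) := rf_cont.comp continuous_snd
    have c2 : Continuous (fun p : ℝ × ℝ => tw p.1) := tw_cont.comp continuous_fst
    have c3 : Continuous (fun p : ℝ × ℝ => cw p.1) := cw_cont.comp continuous_fst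
    have k1 : ∀ a b : ℝ, Continuous (fun p : ℝ × ℝ => cl a (b * tw p.1)) := fun a b =>
      (cl_cont a).comp (continuous_const.mul c2)
    have k2 : ∀ a b : ℝ, Continuous (fun p : ℝ × ℝ => cl a (b * cw p.1)) := fun a b =>
      (cl_cont a).comp (continuous_const.mul c3)
    have d1 : Continuous (fun p : ℝ × ℝ => Xf (rf p.2) p.1) := by
      unfold Xf
      exact (((continuous_const.sub c1).mul (k1 5 20)).add (c1.mul (k1 10 20))).neg
    have d2 : Continuous (fun p : ℝ × ℝ => Zf (rf p.2) p.1) := by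
      unfold Zf
      exact ((continuous_const.sub c1).mul (continuous_const.add (k2 5 20))).add
        (c1.mul (continuous_const.add (k2 (21 / 2) 21)))
    exact d1.prodMk ((Yf_cont.comp continuous_snd).prodMk d2)
  · intro u v
    simp only [Xf_add_one, Zf_add_one]
  · intro u v
    simp only [rf_add_one, Yf_add_one]
  · -- red cover
    rintro ⟨u, v⟩
    have r0 := rf_nonneg v
    have r1 := rf_le_one v
    have hY := Yf_abs v
    have hX := Xf_le (rf v) u r0 r1
    have hZ := Zf_bd (rf v) u r0 r1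
    have hS := sides (rf v) u
    have hn := nu_le (Xf (rf v) u)
    have hn0 : 7 / 2 * nu (Xf (rf v) u) ≤ 7 / 2 := by linarith
    simp only [Wout, Whole, mem_union, mem_ofPred_eq]
    rcases wall v with ⟨h, hv⟩ | h | h
    · rw [h] at hX hZ hS hn0 ⊢
      have hz4 : 7 / 2 < |Zf 0 u| := by
        rw [lt_abs]; right; linarith [hZ.2]
      by_cases hy : |Yf v| ≤ 1
      · right
        refine ⟨by linarith, by linarith, by linarith [hZ.1], by linarith [hZ.2]⟩
      · left
        refine ⟨fun hh => ?_, fun hh => hy hh.2.1⟩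
        linarith [hh.2.2]
    · left
      rw [h] at hX hZ hS hn0 ⊢
      refine ⟨fun hh => ?_, fun hh => ?_⟩
      · have e1 := abs_le.mp hh.1
        have e2 := abs_le.mp (le_trans hh.2.2 hn0)
        rcases hS with hS | hS | hS | hS
        · linarith [e1.1]
        · linarith [e1.2]
        · linarith [e2.2, hS.1]
        · linarith [e2.1]
      · have e1 := abs_le.mp hh.1
        rcases hS with hS | hS | hS | hS
        · linarith [e1.1]
        · linarith [e1.2]
        · linarith [hh.2.2.2, hS.1]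
        · linarith [hh.2.2.1]
    · left
      refine ⟨fun hh => ?_, fun hh => ?_⟩
      · linarith [hh.2.1]
      · linarith [hh.2.1]
  · -- `no` locally constant
    rintro ⟨u, v⟩ hW
    have key : v - round v ≠ 0 := by
      intro h0
      have r0 := rf_nonneg v
      have hY := (Yf_sign (v := v) (by rw [h0]; norm_num)).2.2 h0
      have hr : rf v = 0 := by
        unfold rf cw
        rw [h0, cl_hi zero_le_one (by norm_num)]
        norm_num
      simp only [Wout, mem_ofPred_eq] at hW
      apply hW.2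
      have hX := Xf_le 0 u le_rfl zero_le_one
      have hZ := Zf_bd 0 u le_rfl zero_le_one
      rw [hr, hY]
      refine ⟨by linarith, by norm_num, by linarith [hZ.1], by linarith [hZ.2]⟩
    have := (((continuous_snd (X := ℝ) (Y := ℝ)).continuousAt (x := (u, v))).eventually (floor_ev key))
    filter_upwards [this] with q hq
    rw [hq]
  · -- `nd` locally constant
    rintro ⟨u, v⟩ hW
    have key : |v - round v| ≤ 1 / 8 := by
      simp only [Whole, mem_ofPred_eq] at hW
      rcases wall v with ⟨h, hv⟩ | h | h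
      · exact hv
      · exfalso
        rw [h] at hW
        have e1 := abs_lt.mp hW.1
        rcases sides 1 u with hS | hS | hS | hS
        · linarith [e1.1]
        · linarith [e1.2]
        · linarith [hW.2.2.2, hS.1]
        · linarith [hW.2.2.1]
      · linarith [hW.2.1]
    exact (((continuous_snd (X := ℝ) (Y := ℝ)).continuousAt (x := (u, v))).eventually (round_ev key))
  · intro u v _
    simp only [Int.floor_add_one, true_and]
  · intro u v _
    simp only [round_add_one, true_and]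
  · -- red sign
    rintro ⟨u, v⟩ hO hW
    have key : v - round v ≠ 0 := by
      intro h0
      have hY := (Yf_sign (v := v) (by rw [h0]; norm_num)).2.2 h0
      have hr : rf v = 0 := by
        unfold rf cw
        rw [h0, cl_hi zero_le_one (by norm_num)]
        norm_num
      simp only [Wout, mem_ofPred_eq] at hO
      apply hO.2
      have hX := Xf_le 0 u le_rfl zero_le_one
      have hZ := Zf_bd 0 u le_rfl zero_le_one
      rw [hr, hY]
      refine ⟨by linarith, by norm_num, by linarith [hZ.1], by linarith [hZ.2]⟩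
    have key2 : |v - round v| ≤ 1 / 8 := by
      simp only [Whole, mem_ofPred_eq] at hW
      rcases wall v with ⟨h, hv⟩ | h | h
      · exact hv
      · exfalso
        rw [h] at hW
        have e1 := abs_lt.mp hW.1
        rcases sides 1 u with hS | hS | hS | hS
        · linarith [e1.1]
        · linarith [e1.2]
        · linarith [hW.2.2.2, hS.1]
        · linarith [hW.2.2.1]
      · linarith [hW.2.1]
    show round v - (⌊v⌋ + 1) = if 0 < Yf v then 0 else -1
    rcases lt_or_gt_of_ne key with h | h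
    · rw [if_pos ((Yf_sign key2).2.1 h), (floor_round key2).2 h]
      ring
    · rw [if_neg (not_lt.mpr ((Yf_sign key2).1 h).le), (floor_round key2).1 h.le]
      ring
  · -- blue cover
    rintro ⟨u, v⟩
    have r0 := rf_nonneg v
    have r1 := rf_le_one v
    have hY := Yf_abs v
    have hX := Xf_le (rf v) u r0 r1
    have hZ := Zf_bd (rf v) u r0 r1
    have hS := sides (rf v) u
    have hn0 : 7 / 2 * nu (Yf v) ≤ 7 / 2 := by linarith [nu_le (Yf v)]
    simp only [Wout, Whole, tau, mem_union, mem_ofPred_eq]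
    by_cases hb : |Xf (rf v) u| ≤ 1 ∧ -6 ≤ Zf (rf v) u ∧ Zf (rf v) u ≤ 7
    · right
      obtain ⟨hb1, hb2, hb3⟩ := hb
      have e1 := abs_le.mp hb1
      rcases hS with hS | hS | hS | hS
      · linarith [e1.1]
      · linarith [e1.2]
      · refine ⟨by linarith, by linarith, by linarith [hS.1], by linarith⟩
      · linarith
    · left
      refine ⟨fun hh => ?_, fun hh => hb ⟨hh.2.1, by linarith [hh.2.2.2], by linarith [hh.2.2.1]⟩⟩
      have e1 := abs_le.mp (le_trans hh.2.1 hn0)
      have e2 := abs_le.mp (le_trans hh.2.2 hn0)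
      rcases hS with hS | hS | hS | hS
      · linarith [e1.1]
      · linarith [e1.2]
      · linarith [e2.1, hS.1]
      · linarith [e2.2]
  · -- `mo`
    rintro ⟨u, v⟩ hW
    have key : u - round u ≠ 0 := by
      intro h0
      have r0 := rf_nonneg v
      have r1 := rf_le_one v
      have hX := (Xf_sign (u := u) r0 r1 (by rw [h0]; norm_num)).2.2 h0
      have hZ : Zf (rf v) u = -4 + 8 * rf v := by
        unfold Zf cw
        rw [h0, cl_hi (by norm_num) (by norm_num), cl_hi (by norm_num) (by norm_num)]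
        ring
      have hY := Yf_abs v
      simp only [Wout, tau, mem_ofPred_eq] at hW
      apply hW.2
      rw [hX, hZ]
      refine ⟨by linarith, by norm_num, by linarith, by linarith⟩
    have := (((continuous_fst (X := ℝ) (Y := ℝ)).continuousAt (x := (u, v))).eventually (floor_ev key))
    filter_upwards [this] with q hq
    rw [hq]
  · -- `md`
    rintro ⟨u, v⟩ hW
    have key : |u - round u| ≤ 1 / 8 := by
      have r0 := rf_nonneg v
      simp only [Whole, tau, mem_ofPred_eq] at hW
      have e1 := abs_lt.mp hW.2.1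
      rcases sides (rf v) u with hS | hS | hS | hS
      · linarith [e1.1]
      · linarith [e1.2]
      · exact hS.2
      · linarith [hW.2.2.2]
    exact (((continuous_fst (X := ℝ) (Y := ℝ)).continuousAt (x := (u, v))).eventually (round_ev key))
  · intro u v _
    simp only [Int.floor_add_one, true_and]
  · intro u v _
    simp only [round_add_one, true_and]
  · -- blue sign
    rintro ⟨u, v⟩ hO hW
    have r0 := rf_nonneg v
    have r1 := rf_le_one v
    have key : u - round u ≠ 0 := by
      intro h0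
      have hX := (Xf_sign (u := u) r0 r1 (by rw [h0]; norm_num)).2.2 h0
      have hZ : Zf (rf v) u = -4 + 8 * rf v := by
        unfold Zf cw
        rw [h0, cl_hi (by norm_num) (by norm_num), cl_hi (by norm_num) (by norm_num)]
        ring
      have hY := Yf_abs v
      simp only [Wout, tau, mem_ofPred_eq] at hO
      apply hO.2
      rw [hX, hZ]
      refine ⟨by linarith, by norm_num, by linarith, by linarith⟩
    have key2 : |u - round u| ≤ 1 / 8 := by
      simp only [Whole, tau, mem_ofPred_eq] at hW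
      have e1 := abs_lt.mp hW.2.1
      rcases sides (rf v) u with hS | hS | hS | hS
      · linarith [e1.1]
      · linarith [e1.2]
      · exact hS.2
      · linarith [hW.2.2.2]
    show round u - (⌊u⌋ + 1) = if 0 < Xf (rf v) u then 0 else -1
    rcases lt_or_gt_of_ne key with h | h
    · rw [if_pos ((Xf_sign r0 r1 key2).2.1 h), (floor_round key2).2 h]
      ring
    · rw [if_neg (not_lt.mpr ((Xf_sign r0 r1 key2).1 h).le), (floor_round key2).1 h.le]
      ring

end Pool.Agent.Helper607.Wild
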