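import Pool.Agent.Helper607.Wild.LinkThm
import Pool.Agent.Helper607.Wild.LabCyc
import Pool.Agent.Helper607.Wild.LabCover
import Pool.Agent.Helper607.Wild.TorusGeom
set_option autoImplicit false
open Set Filter Topology

namespace Pool.Agent.Helper607.Wild



theorem tau_tau (x : R3) : tau (tau x) = x := by
  unfold tau
  ext <;> simp

theorem tau_continuous : Continuous tau := by
  unfold tau
  fun_prop

/-- pullback of a cocycle along a continuous map -/
def Cyc.comap {X Y : Type} [TopologicalSpace X] [TopologicalSpace Y] {G : Type} [Group G] {ι : Type}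
    (C : Cyc Y G ι) (g : X → Y) (hg : Continuous g) : Cyc X G ι where
  W := fun i => g ⁻¹' C.W i
  c := fun i j x => C.c i j (g x)
  isOpen_W := fun i => (C.isOpen_W i).preimage hg
  loc := fun i j x hx => (hg.tendsto x).eventually (C.loc i j (g x) hx)
  cocycle := fun i j k x hi hj hk => C.cocycle i j k (g x) hi hj hk

theorem Lab.c_od (D : Lab) (x : R3) (n : ℤ) (hn : n = if 0 < x.2.1 then 0 else -1) (y : ZMod 5) :
    D.c (Sum.inr true) (Sum.inr false) x y = y + ((n : ℤ) : ZMod 5) := by
  rw [hn]
  simp only [Lab.c]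
  by_cases h : 0 < x.2.1
  · rw [if_pos h, if_pos h]
    simp
  · rw [if_neg h, if_neg h]
    rw [Equiv.Perm.inv_def, Equiv.symm_apply_eq]
    simp

/-- TARGET: no topological sphere separates the red wild arc from the blue one. -/
theorem lab_link (D : Lab) (hstep : ∀ n, |(dir D.P n).1| + |(dir D.P n).2.1| + |(dir D.P n).2.2| = 1)
    (hinj : Function.Injective D.P)
    (f : S2 → R3) (hf : Continuous f) (hfi : Function.Injective f) (U V : Set R3)
    (hU : IsOpen U) (hV : IsOpen V) (hd : Disjoint U V) (hUV : (range f)ᶜ = U ∪ V)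
    (hR : wildArc D.P ⊆ U) (hB : tau '' wildArc D.P ⊆ V) : False := by
  obtain ⟨φ, no, nd, mo, md, hφ, hφ1, hφ2, rc, ro, rd, ron, rdn, rt, bc, bo, bd, bon, bdn, bt⟩ :=
    exists_torus
  let wR : Winding D.cyc φ :=
    { o := Sum.inr true
      d := Sum.inr false
      no := no
      nd := nd
      cover := rc
      loc_o := ro
      loc_d := rd
      o1 := fun u v h => (ron u v h).1
      o2 := fun u v h => (ron u v h).2
      d1 := fun u v h => (rdn u v h).1
      d2 := fun u v h => (rdn u v h).2
      trans := fun p h1 h2 x => D.c_od (φ p) _ (rt p h1 h2) x }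
  have hsw : ∀ p : ℝ × ℝ, Tendsto (fun q : ℝ × ℝ => (q.2, q.1)) (𝓝 p) (𝓝 (p.2, p.1)) := fun p =>
    (continuous_snd.prodMk continuous_fst).tendsto p
  let wB : Winding (D.cyc.comap tau tau_continuous) (fun p => φ (p.2, p.1)) :=
    { o := Sum.inr true
      d := Sum.inr false
      no := fun p => mo (p.2, p.1)
      nd := fun p => md (p.2, p.1)
      cover := fun p => bc (p.2, p.1)
      loc_o := fun p h => (hsw p).eventually (bo (p.2, p.1) h)
      loc_d := fun p h => (hsw p).eventually (bd (p.2, p.1) h)
      o1 := fun u v h => (bon v u h).1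
      o2 := fun u v h => (bon v u h).2
      d1 := fun u v h => (bdn v u h).1
      d2 := fun u v h => (bdn v u h).2
      trans := fun p h1 h2 x => D.c_od (tau (φ (p.2, p.1))) _ (bt (p.2, p.1) h1 h2) x }
  refine link_theorem D.cyc (D.cyc.comap tau tau_continuous) φ hφ hφ1 hφ2 wR wB f hf hfi U V hU hV
    hd hUV ?_ ?_
  · intro x hx
    refine D.cover hstep hinj x (fun hw => ?_)
    have hxU := hR hw
    rcases hx with h | h
    · exact Set.disjoint_left.mp hd hxU h
    · have : x ∈ (range f)ᶜ := by rw [hUV]; exact Or.inl hxU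
      exact this h
  · intro x hx
    have : tau x ∉ wildArc D.P := by
      intro hw
      have hxV : x ∈ V := hB ⟨tau x, hw, tau_tau x⟩
      rcases hx with h | h
      · exact Set.disjoint_left.mp hd h hxV
      · have : x ∈ (range f)ᶜ := by rw [hUV]; exact Or.inr hxV
        exact this h
    exact D.cover hstep hinj (tau x) this

end Pool.Agent.Helper607.Wild
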