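import Pool.Agent.Helper607.Wild.Tables
set_option autoImplicit false

namespace Pool.Agent.Helper607.Wild.Tab
/-- step vector of a lattice path -/
def dir (P : ℤ → Z3) (i : ℤ) : Z3 := P (i + 1) - P i

def dot (a b : Z3) : ℤ := a.1 * b.1 + a.2.1 * b.2.1 + a.2.2 * b.2.2


def e1A (r : ℕ) : ℕ := (pT >>> (11 * r)) % 32
def e1B (r : ℕ) : ℕ := (pT >>> (11 * r)) / 32 % 8
def e1C (r : ℕ) : ℕ := (pT >>> (11 * r)) / 256 % 8

theorem e1_pinf (n : ℤ) : pinf n = ((e1A (n % 82).toNat : ℤ) + 10 * (n / 82),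
    (e1B (n % 82).toNat : ℤ) - 3, (e1C (n % 82).toNat : ℤ) - 3) := rfl

def e1dist (a b : ℕ) : ℕ := (a - b) + (b - a)

theorem e1_le : ∀ r < 82, e1A r ≤ 14 ∧ e1B r ≤ 6 ∧ e1C r ≤ 6 ∧ (1 ≤ r → 1 ≤ e1A r) ∧
    (1 ≤ r → r ≤ 49 → e1A r ≤ 9) := by
  decide +kernel

theorem e1_idx : ∀ r < 82,
    (iT (e1A r % 10) >>> (9 * (e1B r * 7 + e1C r))) % 512 + 82 * (e1A r / 10) = r + 256 := by
  decide +kernel

theorem e1_kb : ∀ r < 82, kb (16 + e1A r % 10) (e1B r + 1) (e1C r + 14) = true := by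
  decide +kernel

theorem e1_st : ∀ r < 81,
    e1dist (e1A r) (e1A (r + 1)) + e1dist (e1B r) (e1B (r + 1)) + e1dist (e1C r) (e1C (r + 1)) = 1 := by
  decide +kernel

theorem e1_wrap :
    e1dist (e1A 81) (e1A 0 + 10) + e1dist (e1B 81) (e1B 0) + e1dist (e1C 81) (e1C 0) = 1 := by
  decide +kernel

theorem e1_r (n : ℤ) : (n % 82).toNat < 82 ∧ ((n % 82).toNat : ℤ) = n % 82 := by
  omega

/-- index on the periodic path -/
theorem e1_ipinf (n : ℤ) : ipinf (pinf n).1 (pinf n).2.1 (pinf n).2.2 = n := by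
  obtain ⟨hr, hr2⟩ := e1_r n
  rw [e1_pinf]
  set r := (n % 82).toNat with hrdef
  have h1 := e1_idx r hr
  have h2 := e1_le r hr
  simp only [ipinf]
  have a1 : (((e1A r : ℤ) + 10 * (n / 82)) % 10).toNat = e1A r % 10 := by omega
  have a2 : ((e1B r : ℤ) - 3 + 3).toNat = e1B r := by omega
  have a3 : ((e1C r : ℤ) - 3 + 3).toNat = e1C r := by omega
  have a4 : ((e1A r : ℤ) + 10 * (n / 82)) / 10 = (e1A r / 10 : ℕ) + n / 82 := by omega
  rw [a1, a2, a3, a4]
  set T := (iT (e1A r % 10) >>> (9 * (e1B r * 7 + e1C r))) % 512 with hT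
  clear_value T
  omega

theorem e1_box (n : ℤ) : |(pinf n).2.1| ≤ 3 ∧ |(pinf n).2.2| ≤ 3 := by
  obtain ⟨hr, hr2⟩ := e1_r n
  rw [e1_pinf]
  have h2 := e1_le _ hr
  simp only
  constructor <;> rw [abs_le] <;> omega

theorem e1_x (n : ℤ) : 10 * (n / 82) ≤ (pinf n).1 ∧ (pinf n).1 ≤ 10 * (n / 82) + 14 := by
  obtain ⟨hr, hr2⟩ := e1_r n
  rw [e1_pinf]
  have h2 := e1_le _ hr
  simp only
  omega

theorem e1_pos (n : ℤ) (hn : 1 ≤ n) : 1 ≤ (pinf n).1 := by
  obtain ⟨hr, hr2⟩ := e1_r n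
  rw [e1_pinf]
  have h2 := e1_le _ hr
  simp only
  rcases Nat.eq_zero_or_pos (n % 82).toNat with h | h
  · have : 1 ≤ n / 82 := by omega
    omega
  · have : 0 ≤ n / 82 := by omega
    have := h2.2.2.2.1 h
    omega

theorem e1_neg (n : ℤ) (hn : n ≤ -33) : (pinf n).1 ≤ -1 := by
  obtain ⟨hr, hr2⟩ := e1_r n
  rw [e1_pinf]
  have h2 := e1_le _ hr
  simp only
  by_cases h : n / 82 ≤ -2
  · omega
  · have h3 : n / 82 = -1 := by omega
    have h4 : (n % 82).toNat ≤ 49 := by omega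
    rcases Nat.eq_zero_or_pos (n % 82).toNat with h5 | h5
    · have h6 : e1A 0 = 0 := by decide +kernel
      rw [h5, h6, h3]; norm_num
    · have := h2.2.2.2.2 h5 h4
      omega

theorem e1_kbp (n : ℤ) : inB (pinf n).2.1 (pinf n).2.2 = true ∧
    kb (16 + ((pinf n).1 % 10).toNat) ((pinf n).2.1 + 4).toNat ((pinf n).2.2 + 17).toNat = true := by
  obtain ⟨hr, hr2⟩ := e1_r n
  rw [e1_pinf]
  have h2 := e1_le _ hr
  have h3 := e1_kb _ hr
  set r := (n % 82).toNat with hrdef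
  simp only
  have a1 : (((e1A r : ℤ) + 10 * (n / 82)) % 10).toNat = e1A r % 10 := by omega
  have a2 : ((e1B r : ℤ) - 3 + 4).toNat = e1B r + 1 := by omega
  have a3 : ((e1C r : ℤ) - 3 + 17).toNat = e1C r + 14 := by omega
  rw [a1, a2, a3]
  refine ⟨?_, h3⟩
  simp only [inB, Bool.and_eq_true, decide_eq_true_eq]
  omega

theorem e1_absdist (a b : ℕ) (c : ℤ) : |((b : ℤ) + c) - ((a : ℤ) + c)| = (e1dist a b : ℤ) := by
  unfold e1dist
  rcases le_total a b with h | h
  · rw [abs_of_nonneg (by omega)]; omega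
  · rw [abs_of_nonpos (by omega)]; omega

theorem e1_pstep (n : ℤ) :
    |(dir pinf n).1| + |(dir pinf n).2.1| + |(dir pinf n).2.2| = 1 := by
  obtain ⟨hr, hr2⟩ := e1_r n
  set r := (n % 82).toNat with hrdef
  have hP : pinf n = ((e1A r : ℤ) + 10 * (n / 82), (e1B r : ℤ) - 3, (e1C r : ℤ) - 3) := rfl
  by_cases h81 : r < 81
  · have h1 : ((n + 1) % 82).toNat = r + 1 := by omega
    have h2 : (n + 1) / 82 = n / 82 := by omega
    have hP1 : pinf (n + 1) = ((e1A (r + 1) : ℤ) + 10 * (n / 82), (e1B (r + 1) : ℤ) - 3,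
        (e1C (r + 1) : ℤ) - 3) := by
      rw [e1_pinf, h1, h2]
    have h3 := e1_st r h81
    unfold dir
    rw [hP, hP1]
    simp only [Prod.fst_sub, Prod.snd_sub]
    rw [e1_absdist, sub_eq_add_neg ((e1B (r + 1) : ℤ)) 3, sub_eq_add_neg ((e1B r : ℤ)) 3,
      sub_eq_add_neg ((e1C (r + 1) : ℤ)) 3, sub_eq_add_neg ((e1C r : ℤ)) 3, e1_absdist, e1_absdist]
    exact_mod_cast h3
  · have hr81 : r = 81 := by omega
    have h1 : ((n + 1) % 82).toNat = 0 := by omega
    have h2 : (n + 1) / 82 = n / 82 + 1 := by omega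
    have hP1 : pinf (n + 1) = (((e1A 0 + 10 : ℕ) : ℤ) + 10 * (n / 82), (e1B 0 : ℤ) - 3,
        (e1C 0 : ℤ) - 3) := by
      rw [e1_pinf, h1, h2]
      push_cast
      congr 1
      ring
    have h3 := e1_wrap
    unfold dir
    rw [hP, hP1, hr81]
    simp only [Prod.fst_sub, Prod.snd_sub]
    rw [e1_absdist, sub_eq_add_neg ((e1B 0 : ℤ)) 3, sub_eq_add_neg ((e1B 81 : ℤ)) 3,
      sub_eq_add_neg ((e1C 0 : ℤ)) 3, sub_eq_add_neg ((e1C 81 : ℤ)) 3, e1_absdist, e1_absdist]
    exact_mod_cast h3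

theorem e1_path_hi (n : ℤ) (h : 59 ≤ n) :
    path n = ((pinf (n - 59)).1 + 8, (pinf (n - 59)).2.1, (pinf (n - 59)).2.2) := by
  unfold path; rw [if_pos h]

theorem e1_path_lo (n : ℤ) (h : n ≤ -48) :
    path n = ((pinf (n + 15)).1 - 8, (pinf (n + 15)).2.1, (pinf (n + 15)).2.2) := by
  unfold path
  rw [if_neg (by omega), if_neg (by omega), if_neg (by omega), if_neg (by omega), if_neg (by omega),
    if_neg (by omega), if_neg (by omega), if_neg (by omega), if_neg (by omega), if_neg (by omega)]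

theorem e1_fin_idx : ∀ i < 120, idx (path ((i : ℕ) - 55 : ℤ)) = ((i : ℕ) - 55 : ℤ) := by
  decide +kernel

theorem e1_fin_isK : ∀ i < 120, isK (path ((i : ℕ) - 55 : ℤ)) = true := by
  decide +kernel

theorem e1_fin_step : ∀ i < 120, (dir path ((i : ℕ) - 55 : ℤ)).1.natAbs +
    (dir path ((i : ℕ) - 55 : ℤ)).2.1.natAbs + (dir path ((i : ℕ) - 55 : ℤ)).2.2.natAbs = 1 := by
  decide +kernel

theorem e1_fin_box : ∀ i < 120, (i ≤ 42 ∨ 80 ≤ i) → (path ((i : ℕ) - 55 : ℤ)).2.1.natAbs ≤ 3 ∧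
    (path ((i : ℕ) - 55 : ℤ)).2.2.natAbs ≤ 3 := by
  decide +kernel

/-- TARGET 1 -/
theorem idx_path (n : ℤ) : idx (path n) = n := by
  by_cases h1 : 60 ≤ n
  · rw [e1_path_hi n (by omega)]
    have h2 := e1_pos (n - 59) (by omega)
    have h3 := e1_ipinf (n - 59)
    unfold idx
    simp only
    rw [if_pos (by omega), add_sub_cancel_right, h3, if_pos (by omega)]
    omega
  · by_cases h4 : n ≤ -48
    · rw [e1_path_lo n h4]
      have h2 := e1_neg (n + 15) (by omega)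
      have h3 := e1_ipinf (n + 15)
      unfold idx
      simp only
      rw [if_neg (by omega), if_pos (by omega), sub_add_cancel, h3, if_pos (by omega)]
      omega
    · have h5 := e1_fin_idx (n + 55).toNat (by omega)
      have h6 : ((((n + 55).toNat : ℕ) : ℤ) - 55) = n := by omega
      rw [h6] at h5
      exact h5

/-- TARGET 2 -/
theorem isK_path (n : ℤ) : isK (path n) = true := by
  by_cases h1 : 60 ≤ n
  · rw [e1_path_hi n (by omega)]
    have h2 := e1_pos (n - 59) (by omega)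
    obtain ⟨h3, h4⟩ := e1_kbp (n - 59)
    unfold isK
    simp only
    rw [h3, Bool.true_and]
    have h5 : sl ((pinf (n - 59)).1 + 8) = 16 + ((pinf (n - 59)).1 % 10).toNat := by
      unfold sl
      rw [if_neg (by omega), if_neg (by omega), add_sub_cancel_right]
    rw [h5]; exact h4
  · by_cases h4 : n ≤ -48
    · rw [e1_path_lo n h4]
      have h2 := e1_neg (n + 15) (by omega)
      obtain ⟨h3, h4⟩ := e1_kbp (n + 15)
      unfold isK
      simp only
      rw [h3, Bool.true_and]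
      have h5 : sl ((pinf (n + 15)).1 - 8) = 16 + ((pinf (n + 15)).1 % 10).toNat := by
        unfold sl
        rw [if_pos (by omega), sub_add_cancel]
      rw [h5]; exact h4
    · have h5 := e1_fin_isK (n + 55).toNat (by omega)
      have h6 : ((((n + 55).toNat : ℕ) : ℤ) - 55) = n := by omega
      rw [h6] at h5
      exact h5

/-- TARGET 3 -/
theorem path_step (n : ℤ) :
    |(dir path n).1| + |(dir path n).2.1| + |(dir path n).2.2| = 1 := by
  by_cases h1 : 60 ≤ n
  · have h2 := e1_pstep (n - 59)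
    unfold dir at h2 ⊢
    rw [e1_path_hi n (by omega), e1_path_hi (n + 1) (by omega)]
    have h3 : n + 1 - 59 = n - 59 + 1 := by ring
    rw [h3]
    simp only [Prod.fst_sub, Prod.snd_sub] at h2 ⊢
    rw [add_sub_add_right_eq_sub]
    exact h2
  · by_cases h4 : n ≤ -49
    · have h2 := e1_pstep (n + 15)
      unfold dir at h2 ⊢
      rw [e1_path_lo n (by omega), e1_path_lo (n + 1) (by omega)]
      have h3 : n + 1 + 15 = n + 15 + 1 := by ring
      rw [h3]
      simp only [Prod.fst_sub, Prod.snd_sub] at h2 ⊢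
      rw [sub_sub_sub_cancel_right]
      exact h2
    · have h5 := e1_fin_step (n + 55).toNat (by omega)
      have h6 : ((((n + 55).toNat : ℕ) : ℤ) - 55) = n := by omega
      rw [h6] at h5
      have h7 : ((((dir path n).1.natAbs + (dir path n).2.1.natAbs + (dir path n).2.2.natAbs : ℕ)) : ℤ)
          = ((1 : ℕ) : ℤ) := by rw [h5]
      push_cast at h7
      simpa using h7

/-- TARGET 4 -/
theorem path_dot (n : ℤ) : dot (dir path n) (dir path n) = 1 := by
  have h := path_step n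
  unfold dot
  generalize (dir path n).1 = a at h ⊢
  generalize (dir path n).2.1 = b at h ⊢
  generalize (dir path n).2.2 = c at h ⊢
  have ha := abs_nonneg a
  have hb := abs_nonneg b
  have hc := abs_nonneg c
  rw [← abs_mul_abs_self a, ← abs_mul_abs_self b, ← abs_mul_abs_self c]
  generalize |a| = x at *
  generalize |b| = y at *
  generalize |c| = z at *
  have hx : x = 0 ∨ x = 1 := by omega
  have hy : y = 0 ∨ y = 1 := by omega
  have hz : z = 0 ∨ z = 1 := by omega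
  rcases hx with rfl | rfl <;> rcases hy with rfl | rfl <;> rcases hz with rfl | rfl <;> omega

/-- TARGET 5 -/
theorem path_box (n : ℤ) (h : n ≤ -13 ∨ 25 ≤ n) : |(path n).2.1| ≤ 3 ∧ |(path n).2.2| ≤ 3 := by
  by_cases h1 : 60 ≤ n
  · rw [e1_path_hi n (by omega)]
    exact e1_box (n - 59)
  · by_cases h4 : n ≤ -48
    · rw [e1_path_lo n h4]
      exact e1_box (n + 15)
    · have h5 := e1_fin_box (n + 55).toNat (by omega) (by omega)
      have h6 : ((((n + 55).toNat : ℕ) : ℤ) - 55) = n := by omega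
      rw [h6] at h5
      constructor
      · rw [Int.abs_eq_natAbs]; exact_mod_cast h5.1
      · rw [Int.abs_eq_natAbs]; exact_mod_cast h5.2

/-- TARGET 6 -/
theorem path_growth (B : ℤ) : ∃ N : ℤ, ∀ n ≥ N, B ≤ (path n).1 ∧ (path (-n)).1 ≤ -B := by
  refine ⟨82 * (|B| + 2) + 100, fun n hn => ?_⟩
  have hB := abs_nonneg B
  have hB1 := le_abs_self B
  have h1 := e1_x (n - 59)
  have h2 := e1_x (-n + 15)
  rw [e1_path_hi n (by omega), e1_path_lo (-n) (by omega)]
  simp only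
  constructor
  · have : |B| ≤ (n - 59) / 82 := by omega
    omega
  · have : (-n + 15) / 82 ≤ -|B| - 1 := by omega
    omega

end Pool.Agent.Helper607.Wild.Tab
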