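import Pool.Agent.Helper607.Wild.Base
set_option autoImplicit false
open Set Filter Topology

namespace Pool.Agent.Helper607.Wild



/-- linear equivalence -/
noncomputable def eLin : EuclideanSpace ℝ (Fin 3) ≃ₗ[ℝ] R3 where
  toFun v := (v 0, v 1, v 2)
  map_add' v w := by simp
  map_smul' c v := by simp
  invFun p := (WithLp.equiv 2 (Fin 3 → ℝ)).symm ![p.1, p.2.1, p.2.2]
  left_inv v := by
    ext i
    fin_cases i <;> simp
  right_inv p := by
    simp

noncomputable def eC : EuclideanSpace ℝ (Fin 3) ≃L[ℝ] R3 := eLin.toContinuousLinearEquiv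

/-- inside for the Euclidean space -/
def insE (S : Set (EuclideanSpace ℝ (Fin 3))) : Set (EuclideanSpace ℝ (Fin 3)) :=
  {x | x ∉ S ∧ Bornology.IsBounded (connectedComponentIn Sᶜ x)}

theorem bdd_image_iff (A : Set (EuclideanSpace ℝ (Fin 3))) :
    Bornology.IsBounded (eC '' A) ↔ Bornology.IsBounded A := by
  constructor
  · intro h
    have h2 := eC.symm.lipschitz.isBounded_image h
    rw [← Set.image_comp] at h2
    have : (eC.symm ∘ eC : EuclideanSpace ℝ (Fin 3) → EuclideanSpace ℝ (Fin 3)) = id := by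
      ext x; simp
    rw [this, Set.image_id] at h2
    exact h2
  · intro h
    exact eC.lipschitz.isBounded_image h

theorem mem_insE_iff (S : Set (EuclideanSpace ℝ (Fin 3))) (x : EuclideanSpace ℝ (Fin 3)) :
    x ∈ insE S ↔ eC x ∈ ins (eC '' S) := by
  unfold insE ins
  simp only [Set.mem_setOf_eq]
  have hinj : Function.Injective eC := eC.injective
  have hx : eC x ∈ eC '' S ↔ x ∈ S := hinj.mem_set_image
  constructor
  · rintro ⟨h1, h2⟩
    refine ⟨fun h => h1 (hx.1 h), ?_⟩
    have := (eC.toHomeomorph).image_connectedComponentIn (s := Sᶜ) (x := x) h1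
    have hc : (eC.toHomeomorph : EuclideanSpace ℝ (Fin 3) → R3) '' Sᶜ = (eC '' S)ᶜ := by
      exact Set.image_compl_eq eC.bijective
    rw [hc] at this
    change (eC '' connectedComponentIn Sᶜ x) = connectedComponentIn (eC '' S)ᶜ (eC x) at this
    rw [← this]
    exact (bdd_image_iff _).2 h2
  · rintro ⟨h1, h2⟩
    have h1' : x ∉ S := fun h => h1 (hx.2 h)
    refine ⟨h1', ?_⟩
    have := (eC.toHomeomorph).image_connectedComponentIn (s := Sᶜ) (x := x) h1'
    have hc : (eC.toHomeomorph : EuclideanSpace ℝ (Fin 3) → R3) '' Sᶜ = (eC '' S)ᶜ := by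
      exact Set.image_compl_eq eC.bijective
    rw [hc] at this
    change (eC '' connectedComponentIn Sᶜ x) = connectedComponentIn (eC '' S)ᶜ (eC x) at this
    rw [← this] at h2
    exact (bdd_image_iff _).1 h2

theorem range_sub_iff (g g' : S2 → EuclideanSpace ℝ (Fin 3)) :
    range g ⊆ insE (range g') ↔ range (fun x => eC (g x)) ⊆ ins (range (fun x => eC (g' x))) := by
  have h : range (fun x => eC (g' x)) = eC '' range g' := by
    rw [← Set.range_comp]; rfl
  rw [h]
  constructor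
  · rintro H _ ⟨x, rfl⟩
    exact (mem_insE_iff _ _).1 (H ⟨x, rfl⟩)
  · rintro H _ ⟨x, rfl⟩
    exact (mem_insE_iff _ _).2 (H ⟨x, rfl⟩)

theorem range_sub_iff' (g g' : S2 → R3) :
    range (fun x => eC.symm (g x)) ⊆ insE (range (fun x => eC.symm (g' x))) ↔
      range g ⊆ ins (range g') := by
  rw [range_sub_iff]
  simp

theorem range_sub_iff_l (g : S2 → R3) (g' : S2 → EuclideanSpace ℝ (Fin 3)) :
    range (fun x => eC.symm (g x)) ⊆ insE (range g') ↔
      range g ⊆ ins (range (fun x => eC (g' x))) := by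
  rw [range_sub_iff]
  simp

theorem range_sub_iff_r (g : S2 → EuclideanSpace ℝ (Fin 3)) (g' : S2 → R3) :
    range g ⊆ insE (range (fun x => eC.symm (g' x))) ↔
      range (fun x => eC (g x)) ⊆ ins (range g') := by
  rw [range_sub_iff]
  simp

/-- TARGET 1 -/
theorem transfer_three (f₁ f₂ f₃ : S2 → R3) (h1 : Continuous f₁) (h1' : Function.Injective f₁)
    (h2 : Continuous f₂) (h2' : Function.Injective f₂)
    (h3 : Continuous f₃) (h3' : Function.Injective f₃)
    (h32 : range f₃ ⊆ ins (range f₂)) (h21 : range f₂ ⊆ ins (range f₁))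
    (hno12 : ¬ ∃ f : S2 → R3, Continuous f ∧ Function.Injective f ∧ range f ⊆ ins (range f₁) ∧
      range f₂ ⊆ ins (range f))
    (hno23 : ¬ ∃ f : S2 → R3, Continuous f ∧ Function.Injective f ∧ range f ⊆ ins (range f₂) ∧
      range f₃ ⊆ ins (range f)) :
    ¬ (∀ ins : Set (EuclideanSpace ℝ (Fin 3)) → Set (EuclideanSpace ℝ (Fin 3)),
      (∀ S : Set (EuclideanSpace ℝ (Fin 3)),
        ins S = {x | x ∉ S ∧ Bornology.IsBounded (connectedComponentIn Sᶜ x)}) →
      ∀ f₁ f₂ f₃ : Metric.sphere (0 : EuclideanSpace ℝ (Fin 3)) 1 → EuclideanSpace ℝ (Fin 3),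
        Continuous f₁ → Function.Injective f₁ →
        Continuous f₂ → Function.Injective f₂ →
        Continuous f₃ → Function.Injective f₃ →
        Set.range f₃ ⊆ ins (Set.range f₂) →
        Set.range f₂ ⊆ ins (Set.range f₁) →
        ∃ f₄ : Metric.sphere (0 : EuclideanSpace ℝ (Fin 3)) 1 → EuclideanSpace ℝ (Fin 3),
          Continuous f₄ ∧ Function.Injective f₄ ∧
          ((Set.range f₄ ⊆ ins (Set.range f₁) ∧ Set.range f₂ ⊆ ins (Set.range f₄)) ∨
           (Set.range f₄ ⊆ ins (Set.range f₂) ∧ Set.range f₃ ⊆ ins (Set.range f₄)))) := by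

  intro H
  obtain ⟨f₄, hc, hi, h⟩ := H insE (fun S => rfl) (fun x => eC.symm (f₁ x)) (fun x => eC.symm (f₂ x))
    (fun x => eC.symm (f₃ x)) (eC.symm.continuous.comp h1) (eC.symm.injective.comp h1')
    (eC.symm.continuous.comp h2) (eC.symm.injective.comp h2')
    (eC.symm.continuous.comp h3) (eC.symm.injective.comp h3')
    ((range_sub_iff' _ _).2 h32) ((range_sub_iff' _ _).2 h21)
  rcases h with ⟨ha, hb⟩ | ⟨ha, hb⟩
  · exact hno12 ⟨fun x => eC (f₄ x), eC.continuous.comp hc, eC.injective.comp hi,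
      (range_sub_iff_r _ _).1 ha, (range_sub_iff_l _ _).1 hb⟩
  · exact hno23 ⟨fun x => eC (f₄ x), eC.continuous.comp hc, eC.injective.comp hi,
      (range_sub_iff_r _ _).1 ha, (range_sub_iff_l _ _).1 hb⟩

/-- TARGET 2 -/
theorem transfer_two (f₁ f₂ : S2 → R3) (h1 : Continuous f₁) (h1' : Function.Injective f₁)
    (h2 : Continuous f₂) (h2' : Function.Injective f₂) (h21 : range f₂ ⊆ ins (range f₁))
    (hno12 : ¬ ∃ f : S2 → R3, Continuous f ∧ Function.Injective f ∧ range f ⊆ ins (range f₁) ∧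
      range f₂ ⊆ ins (range f)) :
    ∃ f₁ f₂ : Metric.sphere (0 : EuclideanSpace ℝ (Fin 3)) 1 → EuclideanSpace ℝ (Fin 3),
      Continuous f₁ ∧ Function.Injective f₁ ∧ Continuous f₂ ∧ Function.Injective f₂ ∧
      Set.range f₂ ⊆ {x | x ∉ Set.range f₁ ∧
        Bornology.IsBounded (connectedComponentIn (Set.range f₁)ᶜ x)} ∧
      ¬ ∃ f₃ : Metric.sphere (0 : EuclideanSpace ℝ (Fin 3)) 1 → EuclideanSpace ℝ (Fin 3),
        Continuous f₃ ∧ Function.Injective f₃ ∧
        Set.range f₂ ⊆ {x | x ∉ Set.range f₃ ∧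
          Bornology.IsBounded (connectedComponentIn (Set.range f₃)ᶜ x)} ∧
        Set.range f₃ ⊆ {x | x ∉ Set.range f₁ ∧
          Bornology.IsBounded (connectedComponentIn (Set.range f₁)ᶜ x)} := by


  refine ⟨fun x => eC.symm (f₁ x), fun x => eC.symm (f₂ x), eC.symm.continuous.comp h1,
    eC.symm.injective.comp h1', eC.symm.continuous.comp h2, eC.symm.injective.comp h2',
    (range_sub_iff' _ _).2 h21, ?_⟩
  rintro ⟨f₃, hc, hi, ha, hb⟩
  exact hno12 ⟨fun x => eC (f₃ x), eC.continuous.comp hc, eC.injective.comp hi,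
      (range_sub_iff_r _ _).1 hb, (range_sub_iff_l _ _).1 ha⟩

end Pool.Agent.Helper607.Wild
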