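import Pool.Agent.Helper607.Wild.Tables
set_option autoImplicit false

namespace Pool.Agent.Helper607.Wild.Tab


theorem pinf_per (n k : ℤ) :
    pinf (n + 82 * k) = ((pinf n).1 + 10 * k, (pinf n).2.1, (pinf n).2.2) := by
  have h1 : (n + 82 * k) % 82 = n % 82 := by omega
  have h2 : (n + 82 * k) / 82 = n / 82 + k := by omega
  unfold pinf
  rw [h1, h2]
  refine Prod.ext ?_ (Prod.ext ?_ ?_) <;> simp <;> ring

theorem ipinf_per (x k y z : ℤ) : ipinf (x + 10 * k) y z = ipinf x y z + 82 * k := by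
  have h1 : (x + 10 * k) % 10 = x % 10 := by omega
  have h2 : (x + 10 * k) / 10 = x / 10 + k := by omega
  unfold ipinf
  rw [h1, h2]
  ring

def jcA : Bool := (List.range 10).all fun s => (List.range 9).all fun Y => (List.range 22).all fun Z =>
  !(kb (16 + s) Y Z) ||
    (decide (-32 ≤ ipinf (s : ℤ) ((Y : ℤ) - 4) ((Z : ℤ) - 17)) &&
     decide (ipinf (s : ℤ) ((Y : ℤ) - 4) ((Z : ℤ) - 17) ≤ 81) &&
     decide (pinf (ipinf (s : ℤ) ((Y : ℤ) - 4) ((Z : ℤ) - 17)) = ((s : ℤ), (Y : ℤ) - 4, (Z : ℤ) - 17)) &&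
     (decide (s = 0) || decide (0 < ipinf (s : ℤ) ((Y : ℤ) - 4) ((Z : ℤ) - 17)) ||
       (decide (-31 ≤ ipinf (s : ℤ) ((Y : ℤ) - 4) ((Z : ℤ) - 17)) &&
        decide (ipinf (s : ℤ) ((Y : ℤ) - 4) ((Z : ℤ) - 17) ≤ -17))) &&
     (decide (ipinf (s : ℤ) ((Y : ℤ) - 4) ((Z : ℤ) - 17) - 82 < -32) ||
       (decide (-15 ≤ ipinf (s : ℤ) ((Y : ℤ) - 4) ((Z : ℤ) - 17) - 82) &&
        decide (ipinf (s : ℤ) ((Y : ℤ) - 4) ((Z : ℤ) - 17) - 82 ≤ -1))))

theorem jcA_true : jcA = true := by decide +kernel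

def jcM : Bool := (List.range 17).all fun X => (List.range 9).all fun Y => (List.range 22).all fun Z =>
  !(kb (sl ((X : ℤ) - 8)) Y Z) ||
    decide (path (idx ((X : ℤ) - 8, (Y : ℤ) - 4, (Z : ℤ) - 17)) = ((X : ℤ) - 8, (Y : ℤ) - 4, (Z : ℤ) - 17))

theorem jcM_true : jcM = true := by decide +kernel

/-- periodic adjacency -/
def jcP : Bool := (List.range 10).all fun s => (List.range 9).all fun Y => (List.range 22).all fun Z =>
  !(kb (16 + s) Y Z) ||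
    ((!(kb (16 + (s + 1) % 10) Y Z) ||
      decide (ipinf ((s : ℤ) + 1) ((Y : ℤ) - 4) ((Z : ℤ) - 17) = ipinf (s : ℤ) ((Y : ℤ) - 4) ((Z : ℤ) - 17) + 1) ||
      decide (ipinf ((s : ℤ) + 1) ((Y : ℤ) - 4) ((Z : ℤ) - 17) = ipinf (s : ℤ) ((Y : ℤ) - 4) ((Z : ℤ) - 17) - 1)) &&
     (!(kb (16 + s) (Y + 1) Z) ||
      decide (ipinf (s : ℤ) ((Y : ℤ) - 4 + 1) ((Z : ℤ) - 17) = ipinf (s : ℤ) ((Y : ℤ) - 4) ((Z : ℤ) - 17) + 1) ||
      decide (ipinf (s : ℤ) ((Y : ℤ) - 4 + 1) ((Z : ℤ) - 17) = ipinf (s : ℤ) ((Y : ℤ) - 4) ((Z : ℤ) - 17) - 1)) &&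
     (!(kb (16 + s) Y (Z + 1)) || decide (21 ≤ Z) ||
      decide (ipinf (s : ℤ) ((Y : ℤ) - 4) ((Z : ℤ) - 17 + 1) = ipinf (s : ℤ) ((Y : ℤ) - 4) ((Z : ℤ) - 17) + 1) ||
      decide (ipinf (s : ℤ) ((Y : ℤ) - 4) ((Z : ℤ) - 17 + 1) = ipinf (s : ℤ) ((Y : ℤ) - 4) ((Z : ℤ) - 17) - 1)))

theorem jcP_true : jcP = true := by decide +kernel

/-- window adjacency -/
def jcW : Bool := (List.range 61).all fun X => (List.range 9).all fun Y => (List.range 22).all fun Z =>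
  !(kb (sl ((X : ℤ) - 30)) Y Z) ||
    ((!(kb (sl ((X : ℤ) - 30 + 1)) Y Z) ||
      decide (idx ((X : ℤ) - 30 + 1, (Y : ℤ) - 4, (Z : ℤ) - 17) = idx ((X : ℤ) - 30, (Y : ℤ) - 4, (Z : ℤ) - 17) + 1) ||
      decide (idx ((X : ℤ) - 30 + 1, (Y : ℤ) - 4, (Z : ℤ) - 17) = idx ((X : ℤ) - 30, (Y : ℤ) - 4, (Z : ℤ) - 17) - 1)) &&
     (!(kb (sl ((X : ℤ) - 30)) (Y + 1) Z) ||
      decide (idx ((X : ℤ) - 30, (Y : ℤ) - 4 + 1, (Z : ℤ) - 17) = idx ((X : ℤ) - 30, (Y : ℤ) - 4, (Z : ℤ) - 17) + 1) ||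
      decide (idx ((X : ℤ) - 30, (Y : ℤ) - 4 + 1, (Z : ℤ) - 17) = idx ((X : ℤ) - 30, (Y : ℤ) - 4, (Z : ℤ) - 17) - 1)) &&
     (!(kb (sl ((X : ℤ) - 30)) Y (Z + 1)) || decide (21 ≤ Z) ||
      decide (idx ((X : ℤ) - 30, (Y : ℤ) - 4, (Z : ℤ) - 17 + 1) = idx ((X : ℤ) - 30, (Y : ℤ) - 4, (Z : ℤ) - 17) + 1) ||
      decide (idx ((X : ℤ) - 30, (Y : ℤ) - 4, (Z : ℤ) - 17 + 1) = idx ((X : ℤ) - 30, (Y : ℤ) - 4, (Z : ℤ) - 17) - 1)))

theorem jcW_true : jcW = true := by decide +kernel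

theorem isK_data (x y z : ℤ) (h : isK (x, y, z) = true) :
    ∃ Y Z : ℕ, Y < 9 ∧ Z < 22 ∧ y = (Y : ℤ) - 4 ∧ z = (Z : ℤ) - 17 ∧ kb (sl x) Y Z = true := by
  unfold isK inB at h
  simp only [Bool.and_eq_true, decide_eq_true_eq] at h
  obtain ⟨⟨⟨⟨h1, h2⟩, h3⟩, h4⟩, h5⟩ := h
  refine ⟨(y + 4).toNat, (z + 17).toNat, by omega, by omega, by omega, by omega, h5⟩

theorem jcA_use (s Y Z : ℕ) (hs : s < 10) (hY : Y < 9) (hZ : Z < 22) (hk : kb (16 + s) Y Z = true) :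
    -32 ≤ ipinf (s : ℤ) ((Y : ℤ) - 4) ((Z : ℤ) - 17) ∧
    ipinf (s : ℤ) ((Y : ℤ) - 4) ((Z : ℤ) - 17) ≤ 81 ∧
    pinf (ipinf (s : ℤ) ((Y : ℤ) - 4) ((Z : ℤ) - 17)) = ((s : ℤ), (Y : ℤ) - 4, (Z : ℤ) - 17) ∧
    (s = 0 ∨ 0 < ipinf (s : ℤ) ((Y : ℤ) - 4) ((Z : ℤ) - 17) ∨
       (-31 ≤ ipinf (s : ℤ) ((Y : ℤ) - 4) ((Z : ℤ) - 17) ∧
        ipinf (s : ℤ) ((Y : ℤ) - 4) ((Z : ℤ) - 17) ≤ -17)) ∧
    (ipinf (s : ℤ) ((Y : ℤ) - 4) ((Z : ℤ) - 17) - 82 < -32 ∨
       (-15 ≤ ipinf (s : ℤ) ((Y : ℤ) - 4) ((Z : ℤ) - 17) - 82 ∧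
        ipinf (s : ℤ) ((Y : ℤ) - 4) ((Z : ℤ) - 17) - 82 ≤ -1)) := by
  have h0 := jcA_true
  unfold jcA at h0
  have h1 := (List.all_eq_true.mp h0) s (List.mem_range.mpr hs)
  have h2 := (List.all_eq_true.mp h1) Y (List.mem_range.mpr hY)
  have h3 := (List.all_eq_true.mp h2) Z (List.mem_range.mpr hZ)
  rw [hk] at h3
  simp only [Bool.not_true, Bool.false_or, Bool.and_eq_true, Bool.or_eq_true,
    decide_eq_true_eq] at h3
  obtain ⟨⟨⟨⟨a, b⟩, c⟩, d⟩, e⟩ := h3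
  refine ⟨a, b, c, ?_, e⟩
  rcases d with (d | d) | d
  · exact Or.inl d
  · exact Or.inr (Or.inl d)
  · exact Or.inr (Or.inr d)

/-- TARGET 1 -/
theorem path_idx (v : Z3) (h : isK v = true) : path (idx v) = v := by
  obtain ⟨x, y, z⟩ := v
  obtain ⟨Y, Z, hY, hZ, rfl, rfl, hk⟩ := isK_data x y z h
  by_cases h9 : 9 ≤ x
  · have hsl : sl x = 16 + ((x - 8) % 10).toNat := by
      unfold sl; rw [if_neg (by omega), if_neg (by omega)]
    rw [hsl] at hk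
    set s := ((x - 8) % 10).toNat with hs
    have hs10 : s < 10 := by omega
    obtain ⟨k, hxk⟩ : ∃ k : ℤ, x - 8 = (s : ℤ) + 10 * k := ⟨(x - 8) / 10, by omega⟩
    have hk0 : 0 ≤ k := by omega
    obtain ⟨a, b, c, d, e⟩ := jcA_use s Y Z hs10 hY hZ hk
    have hip : ipinf (x - 8) ((Y : ℤ) - 4) ((Z : ℤ) - 17) =
      ipinf (s : ℤ) ((Y : ℤ) - 4) ((Z : ℤ) - 17) + 82 * k := by rw [hxk, ipinf_per]
    generalize ipinf (s : ℤ) ((Y : ℤ) - 4) ((Z : ℤ) - 17) = t at *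
    have hidx : idx (x, (Y : ℤ) - 4, (Z : ℤ) - 17) =
        if 0 < t + 82 * k then t + 82 * k + 59 else t + 82 * k + 1 := by
      unfold idx
      simp only
      rw [if_pos h9, hip]
    rw [hidx]
    split_ifs with hp
    · unfold path
      rw [if_pos (by omega)]
      have : t + 82 * k + 59 - 59 = t + 82 * k := by ring
      rw [this, pinf_per, c]
      simp only [Prod.mk.injEq, and_true]
      omega
    · have hk' : k = 0 := by omega
      subst hk'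
      unfold path
      rw [if_neg (by omega), if_neg (by omega), if_neg (by omega), if_neg (by omega),
        if_neg (by omega), if_neg (by omega), if_neg (by omega), if_neg (by omega),
        if_pos (by omega)]
      have : t + 82 * 0 + 1 - 1 = t := by ring
      rw [this, c]
      simp only [Prod.mk.injEq, and_true]
      omega
  · by_cases hm9 : x ≤ -9
    · have hsl : sl x = 16 + ((x + 8) % 10).toNat := by
        unfold sl; rw [if_pos (by omega)]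
      rw [hsl] at hk
      set s := ((x + 8) % 10).toNat with hs
      have hs10 : s < 10 := by omega
      obtain ⟨k, hxk⟩ : ∃ k : ℤ, x + 8 = (s : ℤ) + 10 * k := ⟨(x + 8) / 10, by omega⟩
      have hk0 : k ≤ -1 := by omega
      obtain ⟨a, b, c, d, e⟩ := jcA_use s Y Z hs10 hY hZ hk
      have hip : ipinf (x + 8) ((Y : ℤ) - 4) ((Z : ℤ) - 17) =
        ipinf (s : ℤ) ((Y : ℤ) - 4) ((Z : ℤ) - 17) + 82 * k := by rw [hxk, ipinf_per]
      generalize ipinf (s : ℤ) ((Y : ℤ) - 4) ((Z : ℤ) - 17) = t at *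
      have hidx : idx (x, (Y : ℤ) - 4, (Z : ℤ) - 17) =
          if t + 82 * k < -32 then t + 82 * k - 15 else t + 82 * k + 43 := by
        unfold idx
        simp only
        rw [if_neg h9, if_pos hm9, hip]
      rw [hidx]
      split_ifs with hp
      · unfold path
        rw [if_neg (by omega), if_neg (by omega), if_neg (by omega), if_neg (by omega),
          if_neg (by omega), if_neg (by omega), if_neg (by omega), if_neg (by omega),
          if_neg (by omega), if_neg (by omega)]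
        have : t + 82 * k - 15 + 15 = t + 82 * k := by ring
        rw [this, pinf_per, c]
        simp only [Prod.mk.injEq, and_true]
        omega
      · have hk' : k = -1 := by omega
        subst hk'
        unfold path
        rw [if_neg (by omega), if_neg (by omega), if_pos (by omega)]
        have : t + 82 * (-1) + 43 - 43 = t + 82 * (-1) := by ring
        rw [this, pinf_per, c]
        simp only [Prod.mk.injEq, and_true]
        omega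
    · obtain ⟨X, hX, hX17⟩ : ∃ X : ℕ, x = (X : ℤ) - 8 ∧ X < 17 := ⟨(x + 8).toNat, by omega, by omega⟩
      subst hX
      have h0 := jcM_true
      unfold jcM at h0
      have h1 := (List.all_eq_true.mp h0) X (List.mem_range.mpr hX17)
      have h2 := (List.all_eq_true.mp h1) Y (List.mem_range.mpr hY)
      have h3 := (List.all_eq_true.mp h2) Z (List.mem_range.mpr hZ)
      rw [hk] at h3
      simpa using h3

theorem jcP_use (s Y Z : ℕ) (hs : s < 10) (hY : Y < 9) (hZ : Z < 22) (hk : kb (16 + s) Y Z = true) :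
    (kb (16 + (s + 1) % 10) Y Z = true →
      ipinf ((s : ℤ) + 1) ((Y : ℤ) - 4) ((Z : ℤ) - 17) = ipinf (s : ℤ) ((Y : ℤ) - 4) ((Z : ℤ) - 17) + 1 ∨
      ipinf ((s : ℤ) + 1) ((Y : ℤ) - 4) ((Z : ℤ) - 17) = ipinf (s : ℤ) ((Y : ℤ) - 4) ((Z : ℤ) - 17) - 1) ∧
    (kb (16 + s) (Y + 1) Z = true →
      ipinf (s : ℤ) ((Y : ℤ) - 4 + 1) ((Z : ℤ) - 17) = ipinf (s : ℤ) ((Y : ℤ) - 4) ((Z : ℤ) - 17) + 1 ∨
      ipinf (s : ℤ) ((Y : ℤ) - 4 + 1) ((Z : ℤ) - 17) = ipinf (s : ℤ) ((Y : ℤ) - 4) ((Z : ℤ) - 17) - 1) ∧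
    (kb (16 + s) Y (Z + 1) = true → Z < 21 →
      ipinf (s : ℤ) ((Y : ℤ) - 4) ((Z : ℤ) - 17 + 1) = ipinf (s : ℤ) ((Y : ℤ) - 4) ((Z : ℤ) - 17) + 1 ∨
      ipinf (s : ℤ) ((Y : ℤ) - 4) ((Z : ℤ) - 17 + 1) = ipinf (s : ℤ) ((Y : ℤ) - 4) ((Z : ℤ) - 17) - 1) := by
  have h0 := jcP_true
  unfold jcP at h0
  have h1 := (List.all_eq_true.mp h0) s (List.mem_range.mpr hs)
  have h2 := (List.all_eq_true.mp h1) Y (List.mem_range.mpr hY)
  have h3 := (List.all_eq_true.mp h2) Z (List.mem_range.mpr hZ)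
  rw [hk] at h3
  simp only [Bool.not_true, Bool.false_or, Bool.and_eq_true, Bool.or_eq_true,
    decide_eq_true_eq, Bool.not_eq_true'] at h3
  obtain ⟨⟨a, b⟩, c⟩ := h3
  refine ⟨?_, ?_, ?_⟩
  · intro hh
    rcases a with (a | a) | a
    · rw [hh] at a; exact absurd a (by simp)
    · exact Or.inl a
    · exact Or.inr a
  · intro hh
    rcases b with (b | b) | b
    · rw [hh] at b; exact absurd b (by simp)
    · exact Or.inl b
    · exact Or.inr b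
  · intro hh hlt
    rcases c with ((c | c) | c) | c
    · rw [hh] at c; exact absurd c (by simp)
    · omega
    · exact Or.inl c
    · exact Or.inr c

theorem jcW_use (X Y Z : ℕ) (hs : X < 61) (hY : Y < 9) (hZ : Z < 22)
    (hk : kb (sl ((X : ℤ) - 30)) Y Z = true) :
    (kb (sl ((X : ℤ) - 30 + 1)) Y Z = true →
      idx ((X : ℤ) - 30 + 1, (Y : ℤ) - 4, (Z : ℤ) - 17) = idx ((X : ℤ) - 30, (Y : ℤ) - 4, (Z : ℤ) - 17) + 1 ∨
      idx ((X : ℤ) - 30 + 1, (Y : ℤ) - 4, (Z : ℤ) - 17) = idx ((X : ℤ) - 30, (Y : ℤ) - 4, (Z : ℤ) - 17) - 1) ∧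
    (kb (sl ((X : ℤ) - 30)) (Y + 1) Z = true →
      idx ((X : ℤ) - 30, (Y : ℤ) - 4 + 1, (Z : ℤ) - 17) = idx ((X : ℤ) - 30, (Y : ℤ) - 4, (Z : ℤ) - 17) + 1 ∨
      idx ((X : ℤ) - 30, (Y : ℤ) - 4 + 1, (Z : ℤ) - 17) = idx ((X : ℤ) - 30, (Y : ℤ) - 4, (Z : ℤ) - 17) - 1) ∧
    (kb (sl ((X : ℤ) - 30)) Y (Z + 1) = true → Z < 21 →
      idx ((X : ℤ) - 30, (Y : ℤ) - 4, (Z : ℤ) - 17 + 1) = idx ((X : ℤ) - 30, (Y : ℤ) - 4, (Z : ℤ) - 17) + 1 ∨
      idx ((X : ℤ) - 30, (Y : ℤ) - 4, (Z : ℤ) - 17 + 1) = idx ((X : ℤ) - 30, (Y : ℤ) - 4, (Z : ℤ) - 17) - 1) := by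
  have h0 := jcW_true
  unfold jcW at h0
  have h1 := (List.all_eq_true.mp h0) X (List.mem_range.mpr hs)
  have h2 := (List.all_eq_true.mp h1) Y (List.mem_range.mpr hY)
  have h3 := (List.all_eq_true.mp h2) Z (List.mem_range.mpr hZ)
  rw [hk] at h3
  simp only [Bool.not_true, Bool.false_or, Bool.and_eq_true, Bool.or_eq_true,
    decide_eq_true_eq, Bool.not_eq_true'] at h3
  obtain ⟨⟨a, b⟩, c⟩ := h3
  refine ⟨?_, ?_, ?_⟩
  · intro hh
    rcases a with (a | a) | a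
    · rw [hh] at a; exact absurd a (by simp)
    · exact Or.inl a
    · exact Or.inr a
  · intro hh
    rcases b with (b | b) | b
    · rw [hh] at b; exact absurd b (by simp)
    · exact Or.inl b
    · exact Or.inr b
  · intro hh hlt
    rcases c with ((c | c) | c) | c
    · rw [hh] at c; exact absurd c (by simp)
    · omega
    · exact Or.inl c
    · exact Or.inr c

/-- indices far right -/
theorem idx_right (x y z : ℤ) (s : ℕ) (k : ℤ) (hk : 1 ≤ k) (hx : x - 8 = s + 10 * k)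
    (ht : -32 ≤ ipinf (s : ℤ) y z) : idx (x, y, z) = ipinf (s : ℤ) y z + 82 * k + 59 := by
  have hip : ipinf (x - 8) y z = ipinf (s : ℤ) y z + 82 * k := by rw [hx, ipinf_per]
  unfold idx
  simp only
  rw [if_pos (by omega), hip, if_pos (by omega)]

/-- indices far left -/
theorem idx_left (x y z : ℤ) (s : ℕ) (hs : s < 10) (k : ℤ) (hk : k ≤ -2) (hx : x + 8 = s + 10 * k)
    (ht : ipinf (s : ℤ) y z ≤ 81) : idx (x, y, z) = ipinf (s : ℤ) y z + 82 * k - 15 := by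
  have hip : ipinf (x + 8) y z = ipinf (s : ℤ) y z + 82 * k := by rw [hx, ipinf_per]
  unfold idx
  simp only
  rw [if_neg (by omega), if_pos (by omega), hip, if_pos (by omega)]

theorem idx_diff_x (x y z : ℤ) (hv : isK (x, y, z) = true) (hw : isK (x + 1, y, z) = true) :
    idx (x + 1, y, z) = idx (x, y, z) + 1 ∨ idx (x + 1, y, z) = idx (x, y, z) - 1 := by
  obtain ⟨Y, Z, hY, hZ, rfl, rfl, hk⟩ := isK_data x y z hv
  obtain ⟨Y', Z', hY', hZ', e1, e2, hk'⟩ := isK_data (x + 1) _ _ hw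
  obtain rfl : Y' = Y := by omega
  obtain rfl : Z' = Z := by omega
  by_cases hwin : -30 ≤ x ∧ x ≤ 30
  · obtain ⟨X, hX, hX61⟩ : ∃ X : ℕ, x = (X : ℤ) - 30 ∧ X < 61 := ⟨(x + 30).toNat, by omega, by omega⟩
    subst hX
    exact (jcW_use X _ _ hX61 hY hZ hk).1 hk'
  · by_cases hr : 30 < x
    · have hsl : sl x = 16 + ((x - 8) % 10).toNat := by
        unfold sl; rw [if_neg (by omega), if_neg (by omega)]
      have hsl' : sl (x + 1) = 16 + ((x + 1 - 8) % 10).toNat := by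
        unfold sl; rw [if_neg (by omega), if_neg (by omega)]
      rw [hsl] at hk
      rw [hsl'] at hk'
      obtain ⟨s, hs⟩ : ∃ s : ℕ, s = ((x - 8) % 10).toNat := ⟨_, rfl⟩
      obtain ⟨k, hxk⟩ : ∃ k : ℤ, x - 8 = (s : ℤ) + 10 * k := ⟨(x - 8) / 10, by omega⟩
      have hs10 : s < 10 := by omega
      have hs1 : ((x + 1 - 8) % 10).toNat = (s + 1) % 10 := by omega
      rw [← hs] at hk
      rw [hs1] at hk'
      have hA := jcA_use s _ _ hs10 hY hZ hk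
      have hA' := jcA_use ((s + 1) % 10) _ _ (Nat.mod_lt _ (by norm_num)) hY hZ hk'
      have hP := (jcP_use s _ _ hs10 hY hZ hk).1 hk'
      rw [idx_right x _ _ s k (by omega) hxk hA.1]
      by_cases hs9 : s = 9
      · subst hs9
        have e3 : ((9 + 1) % 10 : ℕ) = 0 := by norm_num
        rw [e3] at hA'
        rw [idx_right (x + 1) _ _ 0 (k + 1) (by omega) (by push_cast at *; omega) hA'.1]
        have e4 := ipinf_per 0 1 ((Y' : ℤ) - 4) ((Z' : ℤ) - 17)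
        norm_num at e4 hP ⊢
        omega
      · have e3 : (s + 1) % 10 = s + 1 := by omega
        rw [e3] at hA'
        rw [idx_right (x + 1) _ _ (s + 1) k (by omega) (by push_cast; omega) hA'.1]
        push_cast
        omega
    · have hsl : sl x = 16 + ((x + 8) % 10).toNat := by
        unfold sl; rw [if_pos (by omega)]
      have hsl' : sl (x + 1) = 16 + ((x + 1 + 8) % 10).toNat := by
        unfold sl; rw [if_pos (by omega)]
      rw [hsl] at hk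
      rw [hsl'] at hk'
      obtain ⟨s, hs⟩ : ∃ s : ℕ, s = ((x + 8) % 10).toNat := ⟨_, rfl⟩
      obtain ⟨k, hxk⟩ : ∃ k : ℤ, x + 8 = (s : ℤ) + 10 * k := ⟨(x + 8) / 10, by omega⟩
      have hs10 : s < 10 := by omega
      have hs1 : ((x + 1 + 8) % 10).toNat = (s + 1) % 10 := by omega
      rw [← hs] at hk
      rw [hs1] at hk'
      have hA := jcA_use s _ _ hs10 hY hZ hk
      have hA' := jcA_use ((s + 1) % 10) _ _ (Nat.mod_lt _ (by norm_num)) hY hZ hk'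
      have hP := (jcP_use s _ _ hs10 hY hZ hk).1 hk'
      rw [idx_left x _ _ s hs10 k (by omega) hxk hA.2.1]
      by_cases hs9 : s = 9
      · subst hs9
        have e3 : ((9 + 1) % 10 : ℕ) = 0 := by norm_num
        rw [e3] at hA'
        rw [idx_left (x + 1) _ _ 0 (by norm_num) (k + 1) (by omega) (by push_cast at *; omega) hA'.2.1]
        have e4 := ipinf_per 0 1 ((Y' : ℤ) - 4) ((Z' : ℤ) - 17)
        norm_num at e4 hP ⊢
        omega
      · have e3 : (s + 1) % 10 = s + 1 := by omega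
        rw [e3] at hA'
        rw [idx_left (x + 1) _ _ (s + 1) (by omega) k (by omega) (by push_cast; omega) hA'.2.1]
        push_cast
        omega

theorem idx_diff_y (x y z : ℤ) (hv : isK (x, y, z) = true) (hw : isK (x, y + 1, z) = true) :
    idx (x, y + 1, z) = idx (x, y, z) + 1 ∨ idx (x, y + 1, z) = idx (x, y, z) - 1 := by
  obtain ⟨Y, Z, hY, hZ, rfl, rfl, hk⟩ := isK_data x y z hv
  obtain ⟨Y', Z', hY', hZ', e1, e2, hk'⟩ := isK_data x _ _ hw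
  obtain rfl : Y' = Y + 1 := by omega
  obtain rfl : Z' = Z := by omega
  have e1' : (Y : ℤ) - 4 + 1 = ((Y + 1 : ℕ) : ℤ) - 4 := by push_cast; ring
  by_cases hwin : -30 ≤ x ∧ x ≤ 30
  · obtain ⟨X, hX, hX61⟩ : ∃ X : ℕ, x = (X : ℤ) - 30 ∧ X < 61 := ⟨(x + 30).toNat, by omega, by omega⟩
    subst hX
    exact (jcW_use X _ _ hX61 hY hZ hk).2.1 hk'
  · by_cases hr : 30 < x
    · have hsl : sl x = 16 + ((x - 8) % 10).toNat := by
        unfold sl; rw [if_neg (by omega), if_neg (by omega)]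
      rw [hsl] at hk hk'
      obtain ⟨s, hs⟩ : ∃ s : ℕ, s = ((x - 8) % 10).toNat := ⟨_, rfl⟩
      obtain ⟨k, hxk⟩ : ∃ k : ℤ, x - 8 = (s : ℤ) + 10 * k := ⟨(x - 8) / 10, by omega⟩
      have hs10 : s < 10 := by omega
      rw [← hs] at hk hk'
      have hA := jcA_use s _ _ hs10 hY hZ hk
      have hA' := jcA_use s _ _ hs10 hY' hZ hk'
      have hP := (jcP_use s _ _ hs10 hY hZ hk).2.1 hk'
      rw [idx_right x _ _ s k (by omega) hxk hA.1]
      rw [e1'] at hP ⊢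
      rw [idx_right x _ _ s k (by omega) hxk hA'.1]
      omega
    · have hsl : sl x = 16 + ((x + 8) % 10).toNat := by
        unfold sl; rw [if_pos (by omega)]
      rw [hsl] at hk hk'
      obtain ⟨s, hs⟩ : ∃ s : ℕ, s = ((x + 8) % 10).toNat := ⟨_, rfl⟩
      obtain ⟨k, hxk⟩ : ∃ k : ℤ, x + 8 = (s : ℤ) + 10 * k := ⟨(x + 8) / 10, by omega⟩
      have hs10 : s < 10 := by omega
      rw [← hs] at hk hk'
      have hA := jcA_use s _ _ hs10 hY hZ hk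
      have hA' := jcA_use s _ _ hs10 hY' hZ hk'
      have hP := (jcP_use s _ _ hs10 hY hZ hk).2.1 hk'
      rw [idx_left x _ _ s hs10 k (by omega) hxk hA.2.1]
      rw [e1'] at hP ⊢
      rw [idx_left x _ _ s hs10 k (by omega) hxk hA'.2.1]
      omega

theorem idx_diff_z (x y z : ℤ) (hv : isK (x, y, z) = true) (hw : isK (x, y, z + 1) = true) :
    idx (x, y, z + 1) = idx (x, y, z) + 1 ∨ idx (x, y, z + 1) = idx (x, y, z) - 1 := by
  obtain ⟨Y, Z, hY, hZ, rfl, rfl, hk⟩ := isK_data x y z hv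
  obtain ⟨Y', Z', hY', hZ', e1, e2, hk'⟩ := isK_data x _ _ hw
  obtain rfl : Y' = Y := by omega
  obtain rfl : Z' = Z + 1 := by omega
  have e1' : (Z : ℤ) - 17 + 1 = ((Z + 1 : ℕ) : ℤ) - 17 := by push_cast; ring
  by_cases hwin : -30 ≤ x ∧ x ≤ 30
  · obtain ⟨X, hX, hX61⟩ : ∃ X : ℕ, x = (X : ℤ) - 30 ∧ X < 61 := ⟨(x + 30).toNat, by omega, by omega⟩
    subst hX
    exact (jcW_use X _ _ hX61 hY hZ hk).2.2 hk' (by omega)
  · by_cases hr : 30 < x
    · have hsl : sl x = 16 + ((x - 8) % 10).toNat := by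
        unfold sl; rw [if_neg (by omega), if_neg (by omega)]
      rw [hsl] at hk hk'
      obtain ⟨s, hs⟩ : ∃ s : ℕ, s = ((x - 8) % 10).toNat := ⟨_, rfl⟩
      obtain ⟨k, hxk⟩ : ∃ k : ℤ, x - 8 = (s : ℤ) + 10 * k := ⟨(x - 8) / 10, by omega⟩
      have hs10 : s < 10 := by omega
      rw [← hs] at hk hk'
      have hA := jcA_use s _ _ hs10 hY hZ hk
      have hA' := jcA_use s _ _ hs10 hY hZ' hk'
      have hP := (jcP_use s _ _ hs10 hY hZ hk).2.2 hk' (by omega)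
      rw [idx_right x _ _ s k (by omega) hxk hA.1]
      rw [e1'] at hP ⊢
      rw [idx_right x _ _ s k (by omega) hxk hA'.1]
      omega
    · have hsl : sl x = 16 + ((x + 8) % 10).toNat := by
        unfold sl; rw [if_pos (by omega)]
      rw [hsl] at hk hk'
      obtain ⟨s, hs⟩ : ∃ s : ℕ, s = ((x + 8) % 10).toNat := ⟨_, rfl⟩
      obtain ⟨k, hxk⟩ : ∃ k : ℤ, x + 8 = (s : ℤ) + 10 * k := ⟨(x + 8) / 10, by omega⟩
      have hs10 : s < 10 := by omega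
      rw [← hs] at hk hk'
      have hA := jcA_use s _ _ hs10 hY hZ hk
      have hA' := jcA_use s _ _ hs10 hY hZ' hk'
      have hP := (jcP_use s _ _ hs10 hY hZ hk).2.2 hk' (by omega)
      rw [idx_left x _ _ s hs10 k (by omega) hxk hA.2.1]
      rw [e1'] at hP ⊢
      rw [idx_left x _ _ s hs10 k (by omega) hxk hA'.2.1]
      omega

/-- TARGET 2 -/
theorem idx_adj (v w : Z3) (hv : isK v = true) (hw : isK w = true)
    (h : |v.1 - w.1| + |v.2.1 - w.2.1| + |v.2.2 - w.2.2| = 1) :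
    idx w = idx v + 1 ∨ idx w = idx v - 1 := by
  obtain ⟨x, y, z⟩ := v
  obtain ⟨x', y', z'⟩ := w
  simp only at h
  have hcases : (x' = x + 1 ∧ y' = y ∧ z' = z) ∨ (x = x' + 1 ∧ y' = y ∧ z' = z) ∨
      (x' = x ∧ y' = y + 1 ∧ z' = z) ∨ (x' = x ∧ y = y' + 1 ∧ z' = z) ∨
      (x' = x ∧ y' = y ∧ z' = z + 1) ∨ (x' = x ∧ y' = y ∧ z = z' + 1) := by
    rcases abs_cases (x - x') with ⟨a1, a2⟩ | ⟨a1, a2⟩ <;>
    rcases abs_cases (y - y') with ⟨b1, b2⟩ | ⟨b1, b2⟩ <;>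
    rcases abs_cases (z - z') with ⟨c1, c2⟩ | ⟨c1, c2⟩ <;>
    rw [a1, b1, c1] at h <;> omega
  rcases hcases with ⟨rfl, rfl, rfl⟩ | ⟨rfl, rfl, rfl⟩ | ⟨rfl, rfl, rfl⟩ | ⟨rfl, rfl, rfl⟩ |
    ⟨rfl, rfl, rfl⟩ | ⟨rfl, rfl, rfl⟩
  · exact idx_diff_x _ _ _ hv hw
  · have := idx_diff_x _ _ _ hw hv
    omega
  · exact idx_diff_y _ _ _ hv hw
  · have := idx_diff_y _ _ _ hw hv
    omega
  · exact idx_diff_z _ _ _ hv hw
  · have := idx_diff_z _ _ _ hw hv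
    omega


end Pool.Agent.Helper607.Wild.Tab
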