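import Pool.Agent.Helper607.Wild.Pair
import Pool.Agent.Helper607.Wild.LabLink
import Pool.Agent.Helper607.Wild.FingersExist
import Pool.Agent.Helper607.Wild.ArcConn
import Pool.Agent.Helper607.Wild.Transfer
import Pool.Agent.Helper607.Wild.PathFacts
import Pool.Agent.Helper607.Wild.VertFacts
import Pool.Agent.Helper607.Wild.Flat
set_option autoImplicit false
open Set Filter Topology

namespace Pool.Agent.Helper607.Wild

theorem nK {v : Z3} (h : v ∉ {v : Z3 | Tab.isK v = true}) : Tab.isK v = false := by
  cases hh : Tab.isK v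
  · rfl
  · exact absurd hh h

/-- the explicit labelled path -/
def theLab : Lab where
  K := {v | Tab.isK v = true}
  P := Tab.path
  ρ := Tab.rho
  flat := fun q u v w hu hv hw hKu hKv hKw =>
    Tab.rho_flat q u v w hu hv hw (nK hKu) (nK hKv) (nK hKw)
  outer := fun q v w hv hw hKv hKw h h' => Tab.rho_outer q v w hv hw (nK hKv) (nK hKw) h h'
  hole := fun q v w hv hw hKv hKw h1 h2 h3 h4 h5 h6 =>
    Tab.rho_hole q v w hv hw (nK hKv) (nK hKw) h1 h2 h3 h4 h5 h6
  vert := fun v hv => ⟨Tab.idx v, Tab.path_idx v hv⟩
  adj := fun m n h => by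
    have := Tab.idx_adj (Tab.path m) (Tab.path n) (Tab.isK_path m) (Tab.isK_path n) h
    rw [Tab.idx_path, Tab.idx_path] at this
    exact this

theorem path_inj : Function.Injective Tab.path := fun m n h => by
  have := congrArg Tab.idx h
  rwa [Tab.idx_path, Tab.idx_path] at this

theorem thePathData : PathData Tab.path where
  inj := path_inj
  step := Tab.path_dot
  floor := fun n h0 h1 => by
    unfold Tab.path
    rw [if_neg (by omega), if_neg (by omega), if_neg (by omega), if_neg (by omega)]
    split_ifs with h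
    · have : n = 12 := by omega
      subst this
      norm_num
    · rfl
  vertR := fun n h0 h1 => by
    unfold Tab.path
    rw [if_neg (by omega), if_neg (by omega), if_neg (by omega), if_neg (by omega),
      if_neg (by omega)]
    split_ifs with h
    · have : n = 0 := by omega
      subst this
      norm_num
    · rfl
  vertL := fun n h0 h1 => by
    unfold Tab.path
    rw [if_neg (by omega), if_neg (by omega), if_neg (by omega)]
    split_ifs with h
    · have : n = 25 := by omega
      subst this
      norm_num
    · rfl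
  box := Tab.path_box
  growth := Tab.path_growth

theorem the_link (f : S2 → R3) (hf : Continuous f) (hfi : Function.Injective f) (U V : Set R3)
    (hU : IsOpen U) (hV : IsOpen V) (hd : Disjoint U V) (hUV : (range f)ᶜ = U ∪ V)
    (hR : wildArc Tab.path ⊆ U) (hB : tau '' wildArc Tab.path ⊆ V) : False :=
  lab_link theLab Tab.path_step path_inj f hf hfi U V hU hV hd hUV hR hB

theorem the_three : ∃ f₁ f₂ f₃ : S2 → R3, Continuous f₁ ∧ Function.Injective f₁ ∧
      Continuous f₂ ∧ Function.Injective f₂ ∧ Continuous f₃ ∧ Function.Injective f₃ ∧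
      range f₃ ⊆ ins (range f₂) ∧ range f₂ ⊆ ins (range f₁) ∧
      (¬ ∃ f : S2 → R3, Continuous f ∧ Function.Injective f ∧ range f ⊆ ins (range f₁) ∧
        range f₂ ⊆ ins (range f)) ∧
      (¬ ∃ f : S2 → R3, Continuous f ∧ Function.Injective f ∧ range f ⊆ ins (range f₂) ∧
        range f₃ ⊆ ins (range f)) := by
  obtain ⟨E, tip, h1, h2, h3, h4, h5, h6, h7, h8, h9, h10, h11⟩ :=
    exists_fingers Tab.path thePathData
  obtain ⟨A, a1, a2, a3, a4, a5, a6⟩ := arc_connected Tab.path thePathData
  have hFD : FD E tip := ⟨h1, h2, h3, h4, h5, h6, h7, h8, h9, h10⟩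
  exact three_spheres hFD (wildArc Tab.path) A h11 a1 a2 a3 a4 a5 a6 the_link

end Pool.Agent.Helper607.Wild
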