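import Pool.Agent.Helper607.Wild.Base
set_option autoImplicit false
open Set Filter Topology

namespace Pool.Agent.Helper607.Wild

theorem torus_lemma (A B : Set (ℝ × ℝ)) (hA : IsOpen A) (hB : IsOpen B)
    (hAB : A ∪ B = univ) (f h : ℝ × ℝ → ZMod 5)
    (hA1 : ∀ u v, (u, v) ∈ A ↔ (u + 1, v) ∈ A) (hA2 : ∀ u v, (u, v) ∈ A ↔ (u, v + 1) ∈ A)
    (hB1 : ∀ u v, (u, v) ∈ B ↔ (u + 1, v) ∈ B) (hB2 : ∀ u v, (u, v) ∈ B ↔ (u, v + 1) ∈ B)
    (hf : ∀ p ∈ A, ∀ᶠ q in 𝓝 p, f q = f p) (hh : ∀ p ∈ B, ∀ᶠ q in 𝓝 p, h q = h p)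
    (hf1 : ∀ u v, (u, v) ∈ A → f (u + 1, v) = f (u, v))
    (hf2 : ∀ u v, (u, v) ∈ A → f (u, v + 1) = f (u, v) + 1)
    (hh1 : ∀ u v, (u, v) ∈ B → h (u + 1, v) = h (u, v) + 1)
    (hh2 : ∀ u v, (u, v) ∈ B → h (u, v + 1) = h (u, v)) : False := by
  classical
  -- Lebesgue number
  have hK : IsCompact (Icc (0:ℝ) 1 ×ˢ Icc (0:ℝ) 1) := isCompact_Icc.prod isCompact_Icc
  obtain ⟨δ, hδ, hL⟩ := lebesgue_number_lemma_of_metric (s := Icc (0:ℝ) 1 ×ˢ Icc (0:ℝ) 1)
    (c := fun b : Bool => cond b A B) hK (by intro b; cases b <;> simpa)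
    (by
      intro x _
      have : x ∈ A ∪ B := by rw [hAB]; trivial
      rcases this with h1 | h1
      · exact mem_iUnion.2 ⟨true, h1⟩
      · exact mem_iUnion.2 ⟨false, h1⟩)
  obtain ⟨n, hn⟩ := exists_nat_gt (1 / δ)
  have hn0 : (0:ℝ) < n := lt_trans (by positivity) hn
  have hnpos : 0 < n := by exact_mod_cast hn0
  have hnδ : 1 / (n:ℝ) < δ := by
    rw [div_lt_iff₀ hn0]
    rw [div_lt_iff₀ hδ] at hn
    linarith
  let P : ℕ → ℕ → ℝ × ℝ := fun i j => ((i:ℝ) / n, (j:ℝ) / n)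
  let F : ℕ → ℕ → ZMod 5 := fun i j => if P i j ∈ A then f (P i j) else ((j / n : ℕ) : ZMod 5)
  let H : ℕ → ℕ → ZMod 5 := fun i j => if P i j ∈ B then h (P i j) else ((i / n : ℕ) : ZMod 5)
  have hP1 : ∀ i j, P (i + n) j = ((i:ℝ) / n + 1, (j:ℝ) / n) := by
    intro i j
    simp only [P]
    congr 1
    push_cast
    field_simp
  have hP2 : ∀ i j, P i (j + n) = ((i:ℝ) / n, (j:ℝ) / n + 1) := by
    intro i j
    simp only [P]
    congr 1
    push_cast
    field_simp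
  have hF1 : ∀ i j, F (i + n) j = F i j := by
    intro i j
    simp only [F]
    rw [hP1]
    by_cases hm : P i j ∈ A
    · rw [if_pos ((hA1 _ _).1 hm), if_pos hm]
      exact hf1 _ _ hm
    · rw [if_neg (fun h' => hm ((hA1 _ _).2 h')), if_neg hm]
  have hF2 : ∀ i j, F i (j + n) = F i j + 1 := by
    intro i j
    simp only [F]
    rw [hP2]
    by_cases hm : P i j ∈ A
    · rw [if_pos ((hA2 _ _).1 hm), if_pos hm]
      exact hf2 _ _ hm
    · rw [if_neg (fun h' => hm ((hA2 _ _).2 h')), if_neg hm, Nat.add_div_right _ hnpos]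
      push_cast
      ring
  have hH2 : ∀ i j, H i (j + n) = H i j := by
    intro i j
    simp only [H]
    rw [hP2]
    by_cases hm : P i j ∈ B
    · rw [if_pos ((hB2 _ _).1 hm), if_pos hm]
      exact hh2 _ _ hm
    · rw [if_neg (fun h' => hm ((hB2 _ _).2 h')), if_neg hm]
  have hH1 : ∀ i j, H (i + n) j = H i j + 1 := by
    intro i j
    simp only [H]
    rw [hP1]
    by_cases hm : P i j ∈ B
    · rw [if_pos ((hB1 _ _).1 hm), if_pos hm]
      exact hh1 _ _ hm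
    · rw [if_neg (fun h' => hm ((hB1 _ _).2 h')), if_neg hm, Nat.add_div_right _ hnpos]
      push_cast
      ring
  -- squares
  let Q : ℕ → ℕ → Set (ℝ × ℝ) := fun i j =>
    Icc ((i:ℝ) / n) (((i + 1 : ℕ):ℝ) / n) ×ˢ Icc ((j:ℝ) / n) (((j + 1 : ℕ):ℝ) / n)
  have hstep : ∀ i : ℕ, (((i + 1 : ℕ):ℝ) / n) = (i:ℝ) / n + 1 / n := by
    intro i; push_cast; ring
  have hnn : (0:ℝ) ≤ 1 / n := by positivity
  have hQsub : ∀ i j, i < n → j < n → Q i j ⊆ A ∨ Q i j ⊆ B := by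
    intro i j hi hj
    have hPK : P i j ∈ Icc (0:ℝ) 1 ×ˢ Icc (0:ℝ) 1 := by
      refine ⟨⟨by simp only [P]; positivity, ?_⟩, ⟨by simp only [P]; positivity, ?_⟩⟩
      · simp only [P]; rw [div_le_one hn0]; exact_mod_cast hi.le
      · simp only [P]; rw [div_le_one hn0]; exact_mod_cast hj.le
    obtain ⟨b, hb⟩ := hL _ hPK
    have hQb : Q i j ⊆ Metric.ball (P i j) δ := by
      rintro ⟨x, y⟩ ⟨⟨hx1, hx2⟩, ⟨hy1, hy2⟩⟩
      rw [Metric.mem_ball, Prod.dist_eq]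
      simp only [P] at *
      rw [hstep] at hx2 hy2
      refine max_lt ?_ ?_
      · rw [Real.dist_eq, abs_lt]; constructor <;> linarith
      · rw [Real.dist_eq, abs_lt]; constructor <;> linarith
    cases b
    · right; exact hQb.trans hb
    · left; exact hQb.trans hb
  have hQpre : ∀ i j, IsPreconnected (Q i j) := fun i j =>
    isPreconnected_Icc.prod isPreconnected_Icc
  have hle : ∀ i : ℕ, (i:ℝ) / n ≤ ((i + 1 : ℕ):ℝ) / n := by
    intro i; rw [hstep]; linarith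
  have c00 : ∀ i j, P i j ∈ Q i j := fun i j =>
    ⟨⟨le_rfl, hle i⟩, ⟨le_rfl, hle j⟩⟩
  have c10 : ∀ i j, P (i + 1) j ∈ Q i j := fun i j =>
    ⟨⟨hle i, le_rfl⟩, ⟨le_rfl, hle j⟩⟩
  have c01 : ∀ i j, P i (j + 1) ∈ Q i j := fun i j =>
    ⟨⟨le_rfl, hle i⟩, ⟨hle j, le_rfl⟩⟩
  have c11 : ∀ i j, P (i + 1) (j + 1) ∈ Q i j := fun i j =>
    ⟨⟨hle i, le_rfl⟩, ⟨hle j, le_rfl⟩⟩
  have hconst : ∀ (S : Set (ℝ × ℝ)) (g : ℝ × ℝ → ZMod 5), (∀ p ∈ S, ∀ᶠ q in 𝓝 p, g q = g p) →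
      ∀ i j, Q i j ⊆ S → ∀ x ∈ Q i j, ∀ y ∈ Q i j, g x = g y := by
    intro S g hg i j hQS x hx y hy
    letI : TopologicalSpace (ZMod 5) := ⊥
    haveI : DiscreteTopology (ZMod 5) := ⟨rfl⟩
    refine (hQpre i j).constant (f := g) ?_ hx hy
    intro p hp
    have h1 : ContinuousAt g p := by
      have h2 : g =ᶠ[𝓝 p] fun _ => g p := hg p (hQS hp)
      exact (continuousAt_const.congr h2.symm)
    exact h1.continuousWithinAt
  have hFc : ∀ i j, Q i j ⊆ A → F (i + 1) j = F i j ∧ F i (j + 1) = F i j := by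
    intro i j hQA
    have e1 : F i j = f (P i j) := if_pos (hQA (c00 i j))
    have e2 : F (i + 1) j = f (P (i + 1) j) := if_pos (hQA (c10 i j))
    have e3 : F i (j + 1) = f (P i (j + 1)) := if_pos (hQA (c01 i j))
    rw [e1, e2, e3]
    exact ⟨hconst A f hf i j hQA _ (c10 i j) _ (c00 i j),
      hconst A f hf i j hQA _ (c01 i j) _ (c00 i j)⟩
  have hHc : ∀ i j, Q i j ⊆ B → H (i + 1) j = H i j ∧ H i (j + 1) = H i j ∧
      H (i + 1) (j + 1) = H i j := by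
    intro i j hQB
    have e1 : H i j = h (P i j) := if_pos (hQB (c00 i j))
    have e2 : H (i + 1) j = h (P (i + 1) j) := if_pos (hQB (c10 i j))
    have e3 : H i (j + 1) = h (P i (j + 1)) := if_pos (hQB (c01 i j))
    have e4 : H (i + 1) (j + 1) = h (P (i + 1) (j + 1)) := if_pos (hQB (c11 i j))
    rw [e1, e2, e3, e4]
    exact ⟨hconst B h hh i j hQB _ (c10 i j) _ (c00 i j),
      hconst B h hh i j hQB _ (c01 i j) _ (c00 i j),
      hconst B h hh i j hQB _ (c11 i j) _ (c00 i j)⟩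
  have hw : ∀ i j, i < n → j < n →
      (F (i + 1) j * (H (i + 1) (j + 1) - H (i + 1) j) - F i j * (H i (j + 1) - H i j))
      - (F i (j + 1) * (H (i + 1) (j + 1) - H i (j + 1)) - F i j * (H (i + 1) j - H i j)) = 0 := by
    intro i j hi hj
    rcases hQsub i j hi hj with hq | hq
    · obtain ⟨e1, e2⟩ := hFc i j hq
      rw [e1, e2]; ring
    · obtain ⟨e1, e2, e3⟩ := hHc i j hq
      rw [e1, e2, e3]; ring
  -- sum
  let X : ℕ → ℕ → ZMod 5 := fun i j => F i j * (H i (j + 1) - H i j)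
  let Y : ℕ → ℕ → ZMod 5 := fun i j => F i j * (H (i + 1) j - H i j)
  have hsum : ∑ i ∈ Finset.range n, ∑ j ∈ Finset.range n,
      ((X (i + 1) j - X i j) - (Y i (j + 1) - Y i j)) = 0 := by
    refine Finset.sum_eq_zero fun i hi => Finset.sum_eq_zero fun j hj => ?_
    exact hw i j (Finset.mem_range.1 hi) (Finset.mem_range.1 hj)
  have hX : ∑ i ∈ Finset.range n, ∑ j ∈ Finset.range n, (X (i + 1) j - X i j) = 0 := by
    rw [Finset.sum_comm]
    refine Finset.sum_eq_zero fun j _ => ?_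
    rw [Finset.sum_range_sub (fun i => X i j)]
    have a1 := hF1 0 j
    have a2 := hH1 0 j
    have a3 := hH1 0 (j + 1)
    simp only [zero_add] at a1 a2 a3
    simp only [X]
    rw [a1, a2, a3]
    ring
  have hY : ∑ i ∈ Finset.range n, ∑ j ∈ Finset.range n, (Y i (j + 1) - Y i j) = 1 := by
    have : ∀ i ∈ Finset.range n, ∑ j ∈ Finset.range n, (Y i (j + 1) - Y i j)
        = H (i + 1) 0 - H i 0 := by
      intro i _
      rw [Finset.sum_range_sub (fun j => Y i j)]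
      have a1 := hF2 i 0
      have a2 := hH2 i 0
      have a3 := hH2 (i + 1) 0
      simp only [zero_add] at a1 a2 a3
      simp only [Y]
      rw [a1, a2, a3]
      ring
    rw [Finset.sum_congr rfl this, Finset.sum_range_sub (fun i => H i 0)]
    have a2 := hH1 0 0
    simp only [zero_add] at a2
    rw [a2]; ring
  simp only [Finset.sum_sub_distrib] at hsum hX hY
  rw [hX, hY] at hsum
  revert hsum
  decide

end Pool.Agent.Helper607.Wild
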