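import Pool.Agent.Helper607.Wild.CycTriv
import Pool.Agent.Helper607.Wild.CycExt
import Pool.Agent.Helper607.Wild.TorusLemma
import Pool.Agent.Helper607.Wild.SphereSC
set_option autoImplicit false
open Set Filter Topology

namespace Pool.Agent.Helper607.Wild

/-- TARGET 1: over one closed side of a topological sphere the cocycle is trivial. -/
theorem triv_side {G : Type} [Group G] {ι : Type} (C : Cyc R3 G ι)
    (f : S2 → R3) (hf : Continuous f) (hinj : Function.Injective f)
    (U V : Set R3) (hU : IsOpen U) (hV : IsOpen V) (hd : Disjoint U V)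
    (hUV : (range f)ᶜ = U ∪ V) (hcov : ∀ x ∈ V ∪ range f, ∃ i, x ∈ C.W i) :
    ∃ N : Set R3, IsOpen N ∧ range f ⊆ N ∧ ∃ t : ι → R3 → G, IsTriv C (V ∪ N) t := by
  classical
  haveI := simplyConnected_S2
  haveI := locPathConnected_S2
  obtain ⟨ts, hts⟩ := exists_triv_range C f hf hinj
    (fun y => hcov (f y) (Or.inr ⟨y, rfl⟩))
  obtain ⟨N0, hN0, hSN, hN0cov, t0, ht0⟩ := extend_triv C (range f) ts hts
    (fun x hx => hcov x (Or.inr hx))
  have hsep : ∀ x, x ∈ U ∪ N0 → x ∈ V ∪ N0 → x ∈ N0 := by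
    intro x h1 h2
    rcases h1 with h1 | h1
    · rcases h2 with h2 | h2
      · exact absurd h2 (disjoint_left.1 hd h1)
      · exact h2
    · exact h1
  have hloc0 : ∀ j x, x ∈ N0 → x ∈ C.W j → ∀ᶠ y in 𝓝 x, t0 j y = t0 j x := by
    intro j x hx hj
    have := ht0.loc j x ⟨hx, hj⟩
    rwa [hN0.nhdsWithin_eq hx] at this
  let W2 : Option ι → Set R3 := fun o => match o with
    | none => U ∪ N0
    | some i => C.W i ∩ (V ∪ N0)
  let c2 : Option ι → Option ι → R3 → G := fun o o' x => match o, o' with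
    | none, none => 1
    | none, some j => t0 j x
    | some i, none => (t0 i x)⁻¹
    | some i, some j => C.c i j x
  let C2 : Cyc R3 G (Option ι) :=
    { W := W2
      c := c2
      isOpen_W := by
        intro i
        cases i with
        | none => exact hU.union hN0
        | some i => exact (C.isOpen_W i).inter (hV.union hN0)
      loc := by
        intro i j x hx
        cases i with
        | none =>
          cases j with
          | none => exact Eventually.of_forall (fun y => rfl)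
          | some j =>
            have h1 : x ∈ U ∪ N0 := hx.1
            have h2 : x ∈ C.W j ∩ (V ∪ N0) := hx.2
            exact hloc0 j x (hsep x h1 h2.2) h2.1
        | some i =>
          cases j with
          | none =>
            have h1 : x ∈ U ∪ N0 := hx.2
            have h2 : x ∈ C.W i ∩ (V ∪ N0) := hx.1
            filter_upwards [hloc0 i x (hsep x h1 h2.2) h2.1] with y hy
            show (t0 i y)⁻¹ = (t0 i x)⁻¹
            rw [hy]
          | some j =>
            have h1 : x ∈ C.W j ∩ (V ∪ N0) := hx.2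
            have h2 : x ∈ C.W i ∩ (V ∪ N0) := hx.1
            exact C.loc i j x ⟨h2.1, h1.1⟩
      cocycle := by
        intro i j k x hi hj hk
        cases i with
        | none =>
          have hi' : x ∈ U ∪ N0 := hi
          cases j with
          | none =>
            cases k with
            | none => show (1 : G) * 1 = 1; simp
            | some k => show t0 k x * 1 = t0 k x; simp
          | some j =>
            have hj' : x ∈ C.W j ∩ (V ∪ N0) := hj
            have hx0 : x ∈ N0 := hsep x hi' hj'.2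
            cases k with
            | none => show (t0 j x)⁻¹ * t0 j x = 1; simp
            | some k =>
              have hk' : x ∈ C.W k ∩ (V ∪ N0) := hk
              show C.c j k x * t0 j x = t0 k x
              exact (ht0.compat j k x hx0 hj'.1 hk'.1).symm
        | some i =>
          have hi' : x ∈ C.W i ∩ (V ∪ N0) := hi
          cases j with
          | none =>
            have hj' : x ∈ U ∪ N0 := hj
            have hx0 : x ∈ N0 := hsep x hj' hi'.2
            cases k with
            | none => show (1 : G) * (t0 i x)⁻¹ = (t0 i x)⁻¹; simp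
            | some k =>
              have hk' : x ∈ C.W k ∩ (V ∪ N0) := hk
              show t0 k x * (t0 i x)⁻¹ = C.c i k x
              rw [ht0.compat i k x hx0 hi'.1 hk'.1]
              group
          | some j =>
            have hj' : x ∈ C.W j ∩ (V ∪ N0) := hj
            cases k with
            | none =>
              have hk' : x ∈ U ∪ N0 := hk
              have hx0 : x ∈ N0 := hsep x hk' hi'.2
              show (t0 j x)⁻¹ * C.c i j x = (t0 i x)⁻¹
              rw [ht0.compat i j x hx0 hi'.1 hj'.1]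
              group
            | some k =>
              have hk' : x ∈ C.W k ∩ (V ∪ N0) := hk
              exact C.cocycle i j k x hi'.1 hj'.1 hk'.1 }
  have hcov2 : ∀ x, ∃ i, x ∈ C2.W i := by
    intro x
    by_cases hx : x ∈ range f
    · exact ⟨none, Or.inr (hSN hx)⟩
    · have hx' : x ∈ U ∪ V := by rw [← hUV]; exact hx
      rcases hx' with h | h
      · exact ⟨none, Or.inl h⟩
      · obtain ⟨i, hi⟩ := hcov x (Or.inl h)
        exact ⟨some i, ⟨hi, Or.inl h⟩⟩
  obtain ⟨t2, ht2⟩ := exists_triv C2 hcov2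
  refine ⟨N0, hN0, hSN, fun i x => t2 (some i) x, ?_, ?_⟩
  · intro i x hx
    have h1 := ht2.loc (some i) x ⟨mem_univ _, ⟨hx.2, hx.1⟩⟩
    rw [nhdsWithin_univ] at h1
    exact h1.filter_mono nhdsWithin_le_nhds
  · intro i j x hx hi hj
    exact ht2.compat (some i) (some j) x (mem_univ _) ⟨hi, hx⟩ ⟨hj, hx⟩

/-- auxiliary: the coordinate function of a trivialised winding cocycle. -/
theorem winding_fun {ι : Type} (C : Cyc R3 (Equiv.Perm (ZMod 5)) ι)
    (φ : ℝ × ℝ → R3) (hφ : Continuous φ)
    (hφ1 : ∀ u v, φ (u + 1, v) = φ (u, v)) (hφ2 : ∀ u v, φ (u, v + 1) = φ (u, v))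
    (w : Winding C φ) (D : Set R3) (hD : IsOpen D) (t : ι → R3 → Equiv.Perm (ZMod 5))
    (ht : IsTriv C D t) :
    ∃ F : ℝ × ℝ → ZMod 5, (∀ p ∈ φ ⁻¹' D, ∀ᶠ q in 𝓝 p, F q = F p) ∧
      (∀ u v, (u, v) ∈ φ ⁻¹' D → F (u + 1, v) = F (u, v)) ∧
      (∀ u v, (u, v) ∈ φ ⁻¹' D → F (u, v + 1) = F (u, v) + 1) := by
  classical
  let F : ℝ × ℝ → ZMod 5 := fun p =>
    if φ p ∈ C.W w.o then (w.no p : ZMod 5) - (t w.o (φ p)) 0
    else (w.nd p : ZMod 5) - (t w.d (φ p)) 0
  have hov : ∀ p, φ p ∈ D → φ p ∈ C.W w.o → φ p ∈ C.W w.d →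
      (w.no p : ZMod 5) - (t w.o (φ p)) 0 = (w.nd p : ZMod 5) - (t w.d (φ p)) 0 := by
    intro p hp ho hd
    have h1 := ht.compat w.o w.d (φ p) hp ho hd
    have h2 := w.trans p ho hd ((t w.o (φ p)) 0)
    rw [h1, Equiv.Perm.mul_apply, h2]
    push_cast
    ring
  have hloc : ∀ i, ∀ p, φ p ∈ D → φ p ∈ C.W i → ∀ᶠ q in 𝓝 p, t i (φ q) = t i (φ p) := by
    intro i p hp hi
    have h1 := ht.loc i (φ p) ⟨hp, hi⟩
    rw [hD.nhdsWithin_eq hp] at h1
    exact (hφ.tendsto p).eventually h1
  refine ⟨F, ?_, ?_, ?_⟩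
  · intro p hp
    have hp' : φ p ∈ D := hp
    by_cases ho : φ p ∈ C.W w.o
    · have e1 : ∀ᶠ q in 𝓝 p, φ q ∈ C.W w.o :=
        (hφ.tendsto p).eventually ((C.isOpen_W w.o).mem_nhds ho)
      filter_upwards [e1, w.loc_o p ho, hloc w.o p hp' ho] with q h1 h2 h3
      simp only [F]
      rw [if_pos h1, if_pos ho, h2, h3]
    · have hdd : φ p ∈ C.W w.d := by
        rcases w.cover p with h | h
        · exact absurd h ho
        · exact h
      have e1 : ∀ᶠ q in 𝓝 p, φ q ∈ C.W w.d :=
        (hφ.tendsto p).eventually ((C.isOpen_W w.d).mem_nhds hdd)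
      have e2 : ∀ᶠ q in 𝓝 p, φ q ∈ D := (hφ.tendsto p).eventually (hD.mem_nhds hp')
      filter_upwards [e1, e2, w.loc_d p hdd, hloc w.d p hp' hdd] with q h1 h2 h3 h4
      have h5 : F q = (w.nd q : ZMod 5) - (t w.d (φ q)) 0 := by
        simp only [F]
        split_ifs with h
        · exact hov q h2 h h1
        · rfl
      rw [h5, h3, h4]
      simp only [F]
      rw [if_neg ho]
  · intro u v huv
    simp only [F, hφ1]
    split_ifs with h
    · rw [w.o1 u v h]
    · have hdd : φ (u, v) ∈ C.W w.d := (w.cover (u, v)).resolve_left h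
      rw [w.d1 u v hdd]
  · intro u v huv
    simp only [F, hφ2]
    split_ifs with h
    · rw [w.o2 u v h]; push_cast; ring
    · have hdd : φ (u, v) ∈ C.W w.d := (w.cover (u, v)).resolve_left h
      rw [w.d2 u v hdd]; push_cast; ring

/-- TARGET 2: no topological sphere separates. -/
theorem link_theorem {ι κ : Type} (CR : Cyc R3 (Equiv.Perm (ZMod 5)) ι)
    (CB : Cyc R3 (Equiv.Perm (ZMod 5)) κ) (φ : ℝ × ℝ → R3) (hφ : Continuous φ)
    (hφ1 : ∀ u v, φ (u + 1, v) = φ (u, v)) (hφ2 : ∀ u v, φ (u, v + 1) = φ (u, v))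
    (wR : Winding CR φ) (wB : Winding CB (fun p => φ (p.2, p.1)))
    (f : S2 → R3) (hf : Continuous f) (hinj : Function.Injective f)
    (U V : Set R3) (hU : IsOpen U) (hV : IsOpen V) (hd : Disjoint U V)
    (hUV : (range f)ᶜ = U ∪ V) (hR : ∀ x ∈ V ∪ range f, ∃ i, x ∈ CR.W i)
    (hB : ∀ x ∈ U ∪ range f, ∃ i, x ∈ CB.W i) : False := by
  obtain ⟨N, hN, hSN, t, ht⟩ := triv_side CR f hf hinj U V hU hV hd hUV hR
  obtain ⟨N2, hN2, hSN2, t2, ht2⟩ := triv_side CB f hf hinj V U hV hU hd.symm
    (by rw [hUV, union_comm]) hB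
  have hsw : Continuous (fun p : ℝ × ℝ => (p.2, p.1)) := by fun_prop
  obtain ⟨F, hF1, hF2, hF3⟩ := winding_fun CR φ hφ hφ1 hφ2 wR (V ∪ N) (hV.union hN) t ht
  obtain ⟨H, hH1, hH2, hH3⟩ := winding_fun CB (fun p => φ (p.2, p.1)) (hφ.comp hsw)
    (fun u v => hφ2 v u) (fun u v => hφ1 v u) wB (U ∪ N2) (hU.union hN2) t2 ht2
  refine torus_lemma (φ ⁻¹' (V ∪ N)) (φ ⁻¹' (U ∪ N2)) ((hV.union hN).preimage hφ)
    ((hU.union hN2).preimage hφ) ?_ F (fun p => H (p.2, p.1)) ?_ ?_ ?_ ?_ hF1 ?_ hF2 hF3 ?_ ?_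
  · apply eq_univ_of_forall
    intro p
    by_cases hx : φ p ∈ range f
    · exact Or.inl (Or.inr (hSN hx))
    · have hx' : φ p ∈ U ∪ V := by rw [← hUV]; exact hx
      rcases hx' with h | h
      · exact Or.inr (Or.inl h)
      · exact Or.inl (Or.inl h)
  · intro u v; simp only [mem_preimage, hφ1]
  · intro u v; simp only [mem_preimage, hφ2]
  · intro u v; simp only [mem_preimage, hφ1]
  · intro u v; simp only [mem_preimage, hφ2]
  · intro p hp
    have h1 := hH1 (p.2, p.1) hp
    have h2 : Tendsto (fun q : ℝ × ℝ => (q.2, q.1)) (𝓝 p) (𝓝 (p.2, p.1)) := hsw.tendsto p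
    exact h2.eventually h1
  · intro u v huv
    exact hH3 v u huv
  · intro u v huv
    exact hH2 v u huv

end Pool.Agent.Helper607.Wild
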