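import Pool.Agent.Helper607.Wild.Base
set_option autoImplicit false
open Set Filter Topology

namespace Pool.Agent.Helper607.Wild


/-- a preconnected set meeting an open set and its complement meets the frontier -/
theorem inter_frontier_aux (t s : Set R3) (ht : IsPreconnected t) (hs : IsOpen s)
    (h1 : (t ∩ s).Nonempty) (h2 : (t ∩ sᶜ).Nonempty) : (t ∩ frontier s).Nonempty := by
  by_contra hne
  rw [Set.not_nonempty_iff_eq_empty] at hne
  have hf : ∀ x ∈ t, x ∉ frontier s := by
    intro x hx hx'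
    have : x ∈ t ∩ frontier s := ⟨hx, hx'⟩
    rw [hne] at this
    exact this
  have hcov : t ⊆ s ∪ (closure s)ᶜ := by
    intro x hx
    by_cases hxs : x ∈ s
    · exact Or.inl hxs
    · right
      intro hxc
      apply hf x hx
      rw [hs.frontier_eq]
      exact ⟨hxc, hxs⟩
  obtain ⟨z, hz, hz'⟩ := h2
  have h3 : (t ∩ (closure s)ᶜ).Nonempty := by
    refine ⟨z, hz, fun hzc => hf z hz ?_⟩
    rw [hs.frontier_eq]
    exact ⟨hzc, hz'⟩
  obtain ⟨y, _, hy1, hy2⟩ := ht s (closure s)ᶜ hs isClosed_closure.isOpen_compl hcov h1 h3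
  exact hy2 (subset_closure hy1)

/-- TARGET: abstract criterion that no topological sphere lies between `Si` and `So`. -/
theorem no_between (So Si Ωi KR KB Ray KB' : Set R3)
    (hΩ : IsOpen Ωi) (hΩb : Bornology.IsBounded Ωi) (hΩf : frontier Ωi ⊆ Si)
    (hKR : KR ⊆ Ωi ∪ Si)
    (hRay : IsPreconnected Ray) (hRayU : ¬ Bornology.IsBounded Ray) (hRayΩ : Disjoint Ray Ωi)
    (hRayS : (Ray ∩ Si).Nonempty)
    (hKB' : IsPreconnected KB') (hKB'u : ¬ Bornology.IsBounded KB') (hKB'S : Disjoint KB' So)
    (hKB : KB ⊆ closure KB') (hKBS : KB ⊆ KB' ∪ So)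
    (hlink : ∀ f : S2 → R3, Continuous f → Function.Injective f → ∀ U V : Set R3,
      IsOpen U → IsOpen V → Disjoint U V → (range f)ᶜ = U ∪ V → KR ⊆ U → KB ⊆ V → False) :
    ¬ ∃ f : S2 → R3, Continuous f ∧ Function.Injective f ∧ range f ⊆ ins So ∧
      Si ⊆ ins (range f) := by
  rintro ⟨f, hf, hinj, hSo, hSi⟩
  have hS2 : IsPreconnected (univ : Set S2) := by
    have h1 : IsPreconnected (Metric.sphere (0 : EuclideanSpace ℝ (Fin 3)) 1) := by
      apply isPreconnected_sphere
      rw [← Module.finrank_eq_rank, finrank_euclideanSpace]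
      norm_num
    have : PreconnectedSpace S2 := Subtype.preconnectedSpace h1
    exact PreconnectedSpace.isPreconnected_univ
  set S4 : Set R3 := range f with hS4
  have hS4c : IsPreconnected S4 := by
    rw [hS4, ← image_univ]
    exact hS2.image f hf.continuousOn
  have hcpt : IsCompact S4 := isCompact_range hf
  have hclosed : IsClosed S4 := hcpt.isClosed
  have hopen : IsOpen S4ᶜ := hclosed.isOpen_compl
  have hdisj : ∀ y ∈ Si, y ∉ S4 := fun y hy => (hSi hy).1
  -- the two pieces
  let V : Set R3 := {x | x ∉ S4 ∧ ¬ Bornology.IsBounded (connectedComponentIn S4ᶜ x)}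
  have hUo : IsOpen (ins S4) := by
    rw [isOpen_iff_mem_nhds]
    rintro x ⟨hx, hb⟩
    have h1 : connectedComponentIn S4ᶜ x ∈ 𝓝 x :=
      (hopen.connectedComponentIn).mem_nhds (mem_connectedComponentIn hx)
    refine mem_of_superset h1 fun y hy => ⟨?_, ?_⟩
    · exact connectedComponentIn_subset _ _ hy
    · rwa [← connectedComponentIn_eq hy]
  have hVo : IsOpen V := by
    rw [isOpen_iff_mem_nhds]
    rintro x ⟨hx, hb⟩
    have h1 : connectedComponentIn S4ᶜ x ∈ 𝓝 x :=
      (hopen.connectedComponentIn).mem_nhds (mem_connectedComponentIn hx)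
    refine mem_of_superset h1 fun y hy => ⟨?_, ?_⟩
    · exact connectedComponentIn_subset _ _ hy
    · rwa [← connectedComponentIn_eq hy]
  refine hlink f hf hinj (ins S4) V hUo hVo ?_ ?_ ?_ ?_
  · rw [Set.disjoint_left]
    intro x hx hx'
    exact hx'.2 hx.2
  · ext x
    constructor
    · intro hx
      by_cases h : Bornology.IsBounded (connectedComponentIn S4ᶜ x)
      · exact Or.inl ⟨hx, h⟩
      · exact Or.inr ⟨hx, h⟩
    · rintro (hx | hx)
      · exact hx.1
      · exact hx.1
  · intro x hx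
    rcases hKR hx with hxΩ | hxS
    · have hxS4 : x ∉ S4 := by
        intro hxS
        have hsub : S4 ⊆ Ωi := by
          by_contra hns
          rw [Set.not_subset] at hns
          obtain ⟨z, hz, hz'⟩ := hns
          obtain ⟨y, hy, hyf⟩ := inter_frontier_aux S4 Ωi hS4c hΩ ⟨x, hxS, hxΩ⟩ ⟨z, hz, hz'⟩
          exact hdisj y (hΩf hyf) hy
        obtain ⟨p, hpR, hpS⟩ := hRayS
        have hRsub : Ray ⊆ S4ᶜ := fun q hq hqS => (Set.disjoint_left.1 hRayΩ hq) (hsub hqS)
        exact hRayU ((hSi hpS).2.subset (hRay.subset_connectedComponentIn hpR hRsub))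
      refine ⟨hxS4, ?_⟩
      by_contra hb
      have hC : IsPreconnected (connectedComponentIn S4ᶜ x) := isPreconnected_connectedComponentIn
      have hns : ¬ connectedComponentIn S4ᶜ x ⊆ Ωi := fun h => hb (hΩb.subset h)
      rw [Set.not_subset] at hns
      obtain ⟨z, hz, hz'⟩ := hns
      obtain ⟨y, hy, hyf⟩ := inter_frontier_aux _ Ωi hC hΩ
        ⟨x, mem_connectedComponentIn hxS4, hxΩ⟩ ⟨z, hz, hz'⟩
      have h1 := (hSi (hΩf hyf)).2
      rw [← connectedComponentIn_eq hy] at h1
      exact hb h1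
    · exact hSi hxS
  · have hZ : IsPreconnected (KB' ∪ KB) :=
      hKB'.subset_closure subset_union_left (union_subset subset_closure hKB)
    have hKB'S4 : ∀ z ∈ KB', z ∉ S4 := by
      intro z hz hzS
      have h1 := (hSo hzS).2
      have h2 : KB' ⊆ connectedComponentIn Soᶜ z :=
        hKB'.subset_connectedComponentIn hz (fun q hq => Set.disjoint_left.1 hKB'S hq)
      exact hKB'u (h1.subset h2)
    have hZS4 : KB' ∪ KB ⊆ S4ᶜ := by
      rintro z (hz | hz)
      · exact hKB'S4 z hz
      · rcases hKBS hz with h | h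
        · exact hKB'S4 z h
        · intro hzS
          exact (hSo hzS).1 h
    intro x hx
    refine ⟨hZS4 (Or.inr hx), fun hb => ?_⟩
    have h1 : KB' ∪ KB ⊆ connectedComponentIn S4ᶜ x :=
      hZ.subset_connectedComponentIn (Or.inr hx) hZS4
    exact hKB'u (hb.subset (subset_union_left.trans h1))

end Pool.Agent.Helper607.Wild
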