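import Pool.Agent.Helper607.Wild.Base
set_option autoImplicit false
open Set Filter Topology

namespace Pool.Agent.Helper607.Wild
variable {c δ : ℝ} {I : Type}



theorem mem_Sq (s : ℝ × ℝ) : s ∈ Sq ↔ ‖s‖ ≤ 1 := by
  rw [Prod.norm_def, max_le_iff, Real.norm_eq_abs, Real.norm_eq_abs, abs_le, abs_le]
  rw [Set.mem_prod, Set.mem_Icc, Set.mem_Icc]

theorem mem_SqO (s : ℝ × ℝ) : s ∈ SqO ↔ ‖s‖ < 1 := by
  rw [Prod.norm_def, max_lt_iff, Real.norm_eq_abs, Real.norm_eq_abs, abs_lt, abs_lt]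
  rw [Set.mem_prod, Set.mem_Ioo, Set.mem_Ioo]

theorem mem_cubeC (c : ℝ) (x : R3) : x ∈ cubeC c ↔ ‖x‖ ≤ c := by
  rw [Prod.norm_def, Prod.norm_def, max_le_iff, max_le_iff]
  simp [cubeC]

theorem mem_cubeO (c : ℝ) (x : R3) : x ∈ cubeO c ↔ ‖x‖ < c := by
  rw [Prod.norm_def, Prod.norm_def, max_lt_iff, max_lt_iff]
  simp [cubeO]

theorem mem_K (c : ℝ) (x : R3) : (x ∈ cubeC c ∧ x ∉ cubeO c) ↔ ‖x‖ = c := by
  rw [mem_cubeC, mem_cubeO, not_lt]
  exact ⟨fun h => le_antisymm h.1 h.2, fun h => ⟨h.le, h.ge⟩⟩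

/-- patch chart -/
def Fingers.be (F : Fingers c δ I) (i : I) (s : ℝ × ℝ) : R3 :=
  (F.a i + δ * s.1, F.b i + δ * s.2, sg (F.top i) * c)

/-- inverse patch chart -/
noncomputable def Fingers.si (F : Fingers c δ I) (i : I) (p : R3) : ℝ × ℝ :=
  ((p.1 - F.a i) / δ, (p.2.1 - F.b i) / δ)

theorem Fingers.si_be (F : Fingers c δ I) (i : I) (s : ℝ × ℝ) : F.si i (F.be i s) = s := by
  have := F.hδ.ne'
  ext <;> simp [Fingers.si, Fingers.be, this]

theorem Fingers.be_eq (F : Fingers c δ I) (i : I) (s : ℝ × ℝ) (hs : s ∈ Sq) :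
    F.E i (0, s) = F.be i s := by
  rw [F.hbase i 0 (by constructor <;> norm_num) s hs]
  simp [Fingers.be]

theorem Fingers.norm_be (F : Fingers c δ I) (i : I) (s : ℝ × ℝ) (hs : s ∈ Sq) :
    ‖F.be i s‖ = c := by
  have hc := F.hc
  have hδ := F.hδ
  have h1 := F.ha i
  have h2 := F.hb i
  rw [← mem_K]
  simp only [Sq, Set.mem_prod, Set.mem_Icc] at hs
  obtain ⟨⟨h3, h4⟩, h5, h6⟩ := hs
  have e1 : |F.a i + δ * s.1| < c := by
    have : |δ * s.1| ≤ δ := by
      rw [abs_mul, abs_of_pos hδ]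
      have : |s.1| ≤ 1 := abs_le.2 ⟨h3, h4⟩
      nlinarith
    exact (abs_add_le _ _).trans_lt (by linarith)
  have e2 : |F.b i + δ * s.2| < c := by
    have : |δ * s.2| ≤ δ := by
      rw [abs_mul, abs_of_pos hδ]
      have : |s.2| ≤ 1 := abs_le.2 ⟨h5, h6⟩
      nlinarith
    exact (abs_add_le _ _).trans_lt (by linarith)
  have e3 : |sg (F.top i) * c| = c := by
    rw [abs_mul, abs_of_pos hc]
    rcases F.top i <;> simp [sg]
  constructor
  · exact ⟨e1.le, e2.le, e3.le⟩
  · rintro ⟨_, _, h⟩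
    exact absurd e3 h.ne

/-- finger parametrisation over the square -/
noncomputable def Fingers.Ph (F : Fingers c δ I) (i : I) (s : ℝ × ℝ) : R3 :=
  open Classical in if s = 0 then F.tip i else F.E i (1 / ‖s‖ - 1, ‖s‖⁻¹ • s)

theorem Ph_arg (s : ℝ × ℝ) (hs : s ∈ Sq) (h0 : s ≠ 0) :
    0 ≤ 1 / ‖s‖ - 1 ∧ ‖s‖⁻¹ • s ∈ Sq ∧ ‖s‖⁻¹ • s ∉ SqO := by
  have hp : 0 < ‖s‖ := norm_pos_iff.2 h0
  rw [mem_Sq] at *
  rw [mem_SqO, norm_smul, norm_inv, norm_norm, inv_mul_cancel₀ hp.ne']
  refine ⟨?_, le_rfl, lt_irrefl _⟩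
  have := (one_le_div hp).2 hs
  linarith

theorem Fingers.Ph_cont (F : Fingers c δ I) (i : I) : ContinuousOn (F.Ph i) Sq := by
  intro s hs
  by_cases h0 : s = 0
  · subst h0
    rw [Metric.continuousWithinAt_iff]
    intro ε hε
    obtain ⟨T, hT⟩ := F.htip i ε hε
    refine ⟨1 / (|T| + 2), by positivity, ?_⟩
    intro y hy hd
    by_cases hy0 : y = 0
    · subst hy0; simpa using hε
    have hp : 0 < ‖y‖ := norm_pos_iff.2 hy0
    rw [dist_zero_right] at hd
    have h1 : |T| + 2 < 1 / ‖y‖ := by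
      rw [lt_div_iff₀ hp]
      rw [lt_div_iff₀ (by positivity)] at hd
      linarith
    have h2 : T ≤ 1 / ‖y‖ - 1 := by
      have := le_abs_self T
      linarith
    have h3 := hT _ h2 _ (Ph_arg y hy hy0).2.1
    simpa [Fingers.Ph, hy0] using h3
  · have hp : 0 < ‖s‖ := norm_pos_iff.2 h0
    have h1 : ContinuousWithinAt (fun y : ℝ × ℝ => F.E i (1 / ‖y‖ - 1, ‖y‖⁻¹ • y)) (Sq \ {0}) s := by
      have hA := F.hcont i (1 / ‖s‖ - 1, ‖s‖⁻¹ • s) ⟨by
        have := (Ph_arg s hs h0).1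
        simp only [Set.mem_Ici]; linarith, (Ph_arg s hs h0).2.1⟩
      refine ContinuousWithinAt.comp (t := Ici (-1 / 4) ×ˢ Sq)
        (f := fun y : ℝ × ℝ => (1 / ‖y‖ - 1, ‖y‖⁻¹ • y)) (g := F.E i) hA ?_ ?_
      · apply ContinuousAt.continuousWithinAt
        have hn : ContinuousAt (fun y : ℝ × ℝ => ‖y‖) s := continuous_norm.continuousAt
        have h1 : ContinuousAt (fun y : ℝ × ℝ => 1 / ‖y‖ - 1) s :=
          (continuousAt_const.div hn hp.ne').sub continuousAt_const
        have h2 : ContinuousAt (fun y : ℝ × ℝ => ‖y‖⁻¹ • y) s := (hn.inv₀ hp.ne').smul continuousAt_id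
        exact h1.prodMk h2
      · rintro y ⟨hy, hy0⟩
        have := Ph_arg y hy hy0
        refine ⟨?_, this.2.1⟩
        simp only [Set.mem_Ici]
        linarith [this.1]
    have h2 : ContinuousWithinAt (F.Ph i) (Sq \ {0}) s := by
      refine h1.congr ?_ ?_
      · rintro y ⟨_, hy0⟩
        have : y ≠ 0 := hy0
        simp [Fingers.Ph, this]
      · simp [Fingers.Ph, h0]
    refine h2.mono_of_mem_nhdsWithin ?_
    rw [Set.sdiff_eq]
    exact inter_mem self_mem_nhdsWithin (mem_nhdsWithin_of_mem_nhds (isOpen_ne.mem_nhds h0))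

theorem Fingers.Ph_inj (F : Fingers c δ I) (i : I) : InjOn (F.Ph i) Sq := by
  intro s hs s' hs' h
  by_cases h0 : s = 0
  · by_cases h0' : s' = 0
    · rw [h0, h0']
    · exfalso
      simp only [Fingers.Ph, h0, h0', if_true, if_false] at h
      have := Ph_arg s' hs' h0'
      exact F.htipne i _ (by linarith [this.1]) _ this.2.1 h.symm
  · by_cases h0' : s' = 0
    · exfalso
      simp only [Fingers.Ph, h0, h0', if_true, if_false] at h
      have := Ph_arg s hs h0
      exact F.htipne i _ (by linarith [this.1]) _ this.2.1 h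
    · simp only [Fingers.Ph, h0, h0', if_false] at h
      have h1 := Ph_arg s hs h0
      have h2 := Ph_arg s' hs' h0'
      have h3 := F.hinj i ⟨by simp only [Set.mem_Ici]; linarith [h1.1], h1.2.1⟩
        ⟨by simp only [Set.mem_Ici]; linarith [h2.1], h2.2.1⟩ h
      rw [Prod.mk.injEq] at h3
      have hp : 0 < ‖s‖ := norm_pos_iff.2 h0
      have hp' : 0 < ‖s'‖ := norm_pos_iff.2 h0'
      have h4 : ‖s‖ = ‖s'‖ := by
        have := h3.1
        have h5 : 1 / ‖s‖ = 1 / ‖s'‖ := by linarith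
        rw [one_div, one_div] at h5
        exact inv_injective h5
      have h5 := h3.2
      rw [h4] at h5
      exact smul_right_injective _ (inv_ne_zero hp'.ne') h5

theorem Fingers.Ph_one (F : Fingers c δ I) (i : I) (s : ℝ × ℝ) (hs : ‖s‖ = 1) :
    F.Ph i s = F.be i s := by
  have h0 : s ≠ 0 := by rintro rfl; simp at hs
  have hSq : s ∈ Sq := (mem_Sq s).2 hs.le
  simp only [Fingers.Ph, h0, if_false]
  rw [hs, ← F.be_eq i s hSq]
  simp

theorem Fingers.Ph_image (F : Fingers c δ I) (i : I) :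
    F.Ph i '' Sq = F.E i '' (Ici 0 ×ˢ (Sq \ SqO)) ∪ {F.tip i} := by
  ext x
  constructor
  · rintro ⟨s, hs, rfl⟩
    by_cases h0 : s = 0
    · right; simp [Fingers.Ph, h0]
    · left
      have := Ph_arg s hs h0
      simp only [Fingers.Ph, h0, if_false]
      exact ⟨(1 / ‖s‖ - 1, ‖s‖⁻¹ • s), ⟨this.1, this.2⟩, rfl⟩
  · rintro (⟨⟨t, s⟩, ⟨ht, hs, hs'⟩, rfl⟩ | h)
    · simp only [Set.mem_Ici] at ht
      dsimp only at hs hs'
      rw [mem_Sq] at hs
      rw [mem_SqO, not_lt] at hs'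
      have h1 : ‖s‖ = 1 := le_antisymm hs hs'
      have ht1 : (0:ℝ) < 1 + t := by linarith
      have h2 : ‖(1 + t)⁻¹ • s‖ = (1 + t)⁻¹ := by
        rw [norm_smul, h1, mul_one, Real.norm_of_nonneg (inv_nonneg.2 ht1.le)]
      refine ⟨(1 + t)⁻¹ • s, ?_, ?_⟩
      · rw [mem_Sq, h2]
        exact inv_le_one_of_one_le₀ (by linarith)
      · have h3 : (1 + t)⁻¹ • s ≠ 0 := by
          intro h
          rw [h, norm_zero] at h2
          have := inv_pos.2 ht1
          linarith
        simp only [Fingers.Ph, h3, if_false]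
        rw [h2]
        congr 1
        ext
        · simp
        · simp only [smul_smul]; rw [inv_mul_cancel₀ (inv_ne_zero ht1.ne')]; simp
        · simp only [smul_smul]; rw [inv_mul_cancel₀ (inv_ne_zero ht1.ne')]; simp
    · rw [Set.mem_singleton_iff] at h
      exact ⟨0, by rw [mem_Sq]; simp, by simp [Fingers.Ph, h]⟩

theorem Fingers.Ph_disj (F : Fingers c δ I) {i j : I} (hij : i ≠ j) (s s' : ℝ × ℝ)
    (hs : s ∈ Sq) (hs' : s' ∈ Sq) : F.Ph i s ≠ F.Ph j s' := by
  obtain ⟨h1, h2, h3⟩ := F.hdisj i j hij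
  obtain ⟨_, h2', _⟩ := F.hdisj j i hij.symm
  by_cases h0 : s = 0
  · by_cases h0' : s' = 0
    · simpa only [Fingers.Ph, h0, h0', if_true] using h1
    · simp only [Fingers.Ph, h0, h0', if_true, if_false]
      have := Ph_arg s' hs' h0'
      exact (h2' _ this.1 _ this.2.1).symm
  · by_cases h0' : s' = 0
    · simp only [Fingers.Ph, h0, h0', if_true, if_false]
      have := Ph_arg s hs h0
      exact h2 _ this.1 _ this.2.1
    · simp only [Fingers.Ph, h0, h0', if_false]
      have h4 := Ph_arg s hs h0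
      have h5 := Ph_arg s' hs' h0'
      exact h3 _ h4.1 _ h4.2.1 _ h5.1 _ h5.2.1

theorem Fingers.Ph_notK (F : Fingers c δ I) (i : I) (s : ℝ × ℝ) (hs : ‖s‖ < 1) :
    ‖F.Ph i s‖ ≠ c := by
  have hSq : s ∈ Sq := (mem_Sq s).2 hs.le
  have key : F.Ph i s ∉ cubeC c ∨ F.Ph i s ∈ cubeO c := by
    by_cases h0 : s = 0
    · simp only [Fingers.Ph, h0, if_true]
      cases ho : F.out i
      · exact Or.inr (F.hin i ho).2
      · exact Or.inl (F.hout i ho).2
    · simp only [Fingers.Ph, h0, if_false]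
      have h1 := Ph_arg s hSq h0
      have hp : 0 < ‖s‖ := norm_pos_iff.2 h0
      have ht : 0 < 1 / ‖s‖ - 1 := by
        have := (one_lt_div hp).2 hs
        linarith
      cases ho : F.out i
      · exact Or.inr ((F.hin i ho).1 _ ht _ h1.2.1)
      · exact Or.inl ((F.hout i ho).1 _ ht _ h1.2.1)
  rw [mem_cubeC, mem_cubeO] at key
  intro h
  rcases key with h1 | h1
  · exact h1 h.le
  · exact absurd h h1.ne

/-- the map from the cube surface -/
noncomputable def Fingers.gg (F : Fingers c δ I) (p : R3) : R3 :=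
  open Classical in if h : ∃ i, p ∈ F.be i '' Sq then F.Ph h.choose (F.si h.choose p) else p

theorem Fingers.be_disj (F : Fingers c δ I) {i j : I} (hij : i ≠ j) (p : R3)
    (hi : p ∈ F.be i '' Sq) : p ∉ F.be j '' Sq := by
  obtain ⟨s, hs, rfl⟩ := hi
  rintro ⟨s', hs', h⟩
  obtain ⟨_, _, h3⟩ := F.hdisj i j hij
  have := h3 0 le_rfl s hs 0 le_rfl s' hs'
  rw [F.be_eq i s hs, F.be_eq j s' hs'] at this
  exact this h.symm

theorem Fingers.gg_patch (F : Fingers c δ I) (i : I) (s : ℝ × ℝ) (hs : s ∈ Sq) :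
    F.gg (F.be i s) = F.Ph i s := by
  have h : ∃ j, F.be i s ∈ F.be j '' Sq := ⟨i, s, hs, rfl⟩
  have h1 : h.choose = i := by
    by_contra hne
    exact F.be_disj (Ne.symm hne) _ ⟨s, hs, rfl⟩ h.choose_spec
  simp only [Fingers.gg, h, dif_pos]
  rw [h1, F.si_be]

theorem Fingers.gg_id (F : Fingers c δ I) (p : R3) (hp : ∀ i, p ∉ F.be i '' SqO) :
    F.gg p = p := by
  by_cases h : ∃ i, p ∈ F.be i '' Sq
  · obtain ⟨i, s, hs, rfl⟩ := h
    rw [F.gg_patch i s hs]
    have h1 : ¬ ‖s‖ < 1 := fun h => hp i ⟨s, (mem_SqO s).2 h, rfl⟩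
    have h2 : ‖s‖ = 1 := le_antisymm ((mem_Sq s).1 hs) (not_lt.1 h1)
    exact F.Ph_one i s h2
  · rw [Fingers.gg, dif_neg h]

theorem Fingers.si_cont (F : Fingers c δ I) (i : I) : Continuous (F.si i) := by
  unfold Fingers.si
  fun_prop

theorem Fingers.be_cont (F : Fingers c δ I) (i : I) : Continuous (F.be i) := by
  unfold Fingers.be
  fun_prop

theorem Fingers.open_patch (F : Fingers c δ I) (i : I) (p : R3) (hp : ‖p‖ = c) :
    p ∈ F.be i '' SqO ↔ ‖F.si i p‖ < 1 ∧ 0 < sg (F.top i) * p.2.2 := by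
  have hδ := F.hδ
  have hc := F.hc
  constructor
  · rintro ⟨s, hs, rfl⟩
    rw [F.si_be]
    refine ⟨(mem_SqO s).1 hs, ?_⟩
    simp only [Fingers.be]
    rcases F.top i <;> simp [sg, hc]
  · rintro ⟨h1, h2⟩
    refine ⟨F.si i p, (mem_SqO _).2 h1, ?_⟩
    have h3 := (mem_SqO _).2 h1
    simp only [SqO, Fingers.si, Set.mem_prod, Set.mem_Ioo] at h3
    obtain ⟨⟨h3, h4⟩, h5, h6⟩ := h3
    rw [lt_div_iff₀ hδ] at h3 h5
    rw [div_lt_iff₀ hδ] at h4 h6
    have ha := F.ha i
    have hb := F.hb i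
    have e1 : |p.1| < c := by
      have : |p.1 - F.a i| < δ := abs_lt.2 ⟨by linarith, by linarith⟩
      have h7 : |p.1| ≤ |p.1 - F.a i| + |F.a i| := by
        have := abs_add_le (p.1 - F.a i) (F.a i)
        simpa using this
      linarith
    have e2 : |p.2.1| < c := by
      have : |p.2.1 - F.b i| < δ := abs_lt.2 ⟨by linarith, by linarith⟩
      have h7 : |p.2.1| ≤ |p.2.1 - F.b i| + |F.b i| := by
        have := abs_add_le (p.2.1 - F.b i) (F.b i)
        simpa using this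
      linarith
    have e3 : |p.2.2| = c := by
      rw [← mem_K] at hp
      refine le_antisymm hp.1.2.2 ?_
      by_contra h
      exact hp.2 ⟨e1, e2, not_le.1 h⟩
    have e4 : p.2.2 = sg (F.top i) * c := by
      cases ht : F.top i
      · simp only [sg, ht] at h2 ⊢
        simp only [Bool.false_eq_true, if_false] at h2 ⊢
        rw [abs_of_neg (by linarith)] at e3
        linarith
      · simp only [sg, ht] at h2 ⊢
        simp only [if_true] at h2 ⊢
        rw [abs_of_pos (by linarith)] at e3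
        linarith
    simp only [Fingers.be, Fingers.si]
    ext
    · field_simp; ring
    · field_simp; ring
    · exact e4.symm

theorem Fingers.gg_cont [Finite I] (F : Fingers c δ I) : ContinuousOn F.gg {p | ‖p‖ = c} := by
  let A : Option I → Set R3 := fun o => o.elim {p | ‖p‖ = c ∧ ∀ i, p ∉ F.be i '' SqO} fun i => F.be i '' Sq
  have hclK : IsClosed {p : R3 | ‖p‖ = c} := isClosed_eq continuous_norm continuous_const
  have hcl : ∀ o, IsClosed (A o) := by
    intro o
    rcases o with _ | i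
    · have : A none = {p | ‖p‖ = c} ∩ ⋂ i, {p | ‖F.si i p‖ < 1 ∧ 0 < sg (F.top i) * p.2.2}ᶜ := by
        ext p
        simp only [A, Option.elim, Set.mem_ofPred_eq, Set.mem_inter_iff, Set.mem_iInter, Set.mem_compl_iff]
        constructor
        · rintro ⟨h1, h2⟩
          exact ⟨h1, fun i h => h2 i ((F.open_patch i p h1).2 h)⟩
        · rintro ⟨h1, h2⟩
          exact ⟨h1, fun i h => h2 i ((F.open_patch i p h1).1 h)⟩
      rw [this]
      refine hclK.inter (isClosed_iInter fun i => ?_)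
      rw [isClosed_compl_iff]
      have ho : IsOpen ({p : R3 | ‖F.si i p‖ < 1} ∩ {p : R3 | 0 < sg (F.top i) * p.2.2}) := by
        refine IsOpen.inter (isOpen_lt (F.si_cont i).norm continuous_const) (isOpen_lt continuous_const ?_)
        fun_prop
      exact ho
    · exact ((isCompact_Icc.prod isCompact_Icc).image (F.be_cont i)).isClosed
  have hct : ∀ o, ContinuousOn F.gg (A o) := by
    intro o
    rcases o with _ | i
    · refine continuousOn_id.congr ?_
      rintro p ⟨_, hp⟩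
      exact F.gg_id p hp
    · have h1 : ContinuousOn (fun p => F.Ph i (F.si i p)) (F.be i '' Sq) := by
        refine (F.Ph_cont i).comp (F.si_cont i).continuousOn ?_
        rintro _ ⟨s, hs, rfl⟩
        rw [F.si_be]; exact hs
      refine h1.congr ?_
      rintro _ ⟨s, hs, rfl⟩
      dsimp only
      rw [F.gg_patch i s hs, F.si_be]
  have h := (locallyFinite_of_finite A).continuousOn_iUnion hcl (fun {o} => hct o)
  refine h.mono ?_
  intro p hp
  rw [Set.mem_iUnion]
  by_cases h : ∃ i, p ∈ F.be i '' SqO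
  · obtain ⟨i, s, hs, rfl⟩ := h
    refine ⟨some i, s, ?_, rfl⟩
    rw [mem_SqO] at hs
    exact (mem_Sq s).2 hs.le
  · exact ⟨none, hp, not_exists.1 h⟩

theorem Fingers.gg_inj (F : Fingers c δ I) : InjOn F.gg {p | ‖p‖ = c} := by
  have key : ∀ p q : R3, ‖q‖ = c → (∃ i, p ∈ F.be i '' Sq) → (∀ i, q ∉ F.be i '' Sq) →
      F.gg p = F.gg q → p = q := by
    rintro p q hq ⟨i, s, hs, rfl⟩ hq' h
    rw [F.gg_patch i s hs, F.gg_id q (fun j hj => hq' j (by
      obtain ⟨s, hs, rfl⟩ := hj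
      exact ⟨s, (mem_Sq s).2 ((mem_SqO s).1 hs).le, rfl⟩))] at h
    by_cases h1 : ‖s‖ < 1
    · exfalso
      exact F.Ph_notK i s h1 (by rw [h]; exact hq)
    · have h2 : ‖s‖ = 1 := le_antisymm ((mem_Sq s).1 hs) (not_lt.1 h1)
      rw [F.Ph_one i s h2] at h
      exact h
  intro p hp q hq h
  by_cases h1 : ∃ i, p ∈ F.be i '' Sq
  · by_cases h2 : ∃ i, q ∈ F.be i '' Sq
    · obtain ⟨i, s, hs, rfl⟩ := h1
      obtain ⟨j, s', hs', rfl⟩ := h2
      rw [F.gg_patch i s hs, F.gg_patch j s' hs'] at h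
      by_cases hij : i = j
      · subst hij
        rw [F.Ph_inj i hs hs' h]
      · exact absurd h (F.Ph_disj hij s s' hs hs')
    · exact key p q hq h1 (not_exists.1 h2) h
  · by_cases h2 : ∃ i, q ∈ F.be i '' Sq
    · exact (key q p hp h2 (not_exists.1 h1) h.symm).symm
    · have e : ∀ p : R3, (¬ ∃ i, p ∈ F.be i '' Sq) → F.gg p = p := by
        intro p hp
        rw [Fingers.gg, dif_neg hp]
      rw [e p h1, e q h2] at h
      exact h

theorem Fingers.gg_image (F : Fingers c δ I) : F.gg '' {p | ‖p‖ = c} = F.surf := by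
  have hs1 : F.surf = {p | ‖p‖ = c ∧ ∀ i, p ∉ F.be i '' SqO} ∪ ⋃ i, F.Ph i '' Sq := by
    unfold Fingers.surf
    congr 1
    · ext p
      simp only [Set.mem_ofPred_eq]
      rw [← mem_K, and_assoc]
      refine and_congr_right fun _ => and_congr_right fun _ => forall_congr' fun i => ?_
      constructor
      · rintro h ⟨s, hs, rfl⟩
        refine h s hs ?_
        rw [F.be_eq i s]
        exact (mem_Sq s).2 ((mem_SqO s).1 hs).le
      · rintro h s hs rfl
        refine h ⟨s, hs, ?_⟩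
        rw [F.be_eq i s]
        exact (mem_Sq s).2 ((mem_SqO s).1 hs).le
    · refine Set.iUnion_congr fun i => (F.Ph_image i).symm
  rw [hs1]
  ext x
  constructor
  · rintro ⟨p, hp, rfl⟩
    by_cases h : ∃ i, p ∈ F.be i '' SqO
    · right
      obtain ⟨i, s, hs, rfl⟩ := h
      have hs' : s ∈ Sq := (mem_Sq s).2 ((mem_SqO s).1 hs).le
      rw [Set.mem_iUnion]
      exact ⟨i, s, hs', (F.gg_patch i s hs').symm⟩
    · left
      rw [F.gg_id p (not_exists.1 h)]
      exact ⟨hp, not_exists.1 h⟩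
  · rintro (⟨h1, h2⟩ | h)
    · exact ⟨x, h1, F.gg_id x h2⟩
    · rw [Set.mem_iUnion] at h
      obtain ⟨i, s, hs, rfl⟩ := h
      exact ⟨F.be i s, F.norm_be i s hs, F.gg_patch i s hs⟩

/-- coordinates of euclidean space -/
noncomputable def LL : EuclideanSpace ℝ (Fin 3) → R3 := fun x => (x 0, x 1, x 2)

theorem exists_cube (c : ℝ) (hc : 0 < c) :
    ∃ h : S2 → R3, Continuous h ∧ Function.Injective h ∧ range h = {p | ‖p‖ = c} := by
  have hL0 : ∀ x : EuclideanSpace ℝ (Fin 3), LL x = 0 → x = 0 := by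
    intro x hx
    simp only [LL, Prod.mk_eq_zero] at hx
    ext i
    fin_cases i
    · exact hx.1
    · exact hx.2.1
    · exact hx.2.2
  have hLs : ∀ (k : ℝ) (x : EuclideanSpace ℝ (Fin 3)), LL (k • x) = k • LL x := by
    intro k x
    simp [LL]
  have hLi : Function.Injective LL := by
    intro x y hxy
    simp only [LL, Prod.mk.injEq] at hxy
    ext i
    fin_cases i
    · exact hxy.1
    · exact hxy.2.1
    · exact hxy.2.2
  have hLc : Continuous LL := by
    unfold LL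
    fun_prop
  have hpos : ∀ x : S2, 0 < ‖LL x‖ := by
    intro x
    rw [norm_pos_iff]
    intro h
    have h1 := hL0 _ h
    have h2 := x.2
    rw [mem_sphere_zero_iff_norm, h1, norm_zero] at h2
    norm_num at h2
  refine ⟨fun x => (c / ‖LL x‖) • LL x, ?_, ?_, ?_⟩
  · have h1 : Continuous fun x : S2 => LL x := hLc.comp continuous_subtype_val
    exact (continuous_const.div h1.norm (fun x => (hpos x).ne')).smul h1
  · intro x y h
    dsimp only at h
    have hx := hpos x
    have hy := hpos y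
    rw [← hLs, ← hLs] at h
    have h1 := hLi h
    have h2 : ‖(c / ‖LL x‖) • (x : EuclideanSpace ℝ (Fin 3))‖ = c / ‖LL x‖ := by
      rw [norm_smul, mem_sphere_zero_iff_norm.1 x.2, mul_one, Real.norm_of_nonneg (by positivity)]
    have h3 : ‖(c / ‖LL y‖) • (y : EuclideanSpace ℝ (Fin 3))‖ = c / ‖LL y‖ := by
      rw [norm_smul, mem_sphere_zero_iff_norm.1 y.2, mul_one, Real.norm_of_nonneg (by positivity)]
    have h4 : c / ‖LL x‖ = c / ‖LL y‖ := by rw [← h2, ← h3, h1]
    rw [h4] at h1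
    exact Subtype.ext (smul_right_injective _ (by positivity) h1)
  · ext z
    constructor
    · rintro ⟨x, rfl⟩
      have hx := hpos x
      simp only [Set.mem_ofPred_eq, norm_smul]
      rw [Real.norm_of_nonneg (by positivity)]
      field_simp
    · intro hz
      have hz' : ‖z‖ = c := hz
      let y : EuclideanSpace ℝ (Fin 3) := !₂[z.1, z.2.1, z.2.2]
      have hy : LL y = z := by
        simp [LL, y]
      have hy0 : y ≠ 0 := by
        intro h
        have : LL y = 0 := by rw [h]; simp [LL]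
        rw [hy] at this
        rw [this, norm_zero] at hz'
        linarith
      have hyp : 0 < ‖y‖ := norm_pos_iff.2 hy0
      refine ⟨⟨‖y‖⁻¹ • y, ?_⟩, ?_⟩
      · rw [mem_sphere_zero_iff_norm, norm_smul, norm_inv, norm_norm, inv_mul_cancel₀ hyp.ne']
      · dsimp only
        rw [hLs, hy, norm_smul, norm_inv, norm_norm, hz', smul_smul]
        have : c / (‖y‖⁻¹ * c) * ‖y‖⁻¹ = 1 := by field_simp
        rw [this, one_smul]

/-- TARGET 1: parametrisation of the sphere. -/
theorem Fingers.exists_param [Finite I] (F : Fingers c δ I) :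
    ∃ f : S2 → R3, Continuous f ∧ Function.Injective f ∧ range f = F.surf := by
  obtain ⟨h, h1, h2, h3⟩ := exists_cube c F.hc
  have hm : ∀ x, h x ∈ {p : R3 | ‖p‖ = c} := fun x => h3 ▸ ⟨x, rfl⟩
  refine ⟨fun x => F.gg (h x), F.gg_cont.comp_continuous h1 hm, ?_, ?_⟩
  · intro x y hxy
    exact h2 (F.gg_inj (hm x) (hm y) hxy)
  · rw [← F.gg_image, ← h3, ← Set.range_comp]
    rfl

end Pool.Agent.Helper607.Wild
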