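import Pool.Agent.Helper607.Wild.Base
import Pool.Agent.Helper607.Wild.IoD
set_option autoImplicit false
open Set Filter Topology

namespace Pool.Agent.Helper607.Wild
variable {c δ : ℝ} {I : Type}


theorem image_mem_nhds {E : Type*} [NormedAddCommGroup E] [InnerProductSpace ℝ E]
    [FiniteDimensional ℝ E] (f : E → E) (x0 : E) (r : ℝ) (hr : 0 < r)
    (hc : ContinuousOn f (Metric.closedBall x0 r))
    (hi : InjOn f (Metric.closedBall x0 r)) : f '' Metric.closedBall x0 r ∈ 𝓝 (f x0) :=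
  Pool.Agent.Helper607.Wild.IoD.image_mem_nhds f x0 r hr hc hi


/-- TARGET 1: images of open sets under the finger maps are open. -/
theorem Fingers.isOpen_image (F : Fingers c δ I) (i : I) (D : Set (ℝ × ℝ × ℝ)) (hD : IsOpen D)
    (hD' : D ⊆ Ioi (-1 / 4) ×ˢ SqO) : IsOpen (F.E i '' D) := by
  have hsub : D ⊆ Ici (-1 / 4) ×ˢ Sq := by
    intro d hd
    obtain ⟨h1, h2, h3⟩ := hD' hd
    exact ⟨(le_of_lt h1 : (-1 / 4 : ℝ) ≤ d.1), Ioo_subset_Icc_self h2, Ioo_subset_Icc_self h3⟩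
  rw [isOpen_iff_mem_nhds]
  rintro _ ⟨d, hd, rfl⟩
  let L := toEuclidean (E := ℝ × ℝ × ℝ)
  let f := fun y => L (F.E i (L.symm y))
  have hpre : IsOpen (L.symm ⁻¹' D) := hD.preimage L.symm.continuous
  have hmem : L d ∈ L.symm ⁻¹' D := by
    simpa using hd
  obtain ⟨r, hr, hball⟩ := Metric.nhds_basis_closedBall.mem_iff.1 (hpre.mem_nhds hmem)
  have hc : ContinuousOn f (Metric.closedBall (L d) r) := by
    apply L.continuous.comp_continuousOn
    apply (F.hcont i).comp L.symm.continuous.continuousOn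
    intro y hy
    exact hsub (hball hy)
  have hi : InjOn f (Metric.closedBall (L d) r) := by
    intro y hy z hz hyz
    have h1 := L.injective hyz
    have h2 := F.hinj i (hsub (hball hy)) (hsub (hball hz)) h1
    exact L.symm.injective h2
  have h3 := image_mem_nhds f (L d) r hr hc hi
  have h4 : f (L d) = L (F.E i d) := by simp [f]
  rw [h4] at h3
  have h5 : L ⁻¹' (f '' Metric.closedBall (L d) r) ∈ 𝓝 (F.E i d) :=
    L.continuous.continuousAt h3
  refine Filter.mem_of_superset h5 ?_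
  rintro x ⟨y, hy, hxy⟩
  have h6 : F.E i (L.symm y) = x := L.injective hxy
  exact ⟨L.symm y, hball hy, h6⟩

/-- TARGET 2: closed fingers are compact. -/
theorem Fingers.isCompact_closed (F : Fingers c δ I) (i : I) :
    IsCompact (F.E i '' (Ici 0 ×ˢ Sq) ∪ {F.tip i}) := by
  intro f hf hfs
  by_cases hcl : ClusterPt (F.tip i) f
  · exact ⟨F.tip i, Or.inr rfl, hcl⟩
  · have hdis : Disjoint (𝓝 (F.tip i)) f := by
      rw [ClusterPt, not_neBot] at hcl
      exact disjoint_iff.2 hcl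
    obtain ⟨U, hU, V, hV, hUV⟩ := Filter.disjoint_iff.1 hdis
    obtain ⟨ε, hε, hball⟩ := Metric.mem_nhds_iff.1 hU
    obtain ⟨T, hT⟩ := F.htip i ε hε
    have hK : IsCompact (F.E i '' (Icc 0 (max T 0) ×ˢ Sq)) := by
      apply IsCompact.image_of_continuousOn
      · exact isCompact_Icc.prod (isCompact_Icc.prod isCompact_Icc)
      · apply (F.hcont i).mono
        rintro ⟨t, s⟩ ⟨ht, hs⟩
        refine ⟨?_, hs⟩
        have : (0 : ℝ) ≤ t := ht.1
        show (-1 / 4 : ℝ) ≤ t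
        linarith
    have hle : f ≤ 𝓟 (F.E i '' (Icc 0 (max T 0) ×ˢ Sq)) := by
      rw [Filter.le_principal_iff]
      have h1 := Filter.le_principal_iff.1 hfs
      refine Filter.mem_of_superset (Filter.inter_mem h1 hV) ?_
      rintro x ⟨hx, hxV⟩
      have hxU : x ∉ U := fun h => Set.disjoint_left.1 hUV h hxV
      rcases hx with ⟨⟨t, s⟩, ⟨ht, hs⟩, rfl⟩ | hx
      · refine ⟨(t, s), ⟨⟨ht, ?_⟩, hs⟩, rfl⟩
        by_contra hlt
        rw [not_le] at hlt
        apply hxU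
        apply hball
        exact hT t (le_trans (le_max_left _ _) hlt.le) s hs
      · rw [Set.mem_singleton_iff] at hx
        subst hx
        exact absurd (hball (Metric.mem_ball_self hε)) hxU
    obtain ⟨x, hx, hxc⟩ := hK hle
    refine ⟨x, Or.inl ?_, hxc⟩
    obtain ⟨⟨t, s⟩, ⟨ht, hs⟩, rfl⟩ := hx
    exact ⟨(t, s), ⟨ht.1, hs⟩, rfl⟩

theorem isOpen_cubeO (c : ℝ) : IsOpen (cubeO c) := by
  have h1 : IsOpen {x : R3 | |x.1| < c} := isOpen_lt (by fun_prop) continuous_const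
  have h2 : IsOpen {x : R3 | |x.2.1| < c} := isOpen_lt (by fun_prop) continuous_const
  have h3 : IsOpen {x : R3 | |x.2.2| < c} := isOpen_lt (by fun_prop) continuous_const
  exact h1.inter (h2.inter h3)

theorem isClosed_cubeC (c : ℝ) : IsClosed (cubeC c) := by
  have h1 : IsClosed {x : R3 | |x.1| ≤ c} := isClosed_le (by fun_prop) continuous_const
  have h2 : IsClosed {x : R3 | |x.2.1| ≤ c} := isClosed_le (by fun_prop) continuous_const
  have h3 : IsClosed {x : R3 | |x.2.2| ≤ c} := isClosed_le (by fun_prop) continuous_const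
  exact h1.inter (h2.inter h3)

theorem cubeO_sub (c : ℝ) : cubeO c ⊆ cubeC c := fun _ hx => ⟨hx.1.le, hx.2.1.le, hx.2.2.le⟩

theorem cubeC_bounded (c : ℝ) : Bornology.IsBounded (cubeC c) := by
  refine (Metric.isBounded_closedBall (x := (0 : R3)) (r := c)).subset ?_
  intro x hx
  rw [mem_closedBall_zero_iff, Prod.norm_def, Prod.norm_def]
  exact max_le hx.1 (max_le hx.2.1 hx.2.2)

theorem SqO_sub : SqO ⊆ Sq := fun _ hs => ⟨Ioo_subset_Icc_self hs.1, Ioo_subset_Icc_self hs.2⟩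

theorem abs_sg (b : Bool) : |sg b| = 1 := by cases b <;> simp [sg]

/-- coordinates of the points of the base collar -/
theorem Fingers.base_abs (F : Fingers c δ I) (i : I) (t : ℝ) (ht : t ∈ Icc (-1 / 4 : ℝ) 0)
    (s : ℝ × ℝ) (hs : s ∈ Sq) :
    |(F.E i (t, s)).1| < c ∧ |(F.E i (t, s)).2.1| < c ∧
      |(F.E i (t, s)).2.2| = c + sg (F.out i) * t := by
  rw [F.hbase i t ht s hs]
  have hδ := F.hδ
  have hlen := F.hlen
  obtain ⟨ht1, ht2⟩ := ht
  have h1 : |s.1| ≤ 1 := abs_le.2 hs.1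
  have h2 : |s.2| ≤ 1 := abs_le.2 hs.2
  refine ⟨?_, ?_, ?_⟩
  · calc |F.a i + δ * s.1| ≤ |F.a i| + |δ * s.1| := abs_add_le _ _
      _ = |F.a i| + δ * |s.1| := by rw [abs_mul, abs_of_pos hδ]
      _ ≤ |F.a i| + δ * 1 := by gcongr
      _ < c := by have := F.ha i; linarith
  · calc |F.b i + δ * s.2| ≤ |F.b i| + |δ * s.2| := abs_add_le _ _
      _ = |F.b i| + δ * |s.2| := by rw [abs_mul, abs_of_pos hδ]
      _ ≤ |F.b i| + δ * 1 := by gcongr
      _ < c := by have := F.hb i; linarith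
  · simp only
    rw [abs_mul, abs_sg, one_mul, abs_of_pos]
    cases F.out i with
    | true => simp only [sg, if_true]; linarith
    | false => simp only [sg]; norm_num; linarith

theorem Fingers.base_out (F : Fingers c δ I) (i : I) (ho : F.out i = true) (t : ℝ)
    (ht1 : -1 / 4 ≤ t) (ht2 : t < 0) (s : ℝ × ℝ) (hs : s ∈ Sq) : F.E i (t, s) ∈ cubeO c := by
  obtain ⟨h1, h2, h3⟩ := F.base_abs i t ⟨ht1, ht2.le⟩ s hs
  refine ⟨h1, h2, ?_⟩
  rw [h3, ho]
  simp only [sg, if_true]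
  linarith

theorem Fingers.base_in (F : Fingers c δ I) (i : I) (ho : F.out i = false) (t : ℝ)
    (ht1 : -1 / 4 ≤ t) (ht2 : t < 0) (s : ℝ × ℝ) (hs : s ∈ Sq) : F.E i (t, s) ∉ cubeC c := by
  obtain ⟨h1, h2, h3⟩ := F.base_abs i t ⟨ht1, ht2.le⟩ s hs
  rintro ⟨-, -, h4⟩
  rw [h3, ho] at h4
  simp only [sg] at h4
  norm_num at h4
  linarith

theorem Fingers.base_zero (F : Fingers c δ I) (i : I) (s : ℝ × ℝ) (hs : s ∈ Sq) :
    F.E i (0, s) ∈ cubeC c ∧ F.E i (0, s) ∉ cubeO c := by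
  obtain ⟨h1, h2, h3⟩ := F.base_abs i 0 ⟨by norm_num, le_rfl⟩ s hs
  rw [mul_zero, add_zero] at h3
  refine ⟨⟨h1.le, h2.le, h3.le⟩, ?_⟩
  rintro ⟨-, -, h4⟩
  linarith

/-- the closed finger -/
def Fingers.fc (F : Fingers c δ I) (i : I) : Set R3 := F.E i '' (Ici 0 ×ˢ Sq) ∪ {F.tip i}

theorem Fingers.mem_inner (F : Fingers c δ I) (x : R3) : x ∈ F.inner ↔
    (x ∈ cubeO c ∨ ∃ i, F.out i = true ∧ x ∈ F.E i '' (Ioi (-1 / 4) ×ˢ SqO)) ∧
      ∀ i, F.out i = false → x ∉ F.fc i := by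
  unfold Fingers.inner Fingers.fc
  simp only [Set.mem_diff, Set.mem_union, Set.mem_iUnion, Set.mem_setOf_eq, exists_prop,
    not_exists, not_and]

theorem Fingers.mem_surf (F : Fingers c δ I) (x : R3) : x ∈ F.surf ↔
    (x ∈ cubeC c ∧ x ∉ cubeO c ∧ ∀ i, ∀ s ∈ SqO, x ≠ F.E i (0, s)) ∨
      ∃ i, (x ∈ F.E i '' (Ici 0 ×ˢ (Sq \ SqO)) ∨ x = F.tip i) := by
  unfold Fingers.surf
  simp only [Set.mem_union, Set.mem_iUnion, Set.mem_setOf_eq, Set.mem_singleton_iff]

/-- TARGET 3 -/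
theorem Fingers.inner_facts [Finite I] (F : Fingers c δ I) :
    IsOpen F.inner ∧ Bornology.IsBounded F.inner ∧ Disjoint F.inner F.surf ∧
      frontier F.inner ⊆ F.surf := by
  have hopen : IsOpen F.inner := by
    unfold Fingers.inner
    apply IsOpen.sdiff
    · apply (isOpen_cubeO c).union
      apply isOpen_biUnion
      intro i _
      exact F.isOpen_image i _ (isOpen_Ioi.prod (isOpen_Ioo.prod isOpen_Ioo)) subset_rfl
    · exact (Set.toFinite _).isClosed_biUnion (fun i _ => (F.isCompact_closed i).isClosed)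
  have hsub : F.inner ⊆ cubeC c ∪ ⋃ i ∈ {i | F.out i = true}, F.fc i := by
    intro x hx
    rw [F.mem_inner] at hx
    rcases hx.1 with h | ⟨i, hi, ⟨t, s⟩, ⟨ht, hs⟩, rfl⟩
    · exact Or.inl (cubeO_sub c h)
    · have ht' : (-1 / 4 : ℝ) < t := ht
      have hs' : s ∈ Sq := SqO_sub hs
      by_cases h0 : 0 ≤ t
      · right
        simp only [Set.mem_iUnion]
        exact ⟨i, hi, Or.inl ⟨(t, s), ⟨h0, hs'⟩, rfl⟩⟩
      · left
        exact cubeO_sub c (F.base_out i hi t ht'.le (not_le.1 h0) s hs')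
  have hClosed : IsClosed (cubeC c ∪ ⋃ i ∈ {i | F.out i = true}, F.fc i) :=
    (isClosed_cubeC c).union
      ((Set.toFinite _).isClosed_biUnion (fun i _ => (F.isCompact_closed i).isClosed))
  have hG : IsClosed (⋃ i ∈ {i | F.out i = true}, F.fc i) :=
    (Set.toFinite _).isClosed_biUnion (fun i _ => (F.isCompact_closed i).isClosed)
  have hbdd : Bornology.IsBounded F.inner := by
    refine Bornology.IsBounded.subset ?_ hsub
    apply (cubeC_bounded c).union
    rw [Bornology.isBounded_biUnion (Set.toFinite _)]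
    intro i _
    exact (F.isCompact_closed i).isBounded
  have hdis : Disjoint F.inner F.surf := by
    rw [Set.disjoint_left]
    intro x hx hs
    rw [F.mem_inner] at hx
    rw [F.mem_surf] at hs
    obtain ⟨hx1, hx2⟩ := hx
    rcases hs with ⟨hC, hO, hne⟩ | ⟨i, hi⟩
    · rcases hx1 with h | ⟨i, hi, ⟨t, s⟩, ⟨ht, hs⟩, rfl⟩
      · exact hO h
      · have ht' : (-1 / 4 : ℝ) < t := ht
        have hs' : s ∈ Sq := SqO_sub hs
        rcases lt_trichotomy t 0 with h | h | h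
        · exact hO (F.base_out i hi t ht'.le h s hs')
        · subst h
          exact hne i s hs rfl
        · exact (F.hout i hi).1 t h s hs' hC
    · cases ho : F.out i with
      | false =>
        apply hx2 i ho
        rcases hi with ⟨⟨t, s⟩, ⟨ht, hs⟩, rfl⟩ | rfl
        · exact Or.inl ⟨(t, s), ⟨ht, hs.1⟩, rfl⟩
        · exact Or.inr rfl
      | true =>
        have hnO : x ∉ cubeO c := by
          rcases hi with ⟨⟨t, s⟩, ⟨ht, hs⟩, rfl⟩ | rfl
          · have ht' : (0 : ℝ) ≤ t := ht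
            rcases ht'.eq_or_lt with h | h
            · subst h
              exact (F.base_zero i s hs.1).2
            · intro h2
              exact (F.hout i ho).1 t h s hs.1 (cubeO_sub c h2)
          · intro h2
            exact (F.hout i ho).2 (cubeO_sub c h2)
        rcases hx1 with h | ⟨j, hj, ⟨t1, s1⟩, ⟨ht1, hs1⟩, hxe⟩
        · exact hnO h
        · have ht1' : (-1 / 4 : ℝ) < t1 := ht1
          have hs1' : s1 ∈ Sq := SqO_sub hs1
          have h0 : 0 ≤ t1 := by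
            by_contra hlt
            rw [not_le] at hlt
            apply hnO
            rw [← hxe]
            exact F.base_out j hj t1 ht1'.le hlt s1 hs1'
          by_cases hij : i = j
          · subst hij
            rcases hi with ⟨⟨t, s⟩, ⟨ht, hs⟩, hxe2⟩ | hxe2
            · have ht' : (0 : ℝ) ≤ t := ht
              have hm1 : ((t, s) : ℝ × ℝ × ℝ) ∈ Ici (-1 / 4 : ℝ) ×ˢ Sq :=
                ⟨by show (-1 / 4 : ℝ) ≤ t; linarith, hs.1⟩
              have hm2 : ((t1, s1) : ℝ × ℝ × ℝ) ∈ Ici (-1 / 4 : ℝ) ×ˢ Sq :=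
                ⟨by show (-1 / 4 : ℝ) ≤ t1; linarith, hs1'⟩
              have h3 := F.hinj i hm1 hm2 (hxe2.trans hxe.symm)
              have h4 : s = s1 := congrArg Prod.snd h3
              rw [h4] at hs
              exact hs.2 hs1
            · exact F.htipne i t1 ht1'.le s1 hs1' (hxe.trans hxe2)
          · rcases hi with ⟨⟨t, s⟩, ⟨ht, hs⟩, hxe2⟩ | hxe2
            · exact (F.hdisj i j hij).2.2 t ht s hs.1 t1 h0 s1 hs1' (hxe2.trans hxe.symm)
            · exact (F.hdisj j i (Ne.symm hij)).2.1 t1 h0 s1 hs1' (hxe.trans hxe2)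
  refine ⟨hopen, hbdd, hdis, ?_⟩
  intro x hx
  rw [frontier, hopen.interior_eq] at hx
  obtain ⟨hxc, hxn⟩ := hx
  have hxCl := closure_minimal hsub hClosed hxc
  by_cases hin : ∃ i, F.out i = false ∧ x ∈ F.fc i
  · obtain ⟨i, hi, hxi⟩ := hin
    rw [F.mem_surf]
    rcases hxi with ⟨⟨t, s⟩, ⟨ht, hs⟩, hxe⟩ | hxe
    · have ht' : (0 : ℝ) ≤ t := ht
      by_cases hsO : s ∈ SqO
      · exfalso
        rcases ht'.eq_or_lt with h | h
        · -- t = 0
          subst h
          have hxG : x ∉ ⋃ i ∈ {i | F.out i = true}, F.fc i := by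
            simp only [Set.mem_iUnion, Set.mem_setOf_eq, not_exists]
            intro j hj hxj
            have hij : i ≠ j := by
              rintro rfl
              rw [hi] at hj
              exact absurd hj (by simp)
            rcases hxj with ⟨⟨t2, s2⟩, ⟨ht2, hs2⟩, hxe2⟩ | hxe2
            · exact (F.hdisj i j hij).2.2 0 le_rfl s hs t2 ht2 s2 hs2 (hxe.trans hxe2.symm)
            · exact (F.hdisj i j hij).2.1 0 le_rfl s hs (hxe.trans hxe2)
          have hM : IsOpen (F.E i '' (Ioi (-1 / 4) ×ˢ SqO)) :=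
            F.isOpen_image i _ (isOpen_Ioi.prod (isOpen_Ioo.prod isOpen_Ioo)) subset_rfl
          have hxM : x ∈ F.E i '' (Ioi (-1 / 4) ×ˢ SqO) :=
            ⟨(0, s), ⟨by show (-1 / 4 : ℝ) < 0; norm_num, hsO⟩, hxe⟩
          obtain ⟨y, ⟨hyM, hyG⟩, hyi⟩ := mem_closure_iff.1 hxc _ (hM.inter hG.isOpen_compl)
            ⟨hxM, hxG⟩
          rw [F.mem_inner] at hyi
          obtain ⟨⟨t1, s1⟩, ⟨ht1, hs1⟩, hye⟩ := hyM
          have ht1' : (-1 / 4 : ℝ) < t1 := ht1
          have hs1' : s1 ∈ Sq := SqO_sub hs1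
          by_cases h0 : 0 ≤ t1
          · exact hyi.2 i hi (Or.inl ⟨(t1, s1), ⟨h0, hs1'⟩, hye⟩)
          · rw [not_le] at h0
            have hyC : y ∉ cubeC c := by
              rw [← hye]
              exact F.base_in i hi t1 ht1'.le h0 s1 hs1'
            rcases hyi.1 with h1 | ⟨j, hj, ⟨t2, s2⟩, ⟨ht2, hs2⟩, hye2⟩
            · exact hyC (cubeO_sub c h1)
            · have ht2' : (-1 / 4 : ℝ) < t2 := ht2
              have hs2' : s2 ∈ Sq := SqO_sub hs2
              by_cases h2 : 0 ≤ t2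
              · apply hyG
                simp only [Set.mem_iUnion]
                exact ⟨j, hj, Or.inl ⟨(t2, s2), ⟨h2, hs2'⟩, hye2⟩⟩
              · apply hyC
                rw [← hye2]
                exact cubeO_sub c (F.base_out j hj t2 ht2'.le (not_le.1 h2) s2 hs2')
        · -- t > 0
          have hM : IsOpen (F.E i '' (Ioi 0 ×ˢ SqO)) := by
            apply F.isOpen_image i _ (isOpen_Ioi.prod (isOpen_Ioo.prod isOpen_Ioo))
            rintro ⟨t1, s1⟩ ⟨h1, h2⟩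
            refine ⟨?_, h2⟩
            have h3 : (0 : ℝ) < t1 := h1
            show (-1 / 4 : ℝ) < t1
            linarith
          have hxM : x ∈ F.E i '' (Ioi 0 ×ˢ SqO) := ⟨(t, s), ⟨h, hsO⟩, hxe⟩
          obtain ⟨y, ⟨⟨t1, s1⟩, ⟨ht1, hs1⟩, hye⟩, hyi⟩ := mem_closure_iff.1 hxc _ hM hxM
          rw [F.mem_inner] at hyi
          have ht1' : (0 : ℝ) < t1 := ht1
          exact hyi.2 i hi (Or.inl ⟨(t1, s1), ⟨ht1'.le, SqO_sub hs1⟩, hye⟩)
      · right
        exact ⟨i, Or.inl ⟨(t, s), ⟨ht, hs, hsO⟩, hxe⟩⟩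
    · right
      exact ⟨i, Or.inr hxe⟩
  · have hin' : ∀ i, F.out i = false → x ∉ F.fc i := fun i hi hx => hin ⟨i, hi, hx⟩
    have hn1 : ¬ (x ∈ cubeO c ∨ ∃ i, F.out i = true ∧ x ∈ F.E i '' (Ioi (-1 / 4) ×ˢ SqO)) := by
      intro h
      apply hxn
      rw [F.mem_inner]
      exact ⟨h, hin'⟩
    rw [not_or] at hn1
    obtain ⟨hnO, hnE⟩ := hn1
    rw [F.mem_surf]
    rcases hxCl with hC | hC
    · left
      refine ⟨hC, hnO, ?_⟩
      intro i s hs hxe
      cases ho : F.out i with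
      | true =>
        apply hnE
        exact ⟨i, ho, (0, s), ⟨by show (-1 / 4 : ℝ) < 0; norm_num, hs⟩, hxe.symm⟩
      | false =>
        exact hin' i ho (Or.inl ⟨(0, s), ⟨le_refl (0 : ℝ), SqO_sub hs⟩, hxe.symm⟩)
    · simp only [Set.mem_iUnion, Set.mem_setOf_eq] at hC
      obtain ⟨i, hi, hxi⟩ := hC
      right
      rcases hxi with ⟨⟨t, s⟩, ⟨ht, hs⟩, hxe⟩ | hxe
      · by_cases hsO : s ∈ SqO
        · exfalso
          apply hnE
          have ht' : (0 : ℝ) ≤ t := ht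
          exact ⟨i, hi, (t, s), ⟨by show (-1 / 4 : ℝ) < t; linarith, hsO⟩, hxe⟩
        · exact ⟨i, Or.inl ⟨(t, s), ⟨ht, hs, hsO⟩, hxe⟩⟩
      · exact ⟨i, Or.inr hxe⟩

end Pool.Agent.Helper607.Wild
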