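import Pool.Agent.Helper607.Wild.FamArc
import Pool.Agent.Helper607.Wild.FamNest
import Pool.Agent.Helper607.Wild.SphereParam
import Pool.Agent.Helper607.Wild.SphereSide
import Pool.Agent.Helper607.Wild.NoBetween
set_option autoImplicit false
open Set Filter Topology

namespace Pool.Agent.Helper607.Wild
variable {E : Bool → ℝ × ℝ × ℝ → R3} {tip : Bool → R3}


theorem theta_theta (x : R3) : theta (theta x) = x := by
  simp [theta]

theorem theta_iso : Isometry theta := by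
  apply Isometry.of_dist_eq
  intro x y
  simp only [theta, Prod.dist_eq, dist_neg_neg]

/-- the half turn as a homeomorphism -/
noncomputable def thetaH : R3 ≃ₜ R3 where
  toFun := theta
  invFun := theta
  left_inv := theta_theta
  right_inv := theta_theta
  continuous_toFun := theta_iso.continuous
  continuous_invFun := theta_iso.continuous

theorem theta_image_image (S : Set R3) : theta '' (theta '' S) = S := by
  rw [← Set.image_comp]
  have : theta ∘ theta = id := funext theta_theta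
  rw [this, Set.image_id]

theorem theta_ins_aux (S : Set R3) {x : R3} (hx : x ∈ ins S) : theta x ∈ ins (theta '' S) := by
  obtain ⟨h1, h2⟩ := hx
  refine ⟨?_, ?_⟩
  · rintro ⟨y, hy, he⟩
    rw [theta_iso.injective he] at hy
    exact h1 hy
  · have e : (theta '' S)ᶜ = theta '' Sᶜ := (Set.image_compl_eq thetaH.bijective).symm
    have e2 : theta '' connectedComponentIn Sᶜ x = connectedComponentIn (theta '' Sᶜ) (theta x) :=
      thetaH.image_connectedComponentIn (show x ∈ Sᶜ from h1)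
    rw [e, ← e2]
    exact theta_iso.lipschitz.isBounded_image h2

theorem theta_ins (S : Set R3) : ins (theta '' S) = theta '' (ins S) := by
  apply Set.Subset.antisymm
  · intro y hy
    have h1 := theta_ins_aux _ hy
    rw [theta_image_image] at h1
    exact ⟨theta y, h1, theta_theta y⟩
  · rintro _ ⟨x, hx, rfl⟩
    exact theta_ins_aux S hx

theorem ray_convex (c : ℝ) : Convex ℝ {x : R3 | c ≤ x.1 ∧ x.2.1 = 0 ∧ x.2.2 = 0} := by
  rintro x ⟨h1, h2, h3⟩ y ⟨h1', h2', h3'⟩ a b ha hb hab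
  refine ⟨?_, ?_, ?_⟩
  · show c ≤ a * x.1 + b * y.1
    have g1 := mul_le_mul_of_nonneg_left h1 ha
    have g2 := mul_le_mul_of_nonneg_left h1' hb
    have : a * c + b * c = c := by rw [← add_mul, hab, one_mul]
    linarith
  · show a * x.2.1 + b * y.2.1 = 0
    rw [h2, h2']; ring
  · show a * x.2.2 + b * y.2.2 = 0
    rw [h3, h3']; ring

theorem rayz_convex (c : ℝ) : Convex ℝ {x : R3 | x.1 = 0 ∧ x.2.1 = 0 ∧ c ≤ x.2.2} := by
  rintro x ⟨h1, h2, h3⟩ y ⟨h1', h2', h3'⟩ a b ha hb hab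
  refine ⟨?_, ?_, ?_⟩
  · show a * x.1 + b * y.1 = 0
    rw [h1, h1']; ring
  · show a * x.2.1 + b * y.2.1 = 0
    rw [h2, h2']; ring
  · show c ≤ a * x.2.2 + b * y.2.2
    have g1 := mul_le_mul_of_nonneg_left h3 ha
    have g2 := mul_le_mul_of_nonneg_left h3' hb
    have : a * c + b * c = c := by rw [← add_mul, hab, one_mul]
    linarith

theorem ray_unb (c : ℝ) (S : Set R3) (hS : {x : R3 | c ≤ x.1 ∧ x.2.1 = 0 ∧ x.2.2 = 0} ⊆ S) :
    ¬ Bornology.IsBounded S := by
  intro hb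
  rw [isBounded_iff_forall_norm_le] at hb
  obtain ⟨R, hR⟩ := hb
  have h1 := hR (max c (|R| + 1), 0, 0) (hS ⟨le_max_left _ _, rfl, rfl⟩)
  have h2 : ‖max c (|R| + 1)‖ ≤ ‖((max c (|R| + 1), 0, 0) : R3)‖ :=
    norm_fst_le ((max c (|R| + 1), 0, 0) : R3)
  have h3 : max c (|R| + 1) ≤ ‖max c (|R| + 1)‖ := le_abs_self _
  have h4 : |R| + 1 ≤ max c (|R| + 1) := le_max_right _ _
  have h5 : R ≤ |R| := le_abs_self _
  linarith

theorem rayz_unb (c : ℝ) (S : Set R3) (hS : {x : R3 | x.1 = 0 ∧ x.2.1 = 0 ∧ c ≤ x.2.2} ⊆ S) :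
    ¬ Bornology.IsBounded S := by
  intro hb
  rw [isBounded_iff_forall_norm_le] at hb
  obtain ⟨R, hR⟩ := hb
  have h1 := hR (0, 0, max c (|R| + 1)) (hS ⟨rfl, rfl, le_max_left _ _⟩)
  have h2 : ‖max c (|R| + 1)‖ ≤ ‖((0, 0, max c (|R| + 1)) : R3)‖ :=
    (norm_snd_le ((0, max c (|R| + 1)) : ℝ × ℝ)).trans
      (norm_snd_le ((0, 0, max c (|R| + 1)) : R3))
  have h3 : max c (|R| + 1) ≤ ‖max c (|R| + 1)‖ := le_abs_self _
  have h4 : |R| + 1 ≤ max c (|R| + 1) := le_max_right _ _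
  have h5 : R ≤ |R| := le_abs_self _
  linarith

theorem topMap_cont2 (c : ℝ) : Continuous (topMap c) := by
  unfold topMap
  fun_prop

theorem theta_bot (c : ℝ) (x : R3) : theta (botMap c x) = x + (0, 0, c + 27 / 2) := by
  refine Prod.ext ?_ (Prod.ext ?_ ?_)
  · show x.1 = x.1 + 0
    ring
  · show -(-x.2.1) = x.2.1 + 0
    ring
  · show -(-x.2.2 - c - 27 / 2) = x.2.2 + (c + 27 / 2)
    ring

theorem tau_shift (c : ℝ) (x : R3) : tau x + (0, 0, c + 27 / 2) = topMap (c + 18) x := by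
  refine Prod.ext ?_ (Prod.ext ?_ ?_)
  · show x.2.1 + 0 = x.2.1
    ring
  · show x.1 + 0 = x.1
    ring
  · show (-x.2.2 - 9) + (c + 27 / 2) = -x.2.2 + (c + 18) - 27 / 2
    ring

theorem tip_mem_surf (h : FD E tip) (c : ℝ) (hc : 20 ≤ c) (e : Bool) :
    topMap c (tip e) ∈ (Fam h c hc).surf := by
  right
  refine mem_iUnion.mpr ⟨(false, e), Or.inr ?_⟩
  show topMap c (tip e) = _
  simp [Fam]

/-- TARGET 1: one pair. `K` is the red wild arc, `tau '' K` the blue one. -/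
theorem pair (h : FD E tip) (K A : Set R3) (hK : ArcPts E tip K)
    (hA : IsPreconnected A) (hA0 : ((0 : ℝ), (0 : ℝ), (-15 : ℝ)) ∈ A) (hAK : A ⊆ K)
    (hKA : K ⊆ closure A) (hA9 : ∀ x ∈ A, |x.1| < 9)
    (hKA' : K ⊆ A ∪ {((9 : ℝ), (0 : ℝ), (0 : ℝ)), ((-9 : ℝ), (0 : ℝ), (0 : ℝ))})
    (hlink : ∀ f : S2 → R3, Continuous f → Function.Injective f → ∀ U V : Set R3,
      IsOpen U → IsOpen V → Disjoint U V → (range f)ᶜ = U ∪ V → K ⊆ U → tau '' K ⊆ V → False)
    (c : ℝ) (hc : 20 ≤ c) (hc' : 20 ≤ c + 18) :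
    ¬ ∃ f : S2 → R3, Continuous f ∧ Function.Injective f ∧
      range f ⊆ ins (Fam h (c + 18) hc').surf ∧ theta '' (Fam h c hc).surf ⊆ ins (range f) := by
  obtain ⟨fo, fb, fd, ff⟩ := (Fam h c hc).inner_facts
  have hAarc : ArcPts E tip A := fun x hx => hK x (hAK hx)
  apply no_between (Fam h (c + 18) hc').surf (theta '' (Fam h c hc).surf)
    (theta '' (Fam h c hc).inner) (theta '' (botMap c '' K)) (topMap (c + 18) '' K)
    {x : R3 | c ≤ x.1 ∧ x.2.1 = 0 ∧ x.2.2 = 0}
    (topMap (c + 18) '' A ∪ {x : R3 | x.1 = 0 ∧ x.2.1 = 0 ∧ (c + 18) + 1 ≤ x.2.2})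
  · exact thetaH.isOpenMap _ fo
  · exact theta_iso.lipschitz.isBounded_image fb
  · have e : theta '' frontier (Fam h c hc).inner = frontier (theta '' (Fam h c hc).inner) :=
      thetaH.image_frontier _
    rw [← e]
    exact image_mono ff
  · rw [← image_union]
    exact image_mono (red_sub h c hc K hK)
  · exact (ray_convex c).isPreconnected
  · exact ray_unb c _ (Subset.refl _)
  · rw [Set.disjoint_left]
    rintro x hx ⟨y, hy, rfl⟩
    obtain ⟨h1, h2, h3⟩ := hx
    refine Set.disjoint_left.mp (ray_side h c hc).1 ?_ hy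
    refine ⟨h1, ?_, ?_⟩
    · have : -y.2.1 = 0 := h2
      linarith
    · have : -y.2.2 = 0 := h3
      linarith
  · refine ⟨(c, 0, 0), ⟨le_rfl, rfl, rfl⟩, (c, 0, 0), (ray_side h c hc).2, ?_⟩
    simp [theta]
  · refine IsPreconnected.union (0, 0, c + 39 / 2) ⟨(0, 0, -15), hA0, ?_⟩ ⟨rfl, rfl, ?_⟩
      (hA.image _ (topMap_cont2 _).continuousOn) (rayz_convex _).isPreconnected
    · simp only [topMap]
      refine Prod.ext rfl (Prod.ext rfl ?_)
      show -(-15) + (c + 18) - 27 / 2 = c + 39 / 2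
      ring
    · show c + 18 + 1 ≤ c + 39 / 2
      linarith
  · exact rayz_unb (c + 18 + 1) _ subset_union_right
  · rw [Set.disjoint_union_left]
    exact ⟨blue_disj h (c + 18) hc' A hAarc hA9, ray_up h (c + 18) hc'⟩
  · calc topMap (c + 18) '' K ⊆ topMap (c + 18) '' closure A := image_mono hKA
      _ ⊆ closure (topMap (c + 18) '' A) := image_closure_subset_closure_image (topMap_cont2 _)
      _ ⊆ _ := closure_mono subset_union_left
  · rintro _ ⟨x, hx, rfl⟩
    rcases hKA' hx with hxA | hx9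
    · exact Or.inl (Or.inl ⟨x, hxA, rfl⟩)
    · right
      rcases hx9 with rfl | hx9
      · have := tip_mem_surf h (c + 18) hc' false
        rwa [h.tipF] at this
      · rw [mem_singleton_iff] at hx9
        subst hx9
        have := tip_mem_surf h (c + 18) hc' true
        rwa [h.tipT] at this
  · intro f hf1 hf2 U V hU hV hUV hUVr hKRU hKBV
    set v : R3 := (0, 0, c + 27 / 2) with hv
    have hcontv : Continuous (fun x : R3 => x + v) := by fun_prop
    apply hlink (fun s => f s - v) (by fun_prop) (fun s t hst => hf2 (by simpa using hst))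
      ((fun x => x + v) ⁻¹' U) ((fun x => x + v) ⁻¹' V) (hU.preimage hcontv)
      (hV.preimage hcontv) (hUV.preimage _)
    · rw [← preimage_union, ← hUVr]
      ext x
      simp only [mem_compl_iff, mem_range, mem_preimage]
      refine not_congr (exists_congr fun s => ?_)
      exact sub_eq_iff_eq_add
    · intro x hx
      show x + v ∈ U
      rw [hv, ← theta_bot]
      exact hKRU ⟨_, ⟨x, hx, rfl⟩, rfl⟩
    · rintro _ ⟨x, hx, rfl⟩
      show tau x + v ∈ V
      rw [hv, tau_shift]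
      exact hKBV ⟨x, hx, rfl⟩

theorem inner_sub_ins (h : FD E tip) (c : ℝ) (hc : 20 ≤ c) :
    (Fam h c hc).inner ⊆ ins (Fam h c hc).surf := by
  obtain ⟨fo, fb, fd, ff⟩ := (Fam h c hc).inner_facts
  exact sub_ins _ _ fo fb ff fd

/-- TARGET 2: three spheres. -/
theorem three_spheres (h : FD E tip) (K A : Set R3) (hK : ArcPts E tip K)
    (hA : IsPreconnected A) (hA0 : ((0 : ℝ), (0 : ℝ), (-15 : ℝ)) ∈ A) (hAK : A ⊆ K)
    (hKA : K ⊆ closure A) (hA9 : ∀ x ∈ A, |x.1| < 9)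
    (hKA' : K ⊆ A ∪ {((9 : ℝ), (0 : ℝ), (0 : ℝ)), ((-9 : ℝ), (0 : ℝ), (0 : ℝ))})
    (hlink : ∀ f : S2 → R3, Continuous f → Function.Injective f → ∀ U V : Set R3,
      IsOpen U → IsOpen V → Disjoint U V → (range f)ᶜ = U ∪ V → K ⊆ U → tau '' K ⊆ V → False) :
    ∃ f₁ f₂ f₃ : S2 → R3, Continuous f₁ ∧ Function.Injective f₁ ∧ Continuous f₂ ∧
      Function.Injective f₂ ∧ Continuous f₃ ∧ Function.Injective f₃ ∧
      range f₃ ⊆ ins (range f₂) ∧ range f₂ ⊆ ins (range f₁) ∧
      (¬ ∃ f : S2 → R3, Continuous f ∧ Function.Injective f ∧ range f ⊆ ins (range f₁) ∧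
        range f₂ ⊆ ins (range f)) ∧
      (¬ ∃ f : S2 → R3, Continuous f ∧ Function.Injective f ∧ range f ⊆ ins (range f₂) ∧
        range f₃ ⊆ ins (range f)) := by
  have hc1 : (20 : ℝ) ≤ 20 := le_rfl
  have hc2 : (20 : ℝ) ≤ 20 + 18 := by norm_num
  have hc3 : (20 : ℝ) ≤ 20 + 18 + 18 := by norm_num
  obtain ⟨f₃, c3, i3, r3⟩ := (Fam h 20 hc1).exists_param
  obtain ⟨g, cg, ig, rg⟩ := (Fam h (20 + 18) hc2).exists_param
  obtain ⟨f₁, c1, i1, r1⟩ := (Fam h (20 + 18 + 18) hc3).exists_param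
  have r2 : range (theta ∘ g) = theta '' (Fam h (20 + 18) hc2).surf := by
    rw [range_comp, rg]
  refine ⟨f₁, theta ∘ g, f₃, c1, i1, theta_iso.continuous.comp cg, theta_iso.injective.comp ig,
    c3, i3, ?_, ?_, ?_, ?_⟩
  · rw [r2, r3, theta_ins]
    have h1 := (nested h 20 hc1 hc2).trans (inner_sub_ins h _ hc2)
    have h2 := image_mono (f := theta) h1
    rwa [theta_image_image] at h2
  · rw [r2, r1]
    exact (nested h (20 + 18) hc2 hc3).trans (inner_sub_ins h _ hc3)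
  · rw [r2, r1]
    exact pair h K A hK hA hA0 hAK hKA hA9 hKA' hlink (20 + 18) hc2 hc3
  · rw [r2, r3]
    rintro ⟨f, cf, jf, hf1, hf2⟩
    apply pair h K A hK hA hA0 hAK hKA hA9 hKA' hlink 20 hc1 hc2
    refine ⟨theta ∘ f, theta_iso.continuous.comp cf, theta_iso.injective.comp jf, ?_, ?_⟩
    · rw [range_comp]
      rw [theta_ins] at hf1
      have h2 := image_mono (f := theta) hf1
      rwa [theta_image_image] at h2
    · rw [range_comp, theta_ins]
      exact image_mono hf2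

end Pool.Agent.Helper607.Wild
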