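import Pool.Agent.Helper607.Wild.Base
set_option autoImplicit false
open Set Filter Topology

namespace Pool.Agent.Helper607.Wild

/-! ### integer vectors -/

theorem dot_comm (a b : Z3) : dot a b = dot b a := by unfold dot; ring
theorem dot_add_left (a b c : Z3) : dot (a + b) c = dot a c + dot b c := by
  simp only [dot, Prod.fst_add, Prod.snd_add]; ring
theorem dot_sub_left (a b c : Z3) : dot (a - b) c = dot a c - dot b c := by
  simp only [dot, Prod.fst_sub, Prod.snd_sub]; ring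
theorem dot_smul_left (k : ℤ) (a c : Z3) : dot (k • a) c = k * dot a c := by
  simp only [dot, Prod.smul_fst, Prod.smul_snd, smul_eq_mul]; ring
theorem dot_add_right (a b c : Z3) : dot a (b + c) = dot a b + dot a c := by
  simp only [dot, Prod.fst_add, Prod.snd_add]; ring
theorem dot_sub_right (a b c : Z3) : dot a (b - c) = dot a b - dot a c := by
  simp only [dot, Prod.fst_sub, Prod.snd_sub]; ring
theorem dot_smul_right (k : ℤ) (a c : Z3) : dot a (k • c) = k * dot a c := by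
  simp only [dot, Prod.smul_fst, Prod.smul_snd, smul_eq_mul]; ring

/-- the six unit vectors -/
def UL : List Z3 := [(1, 0, 0), (-1, 0, 0), (0, 1, 0), (0, -1, 0), (0, 0, 1), (0, 0, -1)]

theorem mem_UL (v : Z3) (h : dot v v = 1) : v ∈ UL := by
  obtain ⟨x, y, z⟩ := v
  simp only [dot] at h
  have hx : x ≤ 1 := by nlinarith [sq_nonneg y, sq_nonneg z, sq_nonneg (x - 1)]
  have hx' : -1 ≤ x := by nlinarith [sq_nonneg y, sq_nonneg z, sq_nonneg (x + 1)]
  have hy : y ≤ 1 := by nlinarith [sq_nonneg x, sq_nonneg z, sq_nonneg (y - 1)]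
  have hy' : -1 ≤ y := by nlinarith [sq_nonneg x, sq_nonneg z, sq_nonneg (y + 1)]
  have hz : z ≤ 1 := by nlinarith [sq_nonneg x, sq_nonneg y, sq_nonneg (z - 1)]
  have hz' : -1 ≤ z := by nlinarith [sq_nonneg x, sq_nonneg y, sq_nonneg (z + 1)]
  interval_cases x <;> interval_cases y <;> interval_cases z <;> first | (exfalso; omega) | decide

theorem rows_UL : ∀ n ∈ UL, ∀ b ∈ UL, ∀ d ∈ UL, dot n b = 0 → dot n d = 0 → dot b d = 0 →
    n.1.natAbs + b.1.natAbs + d.1.natAbs ≤ 1 ∧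
    n.2.1.natAbs + b.2.1.natAbs + d.2.1.natAbs ≤ 1 ∧
    n.2.2.natAbs + b.2.2.natAbs + d.2.2.natAbs ≤ 1 := by
  decide

theorem dots_UL : ∀ n ∈ UL, ∀ b ∈ UL, ∀ d ∈ UL, dot n b = 0 →
    (dot n d).natAbs + (dot b d).natAbs ≤ 1 := by
  decide

theorem pair_UL : ∀ d ∈ UL, ∀ e ∈ UL, d + e ≠ 0 → (dot d e = 0 ∨ (dot d e = 1 ∧ d = e)) := by
  decide

/-- the transport map -/
def TT (d e n : Z3) : Z3 := n - dot n e • (e + d)

theorem TT_facts (d e : Z3) (hd : dot d d = 1) (he : dot e e = 1) (hde : d + e ≠ 0) (n m : Z3)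
    (hn : dot n d = 0) (hm : dot m d = 0) :
    dot (TT d e n) e = 0 ∧ dot (TT d e n) (TT d e m) = dot n m := by
  have key : ∀ v : Z3, dot v d = 0 → dot v e * dot d e = 0 := by
    intro v hv
    rcases pair_UL d (mem_UL d hd) e (mem_UL e he) hde with h | ⟨_, h⟩
    · rw [h, mul_zero]
    · rw [← h, hv, zero_mul]
  have k1 := key n hn
  have k2 := key m hm
  have e1 : dot (e + d) e = 1 + dot d e := by rw [dot_add_left, he]
  have e2 : dot (e + d) (e + d) = 2 + 2 * dot d e := by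
    rw [dot_add_left, dot_add_right, dot_add_right, he, hd, dot_comm e d]; ring
  constructor
  · rw [TT, dot_sub_left, dot_smul_left, e1]
    linear_combination -k1
  · rw [TT, TT, dot_sub_left, dot_sub_right, dot_sub_right, dot_smul_left, dot_smul_left,
      dot_smul_right, dot_smul_right, e2, dot_add_right, hn, dot_comm (e + d) m, dot_add_right, hm]
    linear_combination 2 * dot m e * k1

theorem TT_inv (d e : Z3) (hd : dot d d = 1) (he : dot e e = 1) (hde : d + e ≠ 0) (n : Z3)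
    (hn : dot n e = 0) : TT d e (TT e d n) = n := by
  have k : dot n d * dot e d = 0 := by
    rcases pair_UL d (mem_UL d hd) e (mem_UL e he) hde with h | ⟨_, h⟩
    · rw [dot_comm e d, h, mul_zero]
    · rw [h, hn, zero_mul]
  have e1 : dot (TT e d n) e = - dot n d := by
    rw [TT, dot_sub_left, dot_smul_left, dot_add_left, he, hn, dot_comm d e]
    linear_combination -k
  rw [TT, e1, TT, add_comm d e]
  module

/-- bi-infinite recursion -/
theorem bi_rec {X : Type*} (good : ℤ → X → Prop) (T S : ℤ → X → X)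
    (hT : ∀ i x, good i x → good (i + 1) (T i x))
    (hS : ∀ i y, good (i + 1) y → good i (S i y) ∧ T i (S i y) = y)
    (i0 : ℤ) (x0 : X) (h0 : good i0 x0) :
    ∃ x : ℤ → X, x i0 = x0 ∧ (∀ i, good i (x i)) ∧ ∀ i, x (i + 1) = T i (x i) := by
  let F : ℕ → X := fun k => Nat.rec x0 (fun k y => T (i0 + k) y) k
  let G : ℕ → X := fun k => Nat.rec x0 (fun k y => S (i0 - k - 1) y) k
  have F0 : F 0 = x0 := rfl
  have G0 : G 0 = x0 := rfl
  have Fs : ∀ k : ℕ, F (k + 1) = T (i0 + k) (F k) := fun k => rfl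
  have Gs : ∀ k : ℕ, G (k + 1) = S (i0 - k - 1) (G k) := fun k => rfl
  have Fg : ∀ k : ℕ, good (i0 + k) (F k) := by
    intro k
    induction k with
    | zero => rw [F0]; simpa using h0
    | succ k ih =>
      rw [Fs]
      have := hT _ _ ih
      push_cast
      rwa [← add_assoc]
  have Gg : ∀ k : ℕ, good (i0 - k) (G k) := by
    intro k
    induction k with
    | zero => rw [G0]; simpa using h0
    | succ k ih =>
      rw [Gs]
      have e : i0 - (k : ℤ) - 1 + 1 = i0 - k := by ring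
      rw [← e] at ih
      have := (hS _ _ ih).1
      push_cast
      rwa [show i0 - ((k : ℤ) + 1) = i0 - k - 1 by ring]
  refine ⟨fun i => if i0 ≤ i then F (i - i0).toNat else G (i0 - i).toNat, ?_, ?_, ?_⟩
  · simp [F0]
  · intro i
    by_cases h : i0 ≤ i
    · simp only [h, if_true]
      have := Fg (i - i0).toNat
      rwa [show i0 + (((i - i0).toNat : ℕ) : ℤ) = i by omega] at this
    · simp only [h, if_false]
      have := Gg (i0 - i).toNat
      rwa [show i0 - (((i0 - i).toNat : ℕ) : ℤ) = i by omega] at this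
  · intro i
    by_cases h : i0 ≤ i
    · have h' : i0 ≤ i + 1 := by omega
      simp only [h, h', if_true]
      rw [show (i + 1 - i0).toNat = (i - i0).toNat + 1 by omega, Fs,
        show i0 + (((i - i0).toNat : ℕ) : ℤ) = i by omega]
    · simp only [h, if_false]
      obtain ⟨k, hk⟩ : ∃ k : ℕ, (i0 - i).toNat = k + 1 := ⟨(i0 - i).toNat - 1, by omega⟩
      have hk2 : i0 - (k : ℤ) - 1 = i := by omega
      rw [hk, Gs, hk2]
      have g := Gg k
      rw [show i0 - (k : ℤ) = i + 1 by omega] at g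
      rw [(hS i _ g).2]
      by_cases h' : i0 ≤ i + 1
      · simp only [h', if_true]
        have : k = 0 := by omega
        subst this
        rw [show (i + 1 - i0).toNat = 0 by omega, F0, G0]
      · simp only [h', if_false]
        rw [show (i0 - (i + 1)).toNat = k by omega]

/-! ### real vectors -/

/-- real dot product -/
def rd (a b : R3) : ℝ := a.1 * b.1 + a.2.1 * b.2.1 + a.2.2 * b.2.2

theorem rd_comm (a b : R3) : rd a b = rd b a := by unfold rd; ring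
theorem rd_add (a b c : R3) : rd (a + b) c = rd a c + rd b c := by
  simp only [rd, Prod.fst_add, Prod.snd_add]; ring
theorem rd_sub (a b c : R3) : rd (a - b) c = rd a c - rd b c := by
  simp only [rd, Prod.fst_sub, Prod.snd_sub]; ring
theorem rd_smul (k : ℝ) (a c : R3) : rd (k • a) c = k * rd a c := by
  simp only [rd, Prod.smul_fst, Prod.smul_snd, smul_eq_mul]; ring
theorem rd_add_right (a b c : R3) : rd a (b + c) = rd a b + rd a c := by
  simp only [rd, Prod.fst_add, Prod.snd_add]; ring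
theorem rd_cast (a b : Z3) : rd (cast3 a) (cast3 b) = (dot a b : ℝ) := by
  simp only [rd, cast3, dot]; push_cast; ring

theorem cast3_add (a b : Z3) : cast3 (a + b) = cast3 a + cast3 b := by
  simp [cast3]
theorem cast3_sub (a b : Z3) : cast3 (a - b) = cast3 a - cast3 b := by
  simp [cast3]
theorem cast3_smul (k : ℤ) (a : Z3) : cast3 (k • a) = (k : ℝ) • cast3 a := by
  simp [cast3]

theorem norm_le3 (v : R3) (r : ℝ) : ‖v‖ ≤ r ↔ |v.1| ≤ r ∧ |v.2.1| ≤ r ∧ |v.2.2| ≤ r := by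
  rw [Prod.norm_def, Prod.norm_def, max_le_iff, max_le_iff]
  rfl

theorem natAbs_cast (x : ℤ) : |(x : ℝ)| = ((x.natAbs : ℕ) : ℝ) := by
  rw [← Int.cast_abs, Int.abs_eq_natAbs]; simp


/-! ### the frame data -/

/-- frame data along a path -/
structure Fr (P n b : ℤ → Z3) : Prop where
  inj : Function.Injective P
  dd : ∀ i, dot (dir P i) (dir P i) = 1
  nn : ∀ i, dot (n i) (n i) = 1
  bb : ∀ i, dot (b i) (b i) = 1
  nb : ∀ i, dot (n i) (b i) = 0
  nd : ∀ i, dot (n i) (dir P i) = 0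
  bd : ∀ i, dot (b i) (dir P i) = 0
  n_succ : ∀ i, n (i + 1) = n i - dot (n i) (dir P (i + 1)) • (dir P (i + 1) + dir P i)
  b_succ : ∀ i, b (i + 1) = b i - dot (b i) (dir P (i + 1)) • (dir P (i + 1) + dir P i)

/-- the cross-section vector -/
def W (n b : ℤ → Z3) (i : ℤ) (s : ℝ × ℝ) : R3 := s.1 • cast3 (n i) + s.2 • cast3 (b i)

/-- the mitre coefficient at `P (i+1)` -/
def be (P n b : ℤ → Z3) (i : ℤ) (s : ℝ × ℝ) : ℝ := rd (W n b i s) (cast3 (dir P (i + 1)))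

/-- the mitre points -/
noncomputable def AA (P n b : ℤ → Z3) (i : ℤ) (s : ℝ × ℝ) : R3 :=
  cast3 (P i) + (1 / 4 : ℝ) • (W n b i s + be P n b (i - 1) s • cast3 (dir P i))

namespace Fr

variable {P n b : ℤ → Z3} (h : Fr P n b)
include h

theorem dir_ne (i : ℤ) : dir P i + dir P (i + 1) ≠ 0 := by
  intro h0
  have : P (i + 1 + 1) = P i := by
    unfold dir at h0
    have h1 : P (i + 1 + 1) - P i = 0 := by rw [← h0]; abel
    exact sub_eq_zero.mp h1
  have := h.inj this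
  omega

theorem cast_P (i : ℤ) : cast3 (P (i + 1)) = cast3 (P i) + cast3 (dir P i) := by
  rw [dir, cast3_sub]; abel

theorem pair (i : ℤ) : dot (dir P i) (dir P (i + 1)) = 0 ∨
    (dot (dir P i) (dir P (i + 1)) = 1 ∧ dir P i = dir P (i + 1)) :=
  pair_UL _ (mem_UL _ (h.dd i)) _ (mem_UL _ (h.dd (i + 1))) (h.dir_ne i)

theorem W_succ (i : ℤ) (s : ℝ × ℝ) : W n b (i + 1) s =
    W n b i s - be P n b i s • (cast3 (dir P (i + 1)) + cast3 (dir P i)) := by
  unfold be W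
  rw [h.n_succ, h.b_succ, cast3_sub, cast3_sub, cast3_smul, cast3_smul, cast3_add, rd_add, rd_smul,
    rd_smul, rd_cast, rd_cast]
  module

theorem A_succ (i : ℤ) (s : ℝ × ℝ) : AA P n b (i + 1) s =
    cast3 (P (i + 1)) + (1 / 4 : ℝ) • (W n b i s - be P n b i s • cast3 (dir P i)) := by
  unfold AA
  rw [h.W_succ, add_sub_cancel_right]
  module

theorem W_dir (i : ℤ) (s : ℝ × ℝ) : rd (W n b i s) (cast3 (dir P i)) = 0 := by
  unfold W
  rw [rd_add, rd_smul, rd_smul, rd_cast, rd_cast, h.nd, h.bd]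
  simp

theorem be_straight (i : ℤ) (s : ℝ × ℝ) (hd : dir P (i + 1) = dir P i) : be P n b i s = 0 := by
  unfold be
  rw [hd]; exact h.W_dir i s

theorem be_mul (i : ℤ) (s : ℝ × ℝ) :
    be P n b i s * (dot (dir P i) (dir P (i + 1)) : ℝ) = 0 := by
  rcases h.pair i with h1 | ⟨_, h1⟩
  · rw [h1]; simp
  · rw [h.be_straight i s h1.symm, zero_mul]

theorem be_le (i : ℤ) (s : ℝ × ℝ) (hs : s ∈ Sq) : |be P n b i s| ≤ 1 := by
  obtain ⟨⟨h1, h2⟩, ⟨h3, h4⟩⟩ := hs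
  have a1 : |s.1| ≤ 1 := abs_le.mpr ⟨h1, h2⟩
  have a2 : |s.2| ≤ 1 := abs_le.mpr ⟨h3, h4⟩
  have k := dots_UL _ (mem_UL _ (h.nn i)) _ (mem_UL _ (h.bb i)) _ (mem_UL _ (h.dd (i + 1)))
    (h.nb i)
  unfold be W
  rw [rd_add, rd_smul, rd_smul, rd_cast, rd_cast]
  have k' : |(dot (n i) (dir P (i + 1)) : ℝ)| + |(dot (b i) (dir P (i + 1)) : ℝ)| ≤ 1 := by
    rw [natAbs_cast, natAbs_cast]; exact_mod_cast k
  calc _ ≤ |s.1 * (dot (n i) (dir P (i + 1)) : ℝ)| + |s.2 * (dot (b i) (dir P (i + 1)) : ℝ)| :=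
        abs_add_le _ _
    _ = |s.1| * |(dot (n i) (dir P (i + 1)) : ℝ)| + |s.2| * |(dot (b i) (dir P (i + 1)) : ℝ)| := by
        rw [abs_mul, abs_mul]
    _ ≤ 1 * |(dot (n i) (dir P (i + 1)) : ℝ)| + 1 * |(dot (b i) (dir P (i + 1)) : ℝ)| := by
        gcongr
    _ ≤ 1 := by linarith

theorem A_bound' (i : ℤ) (s : ℝ × ℝ) (hs : s ∈ Sq) :
    ‖AA P n b (i + 1) s - cast3 (P (i + 1))‖ ≤ 1 / 4 := by
  have hb := h.be_le i s hs
  obtain ⟨⟨h1, h2⟩, ⟨h3, h4⟩⟩ := hs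
  have a1 : |s.1| ≤ 1 := abs_le.mpr ⟨h1, h2⟩
  have a2 : |s.2| ≤ 1 := abs_le.mpr ⟨h3, h4⟩
  obtain ⟨r1, r2, r3⟩ := rows_UL _ (mem_UL _ (h.nn i)) _ (mem_UL _ (h.bb i)) _ (mem_UL _ (h.dd i))
    (h.nb i) (h.nd i) (h.bd i)
  have key : ∀ x y z : ℤ, x.natAbs + y.natAbs + z.natAbs ≤ 1 →
      |1 / 4 * (s.1 * x + s.2 * y - be P n b i s * z)| ≤ 1 / 4 := by
    intro x y z hxyz
    have k' : |(x : ℝ)| + |(y : ℝ)| + |(z : ℝ)| ≤ 1 := by
      rw [natAbs_cast, natAbs_cast, natAbs_cast]; exact_mod_cast hxyz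
    rw [abs_mul, abs_of_nonneg (by norm_num : (0 : ℝ) ≤ 1 / 4)]
    have : |s.1 * (x : ℝ) + s.2 * y - be P n b i s * z| ≤ 1 := by
      calc _ ≤ |s.1 * (x : ℝ) + s.2 * y| + |be P n b i s * z| := abs_sub _ _
        _ ≤ |s.1 * (x : ℝ)| + |s.2 * y| + |be P n b i s * z| := by
          gcongr; exact abs_add_le _ _
        _ = |s.1| * |(x : ℝ)| + |s.2| * |(y : ℝ)| + |be P n b i s| * |(z : ℝ)| := by
          rw [abs_mul, abs_mul, abs_mul]
        _ ≤ 1 * |(x : ℝ)| + 1 * |(y : ℝ)| + 1 * |(z : ℝ)| := by gcongr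
        _ ≤ 1 := by linarith
    linarith
  rw [h.A_succ, add_sub_cancel_left, norm_le3]
  have e1 := key _ _ _ r1
  have e2 := key _ _ _ r2
  have e3 := key _ _ _ r3
  refine ⟨?_, ?_, ?_⟩
  · convert e1 using 2; simp [W, cast3]
  · convert e2 using 2; simp [W, cast3]
  · convert e3 using 2; simp [W, cast3]

theorem A_bound (i : ℤ) (s : ℝ × ℝ) (hs : s ∈ Sq) : ‖AA P n b i s - cast3 (P i)‖ ≤ 1 / 4 := by
  have := h.A_bound' (i - 1) s hs
  rwa [sub_add_cancel] at this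

/-- piece formula -/
theorem piece (i : ℤ) (θ : ℝ) (s : ℝ × ℝ) :
    (1 - θ) • AA P n b i s + θ • AA P n b (i + 1) s =
      cast3 (P i) + (1 / 4 : ℝ) • W n b i s +
        (θ + 1 / 4 * ((1 - θ) * be P n b (i - 1) s - θ * be P n b i s)) • cast3 (dir P i) := by
  rw [h.A_succ, h.cast_P]
  unfold AA
  module

theorem piece_bound (i : ℤ) (θ : ℝ) (h0 : 0 ≤ θ) (h1 : θ ≤ 1) (s : ℝ × ℝ) (hs : s ∈ Sq) :
    ‖(1 - θ) • AA P n b i s + θ • AA P n b (i + 1) s -
      (cast3 (P i) + θ • cast3 (dir P i))‖ ≤ 1 / 4 := by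
  have e : (1 - θ) • AA P n b i s + θ • AA P n b (i + 1) s -
      (cast3 (P i) + θ • cast3 (dir P i)) =
      (1 - θ) • (AA P n b i s - cast3 (P i)) + θ • (AA P n b (i + 1) s - cast3 (P (i + 1))) := by
    rw [h.cast_P]; module
  rw [e]
  have b1 := h.A_bound i s hs
  have b2 := h.A_bound (i + 1) s hs
  calc _ ≤ ‖(1 - θ) • (AA P n b i s - cast3 (P i))‖ +
        ‖θ • (AA P n b (i + 1) s - cast3 (P (i + 1)))‖ := norm_add_le _ _
    _ = (1 - θ) * ‖AA P n b i s - cast3 (P i)‖ + θ * ‖AA P n b (i + 1) s - cast3 (P (i + 1))‖ := by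
        rw [norm_smul, norm_smul, Real.norm_of_nonneg (by linarith : 0 ≤ 1 - θ),
          Real.norm_of_nonneg h0]
    _ ≤ (1 - θ) * (1 / 4) + θ * (1 / 4) := by
        have : 0 ≤ 1 - θ := by linarith
        gcongr
    _ = 1 / 4 := by ring

end Fr

/-- the tube -/
noncomputable def Psi (P n b : ℤ → Z3) (x : ℝ × ℝ × ℝ) : R3 :=
  (1 - Int.fract x.1) • AA P n b ⌊x.1⌋ x.2 + Int.fract x.1 • AA P n b (⌊x.1⌋ + 1) x.2

theorem Psi_eq (P n b : ℤ → Z3) (i : ℤ) (θ : ℝ) (h0 : 0 ≤ θ) (h1 : θ ≤ 1) (s : ℝ × ℝ) :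
    Psi P n b ((i : ℝ) + θ, s) = (1 - θ) • AA P n b i s + θ • AA P n b (i + 1) s := by
  unfold Psi
  rcases h1.lt_or_eq with h | h
  · have e1 : ⌊(i : ℝ) + θ⌋ = i := by
      rw [Int.floor_intCast_add, Int.floor_eq_zero_iff.mpr ⟨h0, h⟩, add_zero]
    have e2 : Int.fract ((i : ℝ) + θ) = θ := by
      rw [Int.fract_intCast_add, Int.fract_eq_self.mpr ⟨h0, h⟩]
    simp only [e1, e2]
  · subst h
    have e1 : ⌊(i : ℝ) + 1⌋ = i + 1 := by simp
    have e2 : Int.fract ((i : ℝ) + 1) = 0 := by simp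
    simp only [e1, e2]
    simp

theorem continuous_AA (P n b : ℤ → Z3) (i : ℤ) : Continuous (AA P n b i) := by
  unfold AA be W rd
  fun_prop

theorem continuous_Psi (P n b : ℤ → Z3) : Continuous (Psi P n b) := by
  have lf : LocallyFinite (fun i : ℤ => {x : ℝ × ℝ × ℝ | (i : ℝ) ≤ x.1 ∧ x.1 ≤ i + 1}) := by
    intro x
    refine ⟨{y : ℝ × ℝ × ℝ | |y.1 - x.1| < 1}, ?_, ?_⟩
    · apply IsOpen.mem_nhds
      · exact isOpen_lt (by fun_prop) continuous_const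
      · simp
    · apply (Set.finite_Icc (⌊x.1⌋ - 3) (⌊x.1⌋ + 3)).subset
      rintro i ⟨y, ⟨h1, h2⟩, h3⟩
      have h3' : |y.1 - x.1| < 1 := h3
      rw [abs_lt] at h3'
      have f1 := Int.floor_le x.1
      have f2 := Int.lt_floor_add_one x.1
      constructor
      · have : ((⌊x.1⌋ - 3 : ℤ) : ℝ) ≤ i := by push_cast; linarith
        exact_mod_cast this
      · have : (i : ℝ) ≤ ((⌊x.1⌋ + 3 : ℤ) : ℝ) := by push_cast; linarith
        exact_mod_cast this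
  apply lf.continuous
  · rw [Set.iUnion_eq_univ_iff]
    intro x
    exact ⟨⌊x.1⌋, Int.floor_le _, (Int.lt_floor_add_one _).le⟩
  · intro i
    exact (isClosed_le continuous_const continuous_fst).inter
      (isClosed_le continuous_fst continuous_const)
  · intro i
    have : ContinuousOn (fun x : ℝ × ℝ × ℝ => (1 - (x.1 - i)) • AA P n b i x.2 +
        (x.1 - i) • AA P n b (i + 1) x.2) {x : ℝ × ℝ × ℝ | (i : ℝ) ≤ x.1 ∧ x.1 ≤ i + 1} := by
      apply Continuous.continuousOn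
      have c1 := (continuous_AA P n b i).comp (continuous_snd (X := ℝ) (Y := ℝ × ℝ))
      have c2 := (continuous_AA P n b (i + 1)).comp (continuous_snd (X := ℝ) (Y := ℝ × ℝ))
      exact ((continuous_const.sub (continuous_fst.sub continuous_const)).smul c1).add
        ((continuous_fst.sub continuous_const).smul c2)
    refine this.congr ?_
    rintro ⟨t, s⟩ ⟨h1, h2⟩
    have := Psi_eq P n b i (t - i) (by simpa using h1) (by
      simp only at h2; linarith) s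
    rw [add_sub_cancel] at this
    exact this

/-- Integer cells at distance less than one share a vertex. -/
theorem cells (p r d e : Z3) (hd : d ∈ UL) (he : e ∈ UL) (θ θ' : ℝ) (h0 : 0 ≤ θ) (h1 : θ ≤ 1)
    (h0' : 0 ≤ θ') (h1' : θ' ≤ 1)
    (hn : ‖(cast3 p + θ • cast3 d) - (cast3 r + θ' • cast3 e)‖ < 1) :
    p = r ∨ p + d = r ∨ p = r + e ∨ p + d = r + e := by
  have co : ∀ (x y u v : ℤ), -1 ≤ u → u ≤ 1 → -1 ≤ v → v ≤ 1 →
      |((x : ℝ) + θ * u) - (y + θ' * v)| < 1 →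
      x - y ≤ max (-u) 0 + max v 0 ∧ -(max u 0 + max (-v) 0) ≤ x - y := by
    intro x y u v hu1 hu2 hv1 hv2 h
    rw [abs_lt] at h
    obtain ⟨ha, hb⟩ := h
    have m1 : -(θ * u) ≤ ((max (-u) 0 : ℤ) : ℝ) := by
      interval_cases u <;> simp <;> linarith
    have m2 : θ' * v ≤ ((max v 0 : ℤ) : ℝ) := by
      interval_cases v <;> simp <;> linarith
    have m3 : θ * u ≤ ((max u 0 : ℤ) : ℝ) := by
      interval_cases u <;> simp <;> linarith
    have m4 : -(θ' * v) ≤ ((max (-v) 0 : ℤ) : ℝ) := by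
      interval_cases v <;> simp <;> linarith
    constructor
    · have : ((x - y : ℤ) : ℝ) < ((max (-u) 0 + max v 0 + 1 : ℤ) : ℝ) := by
        rw [Int.cast_sub, Int.cast_add, Int.cast_add, Int.cast_one]
        linarith
      have := Int.cast_lt.mp this
      omega
    · have : ((-(max u 0 + max (-v) 0) - 1 : ℤ) : ℝ) < ((x - y : ℤ) : ℝ) := by
        rw [Int.cast_sub, Int.cast_neg, Int.cast_add, Int.cast_sub, Int.cast_one]
        linarith
      have := Int.cast_lt.mp this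
      omega
  have hn' := hn
  rw [Prod.norm_def, Prod.norm_def, max_lt_iff, max_lt_iff] at hn'
  obtain ⟨n1, n2, n3⟩ := hn'
  obtain ⟨p1, p2, p3⟩ := p
  obtain ⟨r1, r2, r3⟩ := r
  obtain ⟨d1, d2, d3⟩ := d
  obtain ⟨e1, e2, e3⟩ := e
  have bd : ∀ v ∈ UL, (-1 ≤ v.1 ∧ v.1 ≤ 1) ∧ (-1 ≤ v.2.1 ∧ v.2.1 ≤ 1) ∧
    (-1 ≤ v.2.2 ∧ v.2.2 ≤ 1) := by decide
  obtain ⟨⟨g1, g2⟩, ⟨g3, g4⟩, ⟨g5, g6⟩⟩ := bd _ hd
  obtain ⟨⟨k1, k2⟩, ⟨k3, k4⟩, ⟨k5, k6⟩⟩ := bd _ he
  have c1 := co p1 r1 d1 e1 g1 g2 k1 k2 n1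
  have c2 := co p2 r2 d2 e2 g3 g4 k3 k4 n2
  have c3 := co p3 r3 d3 e3 g5 g6 k5 k6 n3
  clear n1 n2 n3 hn co bd
  simp only [Prod.mk_add_mk, Prod.mk.injEq]
  simp only [UL, List.mem_cons, Prod.mk.injEq, List.not_mem_nil, or_false] at hd he
  simp only at c1 c2 c3 g1 g2 g3 g4 g5 g6 k1 k2 k3 k4 k5 k6
  clear g1 g2 g3 g4 g5 g6 k1 k2 k3 k4 k5 k6
  rcases hd with ⟨rfl, rfl, rfl⟩ | ⟨rfl, rfl, rfl⟩ | ⟨rfl, rfl, rfl⟩ | ⟨rfl, rfl, rfl⟩ |
    ⟨rfl, rfl, rfl⟩ | ⟨rfl, rfl, rfl⟩ <;>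
  rcases he with ⟨rfl, rfl, rfl⟩ | ⟨rfl, rfl, rfl⟩ | ⟨rfl, rfl, rfl⟩ | ⟨rfl, rfl, rfl⟩ |
    ⟨rfl, rfl, rfl⟩ | ⟨rfl, rfl, rfl⟩ <;>
  norm_num at c1 c2 c3 ⊢ <;> omega


namespace Fr

variable {P n b : ℤ → Z3} (h : Fr P n b)
include h

theorem far (i j : ℤ) (hij : i + 2 ≤ j) (θ θ' : ℝ) (h0 : 0 ≤ θ) (h1 : θ ≤ 1)
    (h0' : 0 ≤ θ') (h1' : θ' ≤ 1) (s s' : ℝ × ℝ) (hs : s ∈ Sq) (hs' : s' ∈ Sq) :
    Psi P n b ((i : ℝ) + θ, s) ≠ Psi P n b ((j : ℝ) + θ', s') := by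
  intro heq
  rw [Psi_eq P n b i θ h0 h1, Psi_eq P n b j θ' h0' h1'] at heq
  have b1 := h.piece_bound i θ h0 h1 s hs
  have b2 := h.piece_bound j θ' h0' h1' s' hs'
  rw [heq] at b1
  have hn : ‖(cast3 (P i) + θ • cast3 (dir P i)) - (cast3 (P j) + θ' • cast3 (dir P j))‖ < 1 := by
    have := norm_sub_le_norm_sub_add_norm_sub (cast3 (P i) + θ • cast3 (dir P i))
      ((1 - θ') • AA P n b j s' + θ' • AA P n b (j + 1) s')
      (cast3 (P j) + θ' • cast3 (dir P j))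
    rw [norm_sub_rev] at b1
    linarith
  have e1 : P i + dir P i = P (i + 1) := by unfold dir; abel
  have e2 : P j + dir P j = P (j + 1) := by unfold dir; abel
  have := cells (P i) (P j) (dir P i) (dir P j) (mem_UL _ (h.dd i)) (mem_UL _ (h.dd j)) θ θ'
    h0 h1 h0' h1' hn
  rw [e1, e2] at this
  rcases this with h3 | h3 | h3 | h3 <;> have := h.inj h3 <;> omega

theorem same (i : ℤ) (θ θ' : ℝ) (h0 : 0 ≤ θ) (h1 : θ ≤ 1)
    (h0' : 0 ≤ θ') (h1' : θ' ≤ 1) (s s' : ℝ × ℝ) (hs : s ∈ Sq)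
    (heq : Psi P n b ((i : ℝ) + θ, s) = Psi P n b ((i : ℝ) + θ', s')) : θ = θ' ∧ s = s' := by
  rw [Psi_eq P n b i θ h0 h1, Psi_eq P n b i θ' h0' h1', h.piece, h.piece] at heq
  have rn : ∀ (g : ℝ) (u : ℝ × ℝ), rd (cast3 (P i) + (1 / 4 : ℝ) • W n b i u +
      g • cast3 (dir P i)) (cast3 (n i)) = rd (cast3 (P i)) (cast3 (n i)) + 1 / 4 * u.1 := by
    intro g u
    unfold W
    rw [rd_add, rd_add, rd_smul, rd_smul, rd_add, rd_smul, rd_smul, rd_cast (n i), h.nn,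
      rd_cast (b i), dot_comm, h.nb, rd_cast (dir P i), dot_comm, h.nd]
    simp
  have rb : ∀ (g : ℝ) (u : ℝ × ℝ), rd (cast3 (P i) + (1 / 4 : ℝ) • W n b i u +
      g • cast3 (dir P i)) (cast3 (b i)) = rd (cast3 (P i)) (cast3 (b i)) + 1 / 4 * u.2 := by
    intro g u
    unfold W
    rw [rd_add, rd_add, rd_smul, rd_smul, rd_add, rd_smul, rd_smul, rd_cast (n i), h.nb,
      rd_cast (b i), h.bb, rd_cast (dir P i), dot_comm, h.bd]
    simp
  have rdd : ∀ (g : ℝ) (u : ℝ × ℝ), rd (cast3 (P i) + (1 / 4 : ℝ) • W n b i u +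
      g • cast3 (dir P i)) (cast3 (dir P i)) = rd (cast3 (P i)) (cast3 (dir P i)) + g := by
    intro g u
    rw [rd_add, rd_add, rd_smul, rd_smul, h.W_dir, rd_cast (dir P i), h.dd]
    simp
  have q1 := congrArg (fun x => rd x (cast3 (n i))) heq
  have q2 := congrArg (fun x => rd x (cast3 (b i))) heq
  have q3 := congrArg (fun x => rd x (cast3 (dir P i))) heq
  simp only [rn, rb, rdd] at q1 q2 q3
  have e : s = s' := Prod.ext (by linarith) (by linarith)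
  subst e
  refine ⟨?_, rfl⟩
  have b1 := h.be_le i s hs
  have b2 := h.be_le (i - 1) s hs
  rw [abs_le] at b1 b2
  have q4 : (θ - θ') * (1 - (be P n b (i - 1) s + be P n b i s) / 4) = 0 := by linarith
  rcases mul_eq_zero.mp q4 with h3 | h3
  · linarith
  · exfalso; linarith [b1.2, b2.2]

theorem adj (i : ℤ) (θ θ' : ℝ) (h0 : 0 ≤ θ) (h1 : θ < 1)
    (h0' : 0 ≤ θ') (h1' : θ' ≤ 1) (s s' : ℝ × ℝ) (hs : s ∈ Sq) (hs' : s' ∈ Sq) :
    Psi P n b ((i : ℝ) + θ, s) ≠ Psi P n b (((i + 1 : ℤ) : ℝ) + θ', s') := by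
  intro heq
  rw [Psi_eq P n b i θ h0 h1.le, Psi_eq P n b (i + 1) θ' h0' h1', h.piece, h.piece,
    add_sub_cancel_right] at heq
  obtain ⟨c, hc⟩ : ∃ c : ℝ, c = (dot (dir P i) (dir P (i + 1)) : ℝ) := ⟨_, rfl⟩
  have c0 : 0 ≤ c := by
    rcases h.pair i with h3 | ⟨h3, _⟩ <;> rw [hc, h3] <;> simp
  have cb : ∀ u, be P n b i u * c = 0 := by
    intro u; rw [hc]; exact h.be_mul i u
  have rc : rd (cast3 (dir P i)) (cast3 (dir P (i + 1))) = c := by rw [rd_cast, hc]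
  have rc' : rd (cast3 (dir P (i + 1))) (cast3 (dir P i)) = c := by rw [rd_comm, rc]
  have r1 : rd (cast3 (dir P i)) (cast3 (dir P i)) = 1 := by rw [rd_cast, h.dd]; simp
  have r2 : rd (cast3 (dir P (i + 1))) (cast3 (dir P (i + 1))) = 1 := by
    rw [rd_cast, h.dd]; simp
  -- left functional
  have L : ∀ (g : ℝ) (u : ℝ × ℝ), rd (cast3 (P i) + (1 / 4 : ℝ) • W n b i u +
      g • cast3 (dir P i) - cast3 (P (i + 1))) (cast3 (dir P i) + cast3 (dir P (i + 1))) =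
      1 / 4 * be P n b i u + (g - 1) * (1 + c) := by
    intro g u
    have e : cast3 (P i) + (1 / 4 : ℝ) • W n b i u + g • cast3 (dir P i) - cast3 (P (i + 1)) =
        (1 / 4 : ℝ) • W n b i u + (g - 1) • cast3 (dir P i) := by
      rw [h.cast_P]; module
    rw [e, rd_add, rd_smul, rd_smul, rd_add_right, rd_add_right, h.W_dir, r1, rc]
    have : rd (W n b i u) (cast3 (dir P (i + 1))) = be P n b i u := rfl
    rw [this]; ring
  have R : ∀ (g : ℝ) (u : ℝ × ℝ), rd (cast3 (P (i + 1)) + (1 / 4 : ℝ) • W n b (i + 1) u +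
      g • cast3 (dir P (i + 1)) - cast3 (P (i + 1))) (cast3 (dir P i) + cast3 (dir P (i + 1))) =
      (g - 1 / 4 * be P n b i u) * (1 + c) := by
    intro g u
    have e : cast3 (P (i + 1)) + (1 / 4 : ℝ) • W n b (i + 1) u + g • cast3 (dir P (i + 1)) -
        cast3 (P (i + 1)) = (1 / 4 : ℝ) • W n b (i + 1) u + g • cast3 (dir P (i + 1)) := by
      module
    have e2 : rd (W n b (i + 1) u) (cast3 (dir P i)) = - (be P n b i u * (1 + c)) := by
      rw [h.W_succ, rd_sub, rd_smul, rd_add, h.W_dir, r1, rc']; ring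
    rw [e, rd_add, rd_smul, rd_smul, rd_add_right, rd_add_right, h.W_dir, r2, rc', e2]
    ring
  have q := congrArg (fun x => rd (x - cast3 (P (i + 1)))
    (cast3 (dir P i) + cast3 (dir P (i + 1)))) heq
  simp only [L, R] at q
  have b1 := abs_le.mp (h.be_le i s hs)
  have b2 := abs_le.mp (h.be_le (i - 1) s hs)
  have b3 := abs_le.mp (h.be_le i s' hs')
  have b4 := abs_le.mp (h.be_le (i + 1) s' hs')
  have k1 := cb s
  have lhs : 1 / 4 * be P n b i s + (θ + 1 / 4 * ((1 - θ) * be P n b (i - 1) s -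
      θ * be P n b i s) - 1) * (1 + c) =
      (1 + c) * ((1 - θ) * (-1 + (be P n b (i - 1) s + be P n b i s) / 4)) := by
    linear_combination (-1 / 4 : ℝ) * k1
  have rhs : (θ' + 1 / 4 * ((1 - θ') * be P n b i s' - θ' * be P n b (i + 1) s') -
      1 / 4 * be P n b i s') * (1 + c) =
      (1 + c) * (θ' * (1 - (be P n b i s' + be P n b (i + 1) s') / 4)) := by ring
  rw [lhs, rhs] at q
  have q' := mul_left_cancel₀ (by linarith : (1 + c) ≠ 0) q
  have p1 : 0 < (1 - θ) * (1 - (be P n b (i - 1) s + be P n b i s) / 4) :=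
    mul_pos (by linarith) (by linarith [b1.2, b2.2])
  have p2 : 0 ≤ θ' * (1 - (be P n b i s' + be P n b (i + 1) s') / 4) :=
    mul_nonneg h0' (by linarith [b3.2, b4.2])
  linarith

theorem inj_aux (i j : ℤ) (hij : i ≤ j) (θ θ' : ℝ) (h0 : 0 ≤ θ) (h1 : θ < 1)
    (h0' : 0 ≤ θ') (h1' : θ' < 1) (s s' : ℝ × ℝ) (hs : s ∈ Sq) (hs' : s' ∈ Sq)
    (heq : Psi P n b ((i : ℝ) + θ, s) = Psi P n b ((j : ℝ) + θ', s')) :
    i = j ∧ θ = θ' ∧ s = s' := by
  by_cases e1 : i = j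
  · subst e1
    exact ⟨rfl, h.same i θ θ' h0 h1.le h0' h1'.le s s' hs heq⟩
  · exfalso
    by_cases e2 : j = i + 1
    · subst e2
      exact h.adj i θ θ' h0 h1 h0' h1'.le s s' hs hs' heq
    · exact h.far i j (by omega) θ θ' h0 h1.le h0' h1'.le s s' hs hs' heq

theorem injOn : InjOn (Psi P n b) (univ ×ˢ Sq) := by
  rintro ⟨t, s⟩ ⟨_, hs⟩ ⟨t', s'⟩ ⟨_, hs'⟩ heq
  have f1 : ((⌊t⌋ : ℤ) : ℝ) + Int.fract t = t := Int.floor_add_fract t
  have f2 : ((⌊t'⌋ : ℤ) : ℝ) + Int.fract t' = t' := Int.floor_add_fract t'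
  rcases le_total ⌊t⌋ ⌊t'⌋ with hle | hle
  · obtain ⟨a, b', c⟩ := h.inj_aux ⌊t⌋ ⌊t'⌋ hle (Int.fract t) (Int.fract t') (Int.fract_nonneg _)
      (Int.fract_lt_one _) (Int.fract_nonneg _) (Int.fract_lt_one _) s s' hs hs'
      (by rw [f1, f2]; exact heq)
    rw [Prod.mk.injEq]
    refine ⟨?_, c⟩
    rw [← f1, ← f2, a, b']
  · obtain ⟨a, b', c⟩ := h.inj_aux ⌊t'⌋ ⌊t⌋ hle (Int.fract t') (Int.fract t) (Int.fract_nonneg _)
      (Int.fract_lt_one _) (Int.fract_nonneg _) (Int.fract_lt_one _) s' s hs' hs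
      (by rw [f1, f2]; exact heq.symm)
    rw [Prod.mk.injEq]
    refine ⟨?_, c.symm⟩
    rw [← f1, ← f2, a, b']

end Fr

/-- A tube (square cross-section of half-width 1/4, mitred at the corners) around a
bi-infinite self-avoiding lattice path. -/
theorem exists_tube (P : ℤ → Z3) (hinj : Function.Injective P)
    (hstep : ∀ i, dot (dir P i) (dir P i) = 1)
    (i0 : ℤ) (n0 b0 : Z3) (hn : dot n0 n0 = 1) (hb : dot b0 b0 = 1) (hnb : dot n0 b0 = 0)
    (hnd : dot n0 (dir P i0) = 0) (hbd : dot b0 (dir P i0) = 0) :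
    ∃ (n b : ℤ → Z3) (Ψ : ℝ × ℝ × ℝ → R3),
      n i0 = n0 ∧ b i0 = b0 ∧
      (∀ i, dot (n i) (n i) = 1 ∧ dot (b i) (b i) = 1 ∧ dot (n i) (b i) = 0 ∧
        dot (n i) (dir P i) = 0 ∧ dot (b i) (dir P i) = 0) ∧
      (∀ i, n (i + 1) = n i - dot (n i) (dir P (i + 1)) • (dir P (i + 1) + dir P i)) ∧
      (∀ i, b (i + 1) = b i - dot (b i) (dir P (i + 1)) • (dir P (i + 1) + dir P i)) ∧
      Continuous Ψ ∧
      InjOn Ψ (univ ×ˢ Sq) ∧
      (∀ (i : ℤ) (θ : ℝ), θ ∈ Icc (0 : ℝ) 1 → ∀ s ∈ Sq,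
        ‖Ψ ((i : ℝ) + θ, s) - (cast3 (P i) + θ • cast3 (dir P i))‖ ≤ 1 / 4) ∧
      (∀ (i : ℤ) (θ : ℝ), θ ∈ Icc (0 : ℝ) 1 →
        Ψ ((i : ℝ) + θ, 0, 0) = cast3 (P i) + θ • cast3 (dir P i)) ∧
      (∀ i : ℤ, dir P (i - 1) = dir P i → dir P (i + 1) = dir P i →
        ∀ (θ : ℝ), θ ∈ Icc (0 : ℝ) 1 → ∀ s : ℝ × ℝ,
          Ψ ((i : ℝ) + θ, s) = cast3 (P i) + θ • cast3 (dir P i)
            + (1 / 4 : ℝ) • (s.1 • cast3 (n i) + s.2 • cast3 (b i))) := by
  have dne : ∀ i : ℤ, dir P i + dir P (i + 1) ≠ 0 := by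
    intro i h0
    have : P (i + 1 + 1) = P i := by
      unfold dir at h0
      have h1 : P (i + 1 + 1) - P i = 0 := by rw [← h0]; abel
      exact sub_eq_zero.mp h1
    have := hinj this
    omega
  have dne' : ∀ i : ℤ, dir P (i + 1) + dir P i ≠ 0 := fun i => by
    rw [add_comm]; exact dne i
  obtain ⟨x, x0, xg, xs⟩ := bi_rec (X := Z3 × Z3)
    (fun i y => dot y.1 y.1 = 1 ∧ dot y.2 y.2 = 1 ∧ dot y.1 y.2 = 0 ∧
      dot y.1 (dir P i) = 0 ∧ dot y.2 (dir P i) = 0)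
    (fun i y => (TT (dir P i) (dir P (i + 1)) y.1, TT (dir P i) (dir P (i + 1)) y.2))
    (fun i y => (TT (dir P (i + 1)) (dir P i) y.1, TT (dir P (i + 1)) (dir P i) y.2))
    (by
      rintro i ⟨y, z⟩ ⟨h1, h2, h3, h4, h5⟩
      obtain ⟨a1, a2⟩ := TT_facts _ _ (hstep i) (hstep (i + 1)) (dne i) y y h4 h4
      obtain ⟨a3, a4⟩ := TT_facts _ _ (hstep i) (hstep (i + 1)) (dne i) z z h5 h5
      obtain ⟨_, a5⟩ := TT_facts _ _ (hstep i) (hstep (i + 1)) (dne i) y z h4 h5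
      exact ⟨by rw [a2]; exact h1, by rw [a4]; exact h2, by rw [a5]; exact h3, a1, a3⟩)
    (by
      rintro i ⟨y, z⟩ ⟨h1, h2, h3, h4, h5⟩
      obtain ⟨a1, a2⟩ := TT_facts _ _ (hstep (i + 1)) (hstep i) (dne' i) y y h4 h4
      obtain ⟨a3, a4⟩ := TT_facts _ _ (hstep (i + 1)) (hstep i) (dne' i) z z h5 h5
      obtain ⟨_, a5⟩ := TT_facts _ _ (hstep (i + 1)) (hstep i) (dne' i) y z h4 h5
      refine ⟨⟨by rw [a2]; exact h1, by rw [a4]; exact h2, by rw [a5]; exact h3, a1, a3⟩, ?_⟩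
      rw [Prod.mk.injEq]
      exact ⟨TT_inv _ _ (hstep i) (hstep (i + 1)) (dne i) y h4,
        TT_inv _ _ (hstep i) (hstep (i + 1)) (dne i) z h5⟩)
    i0 (n0, b0) ⟨hn, hb, hnb, hnd, hbd⟩
  have ns : ∀ i, (x (i + 1)).1 = (x i).1 - dot (x i).1 (dir P (i + 1)) •
      (dir P (i + 1) + dir P i) := fun i => by rw [xs i]; rfl
  have bs : ∀ i, (x (i + 1)).2 = (x i).2 - dot (x i).2 (dir P (i + 1)) •
      (dir P (i + 1) + dir P i) := fun i => by rw [xs i]; rfl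
  have h : Fr P (fun i => (x i).1) (fun i => (x i).2) :=
    ⟨hinj, hstep, fun i => (xg i).1, fun i => (xg i).2.1, fun i => (xg i).2.2.1,
      fun i => (xg i).2.2.2.1, fun i => (xg i).2.2.2.2, ns, bs⟩
  refine ⟨fun i => (x i).1, fun i => (x i).2, Psi P (fun i => (x i).1) (fun i => (x i).2),
    by simp only [x0], by simp only [x0], xg, ns, bs, continuous_Psi _ _ _, h.injOn, ?_, ?_, ?_⟩
  · intro i θ hθ s hs
    rw [Psi_eq _ _ _ i θ hθ.1 hθ.2]
    exact h.piece_bound i θ hθ.1 hθ.2 s hs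
  · intro i θ hθ
    rw [Psi_eq _ _ _ i θ hθ.1 hθ.2, h.piece]
    have w0 : ∀ j, W (fun i => (x i).1) (fun i => (x i).2) j (0, 0) = 0 := by
      intro j; simp [W]
    have b0 : ∀ j, be P (fun i => (x i).1) (fun i => (x i).2) j (0, 0) = 0 := by
      intro j; unfold be; rw [w0]; simp [rd]
    rw [w0, b0, b0]
    simp
  · intro i h1 h2 θ hθ s
    rw [Psi_eq _ _ _ i θ hθ.1 hθ.2, h.piece]
    have e1 : be P (fun i => (x i).1) (fun i => (x i).2) i s = 0 := h.be_straight i s h2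
    have e2 : be P (fun i => (x i).1) (fun i => (x i).2) (i - 1) s = 0 := by
      apply h.be_straight
      rw [sub_add_cancel, h1]
    rw [e1, e2]
    unfold W
    simp only [mul_zero, sub_zero, add_zero]
    abel

end Pool.Agent.Helper607.Wild
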